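import Pool.Agent.Lib.LatN.GramDiag

/-!
# Kot: Fischer, Hadamard and Koteljanskii inequalities for Gram determinants, dual families

Proofs. Let `V = span (range a)` and `P` the orthogonal projection onto `Vᗮ`.
(1) SCHUR: `vsq (Sum.elim a b) = vsq a * vsq (P ∘ b)`: for every `j` one has
`P (b j) = b j - ∑ i, c i j • a i`, so `Sum.elim a (P ∘ b)` is `Sum.elim a b` times a block
triangular matrix with ones on the diagonal (`vsq_comb`, `Matrix.det_fromBlocks_zero₂₁`), and the
Gram matrix of `Sum.elim a (P ∘ b)` is block diagonal. (No independence is needed.)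
(2) `vsq (h ∘ b) ≤ vsq b` for `‖h‖ ≤ 1`: `vsq_le_opNorm` if `b` is linearly independent; otherwise
`vsq (h ∘ b) = 0`. Hence Fischer `vsq (Sum.elim a b) ≤ vsq a * vsq b`.
(3) HADAMARD by induction on the index type (`Finset` or `Fin` induction) from Fischer, or from
`Fintype` induction with `Option`; for one vector `vsq v = ‖v‖²`.
(4) KOTELJANSKII: `vsq (a,b,c) = vsq (a,b) * vsq (P_{(a,b)ᗮ} c)` and
`P_{(a,b)ᗮ} c = P_{(a,b)ᗮ} P_{aᗮ} c` since `P_{aᗮ} c - c ∈ span a`, so by (2)
`vsq (P_{(a,b)ᗮ} c) ≤ vsq (P_{aᗮ} c)`, and `vsq a * vsq (P_{aᗮ} c) = vsq (a,c)`.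
(5) DUAL: `⟪w i, v j⟫ = δ_ij`, `v` spanning. By (1) `vsq v = vsq (v ∘ inl) * vsq (P (v ∘ inr))`.
The vectors `w (inr i)` are orthogonal to all `v (inl j)`, so they lie in `Vᗮ`,
`V = span (v ∘ inl)`, and `⟪w (inr i), P (v (inr j))⟫ = δ_ij`; `P (v (inr j))` span `Vᗮ`. If
`w (inr i) = ∑ M_ki P (v (inr k))` then `gram (P v_r) * M = 1` (transpose as needed) and
`gram (w_r) = Mᵀ gram (P v_r) M`, so `vsq (w_r) * vsq (P v_r) = 1`.
-/

namespace LatN

variable {F : Type*} [NormedAddCommGroup F] [InnerProductSpace ℝ F] [FiniteDimensional ℝ F]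
variable {α β γ : Type*} [Fintype α] [DecidableEq α] [Fintype β] [DecidableEq β]
  [Fintype γ] [DecidableEq γ]

/-- the projection onto the orthogonal complement of the span of `a` -/
private noncomputable def pj (a : α → F) : F →L[ℝ] F :=
  (Submodule.span ℝ (Set.range a))ᗮ.starProjection

private theorem pj_mem (a : α → F) (x : F) : pj a x ∈ (Submodule.span ℝ (Set.range a))ᗮ :=
  Submodule.starProjection_apply_mem _ _

private theorem pj_sub (a : α → F) (x : F) : x - pj a x ∈ Submodule.span ℝ (Set.range a) := by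
  have h := Submodule.sub_starProjection_mem_orthogonal
    (K := (Submodule.span ℝ (Set.range a))ᗮ) x
  rwa [Submodule.orthogonal_orthogonal] at h

private theorem pj_eq_zero (a : α → F) {x : F} (hx : x ∈ Submodule.span ℝ (Set.range a)) :
    pj a x = 0 :=
  Submodule.starProjection_orthogonal_apply_eq_zero hx

private theorem pj_eq_self (a : α → F) {x : F} (hx : x ∈ (Submodule.span ℝ (Set.range a))ᗮ) :
    pj a x = x :=
  Submodule.starProjection_eq_self_iff.2 hx

private theorem pj_norm (a : α → F) : ‖pj a‖ ≤ 1 := Submodule.starProjection_norm_le _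

private theorem inner_pj (a : α → F) (i : α) (x : F) : inner ℝ (a i) (pj a x) = (0 : ℝ) :=
  (Submodule.mem_orthogonal _ _).1 (pj_mem a x) _ (Submodule.subset_span ⟨i, rfl⟩)

/-- Schur complements -/
private theorem vsq_schur (a : α → F) (b : β → F) :
    vsq (Sum.elim a b) = vsq a * vsq (fun j => pj a (b j)) := by
  have hc : ∀ j, ∃ c : α → ℝ, ∑ i, c i • a i = b j - pj a (b j) := fun j =>
    (Submodule.mem_span_range_iff_exists_fun ℝ).1 (pj_sub a (b j))
  choose c hc using hc
  have h1 := vsq_comb (Sum.elim a b) (Matrix.fromBlocks 1 (Matrix.of fun i j => - c j i) 0 1)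
  rw [Matrix.det_fromBlocks_zero₂₁, Matrix.det_one, Matrix.det_one, one_mul, one_pow, one_mul] at h1
  have h2 : (fun j => ∑ i, Matrix.fromBlocks (1 : Matrix α α ℝ) (Matrix.of fun i j => - c j i) 0
      (1 : Matrix β β ℝ) i j • Sum.elim a b i) = Sum.elim a (fun j => pj a (b j)) := by
    funext j
    rw [Fintype.sum_sum_type]
    rcases j with j | j
    · simp [Matrix.one_apply]
    · simp only [Matrix.fromBlocks_apply₁₂, Matrix.of_apply, Sum.elim_inl, neg_smul,
        Finset.sum_neg_distrib, Matrix.fromBlocks_apply₂₂, Sum.elim_inr, Matrix.one_apply, ite_smul,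
        one_smul, zero_smul, Finset.sum_ite_eq', Finset.mem_univ, if_true]
      rw [hc j]
      abel
  rw [← h1, h2]
  unfold vsq
  have h3 : Matrix.gram ℝ (Sum.elim a fun j => pj a (b j)) =
      Matrix.fromBlocks (Matrix.gram ℝ a) 0 0 (Matrix.gram ℝ fun j => pj a (b j)) := by
    ext i j
    rcases i with i | i <;> rcases j with j | j
    · rfl
    · exact inner_pj a i _
    · exact (real_inner_comm _ _).trans (inner_pj a j _)
    · rfl
  rw [h3, Matrix.det_fromBlocks_zero₂₁]

/-- contractions -/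
private theorem vsq_contr (h : F →L[ℝ] F) (h1 : ‖h‖ ≤ 1) (b : β → F) :
    vsq (fun j => h (b j)) ≤ vsq b := by
  by_cases hz : vsq (fun j => h (b j)) = 0
  · rw [hz]
    exact vsq_nonneg b
  · have hi : LinearIndependent ℝ fun j => h (b j) := Matrix.linearIndependent_of_det_gram_ne_zero hz
    have hb : LinearIndependent ℝ b := LinearIndependent.of_comp (h : F →ₗ[ℝ] F) hi
    refine (vsq_le_opNorm hb h).trans ?_
    exact mul_le_of_le_one_left (vsq_nonneg b) (pow_le_one₀ (norm_nonneg h) h1)

theorem vsq_fischer (a : α → F) (b : β → F) :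
    vsq (Sum.elim a b) ≤ vsq a * vsq b := by
  rw [vsq_schur]
  exact mul_le_mul_of_nonneg_left (vsq_contr _ (pj_norm a) b) (vsq_nonneg a)

omit [FiniteDimensional ℝ F] in
private theorem vsq_one (v : Fin 1 → F) : vsq v = ‖v 0‖ ^ 2 := by
  unfold vsq
  rw [Matrix.det_fin_one, Matrix.gram_apply, real_inner_self_eq_norm_sq]

private theorem had_fin : ∀ (n : ℕ) (v : Fin n → F), vsq v ≤ ∏ i, ‖v i‖ ^ 2
  | 0, v => by
    unfold vsq
    rw [Matrix.det_fin_zero, Fin.prod_univ_zero]
  | n + 1, v => by
    have h1 := vsq_reindex (finSumFinEquiv : Fin n ⊕ Fin 1 ≃ Fin (n + 1)) v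
    have h2 : (fun i => v ((finSumFinEquiv : Fin n ⊕ Fin 1 ≃ Fin (n + 1)) i)) =
        Sum.elim (fun i => v (Fin.castSucc i)) (fun _ => v (Fin.last n)) := by
      funext i
      rcases i with i | i
      · rfl
      · rw [Fin.eq_zero i]
        rfl
    rw [← h1, h2, Fin.prod_univ_castSucc]
    refine (vsq_fischer _ _).trans ?_
    rw [vsq_one]
    exact mul_le_mul_of_nonneg_right (had_fin n _) (sq_nonneg _)

theorem vsq_hadamard (v : α → F) : vsq v ≤ ∏ i, ‖v i‖ ^ 2 := by
  let e := (Fintype.equivFin α).symm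
  rw [← vsq_reindex e v, ← e.prod_comp]
  exact had_fin _ _

theorem vsq_koteljanskii (a : α → F) (b : β → F) (c : γ → F) :
    vsq (Sum.elim (Sum.elim a b) c) * vsq a ≤ vsq (Sum.elim a b) * vsq (Sum.elim a c) := by
  rw [vsq_schur (Sum.elim a b) c, vsq_schur a c]
  have h1 : (fun j => pj (Sum.elim a b) (c j)) = fun j => pj (Sum.elim a b) (pj a (c j)) := by
    funext j
    have h2 : c j - pj a (c j) ∈ Submodule.span ℝ (Set.range (Sum.elim a b)) := by
      refine Submodule.span_mono ?_ (pj_sub a (c j))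
      rintro _ ⟨i, rfl⟩
      exact ⟨Sum.inl i, rfl⟩
    have h3 := pj_eq_zero (Sum.elim a b) h2
    rw [map_sub, sub_eq_zero] at h3
    exact h3
  have h4 : vsq (fun j => pj (Sum.elim a b) (c j)) ≤ vsq (fun j => pj a (c j)) := by
    rw [h1]
    exact vsq_contr _ (pj_norm _) _
  have h5 := mul_le_mul_of_nonneg_left h4
    (mul_nonneg (vsq_nonneg (Sum.elim a b)) (vsq_nonneg a))
  calc _ = vsq (Sum.elim a b) * vsq a * vsq (fun j => pj (Sum.elim a b) (c j)) := by ring
    _ ≤ _ := h5
    _ = _ := by ring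

theorem vsq_dual (v w : α ⊕ β → F) (hs : Submodule.span ℝ (Set.range v) = ⊤)
    (hw : ∀ i j, inner ℝ (w i) (v j) = if i = j then (1 : ℝ) else 0) :
    vsq (fun i => w (Sum.inr i)) * vsq v = vsq (fun i => v (Sum.inl i)) := by
  set a : α → F := fun i => v (Sum.inl i) with ha
  set p : β → F := fun j => pj a (v (Sum.inr j)) with hp
  have hv : vsq v = vsq a * vsq p := by
    rw [hp, ← vsq_schur a (fun j => v (Sum.inr j))]
    congr 1
    funext i
    rcases i with i | i <;> rfl
  -- the vectors `w (inr i)` are orthogonal to the span of `a`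
  have hwo : ∀ i : β, w (Sum.inr i) ∈ (Submodule.span ℝ (Set.range a))ᗮ := by
    intro i
    rw [Submodule.mem_orthogonal']
    intro x hx
    induction hx using Submodule.span_induction with
    | mem x hx =>
      obtain ⟨j, rfl⟩ := hx
      have h := hw (Sum.inr i) (Sum.inl j)
      rwa [if_neg (by simp)] at h
    | zero => exact inner_zero_right _
    | add x y _ _ h1 h2 => rw [inner_add_right, h1, h2, add_zero]
    | smul t x _ h1 => rw [real_inner_smul_right, h1, mul_zero]
  have hcross : ∀ i j : β, inner ℝ (w (Sum.inr i)) (p j) = if i = j then (1 : ℝ) else 0 := by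
    intro i j
    have h1 : inner ℝ (w (Sum.inr i)) (v (Sum.inr j) - p j) = (0 : ℝ) :=
      (Submodule.mem_orthogonal' _ _).1 (hwo i) _ (pj_sub a (v (Sum.inr j)))
    rw [inner_sub_right, sub_eq_zero] at h1
    rw [← h1, hw]
    by_cases hij : i = j
    · rw [if_pos hij, if_pos (congrArg Sum.inr hij)]
    · rw [if_neg hij, if_neg fun h => hij (Sum.inr_injective h)]
  -- `w (inr i)` is a combination of the `p k`
  have hM : ∀ i : β, ∃ c : β → ℝ, ∑ k, c k • p k = w (Sum.inr i) := by
    intro i
    have hx : w (Sum.inr i) ∈ Submodule.span ℝ (Set.range v) := by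
      rw [hs]
      exact Submodule.mem_top
    obtain ⟨c, hc⟩ := (Submodule.mem_span_range_iff_exists_fun ℝ).1 hx
    refine ⟨fun k => c (Sum.inr k), ?_⟩
    have h1 := congrArg (pj a) hc
    rw [pj_eq_self a (hwo i), map_sum, Fintype.sum_sum_type] at h1
    rw [← h1]
    have h2 : ∑ k : α, pj a (c (Sum.inl k) • v (Sum.inl k)) = 0 := by
      refine Finset.sum_eq_zero fun k _ => ?_
      rw [map_smul, pj_eq_zero a (Submodule.subset_span ⟨k, rfl⟩), smul_zero]
    rw [h2, zero_add]
    refine Finset.sum_congr rfl fun k _ => ?_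
    rw [map_smul]
  choose c hc using hM
  let M : Matrix β β ℝ := Matrix.of fun k i => c i k
  have h1 : vsq (fun i => w (Sum.inr i)) = M.det ^ 2 * vsq p := by
    rw [← vsq_comb]
    congr 1
    funext i
    exact (hc i).symm
  have h2 : M.transpose * Matrix.gram ℝ p = 1 := by
    ext i j
    rw [Matrix.mul_apply, Matrix.one_apply, ← hcross i j, ← hc i, sum_inner]
    refine Finset.sum_congr rfl fun k _ => ?_
    rw [real_inner_smul_left]
    rfl
  have h3 : M.det * vsq p = 1 := by
    have h4 := congrArg Matrix.det h2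
    rw [Matrix.det_mul, Matrix.det_transpose, Matrix.det_one] at h4
    exact h4
  rw [hv, h1]
  calc _ = (M.det * vsq p) ^ 2 * vsq a := by ring
    _ = _ := by rw [h3]; ring

end LatN
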