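import Pool.Agent.Lib.LatN.CovBasic
import Pool.Agent.Lib.LatN.Kot

/-!
# RedBasis: reduced bases (Hermite), finiteness

Proofs.
* `finite_norm_le`: the real linear extension `T' : (ι → ℝ) → F` of `T` is injective, so
  `‖T' x‖ ≥ c ‖x‖` (finite dimension), and a ball of `ℝ^ι` contains finitely many integer points.
  `exists_min_norm` follows.
* `exists_red_basis`: it is convenient to prove by induction on `r` the statement for all
  `T : (Fin r → ℤ) →ₗ[ℤ] F` with `Emb T`: there is a basis `b` of `Fin r → ℤ` with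
  `∏ ‖T (b i)‖ ≤ 2^(r²) * Real.sqrt (vsq fun i => T (Pi.single i 1))` and then to transport it
  along a basis of `U` (`emb_li`, `cov_eq`). Induction step `r + 1`: let `b₀` be a nonzero integer
  vector with `‖T b₀‖` minimal (`finite_norm_le`); it is primitive, so it belongs to a basis
  `(b₀, c_1, ..., c_r)` of `Fin (r+1) → ℤ` (its quotient is torsion free, hence free). Let `P` be the
  orthogonal projection onto `(ℝ T b₀)ᗮ` and `T₁ e_i = P (T c_i)`, which satisfies `Emb`. By
  induction there is a basis `b̄` of `ℤ^r` with `∏ ‖T₁ b̄_i‖ ≤ 2^(r²) sqrt (vsq (P T c))`. Lift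
  `b̄_i` to `b_i = ∑ (b̄_i)_j c_j + k_i b₀`, with the integer `k_i` chosen such that
  `T b_i = T₁ b̄_i + θ_i T b₀`, `|θ_i| ≤ 1/2`. Then `‖T b₀‖² ≤ ‖T b_i‖² ≤ ‖T₁ b̄_i‖² + ‖T b₀‖²/4`, so
  `‖T b_i‖² ≤ (4/3) ‖T₁ b̄_i‖²` and `‖T b_i‖ ≤ 2 ‖T₁ b̄_i‖`. Finally
  `vsq (T b₀, T c) = ‖T b₀‖² vsq (P T c)` (Schur, see module Kot; here `a` is one vector; this can
  also be obtained from `vsq_comb` and the block diagonal Gram matrix of `(T b₀, P T c)`), and
  `vsq` of `T` on the unit vectors equals `vsq` on the basis `(b₀, c)` (`vsq_comb`, determinant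
  `±1`).
* `finite_cov_le`: let `m` be the minimum of `‖T x‖`, `x ≠ 0`, and `m' = min m 1`. A saturated `U`
  with `cov T U ≤ C` has a basis with `∏ ‖T b_i‖ ≤ 2^(N²) C`, so `‖T b_i‖ ≤ 2^(N²) C / m'^N` for
  every `i`. `U` is the span of a subset of the finite set of vectors of bounded norm.
-/

namespace LatN

section small
variable {F : Type*} [NormedAddCommGroup F] [InnerProductSpace ℝ F]

/-- projection along `u` -/
private noncomputable def prj (u : F) : F →ₗ[ℝ] F :=
  LinearMap.id - ((innerₗ F) u).smulRight ((‖u‖ ^ 2)⁻¹ • u)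

private theorem prj_apply (u y : F) : prj u y = y - (inner ℝ u y * (‖u‖ ^ 2)⁻¹) • u := by
  simp [prj, smul_smul]

private theorem prj_self {u : F} (hu : u ≠ 0) : prj u u = 0 := by
  have h : ‖u‖ ^ 2 ≠ 0 := by
    have := norm_ne_zero_iff.2 hu
    positivity
  rw [prj_apply, real_inner_self_eq_norm_sq, mul_inv_cancel₀ h, one_smul, sub_self]

private theorem inner_prj {u : F} (hu : u ≠ 0) (y : F) : inner ℝ u (prj u y) = (0 : ℝ) := by
  have h : ‖u‖ ^ 2 ≠ 0 := by
    have := norm_ne_zero_iff.2 hu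
    positivity
  rw [prj_apply, inner_sub_right, inner_smul_right, real_inner_self_eq_norm_sq, mul_assoc,
    inv_mul_cancel₀ h, mul_one, sub_self]

private theorem eq_prj_add (u y : F) :
    y = prj u y + (inner ℝ u y * (‖u‖ ^ 2)⁻¹) • u := by
  rw [prj_apply, sub_add_cancel]

private theorem vsq_cons {r : ℕ} (u : F) (w : Fin r → F) (h : ∀ i, inner ℝ u (w i) = (0 : ℝ)) :
    vsq (Fin.cons u w : Fin (r + 1) → F) = ‖u‖ ^ 2 * vsq w := by
  unfold vsq
  rw [Matrix.det_succ_row_zero, Fin.sum_univ_succ, Finset.sum_eq_zero]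
  · simp only [Matrix.gram_apply, Fin.cons_zero, real_inner_self_eq_norm_sq, Fin.val_zero, pow_zero,
      one_mul, add_zero]
    congr 2
  · intro i _
    simp only [Matrix.gram_apply, Fin.cons_zero, Fin.cons_succ, h i, mul_zero, zero_mul]

private theorem vsq_shear {r : ℕ} (u : F) (v w : Fin r → F) (μ : Fin r → ℝ)
    (h : ∀ i, v i = w i + μ i • u) :
    vsq (Fin.cons u v : Fin (r + 1) → F) = vsq (Fin.cons u w : Fin (r + 1) → F) := by
  let M : Matrix (Fin (r + 1)) (Fin (r + 1)) ℝ :=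
    Matrix.of fun i j => (Fin.cons (Fin.cons 1 μ : Fin (r + 1) → ℝ)
      (fun i' => (Fin.cons 0 (fun j' => if i' = j' then 1 else 0) : Fin (r + 1) → ℝ)) :
        Fin (r + 1) → Fin (r + 1) → ℝ) i j
  have hM : M.det = 1 := by
    rw [Matrix.det_succ_column_zero, Fin.sum_univ_succ, Finset.sum_eq_zero]
    · have : M.submatrix (Fin.succAbove 0) Fin.succ = 1 := by
        ext i j
        simp [M, Matrix.one_apply]
      rw [this]
      simp [M]
    · intro i _
      simp [M]
  have h1 : (Fin.cons u v : Fin (r + 1) → F) =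
      fun j => ∑ i, M i j • (Fin.cons u w : Fin (r + 1) → F) i := by
    funext j
    rw [Fin.sum_univ_succ]
    refine Fin.cases ?_ (fun j => ?_) j
    · simp [M]
    · simp [M, h j, add_comm]
  rw [h1, vsq_comb, hM]
  simp

end small

section emb
variable {F : Type*} [NormedAddCommGroup F] [InnerProductSpace ℝ F]
variable {ι : Type*} [Fintype ι] [DecidableEq ι]

private theorem T_eq (T : (ι → ℤ) →ₗ[ℤ] F) (x : ι → ℤ) :
    T x = ∑ i, (x i : ℝ) • T (Pi.single i 1) := by
  conv_lhs => rw [← Finset.univ_sum_single x, map_sum]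
  refine Finset.sum_congr rfl fun i _ => ?_
  have : Pi.single i (x i) = x i • (Pi.single i 1 : ι → ℤ) := by
    rw [← Pi.single_smul, smul_eq_mul, mul_one]
  rw [this, map_smul, Int.cast_smul_eq_zsmul]

private theorem finite_norm_le' {T : (ι → ℤ) →ₗ[ℤ] F} (hT : Emb T) (B : ℝ) :
    {x : ι → ℤ | ‖T x‖ ≤ B}.Finite := by
  have hker : LinearMap.ker (Fintype.linearCombination ℝ fun i => T (Pi.single i 1)) = ⊥ :=
    LinearMap.ker_eq_bot.2 (linearIndependent_iff_injective_fintypeLinearCombination.1 hT)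
  obtain ⟨K, hK, hL⟩ := LinearMap.exists_antilipschitzWith _ hker
  refine Set.Finite.subset (Set.finite_Icc (fun _ : ι => -⌈K * B⌉) (fun _ => ⌈K * B⌉)) ?_
  intro x hx
  have h1 : ‖fun i => (x i : ℝ)‖ ≤ K * B := by
    have h2 := hL.le_mul_dist (fun i => (x i : ℝ)) 0
    rw [dist_zero_right, map_zero, dist_zero_right, Fintype.linearCombination_apply, ← T_eq] at h2
    exact h2.trans (mul_le_mul_of_nonneg_left hx K.2)
  have h2 : ∀ i, |(x i : ℝ)| ≤ K * B := fun i => (norm_le_pi_norm (fun i => (x i : ℝ)) i).trans h1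
  constructor
  · intro i
    have h3 := (abs_le.1 (h2 i)).1
    have h4 : (-(x i) : ℤ) ≤ ⌈K * B⌉ := by
      rw [← Int.cast_le (R := ℝ)]
      push_cast
      exact (by linarith : -(x i : ℝ) ≤ K * B).trans (Int.le_ceil _)
    show -⌈K * B⌉ ≤ x i
    linarith
  · intro i
    have h3 := (abs_le.1 (h2 i)).2
    rw [← Int.cast_le (R := ℝ)]
    exact h3.trans (Int.le_ceil _)

private theorem T_ne {T : (ι → ℤ) →ₗ[ℤ] F} (hT : Emb T) {x : ι → ℤ} (hx : x ≠ 0) : T x ≠ 0 := by
  intro h
  apply hx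
  rw [T_eq] at h
  have h1 := Fintype.linearIndependent_iff.1 hT (fun i => (x i : ℝ)) h
  funext i
  exact_mod_cast h1 i

private theorem exists_min_norm' {T : (ι → ℤ) →ₗ[ℤ] F} (hT : Emb T) :
    ∃ m > (0 : ℝ), ∀ x : ι → ℤ, x ≠ 0 → m ≤ ‖T x‖ := by
  by_cases h : ∃ x : ι → ℤ, x ≠ 0
  · obtain ⟨x0, hx0⟩ := h
    have hf : {x : ι → ℤ | ‖T x‖ ≤ ‖T x0‖ ∧ x ≠ 0}.Finite :=
      (finite_norm_le' hT ‖T x0‖).subset fun x hx => hx.1
    obtain ⟨x1, h1, h2⟩ := Set.exists_min_image _ (fun x => ‖T x‖) hf ⟨x0, le_rfl, hx0⟩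
    refine ⟨‖T x1‖, norm_pos_iff.2 (T_ne hT h1.2), fun x hx => ?_⟩
    by_cases hx' : ‖T x‖ ≤ ‖T x0‖
    · exact h2 x ⟨hx', hx⟩
    · exact (h1.1).trans (not_le.1 hx').le
  · push Not at h
    exact ⟨1, one_pos, fun x hx => (hx (h x)).elim⟩

end emb

section red
universe u
variable {F : Type*} [NormedAddCommGroup F] [InnerProductSpace ℝ F]

/-- independence from independence in the quotient -/
private theorem cons_li {R : Type*} [CommRing R] {M : Type*} [AddCommGroup M] [Module R M] {v : M}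
    (hv : ∀ k : R, k • v = 0 → k = 0) {s : ℕ} (c : Fin s → (M ⧸ Submodule.span R {v}))
    (hc : LinearIndependent R c) (x : Fin s → M) (hx : ∀ i, Submodule.Quotient.mk (x i) = c i) :
    LinearIndependent R (Fin.cons v x : Fin (s + 1) → M) := by
  rw [Fintype.linearIndependent_iff]
  intro g hg
  rw [Fin.sum_univ_succ] at hg
  simp only [Fin.cons_zero, Fin.cons_succ] at hg
  have h1 : ∑ i, g (Fin.succ i) • c i = 0 := by
    have h2 := congrArg (Submodule.span R {v}).mkQ hg
    rw [map_add, map_smul, map_sum, map_zero] at h2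
    have h3 : (Submodule.span R {v}).mkQ v = 0 := by
      rw [Submodule.mkQ_apply, Submodule.Quotient.mk_eq_zero]
      exact Submodule.mem_span_singleton_self v
    rw [h3, smul_zero, zero_add] at h2
    rw [← h2]
    refine Finset.sum_congr rfl fun i _ => ?_
    rw [map_smul, Submodule.mkQ_apply, hx i]
  have h2 := Fintype.linearIndependent_iff.1 hc (fun i => g (Fin.succ i)) h1
  have h3 : g 0 = 0 := by
    apply hv
    rw [← hg]
    simp [h2]
  intro i
  refine Fin.cases h3 (fun j => h2 j) i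

/-- a basis from a basis of the quotient -/
private theorem cons_basis {R : Type*} [CommRing R] {M : Type*} [AddCommGroup M] [Module R M] {v : M}
    (hv : ∀ k : R, k • v = 0 → k = 0) {s : ℕ}
    (c : Module.Basis (Fin s) R (M ⧸ Submodule.span R {v})) (x : Fin s → M)
    (hx : ∀ i, Submodule.Quotient.mk (x i) = c i) :
    ∃ b : Module.Basis (Fin (s + 1)) R M, ∀ i, b i = (Fin.cons v x : Fin (s + 1) → M) i := by
  have hli := cons_li hv c c.linearIndependent x hx
  have hsp : ⊤ ≤ Submodule.span R (Set.range (Fin.cons v x : Fin (s + 1) → M)) := by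
    intro m _
    have h1 : (Submodule.span R {v}).mkQ (m - ∑ i, c.repr (Submodule.Quotient.mk m) i • x i) = 0 := by
      rw [map_sub, map_sum]
      have h2 : ∑ i, (Submodule.span R {v}).mkQ (c.repr (Submodule.Quotient.mk m) i • x i) =
          Submodule.Quotient.mk m := by
        conv_rhs => rw [← c.sum_repr (Submodule.Quotient.mk m)]
        refine Finset.sum_congr rfl fun i _ => ?_
        rw [map_smul, Submodule.mkQ_apply, hx i]
      rw [h2, Submodule.mkQ_apply, sub_self]
    rw [Submodule.mkQ_apply, Submodule.Quotient.mk_eq_zero] at h1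
    have h2 : m = (m - ∑ i, c.repr (Submodule.Quotient.mk m) i • x i) +
      ∑ i, c.repr (Submodule.Quotient.mk m) i • x i := by abel
    rw [h2]
    refine Submodule.add_mem _ ?_ ?_
    · refine Submodule.span_mono ?_ h1
      rintro y rfl
      exact ⟨0, by simp⟩
    · refine Submodule.sum_mem _ fun i _ => Submodule.smul_mem _ _ (Submodule.subset_span ?_)
      exact ⟨Fin.succ i, by simp⟩
  exact ⟨Module.Basis.mk hli hsp, fun i => by simp⟩

/-- the norm of a vector which is at least as long as `u`, in terms of its projection -/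
private theorem norm_le_two {u w y : F} {θ : ℝ} (hy : y = w + θ • u) (hθ : |θ| ≤ 1 / 2)
    (huw : inner ℝ u w = (0 : ℝ)) (huy : ‖u‖ ≤ ‖y‖) : ‖y‖ ≤ 2 * ‖w‖ := by
  have h1 : ‖y‖ ^ 2 = ‖w‖ ^ 2 + θ ^ 2 * ‖u‖ ^ 2 := by
    rw [hy, norm_add_sq_real, inner_smul_right, real_inner_comm, huw, norm_smul, mul_pow,
      Real.norm_eq_abs, sq_abs]
    ring
  have h2 : θ ^ 2 ≤ 1 / 4 := by
    rw [← sq_abs]
    nlinarith [abs_nonneg θ]
  have h3 : θ ^ 2 * ‖u‖ ^ 2 ≤ 1 / 4 * ‖y‖ ^ 2 :=
    mul_le_mul h2 (pow_le_pow_left₀ (norm_nonneg _) huy 2) (by positivity) (by norm_num)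
  have h4 : ‖y‖ ^ 2 ≤ (2 * ‖w‖) ^ 2 := by nlinarith [sq_nonneg ‖w‖]
  exact le_of_sq_le_sq h4 (by positivity)

/-- every family which is independent over `R` has an image which is independent over `ℝ` -/
private def EmbM {R : Type*} [CommRing R] [Module R F] {M : Type u} [AddCommGroup M] [Module R M]
    (T : M →ₗ[R] F) : Prop :=
  ∀ (k : ℕ) (x : Fin k → M), LinearIndependent R x → LinearIndependent ℝ (fun i => T (x i))

/-- reduced bases, abstract form -/
private theorem red_aux {R : Type*} [CommRing R] [IsDomain R] [IsPrincipalIdealRing R] [Module R F]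
    (φ : R →+* ℝ) (hφ : ∀ (k : R) (x : F), k • x = φ k • x) (hφi : Function.Injective φ)
    (hφr : ∀ μ : ℝ, ∃ k, |μ - φ k| ≤ 1 / 2) (r : ℕ) :
    ∀ (M : Type u) [AddCommGroup M] [Module R M] [Module.Finite R M]
    [Module.Free R M], Module.finrank R M = r → ∀ T : M →ₗ[R] F, EmbM T →
    (∀ B : ℝ, {x : M | ‖T x‖ ≤ B}.Finite) →
    ∃ b : Module.Basis (Fin r) R M,
      ∏ i, ‖T (b i)‖ ≤ (2 : ℝ) ^ (r ^ 2) * Real.sqrt (vsq fun i => T (b i)) := by
  induction r with
  | zero =>
    intro M _ _ _ _ hr T hT _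
    refine ⟨(Module.finBasis R M).reindex (finCongr hr), ?_⟩
    simp [vsq]
  | succ r ih =>
    intro M _ _ _ _ hr T hT hfin
    obtain ⟨x0, hx0⟩ : ∃ x0 : M, x0 ≠ 0 :=
      ⟨_, ((Module.finBasis R M).reindex (finCongr hr)).ne_zero 0⟩
    -- a minimal vector
    have hmin : ∃ v : M, v ≠ 0 ∧ ∀ x : M, x ≠ 0 → ‖T v‖ ≤ ‖T x‖ := by
      have hf : {x : M | ‖T x‖ ≤ ‖T x0‖ ∧ x ≠ 0}.Finite := (hfin ‖T x0‖).subset fun x hx => hx.1
      obtain ⟨x1, h1, h2⟩ := Set.exists_min_image _ (fun x => ‖T x‖) hf ⟨x0, le_rfl, hx0⟩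
      refine ⟨x1, h1.2, fun x hx => ?_⟩
      by_cases hx' : ‖T x‖ ≤ ‖T x0‖
      · exact h2 x ⟨hx', hx⟩
      · exact (h1.1).trans (not_le.1 hx').le
    obtain ⟨v, hv0, hmin⟩ := hmin
    have hu : T v ≠ 0 := by
      have h1 : LinearIndependent R (fun _ : Fin 1 => v) := by
        rw [Fintype.linearIndependent_iff]
        intro g hg i
        rw [Fin.sum_univ_one, smul_eq_zero] at hg
        rcases hg with hg | hg
        · rwa [Subsingleton.elim i 0]
        · exact (hv0 hg).elim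
      exact (hT 1 _ h1).ne_zero 0
    have hupos : 0 < ‖T v‖ := norm_pos_iff.2 hu
    have hzs : ∀ (k : R) (x : M), T (k • x) = φ k • T x := by
      intro k x
      rw [map_smul, hφ]
    -- the projected embedding of the quotient
    let T0 : M →ₗ[R] F :=
      { toFun := fun x => prj (T v) (T x)
        map_add' := fun x y => by rw [map_add, map_add]
        map_smul' := fun k x => by rw [hzs, map_smul, hφ]; rfl }
    have hker : Submodule.span R {v} ≤ LinearMap.ker T0 := by
      rw [Submodule.span_singleton_le_iff_mem, LinearMap.mem_ker]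
      exact prj_self hu
    let T1 : (M ⧸ Submodule.span R {v}) →ₗ[R] F := (Submodule.span R {v}).liftQ T0 hker
    have hT1 : ∀ x : M, T1 (Submodule.Quotient.mk x) = prj (T v) (T x) := fun x => rfl
    -- rounding
    have hround : ∀ x : M, ∃ y : M, ∃ θ : ℝ, Submodule.Quotient.mk (p := Submodule.span R {v}) y =
        Submodule.Quotient.mk x ∧ |θ| ≤ 1 / 2 ∧ T y = prj (T v) (T x) + θ • T v := by
      intro x
      let μ : ℝ := inner ℝ (T v) (T x) * (‖T v‖ ^ 2)⁻¹
      obtain ⟨k, hk⟩ := hφr μ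
      refine ⟨x - k • v, μ - φ k, ?_, hk, ?_⟩
      · rw [Submodule.Quotient.eq]
        have : x - k • v - x = (-k) • v := by
          rw [neg_smul]
          abel
        rw [this]
        exact Submodule.smul_mem _ _ (Submodule.mem_span_singleton_self v)
      · rw [map_sub, hzs, sub_smul]
        conv_lhs => rw [eq_prj_add (T v) (T x)]
        abel
    have hinj : ∀ q, T1 q = 0 → q = 0 := by
      intro q hq
      obtain ⟨x, rfl⟩ := Submodule.Quotient.mk_surjective _ q
      obtain ⟨y, θ, h1, h2, h3⟩ := hround x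
      rw [hT1] at hq
      rw [hq, zero_add] at h3
      rw [← h1]
      by_cases hy : y = 0
      · rw [hy, Submodule.Quotient.mk_zero]
      · exfalso
        have h4 := hmin y hy
        rw [h3, norm_smul, Real.norm_eq_abs] at h4
        nlinarith
    have hfree : Module.IsTorsionFree R (M ⧸ Submodule.span R {v}) := by
      rw [Module.isTorsionFree_iff_smul_eq_zero]
      intro k q hk
      have h1 := congrArg T1 hk
      rw [map_smul, map_zero, hφ, smul_eq_zero] at h1
      rcases h1 with h1 | h1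
      · exact Or.inl (hφi (by rw [h1, map_zero]))
      · exact Or.inr (hinj q h1)
    have hv' : ∀ k : R, k • v = 0 → k = 0 := by
      intro k hk
      have h1 := hzs k v
      rw [hk, map_zero] at h1
      exact hφi (by rw [(smul_eq_zero.1 h1.symm).resolve_right hu, map_zero])
    have hE : EmbM T1 := by
      intro k z hz
      choose x hx using fun i => Submodule.Quotient.mk_surjective _ (z i)
      have hli : LinearIndependent R (Fin.cons v x : Fin (k + 1) → M) :=
        cons_li hv' z hz x hx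
      have h1 := hT _ _ hli
      rw [Fintype.linearIndependent_iff] at h1 ⊢
      intro g hg i
      let μ : Fin k → ℝ := fun i => inner ℝ (T v) (T (x i)) * (‖T v‖ ^ 2)⁻¹
      have h2 := h1 (Fin.cons (-∑ i, g i * μ i) g) (by
        rw [Fin.sum_univ_succ]
        simp only [Fin.cons_zero, Fin.cons_succ]
        rw [← hg, neg_smul, Finset.sum_smul, ← Finset.sum_neg_distrib, ← Finset.sum_add_distrib]
        refine Finset.sum_congr rfl fun i _ => ?_
        rw [← hx i, hT1, prj_apply, smul_sub, smul_smul]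
        abel) (Fin.succ i)
      simpa using h2
    have hfin1 : ∀ B : ℝ, {q : M ⧸ Submodule.span R {v} | ‖T1 q‖ ≤ B}.Finite := by
      intro B
      refine ((hfin (B + ‖T v‖)).image (Submodule.Quotient.mk (p := Submodule.span R {v}))).subset ?_
      intro q hq
      obtain ⟨x, rfl⟩ := Submodule.Quotient.mk_surjective _ q
      obtain ⟨y, θ, h1, h2, h3⟩ := hround x
      refine ⟨y, ?_, h1⟩
      show ‖T y‖ ≤ B + ‖T v‖
      have h4 : ‖prj (T v) (T x)‖ ≤ B := hq
      rw [h3]
      refine (norm_add_le _ _).trans (add_le_add h4 ?_)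
      rw [norm_smul, Real.norm_eq_abs]
      nlinarith
    -- the rank of the quotient
    have hQ : Module.finrank R (M ⧸ Submodule.span R {v}) = r := by
      choose x hx using fun i => Submodule.Quotient.mk_surjective _
        (Module.finBasis R (M ⧸ Submodule.span R {v}) i)
      obtain ⟨b, _⟩ := cons_basis hv' (Module.finBasis R (M ⧸ Submodule.span R {v})) x hx
      have h1 := Module.finrank_eq_card_basis b
      rw [Fintype.card_fin, hr] at h1
      omega
    obtain ⟨c, hc⟩ := ih _ hQ T1 hE hfin1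
    have hlift : ∀ i, ∃ y : M, ∃ θ : ℝ, Submodule.Quotient.mk (p := Submodule.span R {v}) y = c i ∧
        |θ| ≤ 1 / 2 ∧ T y = T1 (c i) + θ • T v := by
      intro i
      obtain ⟨x, hx⟩ := Submodule.Quotient.mk_surjective _ (c i)
      obtain ⟨y, θ, h1, h2, h3⟩ := hround x
      exact ⟨y, θ, h1.trans hx, h2, by rw [h3, ← hx, hT1]⟩
    choose y θ hy1 hy2 hy3 using hlift
    obtain ⟨b, hb⟩ := cons_basis hv' c y hy1
    have hb0 : b 0 = v := hb 0
    have hbs : ∀ i : Fin r, b (Fin.succ i) = y i := fun i => hb (Fin.succ i)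
    have hv2 : (fun i => T (b i)) = (Fin.cons (T v) (fun i => T (y i)) : Fin (r + 1) → F) := by
      funext i
      refine Fin.cases ?_ (fun j => ?_) i
      · rw [hb0]; rfl
      · rw [hbs]; rfl
    have horth : ∀ q, inner ℝ (T v) (T1 q) = (0 : ℝ) := by
      intro q
      obtain ⟨x, rfl⟩ := Submodule.Quotient.mk_surjective _ q
      rw [hT1]
      exact inner_prj hu _
    have hvs : vsq (fun i => T (b i)) = ‖T v‖ ^ 2 * vsq (fun i => T1 (c i)) := by
      rw [hv2, vsq_shear (T v) (fun i => T (y i)) (fun i => T1 (c i)) θ hy3,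
        vsq_cons _ _ fun i => horth _]
    refine ⟨b, ?_⟩
    rw [hvs, Fin.prod_univ_succ, hb0, Real.sqrt_mul (by positivity), Real.sqrt_sq (norm_nonneg _)]
    have h1 : ∏ i : Fin r, ‖T (b (Fin.succ i))‖ ≤ 2 ^ r * ∏ i, ‖T1 (c i)‖ := by
      calc ∏ i : Fin r, ‖T (b (Fin.succ i))‖ ≤ ∏ i : Fin r, (2 * ‖T1 (c i)‖) := by
            refine Finset.prod_le_prod (fun i _ => norm_nonneg _) fun i _ => ?_
            rw [hbs]
            refine norm_le_two (hy3 i) (hy2 i) (horth _) (hmin _ ?_)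
            rw [← hbs]
            exact b.ne_zero _
        _ = 2 ^ r * ∏ i, ‖T1 (c i)‖ := by
            rw [Finset.prod_mul_distrib, Finset.prod_const, Finset.card_univ, Fintype.card_fin]
    have h2 : (2 : ℝ) ^ r * 2 ^ (r ^ 2) ≤ 2 ^ ((r + 1) ^ 2) := by
      rw [← pow_add]
      exact pow_le_pow_right₀ (by norm_num) (by nlinarith)
    calc ‖T v‖ * ∏ i : Fin r, ‖T (b (Fin.succ i))‖
        ≤ ‖T v‖ * (2 ^ r * (2 ^ (r ^ 2) * Real.sqrt (vsq fun i => T1 (c i)))) := by
          refine mul_le_mul_of_nonneg_left (h1.trans ?_) (norm_nonneg _)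
          exact mul_le_mul_of_nonneg_left hc (by positivity)
      _ = (2 ^ r * 2 ^ (r ^ 2)) * (‖T v‖ * Real.sqrt (vsq fun i => T1 (c i))) := by ring
      _ ≤ 2 ^ ((r + 1) ^ 2) * (‖T v‖ * Real.sqrt (vsq fun i => T1 (c i))) :=
          mul_le_mul_of_nonneg_right h2 (by positivity)

end red

variable {F : Type*} [NormedAddCommGroup F] [InnerProductSpace ℝ F] [FiniteDimensional ℝ F]
variable {ι : Type*} [Fintype ι] [DecidableEq ι]

theorem finite_norm_le {T : (ι → ℤ) →ₗ[ℤ] F} (hT : Emb T) (B : ℝ) :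
    {x : ι → ℤ | ‖T x‖ ≤ B}.Finite := finite_norm_le' hT B

theorem exists_min_norm {T : (ι → ℤ) →ₗ[ℤ] F} (hT : Emb T) :
    ∃ m > (0 : ℝ), ∀ x : ι → ℤ, x ≠ 0 → m ≤ ‖T x‖ := exists_min_norm' hT

theorem exists_red_basis {T : (ι → ℤ) →ₗ[ℤ] F} (hT : Emb T) (U : Submodule ℤ (ι → ℤ)) :
    ∃ b : Module.Basis (Fin (Module.finrank ℤ U)) ℤ U,
      ∏ i, ‖T (b i)‖ ≤ (2 : ℝ) ^ (Module.finrank ℤ U ^ 2) * cov T U := by
  obtain ⟨b, hb⟩ := red_aux (F := F) (Int.castRingHom ℝ) (fun k x => (Int.cast_smul_eq_zsmul ℝ k x).symm)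
    Int.cast_injective (fun μ => ⟨round μ, abs_sub_round μ⟩) (Module.finrank ℤ U) U rfl
    (T ∘ₗ U.subtype) (by
      intro k x hx
      exact emb_li hT (hx.map' U.subtype (Submodule.ker_subtype U))) (by
      intro B
      refine Set.Finite.of_finite_image (f := (Subtype.val : U → (ι → ℤ))) ?_
        (Subtype.val_injective.injOn)
      refine (finite_norm_le hT B).subset ?_
      rintro _ ⟨x, hx, rfl⟩
      exact hx)
  refine ⟨b, ?_⟩
  rw [cov_eq T b]
  exact hb

theorem finite_cov_le {T : (ι → ℤ) →ₗ[ℤ] F} (hT : Emb T) (C : ℝ) :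
    {U : Submodule ℤ (ι → ℤ) | cov T U ≤ C}.Finite := by
  obtain ⟨m, hm, hmin⟩ := exists_min_norm hT
  obtain ⟨m', hm', hm'm, hm'1⟩ : ∃ m' > (0 : ℝ), m' ≤ m ∧ m' ≤ 1 :=
    ⟨min m 1, lt_min hm one_pos, min_le_left _ _, min_le_right _ _⟩
  have hS : {x : ι → ℤ | ‖T x‖ ≤ 2 ^ (Fintype.card ι ^ 2) * C / m' ^ Fintype.card ι}.Finite :=
    finite_norm_le hT _
  refine (hS.finite_subsets.image (Submodule.span ℤ)).subset ?_
  intro U hU
  have hU' : cov T U ≤ C := hU
  have hC : 0 ≤ C := (Real.sqrt_nonneg _).trans hU'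
  have hr : Module.finrank ℤ U ≤ Fintype.card ι := by
    have h1 := Submodule.finrank_le U
    rwa [Module.finrank_fintype_fun_eq_card] at h1
  obtain ⟨b, hb⟩ := exists_red_basis hT U
  refine ⟨Set.range (fun i => ((b i : U) : ι → ℤ)), ?_, ?_⟩
  · rintro _ ⟨i, rfl⟩
    show ‖T (b i)‖ ≤ _
    have hpow : 0 < m' ^ Fintype.card ι := by positivity
    rw [le_div_iff₀ hpow]
    have h1 : m' ^ Fintype.card ι ≤ ∏ j ∈ Finset.univ.erase i, ‖T (b j)‖ := by
      calc m' ^ Fintype.card ι ≤ m' ^ (Finset.univ.erase i).card := by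
            refine pow_le_pow_of_le_one hm'.le hm'1 ?_
            rw [Finset.card_erase_of_mem (Finset.mem_univ i), Finset.card_univ, Fintype.card_fin]
            omega
        _ = ∏ j ∈ Finset.univ.erase i, m' := by rw [Finset.prod_const]
        _ ≤ _ := by
            refine Finset.prod_le_prod (fun _ _ => hm'.le) fun j _ => hm'm.trans (hmin _ ?_)
            intro h
            exact b.ne_zero j (Subtype.ext h)
    calc ‖T (b i)‖ * m' ^ Fintype.card ι ≤ ‖T (b i)‖ * ∏ j ∈ Finset.univ.erase i, ‖T (b j)‖ :=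
          mul_le_mul_of_nonneg_left h1 (norm_nonneg _)
      _ = ∏ j, ‖T (b j)‖ := Finset.mul_prod_erase _ (fun j => ‖T (b j)‖) (Finset.mem_univ i)
      _ ≤ 2 ^ (Module.finrank ℤ U ^ 2) * cov T U := hb
      _ ≤ 2 ^ (Fintype.card ι ^ 2) * C :=
          mul_le_mul (pow_le_pow_right₀ (by norm_num) (Nat.pow_le_pow_left hr 2)) hU'
            (Real.sqrt_nonneg _) (by positivity)
  · have h1 : (Set.range fun i => ((b i : U) : ι → ℤ)) = U.subtype '' Set.range b := by
      rw [← Set.range_comp]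
      rfl
    rw [h1, ← Submodule.map_span, b.span_eq, Submodule.map_top, Submodule.range_subtype]

end LatN
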