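import Pool.Agent.Lib.LatN.Submod
import Pool.Agent.Lib.LatN.RedBasis

/-!
# Pot: the potential

`theta C0 T U = - log (cov T U) - C0 r (N - r)`, `r = finrank U`, `N = card ι`, and
`Theta C0 𝒰 T` is the supremum over `U ∈ 𝒰`. Here `C0 ≥ 0` (`> 0` in `near_chain`).

Proofs.
* `near_finite`: `M ≤ theta C0 T U` implies `cov T U ≤ exp (-M)` (since `C0 r (N - r) ≥ 0`,
  `finrank U ≤ N`), `finite_cov_le`.
* `Theta_attained`: `⊥ ∈ 𝒰`, `theta ⊥ = 0` (`cov_bot`), the set of `U ∈ 𝒰` with `theta ≥ 0` is finite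
  and nonempty, so a maximum exists, and it is the supremum (`IsGreatest.csSup_eq`).
  `le_Theta`: bounded above by the same argument. `Theta_nonneg`.
* `near_chain`: suppose `U, V ∈ 𝒰` are incomparable and both `theta ≥ Theta - C0/2`. Put
  `A = U ⊓ V`, `B = satur (U ⊔ V)`, `a, b, u, v` the ranks: `a + b = u + v` (`finrank_inf_satur`),
  `a < u`, `a < v` (`sat_eq`). By `cov_submod` and logarithms
  `theta A + theta B ≥ theta U + theta V + C0 (a² + b² - u² - v²)` because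
  `-r (N - r) = r² - N r`. With `a = u - i`, `b = v + i`, also `a = v - j`, `b = u + j`, `i, j ≥ 1`:
  `a² + b² - u² - v² = 2 i j ≥ 2` (indeed `a² + b² - u² - v² = 2 (u v - a b)` because
  `(a+b)² = (u+v)²`, and `u v - a b = (u - a)(v - a) = i j`). So
  `2 Theta ≥ theta A + theta B ≥ 2 Theta - C0 + 2 C0`, a contradiction.
* `theta_cmp`: `cov_cmp_le` for `h` and for `h⁻¹`: `cov (cmp h T) U ≤ exp (a r) cov T U` and
  `cov T U ≤ exp (a r) cov (cmp h T) U`, `r ≤ N`. (`Emb (cmp h T)` is `emb_cmp`.)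
* `Theta_cmp`: from `theta_cmp`, `le_Theta` and `Theta_attained`.
-/

namespace LatN

variable {F : Type*} [NormedAddCommGroup F] [InnerProductSpace ℝ F] [FiniteDimensional ℝ F]
variable {ι : Type*} [Fintype ι] [DecidableEq ι]

theorem emb_cmp {T : (ι → ℤ) →ₗ[ℤ] F} (hT : Emb T) (h : GE F) :
    Emb (cmp (h : F →L[ℝ] F) T) := by
  have hinj : Function.Injective ((h : F →L[ℝ] F) : F →ₗ[ℝ] F) := by
    intro x y hxy
    have e : ∀ z : F, ((h⁻¹ : GE F) : F →L[ℝ] F) ((h : F →L[ℝ] F) z) = z := by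
      intro z
      rw [← mul_apply_eq_comp, ← Units.val_mul, inv_mul_cancel, Units.val_one,
        one_apply_eq_self]
    have hxy' : (h : F →L[ℝ] F) x = (h : F →L[ℝ] F) y := hxy
    rw [← e x, ← e y, hxy']
  exact LinearIndependent.map' hT _ (LinearMap.ker_eq_bot.2 hinj)

private theorem pot_finrank_le (U : Submodule ℤ (ι → ℤ)) :
    (Module.finrank ℤ U : ℝ) ≤ (Fintype.card ι : ℝ) := by
  have h := Submodule.finrank_le U
  rw [Module.finrank_fintype_fun_eq_card] at h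
  exact_mod_cast h

private theorem pot_bot (T : (ι → ℤ) →ₗ[ℤ] F) (C0 : ℝ) : theta C0 T ⊥ = 0 := by
  rw [theta, cov_bot]
  simp

theorem near_finite {T : (ι → ℤ) →ₗ[ℤ] F} (hT : Emb T) {C0 : ℝ} (hC : 0 ≤ C0) (M : ℝ) :
    {U : Submodule ℤ (ι → ℤ) | M ≤ theta C0 T U}.Finite := by
  refine (finite_cov_le hT (Real.exp (-M))).subset ?_
  intro U hU
  rw [Set.mem_ofPred_eq] at hU ⊢
  rw [theta] at hU
  have h1 : 0 ≤ C0 * (Module.finrank ℤ U : ℝ) *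
      ((Fintype.card ι : ℝ) - (Module.finrank ℤ U : ℝ)) :=
    mul_nonneg (mul_nonneg hC (Nat.cast_nonneg _)) (sub_nonneg.2 (pot_finrank_le U))
  rw [← Real.exp_log (cov_pos hT U)]
  exact Real.exp_le_exp.2 (by linarith)

private theorem pot_bdd {T : (ι → ℤ) →ₗ[ℤ] F} (hT : Emb T) {C0 : ℝ} (hC : 0 ≤ C0)
    (𝒰 : Set (Submodule ℤ (ι → ℤ))) : BddAbove (theta C0 T '' 𝒰) := by
  obtain ⟨B, hB⟩ := ((near_finite hT hC 0).image (theta C0 T)).bddAbove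
  refine ⟨max B 0, ?_⟩
  rintro _ ⟨U, hU, rfl⟩
  rcases le_or_gt 0 (theta C0 T U) with h | h
  · exact (hB ⟨U, h, rfl⟩).trans (le_max_left _ _)
  · exact h.le.trans (le_max_right _ _)

theorem Theta_attained {T : (ι → ℤ) →ₗ[ℤ] F} (hT : Emb T) {C0 : ℝ} (hC : 0 ≤ C0)
    {𝒰 : Set (Submodule ℤ (ι → ℤ))} (h𝒰 : Adm 𝒰) :
    ∃ U ∈ 𝒰, theta C0 T U = Theta C0 𝒰 T := by
  have hfin : (𝒰 ∩ {U : Submodule ℤ (ι → ℤ) | 0 ≤ theta C0 T U}).Finite :=
    (near_finite hT hC 0).subset Set.inter_subset_right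
  have hne : (𝒰 ∩ {U : Submodule ℤ (ι → ℤ) | 0 ≤ theta C0 T U}).Nonempty :=
    ⟨⊥, h𝒰.bot, le_of_eq (pot_bot T C0).symm⟩
  obtain ⟨U, ⟨hU, hU0⟩, hmax⟩ := Set.exists_max_image _ (theta C0 T) hfin hne
  refine ⟨U, hU, ?_⟩
  rw [Theta]
  symm
  refine IsGreatest.csSup_eq ⟨⟨U, hU, rfl⟩, ?_⟩
  rintro _ ⟨V, hV, rfl⟩
  rcases le_or_gt 0 (theta C0 T V) with h | h
  · exact hmax V ⟨hV, h⟩
  · exact h.le.trans hU0

theorem le_Theta {T : (ι → ℤ) →ₗ[ℤ] F} (hT : Emb T) {C0 : ℝ} (hC : 0 ≤ C0)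
    {𝒰 : Set (Submodule ℤ (ι → ℤ))} {U : Submodule ℤ (ι → ℤ)} (hU : U ∈ 𝒰) :
    theta C0 T U ≤ Theta C0 𝒰 T :=
  le_csSup (pot_bdd hT hC 𝒰) ⟨U, hU, rfl⟩

theorem Theta_nonneg {T : (ι → ℤ) →ₗ[ℤ] F} (hT : Emb T) {C0 : ℝ} (hC : 0 ≤ C0)
    {𝒰 : Set (Submodule ℤ (ι → ℤ))} (h𝒰 : Adm 𝒰) : 0 ≤ Theta C0 𝒰 T := by
  rw [← pot_bot T C0]
  exact le_Theta hT hC h𝒰.bot

theorem near_chain {T : (ι → ℤ) →ₗ[ℤ] F} (hT : Emb T) {C0 : ℝ} (hC : 0 < C0)
    {𝒰 : Set (Submodule ℤ (ι → ℤ))} (h𝒰 : Adm 𝒰) {U V : Submodule ℤ (ι → ℤ)} (hU : U ∈ 𝒰)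
    (hV : V ∈ 𝒰) (h1 : Theta C0 𝒰 T - C0 / 2 ≤ theta C0 T U)
    (h2 : Theta C0 𝒰 T - C0 / 2 ≤ theta C0 T V) : U ≤ V ∨ V ≤ U := by
  by_contra hcon
  rw [not_or] at hcon
  obtain ⟨hUV, hVU⟩ := hcon
  have sU := h𝒰.sat U hU
  have sV := h𝒰.sat V hV
  have hA := h𝒰.inf U hU V hV
  have hB := h𝒰.sup U hU V hV
  have sA := h𝒰.sat _ hA
  have lA := le_Theta hT hC.le hA
  have lB := le_Theta hT hC.le hB
  have hrank := finrank_inf_satur sU sV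
  have hsub := cov_submod hT sU sV
  have ha : Module.finrank ℤ (U ⊓ V : Submodule ℤ (ι → ℤ)) < Module.finrank ℤ U := by
    refine lt_of_le_of_ne (Submodule.finrank_mono inf_le_left) ?_
    intro h
    have h' := sat_eq sA inf_le_left h
    exact hUV (inf_eq_left.1 h')
  have hb : Module.finrank ℤ (U ⊓ V : Submodule ℤ (ι → ℤ)) < Module.finrank ℤ V := by
    refine lt_of_le_of_ne (Submodule.finrank_mono inf_le_right) ?_
    intro h
    have h' := sat_eq sA inf_le_right h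
    exact hVU (inf_eq_right.1 h')
  have hlog : Real.log (cov T (U ⊓ V)) + Real.log (cov T (satur (U ⊔ V))) ≤
      Real.log (cov T U) + Real.log (cov T V) := by
    rw [← Real.log_mul (cov_pos hT _).ne' (cov_pos hT _).ne',
      ← Real.log_mul (cov_pos hT _).ne' (cov_pos hT _).ne']
    exact Real.log_le_log (mul_pos (cov_pos hT _) (cov_pos hT _)) hsub
  rw [theta] at h1 h2 lA lB
  obtain ⟨i, hi⟩ := Nat.exists_eq_add_of_lt ha
  obtain ⟨j, hj⟩ := Nat.exists_eq_add_of_lt hb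
  obtain ⟨a, ha'⟩ : ∃ a : ℕ, a = Module.finrank ℤ (U ⊓ V : Submodule ℤ (ι → ℤ)) := ⟨_, rfl⟩
  obtain ⟨d, hd'⟩ : ∃ d : ℕ, d = Module.finrank ℤ (satur (U ⊔ V)) := ⟨_, rfl⟩
  rw [← ha'] at hi hj lA hrank
  rw [← hd'] at lB hrank
  rw [hi, hj] at hrank
  have hd : d = a + i + 1 + j + 1 := by omega
  rw [hi] at h1
  rw [hj] at h2
  rw [hd] at lB
  push_cast at h1 h2 lA lB
  have hpos : 0 ≤ C0 * ((i : ℝ) * j + i + j) :=
    mul_nonneg hC.le (by positivity)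
  nlinarith [hlog, h1, h2, lA, lB, hpos, hC]

theorem theta_cmp {T : (ι → ℤ) →ₗ[ℤ] F} (hT : Emb T) (C0 : ℝ) (U : Submodule ℤ (ι → ℤ))
    (h : GE F) {a : ℝ} (h1 : ‖(h : F →L[ℝ] F)‖ ≤ Real.exp a)
    (h2 : ‖((h⁻¹ : GE F) : F →L[ℝ] F)‖ ≤ Real.exp a) :
    |theta C0 (cmp (h : F →L[ℝ] F) T) U - theta C0 T U| ≤ Fintype.card ι * a := by
  have key : ∀ (S : (ι → ℤ) →ₗ[ℤ] F), Emb S → ∀ g : GE F, ‖(g : F →L[ℝ] F)‖ ≤ Real.exp a →
      Real.log (cov (cmp (g : F →L[ℝ] F) S) U) ≤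
        (Module.finrank ℤ U : ℝ) * a + Real.log (cov S U) := by
    intro S hS g hg
    have e1 := cov_cmp_le hS U (g : F →L[ℝ] F)
    have e2 : ‖(g : F →L[ℝ] F)‖ ^ (Module.finrank ℤ U) ≤ Real.exp a ^ (Module.finrank ℤ U) :=
      pow_le_pow_left₀ (norm_nonneg _) hg _
    have e3 : cov (cmp (g : F →L[ℝ] F) S) U ≤ Real.exp a ^ (Module.finrank ℤ U) * cov S U :=
      e1.trans (mul_le_mul_of_nonneg_right e2 (cov_pos hS U).le)
    have e4 := Real.log_le_log (cov_pos (emb_cmp hS g) U) e3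
    rw [Real.log_mul (pow_pos (Real.exp_pos a) _).ne' (cov_pos hS U).ne', Real.log_pow,
      Real.log_exp] at e4
    exact e4
  have hback : cmp ((h⁻¹ : GE F) : F →L[ℝ] F) (cmp (h : F →L[ℝ] F) T) = T := by
    apply LinearMap.ext
    intro x
    rw [cmp_apply, cmp_apply, ← mul_apply_eq_comp, ← Units.val_mul, inv_mul_cancel,
      Units.val_one, one_apply_eq_self]
  have k1 := key T hT h h1
  have k2 := key (cmp (h : F →L[ℝ] F) T) (emb_cmp hT h) h⁻¹ h2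
  rw [hback] at k2
  have k3 : (Module.finrank ℤ U : ℝ) * a ≤ Fintype.card ι * a := by
    rcases isEmpty_or_nonempty ι with hι | hι
    · have hc : (Fintype.card ι : ℝ) = 0 := by
        rw [Fintype.card_eq_zero, Nat.cast_zero]
      have hr := pot_finrank_le U
      rw [hc] at hr
      have hr0 : (Module.finrank ℤ U : ℝ) = 0 := le_antisymm hr (Nat.cast_nonneg _)
      rw [hc, hr0]
    · obtain ⟨i⟩ := hι
      have hne : T (Pi.single i 1) ≠ 0 := LinearIndependent.ne_zero i hT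
      have hnt : Nontrivial F := ⟨⟨_, _, hne⟩⟩
      have ha : 0 ≤ a := by
        have hn : (1 : ℝ) ≤ ‖(h : F →L[ℝ] F)‖ * ‖((h⁻¹ : GE F) : F →L[ℝ] F)‖ := by
          have h3 := norm_mul_le (h : F →L[ℝ] F) ((h⁻¹ : GE F) : F →L[ℝ] F)
          rw [← Units.val_mul, mul_inv_cancel, Units.val_one, norm_one] at h3
          exact h3
        have h4 : (1 : ℝ) ≤ Real.exp a * Real.exp a :=
          hn.trans (mul_le_mul h1 h2 (norm_nonneg _) (Real.exp_pos a).le)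
        rw [← Real.exp_add, ← Real.exp_zero, Real.exp_le_exp] at h4
        linarith
      exact mul_le_mul_of_nonneg_right (pot_finrank_le U) ha
  rw [theta, theta, abs_le]
  constructor <;> linarith

theorem Theta_cmp {T : (ι → ℤ) →ₗ[ℤ] F} (hT : Emb T) {C0 : ℝ} (hC : 0 ≤ C0)
    {𝒰 : Set (Submodule ℤ (ι → ℤ))} (h𝒰 : Adm 𝒰)
    (h : GE F) {a : ℝ} (h1 : ‖(h : F →L[ℝ] F)‖ ≤ Real.exp a)
    (h2 : ‖((h⁻¹ : GE F) : F →L[ℝ] F)‖ ≤ Real.exp a) :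
    |Theta C0 𝒰 (cmp (h : F →L[ℝ] F) T) - Theta C0 𝒰 T| ≤ Fintype.card ι * a := by
  obtain ⟨U, hU, hU'⟩ := Theta_attained hT hC h𝒰
  obtain ⟨V, hV, hV'⟩ := Theta_attained (emb_cmp hT h) hC h𝒰
  have e1 := abs_le.1 (theta_cmp hT C0 U h h1 h2)
  have e2 := abs_le.1 (theta_cmp hT C0 V h h1 h2)
  have e3 := le_Theta (emb_cmp hT h) hC hU
  have e4 := le_Theta hT hC hV
  rw [abs_le]
  constructor <;> linarith [e1.1, e1.2, e2.1, e2.2]

end LatN
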