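import Pool.Agent.Lib.LatN.ArDefs
import Pool.Agent.Lib.LatN.Pot

/-!
# ArBasic: subgroups stable under the ring of mixing matrices

Proofs.
* `adm_RU`: `⊥`, `⊤`, `⊓` clear. `satur (U ⊔ V)`: saturated by `satur_sat`; if `k x = u + v`, `k ≠ 0`,
  and `mix c (T0 x) = T0 y`, then `T0 (k y) = mix c (T0 u) + mix c (T0 v) = T0 (u' + v')` by `stab`,
  with `u' ∈ U`, `v' ∈ V`, and `T0` is injective (`emb_li` for one vector, or: `T0 x = 0` gives
  `x = 0` by independence), so `k y = u' + v'`.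
* `rsp_ubas`, `rsp_map`: spans of images; every element of `U` is an integer combination of the basis.
* `finrank_rsp`: `emb_li`, `ubas_li`, `finrank_span_eq_card`.
* `mem_of_rsp`: if `x ∉ U`, `U` saturated, then the family `(ubas U, x)` is linearly independent over
  `ℤ` (a relation with nonzero coefficient `k` of `x` gives `k x ∈ U`), so by `emb_li` its image is
  linearly independent over `ℝ`, contradicting `T x ∈ rsp T U`.
* `mix_rsp`: for `c ∈ R` clear (`stab` and the definition of `RU`); `mix` is linear in `c`, so it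
  holds for `c` in the real span of `R` (`ArD.span`, `Submodule.span_induction`).
* `RU_shape`: `W b = {w | for all k with sg k = b the vector with entry w at k and 0 elsewhere lies
  in rsp T0 U}`. If `v ∈ rsp T0 U` and `sg j = sg k` then `mix (Matrix.single j k 1) v` is the vector
  with entry `v j` at `k`, so it lies in `rsp T0 U` (`mix_rsp`), hence `v j ∈ W (sg j)`. Conversely
  `v` is the sum over `k` of the vectors with the one entry `v k`.
* `rsp_TT`: `rsp_map` with `rep sg g`.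
* `Th_gam`: since `T0` is injective, `rep sg γ (T0 x) = T0 (τ x)` defines a linear automorphism `τ` of
  `ℤ^ι` (inverse from `γ⁻¹`), and `TT sg T0 (g * γ) = TT sg T0 g ∘ τ`. By `cov_map`
  `cov (TT (g γ)) U = cov (TT g) (U.map τ)`; ranks are preserved, and `U ↦ U.map τ` is a bijection
  of `RU T0 R` (`mix_rep`: `mix c` commutes with `rep sg γ` for `c ∈ R` by `ArD.block`), so the two
  suprema are over the same set of numbers.
* `fin_gam`: `γ` is determined by the vectors `rep sg γ (T0 e_i)`, `e_i` the unit vectors (they span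
  the space of copies because `card ι` is its dimension; `κ` nonempty, and `rep sg` is injective:
  look at one copy), which are of the form `T0 y_i` with
  `‖T0 y_i‖ ≤ max ‖γ‖ ‖γ⁻¹‖ * ‖T0 e_i‖` (`norm_rep_le`): finitely many (`finite_norm_le`).
-/

open scoped Topology

namespace LatN

section
variable {F : Type*} [NormedAddCommGroup F] [InnerProductSpace ℝ F]
variable {ι : Type*} [Fintype ι] [DecidableEq ι]

theorem emb_inj {T : (ι → ℤ) →ₗ[ℤ] F} (hT : Emb T) : Function.Injective T := by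
  rw [← LinearMap.ker_eq_bot, LinearMap.ker_eq_bot']
  intro z hz
  by_contra h0
  have h1 : LinearIndependent ℤ (fun _ : Unit => z) := LinearIndependent.of_subsingleton () h0
  exact (emb_li hT h1).ne_zero () hz

theorem rsp_ubas (T : (ι → ℤ) →ₗ[ℤ] F) (U : Submodule ℤ (ι → ℤ)) :
    rsp T U = Submodule.span ℝ (Set.range fun i => T (ubas U i)) := by
  apply le_antisymm
  · unfold rsp
    rw [Submodule.span_le]
    rintro _ ⟨x, hx, rfl⟩
    have h1 : x = ∑ i, (ubas U).repr ⟨x, hx⟩ i • ((ubas U i : U) : ι → ℤ) := by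
      have h2 := congrArg (fun u : U => (u : ι → ℤ)) ((ubas U).sum_repr ⟨x, hx⟩)
      push_cast at h2
      exact h2.symm
    rw [h1, map_sum]
    refine Submodule.sum_mem _ fun i _ => ?_
    rw [map_smul]
    exact zsmul_mem (Submodule.subset_span (Set.mem_range_self i)) _
  · unfold rsp
    refine Submodule.span_mono ?_
    rintro _ ⟨i, rfl⟩
    exact ⟨_, (ubas U i).2, rfl⟩

theorem ubasT_li {T : (ι → ℤ) →ₗ[ℤ] F} (hT : Emb T) (U : Submodule ℤ (ι → ℤ)) :
    LinearIndependent ℝ (fun i => T (ubas U i)) := emb_li hT (ubas_li U)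

theorem finrank_rsp {T : (ι → ℤ) →ₗ[ℤ] F} (hT : Emb T) (U : Submodule ℤ (ι → ℤ)) :
    Module.finrank ℝ (rsp T U) = Module.finrank ℤ U := by
  rw [rsp_ubas, finrank_span_eq_card (ubasT_li hT U), Fintype.card_fin]

theorem rsp_map (T : (ι → ℤ) →ₗ[ℤ] F) (h : F →L[ℝ] F) (U : Submodule ℤ (ι → ℤ)) :
    rsp (cmp h T) U = (rsp T U).map (h : F →ₗ[ℝ] F) := by
  unfold rsp
  rw [Submodule.map_span, ← Set.image_comp]
  rfl

theorem mem_of_rsp {T : (ι → ℤ) →ₗ[ℤ] F} (hT : Emb T) {U : Submodule ℤ (ι → ℤ)} (hU : Sat U)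
    {x : ι → ℤ} (hx : T x ∈ rsp T U) : x ∈ U := by
  by_contra hxU
  have h1 : LinearIndependent ℤ (fun o : Option (Fin (Module.finrank ℤ U)) =>
      (o.casesOn' x (fun i => ((ubas U i : U) : ι → ℤ)) : ι → ℤ)) := by
    rw [Fintype.linearIndependent_iff]
    intro g hg
    rw [Fintype.sum_option] at hg
    have hg' : g none • x + ∑ i, g (some i) • ((ubas U i : U) : ι → ℤ) = 0 := hg
    have h2 : g none = 0 := by
      by_contra h0
      apply hxU
      refine hU (g none) x h0 ?_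
      rw [eq_neg_of_add_eq_zero_left hg']
      exact U.neg_mem (U.sum_mem fun i _ => U.smul_mem _ (ubas U i).2)
    rw [h2, zero_smul, zero_add] at hg'
    have h3 := Fintype.linearIndependent_iff.1 (ubas_li U) (fun i => g (some i)) hg'
    intro o
    cases o with
    | none => exact h2
    | some i => exact h3 i
  have h2 := emb_li hT h1
  have h3 : (fun o : Option (Fin (Module.finrank ℤ U)) =>
      T (o.casesOn' x (fun i => ((ubas U i : U) : ι → ℤ)) : ι → ℤ)) =
      fun o => (o.casesOn' (T x) (fun i => T (ubas U i)) : F) := by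
    funext o
    cases o <;> rfl
  rw [h3, linearIndependent_option'] at h2
  apply h2.2
  rw [rsp_ubas] at hx
  exact hx

theorem rsp_mono (T : (ι → ℤ) →ₗ[ℤ] F) {U V : Submodule ℤ (ι → ℤ)} (h : U ≤ V) :
    rsp T U ≤ rsp T V := Submodule.span_mono (Set.image_mono h)

end

variable {E : Type*} [NormedAddCommGroup E] [InnerProductSpace ℝ E] [FiniteDimensional ℝ E]
variable {κ : Type*} [Fintype κ] [DecidableEq κ] {ι : Type*} [Fintype ι] [DecidableEq ι]

theorem adm_RU {sg : κ → Bool} {T0 : (ι → ℤ) →ₗ[ℤ] Cop κ E} {R : Subring (Matrix κ κ ℝ)}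
    (h : ArD sg T0 R) : Adm (RU T0 R) := by
  refine ⟨fun U hU => hU.1, ⟨?_, ?_⟩, ⟨fun _ _ _ _ => Submodule.mem_top, fun _ _ _ _ _ _ => Submodule.mem_top⟩,
    ?_, ?_⟩
  · intro k x hk hx
    rw [Submodule.mem_bot] at hx ⊢
    exact (smul_eq_zero.1 hx).resolve_left hk
  · intro c _ x hx y hy
    rw [Submodule.mem_bot] at hx ⊢
    rw [hx, map_zero, map_zero] at hy
    exact emb_inj h.emb (by rw [← hy, map_zero])
  · intro U hU V hV
    refine ⟨fun k x hk hx => ⟨hU.1 k x hk hx.1, hV.1 k x hk hx.2⟩, ?_⟩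
    intro c hc x hx y hy
    exact ⟨hU.2 c hc x hx.1 y hy, hV.2 c hc x hx.2 y hy⟩
  · intro U hU V hV
    refine ⟨satur_sat _, ?_⟩
    rintro c hc x ⟨k, hk, hx⟩ y hy
    obtain ⟨u, hu, v, hv, huv⟩ := Submodule.mem_sup.1 hx
    obtain ⟨u', hu'⟩ := h.stab c hc u
    obtain ⟨v', hv'⟩ := h.stab c hc v
    refine ⟨k, hk, ?_⟩
    have h1 : T0 (k • y) = T0 (u' + v') := by
      rw [map_smul, ← hy, map_add, ← hu', ← hv', ← map_add, ← map_add, huv, map_smul, map_zsmul]
    rw [emb_inj h.emb h1]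
    exact Submodule.add_mem_sup (hU.2 c hc u hu u' hu') (hV.2 c hc v hv v' hv')

theorem emb_TT {sg : κ → Bool} {T0 : (ι → ℤ) →ₗ[ℤ] Cop κ E} (hT : Emb T0) (g : GE E) :
    Emb (TT sg T0 g) :=
  emb_cmp hT (repU sg g)

omit [FiniteDimensional ℝ E] [DecidableEq κ] in
private theorem mix_apply' (c : Matrix κ κ ℝ) (v : Cop κ E) (k : κ) :
    mix c v k = ∑ j, c j k • v j := rfl

theorem mix_rsp {sg : κ → Bool} {T0 : (ι → ℤ) →ₗ[ℤ] Cop κ E} {R : Subring (Matrix κ κ ℝ)}
    (h : ArD sg T0 R) {U : Submodule ℤ (ι → ℤ)} (hU : U ∈ RU T0 R) {c : Matrix κ κ ℝ}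
    (hc : ∀ j k, sg j ≠ sg k → c j k = 0) {v : Cop κ E} (hv : v ∈ rsp T0 U) :
    mix c v ∈ rsp T0 U := by
  have h1 : ∀ c ∈ R, mix c v ∈ rsp T0 U := by
    intro c hc
    unfold rsp at hv
    induction hv using Submodule.span_induction with
    | mem v hv =>
      obtain ⟨x, hx, rfl⟩ := hv
      obtain ⟨y, hy⟩ := h.stab c hc x
      rw [hy]
      exact Submodule.subset_span ⟨y, hU.2 c hc x hx y hy, rfl⟩
    | zero => rw [map_zero]; exact Submodule.zero_mem _
    | add v w _ _ ihv ihw => rw [map_add]; exact Submodule.add_mem _ ihv ihw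
    | smul a v _ ih => rw [map_smul]; exact Submodule.smul_mem _ _ ih
  have h2 := h.span c hc
  clear hc
  induction h2 using Submodule.span_induction with
  | mem c hc => exact h1 c hc
  | zero =>
    have h3 : mix (0 : Matrix κ κ ℝ) v = 0 := by
      ext k
      rw [mix_apply']
      simp
    rw [h3]
    exact Submodule.zero_mem _
  | add c d _ _ ihc ihd =>
    have h3 : mix (c + d) v = mix c v + mix d v := by
      ext k
      rw [PiLp.add_apply, mix_apply', mix_apply', mix_apply', ← Finset.sum_add_distrib]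
      refine Finset.sum_congr rfl fun j _ => ?_
      rw [Matrix.add_apply, add_smul]
    rw [h3]
    exact Submodule.add_mem _ ihc ihd
  | smul a c _ ih =>
    have h3 : mix (a • c) v = a • mix c v := by
      ext k
      rw [PiLp.smul_apply, mix_apply', mix_apply', Finset.smul_sum]
      refine Finset.sum_congr rfl fun j _ => ?_
      rw [Matrix.smul_apply, smul_eq_mul, mul_smul]
    rw [h3]
    exact Submodule.smul_mem _ _ ih

/-- the vector with one entry -/
private noncomputable def sing (k : κ) : E →ₗ[ℝ] Cop κ E :=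
  ((WithLp.linearEquiv 2 ℝ (κ → E)).symm : (κ → E) →ₗ[ℝ] Cop κ E) ∘ₗ LinearMap.single ℝ (fun _ => E) k

omit [FiniteDimensional ℝ E] in
private theorem sing_apply (k : κ) (w : E) (i : κ) :
    sing k w i = if i = k then w else 0 := by
  show (Pi.single k w : κ → E) i = _
  by_cases h : i = k
  · subst h
    rw [Pi.single_eq_same, if_pos rfl]
  · rw [Pi.single_eq_of_ne h, if_neg h]

theorem RU_shape {sg : κ → Bool} {T0 : (ι → ℤ) →ₗ[ℤ] Cop κ E} {R : Subring (Matrix κ κ ℝ)}
    (h : ArD sg T0 R) {U : Submodule ℤ (ι → ℤ)} (hU : U ∈ RU T0 R) :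
    ∃ W : Bool → Submodule ℝ E, ∀ v : Cop κ E, v ∈ rsp T0 U ↔ ∀ k, v k ∈ W (sg k) := by
  refine ⟨fun b => ⨅ k, ⨅ (_ : sg k = b), (rsp T0 U).comap (sing k), fun v => ⟨fun hv k => ?_, fun hv => ?_⟩⟩
  · rw [Submodule.mem_iInf]
    intro j
    rw [Submodule.mem_iInf]
    intro hj
    rw [Submodule.mem_comap]
    have h1 : sing j (v k) = mix (Matrix.single k j (1 : ℝ)) v := by
      ext i
      rw [sing_apply, mix_apply', Finset.sum_eq_single k]
      · by_cases hi : i = j
        · subst hi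
          rw [if_pos rfl, Matrix.single_apply_same, one_smul]
        · rw [if_neg hi, Matrix.single_apply_of_ne, zero_smul]
          exact fun hh => hi hh.2.symm
      · intro a _ ha
        rw [Matrix.single_apply_of_ne, zero_smul]
        exact fun hh => ha hh.1.symm
      · intro hh
        exact absurd (Finset.mem_univ _) hh
    rw [h1]
    refine mix_rsp h hU ?_ hv
    intro a b hab
    rw [Matrix.single_apply_of_ne]
    rintro ⟨rfl, rfl⟩
    exact hab hj.symm
  · have h1 : v = ∑ k, sing k (v k) := by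
      ext i
      rw [WithLp.ofLp_sum, Finset.sum_apply, Finset.sum_eq_single i]
      · rw [sing_apply, if_pos rfl]
      · intro j _ hj
        rw [sing_apply, if_neg hj.symm]
      · intro hh
        exact absurd (Finset.mem_univ _) hh
    rw [h1]
    refine Submodule.sum_mem _ fun k _ => ?_
    have h2 := hv k
    rw [Submodule.mem_iInf] at h2
    have h3 := h2 k
    rw [Submodule.mem_iInf] at h3
    exact h3 rfl

theorem rsp_TT (sg : κ → Bool) (T0 : (ι → ℤ) →ₗ[ℤ] Cop κ E) (g : GE E)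
    (U : Submodule ℤ (ι → ℤ)) :
    rsp (TT sg T0 g) U = (rsp T0 U).map ((rep sg g : Cop κ E →L[ℝ] Cop κ E) :
      Cop κ E →ₗ[ℝ] Cop κ E) := rsp_map _ _ _

private theorem map_RU {sg : κ → Bool} {T0 : (ι → ℤ) →ₗ[ℤ] Cop κ E} {R : Subring (Matrix κ κ ℝ)}
    (h : ArD sg T0 R) {γ : GE E} {τ : (ι → ℤ) ≃ₗ[ℤ] (ι → ℤ)}
    (hτ : ∀ x, rep sg γ (T0 x) = T0 (τ x)) {U : Submodule ℤ (ι → ℤ)} (hU : U ∈ RU T0 R) :
    U.map τ.toLinearMap ∈ RU T0 R := by
  refine ⟨?_, ?_⟩
  · intro k x hk hx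
    obtain ⟨u, hu, hux⟩ := hx
    have h1 : τ.symm x ∈ U := by
      refine hU.1 k _ hk ?_
      rw [← map_smul, ← hux]
      simpa using hu
    exact ⟨_, h1, by simp⟩
  · rintro c hc _ ⟨u, hu, rfl⟩ y hy
    obtain ⟨u', hu'⟩ := h.stab c hc u
    refine ⟨u', hU.2 c hc u hu u' hu', ?_⟩
    apply emb_inj h.emb
    have h1 : T0 (τ.toLinearMap u') = T0 (τ u') := rfl
    have h2 : mix c (T0 (τ u)) = T0 y := hy
    rw [h1, ← hτ, ← hu', ← mix_rep sg (h.block c hc), hτ, h2]

theorem Th_gam {sg : κ → Bool} {T0 : (ι → ℤ) →ₗ[ℤ] Cop κ E} {R : Subring (Matrix κ κ ℝ)}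
    (h : ArD sg T0 R) (C0 : ℝ) {γ : GE E} (hγ : γ ∈ LatPres sg T0) (g : GE E) :
    Th C0 (RU T0 R) sg T0 (g * γ) = Th C0 (RU T0 R) sg T0 g := by
  have hinj := emb_inj h.emb
  choose f hf using hγ.1
  choose f' hf' using hγ.2
  have hcanc : ∀ v, rep sg γ⁻¹ (rep sg γ v) = v := by
    intro v
    rw [← mul_apply_eq_comp, ← rep_mul, inv_mul_cancel, rep_one]
    rfl
  have hcanc' : ∀ v, rep sg γ (rep sg γ⁻¹ v) = v := by
    intro v
    rw [← mul_apply_eq_comp, ← rep_mul, mul_inv_cancel, rep_one]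
    rfl
  let τ : (ι → ℤ) ≃ₗ[ℤ] (ι → ℤ) :=
    { toFun := f
      invFun := f'
      map_add' := by
        intro x y
        apply hinj
        rw [← hf, map_add, map_add, map_add, hf, hf]
      map_smul' := by
        intro k x
        apply hinj
        rw [← hf, map_zsmul, map_zsmul, hf, RingHom.id_apply, map_zsmul]
      left_inv := by
        intro x
        apply hinj
        rw [← hf', ← hf, hcanc]
      right_inv := by
        intro x
        apply hinj
        rw [← hf, ← hf', hcanc'] }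
  have hτ : ∀ x, rep sg γ (T0 x) = T0 (τ x) := hf
  have hτ' : ∀ x, rep sg γ⁻¹ (T0 x) = T0 (τ.symm x) := hf'
  have hTT : TT sg T0 (g * γ) = TT sg T0 g ∘ₗ τ.toLinearMap := by
    apply LinearMap.ext
    intro x
    show rep sg (g * γ) (T0 x) = rep sg g (T0 (τ x))
    rw [← hτ, rep_mul]
    rfl
  have hth : ∀ U : Submodule ℤ (ι → ℤ), theta C0 (TT sg T0 (g * γ)) U =
      theta C0 (TT sg T0 g) (U.map τ.toLinearMap) := by
    intro U
    unfold theta
    rw [hTT, cov_map]
    have h1 : Module.finrank ℤ (U.map τ.toLinearMap) = Module.finrank ℤ U :=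
      LinearEquiv.finrank_map_eq τ U
    rw [h1]
  unfold Th Theta
  congr 1
  ext z
  constructor
  · rintro ⟨U, hU, rfl⟩
    exact ⟨U.map τ.toLinearMap, map_RU h hτ hU, (hth U).symm⟩
  · rintro ⟨U, hU, rfl⟩
    refine ⟨U.map τ.symm.toLinearMap, map_RU h hτ' hU, ?_⟩
    rw [hth]
    congr 1
    rw [← Submodule.map_comp]
    have h1 : (τ.toLinearMap ∘ₗ τ.symm.toLinearMap : (ι → ℤ) →ₗ[ℤ] (ι → ℤ)) = LinearMap.id := by
      apply LinearMap.ext
      intro x
      simp
    rw [h1, Submodule.map_id]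

private theorem finrank_Cop : Module.finrank ℝ (Cop κ E) = Fintype.card κ * Module.finrank ℝ E := by
  rw [(WithLp.linearEquiv 2 ℝ (κ → E)).finrank_eq, Module.finrank_pi_fintype, Finset.sum_const,
    Finset.card_univ, smul_eq_mul]

private theorem rep_inj [Nonempty κ] {sg : κ → Bool} {γ γ' : GE E} (h : rep sg γ = rep sg γ') :
    γ = γ' := by
  obtain ⟨k⟩ := ‹Nonempty κ›
  have h1 : ∀ w : E, (rep sg γ (sing k w)) k = (rep sg γ' (sing k w)) k := by
    intro w
    rw [h]
  unfold rep at h1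
  by_cases hk : sg k = true
  · apply Units.ext
    ext w
    have h2 := h1 w
    rw [blk_apply, blk_apply, if_pos hk, if_pos hk, sing_apply, if_pos rfl] at h2
    exact h2
  · have h3 : ContinuousLinearMap.adjoint ((γ⁻¹ : GE E) : E →L[ℝ] E) =
        ContinuousLinearMap.adjoint ((γ'⁻¹ : GE E) : E →L[ℝ] E) := by
      ext w
      have h2 := h1 w
      rw [blk_apply, blk_apply, if_neg hk, if_neg hk, sing_apply, if_pos rfl] at h2
      exact h2
    have h4 : γ⁻¹ = γ'⁻¹ := Units.ext ((ContinuousLinearMap.adjoint (𝕜 := ℝ) (E := E) (F := E)).injective h3)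
    exact inv_injective h4

theorem fin_gam [Nonempty κ] {sg : κ → Bool} {T0 : (ι → ℤ) →ₗ[ℤ] Cop κ E}
    {R : Subring (Matrix κ κ ℝ)} (h : ArD sg T0 R) (B : ℝ) :
    {γ : GE E | γ ∈ LatPres sg T0 ∧ ‖(γ : E →L[ℝ] E)‖ ≤ B ∧
      ‖((γ⁻¹ : GE E) : E →L[ℝ] E)‖ ≤ B}.Finite := by
  have ht : (Set.univ.pi fun i : ι => T0 '' {y : ι → ℤ | ‖T0 y‖ ≤ B * ‖T0 (Pi.single i 1)‖}).Finite :=
    Set.Finite.pi fun i => (finite_norm_le h.emb _).image _
  refine Set.Finite.of_injOn (f := fun (γ : GE E) (i : ι) => rep sg γ (T0 (Pi.single i 1))) ?_ ?_ ht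
  · rintro γ ⟨hγ, h1, h2⟩ i _
    obtain ⟨y, hy⟩ := hγ.1 (Pi.single i 1)
    refine ⟨y, ?_, hy.symm⟩
    show ‖T0 y‖ ≤ B * ‖T0 (Pi.single i 1)‖
    rw [← hy]
    refine (ContinuousLinearMap.le_opNorm _ _).trans ?_
    exact mul_le_mul_of_nonneg_right ((norm_rep_le sg γ).trans (max_le h1 h2)) (norm_nonneg _)
  · intro γ _ γ' _ hh
    apply rep_inj (sg := sg)
    have hspan : Submodule.span ℝ (Set.range fun i : ι => T0 (Pi.single i 1)) = ⊤ := by
      have hE : LinearIndependent ℝ (fun i : ι => T0 (Pi.single i 1)) := h.emb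
      refine hE.span_eq_top_of_card_eq_finrank' ?_
      rw [h.card_eq, finrank_Cop]
    have h3 : ((rep sg γ : Cop κ E →L[ℝ] Cop κ E) : Cop κ E →ₗ[ℝ] Cop κ E) =
        ((rep sg γ' : Cop κ E →L[ℝ] Cop κ E) : Cop κ E →ₗ[ℝ] Cop κ E) := by
      apply LinearMap.ext_on hspan
      rintro _ ⟨i, rfl⟩
      exact congr_fun hh i
    exact ContinuousLinearMap.coe_injective h3

end LatN
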