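import Pool.Agent.Lib.LatN.RepM

/-! Definitions for the arithmetic side (MP_2392aa_gt, class N). -/

open scoped Topology

namespace LatN

variable {E : Type*} [NormedAddCommGroup E] [InnerProductSpace ℝ E] [FiniteDimensional ℝ E]
variable {κ : Type*} [Fintype κ] [DecidableEq κ] {ι : Type*} [Fintype ι] [DecidableEq ι]

/-- arithmetic data: the lattice `T0 ℤ^ι` of the space of copies of `E` is stable under a ring `R`
of mixing matrices, block diagonal with respect to the signs, and `R` spans all such matrices -/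
structure ArD (sg : κ → Bool) (T0 : (ι → ℤ) →ₗ[ℤ] Cop κ E) (R : Subring (Matrix κ κ ℝ)) :
    Prop where
  emb : Emb T0
  card_eq : Fintype.card ι = Fintype.card κ * Module.finrank ℝ E
  block : ∀ c ∈ R, ∀ j k, sg j ≠ sg k → c j k = 0
  stab : ∀ c ∈ R, ∀ x, ∃ y, mix c (T0 x) = T0 y
  span : ∀ c : Matrix κ κ ℝ, (∀ j k, sg j ≠ sg k → c j k = 0) →
    c ∈ Submodule.span ℝ (R : Set (Matrix κ κ ℝ))

/-- saturated subgroups stable under the ring -/
def RU (T0 : (ι → ℤ) →ₗ[ℤ] Cop κ E) (R : Subring (Matrix κ κ ℝ)) :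
    Set (Submodule ℤ (ι → ℤ)) :=
  {U | Sat U ∧ ∀ c ∈ R, ∀ x ∈ U, ∀ y, mix c (T0 x) = T0 y → y ∈ U}

/-- real span of `T U` -/
def rsp {F : Type*} [NormedAddCommGroup F] [InnerProductSpace ℝ F] (T : (ι → ℤ) →ₗ[ℤ] F)
    (U : Submodule ℤ (ι → ℤ)) : Submodule ℝ F :=
  Submodule.span ℝ (T '' (U : Set (ι → ℤ)))

/-- operators preserving the lattice -/
def LatPres (sg : κ → Bool) (T0 : (ι → ℤ) →ₗ[ℤ] Cop κ E) : Subgroup (GE E) where
  carrier := {γ | (∀ x, ∃ y, rep sg γ (T0 x) = T0 y) ∧ ∀ x, ∃ y, rep sg γ⁻¹ (T0 x) = T0 y}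
  mul_mem' := by
    rintro a b ⟨ha, ha'⟩ ⟨hb, hb'⟩
    refine ⟨fun x => ?_, fun x => ?_⟩
    · obtain ⟨y, hy⟩ := hb x
      obtain ⟨z, hz⟩ := ha y
      exact ⟨z, by rw [rep_mul, mul_apply_eq_comp, hy, hz]⟩
    · obtain ⟨y, hy⟩ := ha' x
      obtain ⟨z, hz⟩ := hb' y
      exact ⟨z, by rw [mul_inv_rev, rep_mul, mul_apply_eq_comp, hy, hz]⟩
  one_mem' := by
    refine ⟨fun x => ⟨x, ?_⟩, fun x => ⟨x, ?_⟩⟩
    · rw [rep_one]; rfl
    · rw [inv_one, rep_one]; rfl
  inv_mem' := by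
    rintro a ⟨ha, ha'⟩
    exact ⟨ha', by rw [inv_inv]; exact ha⟩

/-- operators of determinant one preserving the lattice -/
noncomputable def Gam0 (sg : κ → Bool) (T0 : (ι → ℤ) →ₗ[ℤ] Cop κ E) : Subgroup (GE E) where
  carrier := {γ | γ ∈ LatPres sg T0 ∧ detu γ = 1}
  mul_mem' := by
    rintro a b ⟨ha, ha'⟩ ⟨hb, hb'⟩
    exact ⟨Subgroup.mul_mem _ ha hb, by rw [detu_mul, ha', hb', mul_one]⟩
  one_mem' := ⟨Subgroup.one_mem _, detu_one⟩
  inv_mem' := by
    rintro a ⟨ha, ha'⟩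
    exact ⟨Subgroup.inv_mem _ ha, by rw [detu_inv, ha', inv_one]⟩

/-- signs in the outer case -/
def sgo (κ : Type*) : κ ⊕ κ → Bool := Sum.elim (fun _ => true) (fun _ => false)

/-- the invariant pairing between the positive and the negative copies -/
noncomputable def pairo (κ : Type*) [Fintype κ] : Cop (κ ⊕ κ) E →ₗ[ℝ] Cop (κ ⊕ κ) E →ₗ[ℝ] ℝ :=
  LinearMap.mk₂ ℝ (fun v w => ∑ k : κ, (inner ℝ (v (Sum.inr k)) (w (Sum.inl k)) +
      inner ℝ (v (Sum.inl k)) (w (Sum.inr k))))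
    (by intro v v' w; simp only [PiLp.add_apply, inner_add_left, ← Finset.sum_add_distrib]
        refine Finset.sum_congr rfl fun k _ => ?_
        ring)
    (by intro a v w; simp only [PiLp.smul_apply, real_inner_smul_left, smul_eq_mul,
          Finset.mul_sum, mul_add])
    (by intro v w w'; simp only [PiLp.add_apply, inner_add_right, ← Finset.sum_add_distrib]
        refine Finset.sum_congr rfl fun k _ => ?_
        ring)
    (by intro a v w; simp only [PiLp.smul_apply, real_inner_smul_right, smul_eq_mul,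
          Finset.mul_sum, mul_add])

/-- the diagonal matrix with entries `r` on the positive and `-r` on the negative copies -/
def sdiag (κ : Type*) [DecidableEq κ] (r : ℝ) : Matrix (κ ⊕ κ) (κ ⊕ κ) ℝ :=
  Matrix.diagonal (Sum.elim (fun _ => r) (fun _ => -r))

/-- outer arithmetic data: the pairing is rational on the lattice and the ring contains the square
root of a positive integer which is not a square -/
structure OuD {κ : Type*} [Fintype κ] [DecidableEq κ] (T0 : (ι → ℤ) →ₗ[ℤ] Cop (κ ⊕ κ) E)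
    (R : Subring (Matrix (κ ⊕ κ) (κ ⊕ κ) ℝ)) : Prop where
  ar : ArD (sgo κ) T0 R
  int : ∃ M : ℤ, M ≠ 0 ∧ ∀ x y, ∃ k : ℤ, (M : ℝ) * pairo κ (T0 x) (T0 y) = k
  sqrt : ∃ D : ℕ, ¬ IsSquare D ∧ sdiag κ (Real.sqrt D) ∈ R

end LatN
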