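import Pool.Agent.Lib.LatN.PathP

/-!
# Coarse: coarse connectivity of the thick part of the region `‖g x‖ ≤ t`

Proof of `coarse_conn`. Let `C2` be the constant of `path_push`, `C ≥ C2`, `g₁, g₂` of determinant
one, thinness `≤ C`, `‖g_i x‖ ≤ t`. By `exists_polar` for `g₂ g₁⁻¹` there is a self-adjoint `X` of
trace zero such that `k = g₂ g₁⁻¹ (eU X)⁻¹` preserves norms. Let `p s = eU (s • X) * g₁`,
`s ∈ [0,1]`: continuous, determinant one (`eU_det`, `detu_mul`), `p 0 = g₁`, `p 1 = k⁻¹ g₂`.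
By `eU_segment` `‖p s x‖ ≤ max ‖g₁ x‖ ‖k⁻¹ g₂ x‖ = max ‖g₁ x‖ ‖g₂ x‖ ≤ t`. Thinness along `p` is at
most `Th g₁ + N ‖X‖` (`near_mono`, `eU_norm_le`). `Th (k⁻¹ g₂) = Th g₂` by `near_mono` with `a = 0`
(`‖k‖, ‖k⁻¹‖ ≤ 1 = exp 0`). `path_push` gives `q` and chains from `p s` to `q s`:
* chain from `g₁ = p 0` to `q 0`;
* chain from `q 0` to `q 1`: the function `(s, s') ↦ ‖q s' (q s)⁻¹‖` is continuous on the compact
  square and `≤ 1` on the diagonal, so by uniform continuity there is `n ≥ 1` such that it is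
  `≤ 2` for `|s - s'| ≤ 1/n`; use `q (i/n)`, `i = 0..n` (both quotients);
* chain from `q 1` to `p 1 = k⁻¹ g₂` (reversed: `stepG_symm`,
  `Relation.ReflTransGen.symmetric`);
* the step from `k⁻¹ g₂` to `g₂`: the quotients are `k` and `k⁻¹`, norms `≤ 1 ≤ 2`.
All in the region with constants `C` and `t` (`stepG_mono`).
-/

open scoped Topology

namespace LatN

variable {E : Type*} [NormedAddCommGroup E] [InnerProductSpace ℝ E] [FiniteDimensional ℝ E]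
variable {κ : Type*} [Fintype κ] [DecidableEq κ] {ι : Type*} [Fintype ι] [DecidableEq ι]

private theorem symm_chain {sg : κ → Bool} {T0 : (ι → ℤ) →ₗ[ℤ] Cop κ E} {C0 : ℝ}
    {𝒰 : Set (Submodule ℤ (ι → ℤ))} {C : ℝ} {x : E} {t : ℝ} {a b : GE E}
    (h : Relation.ReflTransGen (stepG C0 𝒰 sg T0 C x t) a b) :
    Relation.ReflTransGen (stepG C0 𝒰 sg T0 C x t) b a := by
  induction h with
  | refl => exact Relation.ReflTransGen.refl
  | tail _ h2 ih => exact Relation.ReflTransGen.head (stepG_symm h2) ih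

omit [FiniteDimensional ℝ E] in
private theorem small_steps {q : unitInterval → GE E} (hq : Continuous q) :
    ∃ n : ℕ, 0 < n ∧ ∀ s s' : unitInterval, |(s' : ℝ) - s| ≤ 1 / (n : ℝ) →
      ‖((q s' * (q s)⁻¹ : GE E) : E →L[ℝ] E)‖ ≤ 2 := by
  have hF : Continuous fun z : unitInterval × unitInterval =>
      ‖((q z.2 * (q z.1)⁻¹ : GE E) : E →L[ℝ] E)‖ := by
    have h1 : Continuous fun z : unitInterval × unitInterval => ((q z.2 : GE E) : E →L[ℝ] E) :=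
      Units.continuous_val.comp (hq.comp continuous_snd)
    have h2 : Continuous fun z : unitInterval × unitInterval => (((q z.1)⁻¹ : GE E) : E →L[ℝ] E) :=
      Units.continuous_coe_inv.comp (hq.comp continuous_fst)
    exact (h1.mul h2).norm
  have hU := CompactSpace.uniformContinuous_of_continuous hF
  rw [Metric.uniformContinuous_iff] at hU
  obtain ⟨δ, hδ, hδ'⟩ := hU 1 one_pos
  obtain ⟨n, hn⟩ := exists_nat_one_div_lt hδ
  refine ⟨n + 1, Nat.succ_pos n, fun s s' hs => ?_⟩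
  have h1 : dist (s, s') (s, s) < δ := by
    rw [Prod.dist_eq, dist_self, max_lt_iff]
    refine ⟨hδ, lt_of_le_of_lt ?_ hn⟩
    rw [Subtype.dist_eq, Real.dist_eq]
    push_cast at hs
    exact hs
  have h2 := hδ' h1
  rw [Real.dist_eq] at h2
  have h3 : ‖((q s * (q s)⁻¹ : GE E) : E →L[ℝ] E)‖ ≤ 1 := by
    rw [mul_inv_cancel, Units.val_one]
    exact ContinuousLinearMap.norm_id_le
  have h4 := (abs_lt.1 h2).2
  have h5 : ‖((q s' * (q s)⁻¹ : GE E) : E →L[ℝ] E)‖ - ‖((q s * (q s)⁻¹ : GE E) : E →L[ℝ] E)‖ < 1 := h4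
  linarith

theorem coarse_conn {sg : κ → Bool} {T0 : (ι → ℤ) →ₗ[ℤ] Cop κ E} (hT : Emb T0) {C0 : ℝ}
    (hC : 0 < C0) {𝒰 : Set (Submodule ℤ (ι → ℤ))} (h𝒰 : Adm 𝒰)
    (hn : 2 ≤ Module.finrank ℝ E) (hX : XEX C0 𝒰 sg T0) :
    ∃ C2 : ℝ, ∀ C ≥ C2, ∀ x : E, x ≠ 0 → ∀ t : ℝ, ∀ g1 g2 : GE E,
      detu g1 = 1 → detu g2 = 1 → Th C0 𝒰 sg T0 g1 ≤ C → Th C0 𝒰 sg T0 g2 ≤ C →
      ‖(g1 : E →L[ℝ] E) x‖ ≤ t → ‖(g2 : E →L[ℝ] E) x‖ ≤ t →
      Relation.ReflTransGen (stepG C0 𝒰 sg T0 C x t) g1 g2 := by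
  obtain ⟨C2, hpush⟩ := path_push hT hC h𝒰 hn hX
  refine ⟨C2, ?_⟩
  intro C hC2 x hx t g1 g2 hd1 hd2 hT1 hT2 hx1 hx2
  have hd21 : detu (g2 * g1⁻¹) = 1 := by rw [detu_mul, detu_inv, hd1, hd2, inv_one, mul_one]
  obtain ⟨X, hXs, hXt, hk⟩ := exists_polar (g2 * g1⁻¹) hd21
  obtain ⟨k, hkdef⟩ : ∃ k : GE E, k = (g2 * g1⁻¹) * (eU X)⁻¹ := ⟨_, rfl⟩
  rw [← hkdef] at hk
  have hk1 : k * (eU X * g1) = g2 := by
    rw [hkdef]
    group
  have hk2 : ∀ v, ‖((k⁻¹ : GE E) : E →L[ℝ] E) v‖ = ‖v‖ := by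
    intro v
    rw [← hk]
    congr 1
    show ((k * k⁻¹ : GE E) : E →L[ℝ] E) v = v
    rw [mul_inv_cancel]
    rfl
  have hkn : ‖(k : E →L[ℝ] E)‖ ≤ 1 :=
    ContinuousLinearMap.opNorm_le_bound _ zero_le_one fun v => by rw [hk, one_mul]
  have hkn' : ‖((k⁻¹ : GE E) : E →L[ℝ] E)‖ ≤ 1 :=
    ContinuousLinearMap.opNorm_le_bound _ zero_le_one fun v => by rw [hk2, one_mul]
  -- the path
  obtain ⟨p, hp⟩ : ∃ p : unitInterval → GE E, ∀ s, p s = eU ((s : ℝ) • X) * g1 := ⟨_, fun _ => rfl⟩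
  have hpc : Continuous p := by
    have h1 : Continuous fun s : unitInterval => eU ((s : ℝ) • X) * g1 :=
      (eU_continuous.comp (continuous_subtype_val.smul continuous_const)).mul continuous_const
    rw [show p = fun s : unitInterval => eU ((s : ℝ) • X) * g1 from funext hp]
    exact h1
  have hpd : ∀ s, detu (p s) = 1 := by
    intro s
    have h1 : LinearMap.trace ℝ E (((s : ℝ) • X : E →L[ℝ] E) : E →ₗ[ℝ] E) = 0 := by
      have h2 : (((s : ℝ) • X : E →L[ℝ] E) : E →ₗ[ℝ] E) = (s : ℝ) • (X : E →ₗ[ℝ] E) := rfl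
      rw [h2, map_smul, hXt, smul_zero]
    rw [hp, detu_mul, eU_det (IsSelfAdjoint.smul (IsSelfAdjoint.all (s : ℝ)) hXs) h1, hd1, one_mul]
  have hp0 : p 0 = g1 := by
    rw [hp, Set.Icc.coe_zero, zero_smul, eU_zero, one_mul]
  have hp1 : p 1 = eU X * g1 := by
    rw [hp, Set.Icc.coe_one, one_smul]
  have hend : ‖((eU X * g1 : GE E) : E →L[ℝ] E) x‖ = ‖(g2 : E →L[ℝ] E) x‖ := by
    rw [← hk, ← hk1]
    rfl
  have hpx : ∀ s, ‖((p s : GE E) : E →L[ℝ] E) x‖ ≤ t := by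
    intro s
    have h1 := eU_segment hXs ((g1 : E →L[ℝ] E) x) s.2.1 s.2.2
    have h2 : ((p s : GE E) : E →L[ℝ] E) x =
        ((eU ((s : ℝ) • X) : GE E) : E →L[ℝ] E) ((g1 : E →L[ℝ] E) x) := by
      rw [hp]
      rfl
    rw [h2]
    refine h1.trans (max_le hx1 ?_)
    refine le_trans (le_of_eq ?_) hx2
    exact hend
  have hnX : ∀ s : unitInterval, ‖(s : ℝ) • X‖ ≤ ‖X‖ := by
    intro s
    rw [norm_smul, Real.norm_of_nonneg s.2.1]
    calc (s : ℝ) * ‖X‖ ≤ 1 * ‖X‖ := mul_le_mul_of_nonneg_right s.2.2 (norm_nonneg _)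
      _ = ‖X‖ := one_mul _
  have hpT : ∀ s, Th C0 𝒰 sg T0 (p s) ≤ Th C0 𝒰 sg T0 g1 + Fintype.card ι * ‖X‖ := by
    intro s
    have e1 : p s * g1⁻¹ = eU ((s : ℝ) • X) := by rw [hp, mul_inv_cancel_right]
    have e2 : g1 * (p s)⁻¹ = eU (-((s : ℝ) • X)) := by
      rw [hp, mul_inv_rev, mul_inv_cancel_left, eU_inv]
    have h1 : ‖((p s * g1⁻¹ : GE E) : E →L[ℝ] E)‖ ≤ Real.exp ‖X‖ := by
      rw [e1]
      exact (eU_norm_le _).trans (Real.exp_le_exp.2 (hnX s))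
    have h2 : ‖((g1 * (p s)⁻¹ : GE E) : E →L[ℝ] E)‖ ≤ Real.exp ‖X‖ := by
      rw [e2]
      refine (eU_norm_le _).trans (Real.exp_le_exp.2 ?_)
      rw [norm_neg]
      exact hnX s
    have h3 := (near_mono (sg := sg) hT hC.le h𝒰 h1 h2).1
    have h4 := (abs_le.1 h3).2
    linarith
  have hT3 : Th C0 𝒰 sg T0 (p 1) ≤ C := by
    have e1 : p 1 * g2⁻¹ = k⁻¹ := by
      rw [hp1, ← hk1]
      group
    have e2 : g2 * (p 1)⁻¹ = k := by
      rw [hp1, ← hk1]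
      group
    have h1 : ‖((p 1 * g2⁻¹ : GE E) : E →L[ℝ] E)‖ ≤ Real.exp 0 := by
      rw [e1, Real.exp_zero]
      exact hkn'
    have h2 : ‖((g2 * (p 1)⁻¹ : GE E) : E →L[ℝ] E)‖ ≤ Real.exp 0 := by
      rw [e2, Real.exp_zero]
      exact hkn
    have h3 := (near_mono (sg := sg) hT hC.le h𝒰 h1 h2).1
    rw [mul_zero] at h3
    have h4 := (abs_le.1 h3).2
    linarith
  obtain ⟨q, hqc, hq, hchain⟩ := hpush x hx p hpc hpd _ hpT
  -- chain from `q 0` to `q 1`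
  obtain ⟨n, hn0, hn⟩ := small_steps hqc
  have hn0' : (0 : ℝ) < n := by exact_mod_cast hn0
  have hq01 : ∀ i : ℕ, Relation.ReflTransGen (stepG C0 𝒰 sg T0 C x t) (q 0)
      (q (Set.projIcc (0 : ℝ) 1 zero_le_one ((i : ℝ) / n))) := by
    intro i
    induction i with
    | zero =>
      have h1 : Set.projIcc (0 : ℝ) 1 zero_le_one (((0 : ℕ) : ℝ) / n) = 0 := by
        rw [Nat.cast_zero, zero_div]
        exact Set.projIcc_left zero_le_one
      rw [h1]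
    | succ i ih =>
      refine ih.tail ?_
      have h1 : |((Set.projIcc (0 : ℝ) 1 zero_le_one (((i + 1 : ℕ) : ℝ) / n) : unitInterval) : ℝ) -
          (Set.projIcc (0 : ℝ) 1 zero_le_one ((i : ℝ) / n) : unitInterval)| ≤ 1 / n := by
        refine (Set.abs_projIcc_sub_projIcc zero_le_one).trans (le_of_eq ?_)
        have h2 : (((i + 1 : ℕ) : ℝ) / n - (i : ℝ) / n) = 1 / n := by
          push_cast
          ring
        rw [h2, abs_of_pos (by positivity)]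
      refine ⟨⟨(hq _).1, (hq _).2.1.trans hC2, (hq _).2.2.trans (hpx _)⟩,
        ⟨(hq _).1, (hq _).2.1.trans hC2, (hq _).2.2.trans (hpx _)⟩, hn _ _ h1, hn _ _ ?_⟩
      rw [abs_sub_comm]
      exact h1
  have hq1 := hq01 n
  rw [div_self hn0'.ne', show Set.projIcc (0 : ℝ) 1 zero_le_one 1 = (1 : unitInterval) from
    Set.projIcc_right zero_le_one] at hq1
  have hchain' : ∀ s, Th C0 𝒰 sg T0 (p s) ≤ C →
      Relation.ReflTransGen (stepG C0 𝒰 sg T0 C x t) (p s) (q s) := by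
    intro s hs
    refine Relation.ReflTransGen.mono ?_ _ _ (hchain s)
    intro a b hab
    exact stepG_mono (max_le hs hC2) (hpx s) hab
  have c1 := hchain' 0 (by rw [hp0]; exact hT1)
  rw [hp0] at c1
  have c3 := symm_chain (hchain' 1 hT3)
  refine (c1.trans hq1).trans (c3.tail ?_)
  have e1 : p 1 * g2⁻¹ = k⁻¹ := by
    rw [hp1, ← hk1]
    group
  have e2 : g2 * (p 1)⁻¹ = k := by
    rw [hp1, ← hk1]
    group
  refine ⟨⟨hpd 1, hT3, hpx 1⟩, ⟨hd2, hT2, hx2⟩, ?_, ?_⟩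
  · rw [e2]
    linarith
  · rw [e1]
    linarith

end LatN
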