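import Pool.Agent.Lib.LatN.GramDiag

/-!
# CovBasic: basic properties of covolumes

`T : ℤ^ι → F` with `Emb T`: the images of the unit vectors are linearly independent over `ℝ`.

Proofs.
* `emb_li`: the real linear extension `T' : (ι → ℝ) → F`, `T' e_i = T e_i`, is injective and
  `T x = T' (x as a real vector)`. Integer vectors `x_1, ..., x_r` which are linearly independent
  over `ℤ` are so over `ℚ` (clear denominators), hence the integer `r × ι` matrix has rank `r` over
  `ℚ`, so a nonzero `r × r` minor, so rank `r` over `ℝ`. (Mathlib: e.g.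
  `LinearIndependent.iff_fractionRing`, `Matrix.rank`..., or extend the `x_i` by unit vectors to a
  `ℚ`-basis of `ℚ^ι`: the determinant is a nonzero rational number.)
* `cov_eq`: two bases of `U` are related by an integer matrix of determinant `±1`
  (`Module.Basis.toMatrix`, `vsq_comb`, `vsq_reindex`); note `card α = finrank ℤ U`.
* `cov_pos`: `vsq_pos`, `emb_li` (the vectors `(b i : ι → ℤ)` of a basis of `U` are linearly
  independent over `ℤ`). `cov_bot`: empty family, determinant one.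
* `cov_le_of_li`: write the `x i` in the basis `ubas U`: integer matrix `M` with nonzero determinant
  (independence), so `(det M)² ≥ 1`, `vsq_comb`.
* `cov_cmp_le`: `vsq_le_opNorm` (independence by `emb_li`) and `Real.sqrt`.
* `cov_map`: the images of a basis of `U` under `τ` are a basis of `U.map τ`, `cov_eq`.
-/

namespace LatN

variable {F : Type*} [NormedAddCommGroup F] [InnerProductSpace ℝ F]
variable {ι : Type*} [Fintype ι] [DecidableEq ι]

omit [DecidableEq ι] in
private theorem T_sum_int (T : (ι → ℤ) →ₗ[ℤ] F) {α : Type*} [Fintype α] (c : α → ℤ)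
    (v : α → (ι → ℤ)) : T (∑ i, c i • v i) = ∑ i, ((c i : ℤ) : ℝ) • T (v i) := by
  rw [map_sum]
  refine Finset.sum_congr rfl fun i _ => ?_
  rw [map_smul, Int.cast_smul_eq_zsmul ℝ]

theorem emb_li {T : (ι → ℤ) →ₗ[ℤ] F} (hT : Emb T) {α : Type*} {x : α → (ι → ℤ)}
    (hx : LinearIndependent ℤ x) : LinearIndependent ℝ (fun i => T (x i)) := by
  have h1 : LinearIndependent ℝ (fun i => algebraMap ℤ ℝ ∘ x i) :=
    linearIndependent_algebraMap_comp_iff.2 hx
  have h2 : LinearMap.ker (Fintype.linearCombination ℝ (fun i => T (Pi.single i 1))) = ⊥ :=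
    LinearMap.ker_eq_bot'.2 fun c hc => funext fun i => Fintype.linearIndependent_iff.1 hT c hc i
  have h3 := h1.map' _ h2
  suffices h5 : (fun i => T (x i)) = (⇑(Fintype.linearCombination ℝ (fun i => T (Pi.single i 1))) ∘
      fun i => ⇑(algebraMap ℤ ℝ) ∘ x i) by
    rw [h5]
    exact h3
  funext i
  rw [Function.comp_apply, Fintype.linearCombination_apply]
  have h4 : x i = ∑ j, x i j • (Pi.single j 1 : ι → ℤ) := by
    conv_lhs => rw [← Finset.univ_sum_single (x i)]
    refine Finset.sum_congr rfl fun j _ => ?_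
    rw [← Pi.single_smul, smul_eq_mul, mul_one]
  conv_lhs => rw [h4]
  rw [T_sum_int]
  rfl

theorem ubas_li (U : Submodule ℤ (ι → ℤ)) :
    LinearIndependent ℤ (fun i => ((ubas U i : U) : ι → ℤ)) :=
  (ubas U).linearIndependent.map' U.subtype U.ker_subtype

omit [DecidableEq ι] in
private theorem vsq_int_comb (T : (ι → ℤ) →ₗ[ℤ] F) {α : Type*} [Fintype α] [DecidableEq α]
    (M : Matrix α α ℤ) (v : α → (ι → ℤ)) :
    vsq (fun j => T (∑ i, M i j • v i)) = ((M.det : ℤ) : ℝ) ^ 2 * vsq (fun i => T (v i)) := by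
  have h1 : (fun j => T (∑ i, M i j • v i)) =
      fun j => ∑ i, (M.map (Int.cast : ℤ → ℝ)) i j • T (v i) := by
    funext j
    rw [T_sum_int]
    rfl
  rw [h1, vsq_comb, Int.cast_det]

omit [DecidableEq ι] in
private theorem vsq_in_basis (T : (ι → ℤ) →ₗ[ℤ] F) {U : Submodule ℤ (ι → ℤ)} {α : Type*} [Fintype α]
    [DecidableEq α] (b : Module.Basis α ℤ U) (y : α → U) :
    vsq (fun j => T (y j)) = (((b.toMatrix y).det : ℤ) : ℝ) ^ 2 * vsq (fun i => T (b i)) := by
  rw [← vsq_int_comb T (b.toMatrix y) (fun i => ((b i : U) : ι → ℤ))]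
  congr 1
  funext j
  congr 1
  conv_lhs => rw [← b.sum_toMatrix_smul_self y j]
  push_cast
  rfl

theorem cov_eq (T : (ι → ℤ) →ₗ[ℤ] F) {U : Submodule ℤ (ι → ℤ)} {α : Type*} [Fintype α]
    [DecidableEq α] (b : Module.Basis α ℤ U) :
    cov T U = Real.sqrt (vsq fun i => T (b i)) := by
  have e : α ≃ Fin (Module.finrank ℤ U) := b.indexEquiv (ubas U)
  have h1 : vsq (fun i => T (b i)) = vsq (fun i => T ((b.reindex e) i)) := by
    rw [← vsq_reindex e (fun i => T ((b.reindex e) i))]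
    congr 1
    funext i
    rw [Module.Basis.reindex_apply, Equiv.symm_apply_apply]
  have h2 := vsq_in_basis T (ubas U) (fun i => (b.reindex e) i)
  have h3 : IsUnit ((ubas U).toMatrix (fun i => (b.reindex e) i)).det := by
    refine IsUnit.of_mul_eq_one (((b.reindex e).toMatrix (ubas U)).det) ?_
    rw [← Matrix.det_mul, Module.Basis.toMatrix_mul_toMatrix_flip, Matrix.det_one]
  have h4 : ((((ubas U).toMatrix (fun i => (b.reindex e) i)).det : ℤ) : ℝ) ^ 2 = 1 := by
    rcases Int.isUnit_iff.1 h3 with h | h <;> rw [h] <;> norm_num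
  rw [h4, one_mul] at h2
  rw [cov, h1, h2]

theorem cov_pos {T : (ι → ℤ) →ₗ[ℤ] F} (hT : Emb T) (U : Submodule ℤ (ι → ℤ)) :
    0 < cov T U :=
  Real.sqrt_pos.2 (vsq_pos (emb_li hT (ubas_li U)))

theorem cov_bot (T : (ι → ℤ) →ₗ[ℤ] F) : cov T ⊥ = 1 := by
  rw [cov_eq T (Module.Basis.empty (ι := Fin 0) (⊥ : Submodule ℤ (ι → ℤ)))]
  rw [vsq, Matrix.det_isEmpty, Real.sqrt_one]

theorem cov_top (T : (ι → ℤ) →ₗ[ℤ] F) :
    cov T ⊤ = Real.sqrt (vsq fun i : ι => T (Pi.single i 1)) := by
  rw [cov_eq T ((Pi.basisFun ℤ ι).map Submodule.topEquiv.symm)]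
  congr 2
  funext i
  rw [Module.Basis.map_apply, Pi.basisFun_apply]
  rfl

theorem cov_le_of_li {T : (ι → ℤ) →ₗ[ℤ] F} (hT : Emb T) {U : Submodule ℤ (ι → ℤ)}
    {α : Type*} [Fintype α] [DecidableEq α] (hc : Fintype.card α = Module.finrank ℤ U)
    (x : α → (ι → ℤ)) (hx : ∀ i, x i ∈ U) (hli : LinearIndependent ℤ x) :
    cov T U ≤ Real.sqrt (vsq fun i => T (x i)) := by
  have e : Fin (Module.finrank ℤ U) ≃ α := Fintype.equivOfCardEq (by rw [Fintype.card_fin, hc])
  have h1 : vsq (fun i => T (x i)) = vsq (fun i => T (x (e i))) :=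
    (vsq_reindex e (fun i => T (x i))).symm
  let y : Fin (Module.finrank ℤ U) → U := fun i => ⟨x (e i), hx _⟩
  have h2 := vsq_in_basis T (ubas U) y
  have h3 : ((ubas U).toMatrix y).det ≠ 0 := by
    intro h0
    obtain ⟨c, hc0, hc⟩ := Matrix.exists_mulVec_eq_zero_iff.2 h0
    apply hc0
    have h4 : ∑ j, c j • y j = 0 := by
      apply (ubas U).repr.injective
      ext i
      rw [map_sum, map_zero, Finsupp.finsetSum_apply, Finsupp.zero_apply]
      have h5 := congr_fun hc i
      rw [Matrix.mulVec, dotProduct, Pi.zero_apply] at h5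
      rw [← h5]
      refine Finset.sum_congr rfl fun j _ => ?_
      rw [map_smul, Finsupp.smul_apply, smul_eq_mul, Module.Basis.toMatrix_apply, mul_comm]
    have h6 : ∑ j, c j • x (e j) = 0 := by
      have := congrArg (fun u : U => (u : ι → ℤ)) h4
      push_cast at this
      exact this
    have h7 := Fintype.linearIndependent_iff.1 (hli.comp e e.injective) c h6
    funext j
    exact h7 j
  have h8 : (1 : ℝ) ≤ ((((ubas U).toMatrix y).det : ℤ) : ℝ) ^ 2 := by
    have h9 : (1 : ℤ) ≤ ((ubas U).toMatrix y).det ^ 2 := by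
      have := sq_pos_of_ne_zero h3
      omega
    exact_mod_cast h9
  rw [cov, h1]
  apply Real.sqrt_le_sqrt
  have h10 : vsq (fun i => T (x (e i))) = vsq (fun i => T (y i)) := rfl
  rw [h10, h2]
  have h11 := vsq_nonneg (fun i => T ((ubas U i : U) : ι → ℤ))
  nlinarith

theorem cov_cmp_le [FiniteDimensional ℝ F] {T : (ι → ℤ) →ₗ[ℤ] F} (hT : Emb T)
    (U : Submodule ℤ (ι → ℤ)) (h : F →L[ℝ] F) :
    cov (cmp h T) U ≤ ‖h‖ ^ (Module.finrank ℤ U) * cov T U := by
  have h1 := vsq_le_opNorm (emb_li hT (ubas_li U)) h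
  rw [Fintype.card_fin] at h1
  have h2 : cov (cmp h T) U ≤ Real.sqrt (‖h‖ ^ (2 * Module.finrank ℤ U) *
      vsq (fun i => T ((ubas U i : U) : ι → ℤ))) := Real.sqrt_le_sqrt h1
  refine h2.trans (le_of_eq ?_)
  rw [Real.sqrt_mul (by positivity), mul_comm 2, pow_mul, Real.sqrt_sq (by positivity)]
  rfl

theorem cov_map (T : (ι → ℤ) →ₗ[ℤ] F) (τ : (ι → ℤ) ≃ₗ[ℤ] (ι → ℤ))
    (U : Submodule ℤ (ι → ℤ)) :
    cov (T ∘ₗ τ.toLinearMap) U = cov T (U.map τ.toLinearMap) := by
  rw [cov_eq T ((ubas U).map (τ.submoduleMap U)), cov]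
  rfl

end LatN
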