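import Mathlib

/-! Definitions for the push-out argument (lattices of `SL_n(ℝ)` without horns), MP_2392aa_gt. -/

open scoped Topology

namespace LatN

section gram
variable {F : Type*} [NormedAddCommGroup F] [InnerProductSpace ℝ F]

/-- squared volume of a finite family -/
noncomputable def vsq {α : Type*} [Fintype α] [DecidableEq α] (v : α → F) : ℝ :=
  (Matrix.gram ℝ v).det

/-- logarithmic derivative of the volume of `v` in the direction of the operator `A` -/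
noncomputable def dlog {α : Type*} [Fintype α] [DecidableEq α] (A : F →L[ℝ] F) (v : α → F) : ℝ :=
  ((Matrix.gram ℝ v)⁻¹ * Matrix.of fun i j => inner ℝ (A (v i)) (v j)).trace

end gram

section lat
variable {F : Type*} [NormedAddCommGroup F] [InnerProductSpace ℝ F]
variable {ι : Type*} [Fintype ι] [DecidableEq ι]

/-- the images of the unit vectors are linearly independent over `ℝ` -/
def Emb (T : (ι → ℤ) →ₗ[ℤ] F) : Prop :=
  LinearIndependent ℝ fun i => T (Pi.single i 1)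

/-- a fixed basis of a subgroup of `ℤ^ι` -/
noncomputable def ubas (U : Submodule ℤ (ι → ℤ)) :
    Module.Basis (Fin (Module.finrank ℤ U)) ℤ U :=
  Module.finBasis ℤ U

/-- covolume of `T U` in its real span -/
noncomputable def cov (T : (ι → ℤ) →ₗ[ℤ] F) (U : Submodule ℤ (ι → ℤ)) : ℝ :=
  Real.sqrt (vsq fun i => T (ubas U i))

/-- saturated subgroups -/
def Sat (U : Submodule ℤ (ι → ℤ)) : Prop :=
  ∀ (k : ℤ) (x : ι → ℤ), k ≠ 0 → k • x ∈ U → x ∈ U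

/-- saturation -/
def satur (U : Submodule ℤ (ι → ℤ)) : Submodule ℤ (ι → ℤ) where
  carrier := {x | ∃ k : ℤ, k ≠ 0 ∧ k • x ∈ U}
  zero_mem' := ⟨1, one_ne_zero, by simp⟩
  add_mem' := by
    rintro x y ⟨k, hk, hx⟩ ⟨l, hl, hy⟩
    refine ⟨k * l, mul_ne_zero hk hl, ?_⟩
    rw [smul_add]
    refine U.add_mem ?_ ?_
    · rw [mul_comm, mul_smul]; exact U.smul_mem _ hx
    · rw [mul_smul]; exact U.smul_mem _ hy
  smul_mem' := by
    rintro c x ⟨k, hk, hx⟩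
    exact ⟨k, hk, by rw [smul_comm]; exact U.smul_mem _ hx⟩

/-- composition of a lattice embedding with an operator -/
noncomputable def cmp (h : F →L[ℝ] F) (T : (ι → ℤ) →ₗ[ℤ] F) : (ι → ℤ) →ₗ[ℤ] F :=
  ((h : F →ₗ[ℝ] F).restrictScalars ℤ) ∘ₗ T

omit [Fintype ι] [DecidableEq ι] in
@[simp] theorem cmp_apply (h : F →L[ℝ] F) (T : (ι → ℤ) →ₗ[ℤ] F) (x : ι → ℤ) :
    cmp h T x = h (T x) := rfl

/-- admissible families of subgroups -/
structure Adm (𝒰 : Set (Submodule ℤ (ι → ℤ))) : Prop where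
  sat : ∀ U ∈ 𝒰, Sat U
  bot : ⊥ ∈ 𝒰
  top : ⊤ ∈ 𝒰
  inf : ∀ U ∈ 𝒰, ∀ V ∈ 𝒰, U ⊓ V ∈ 𝒰
  sup : ∀ U ∈ 𝒰, ∀ V ∈ 𝒰, satur (U ⊔ V) ∈ 𝒰

/-- the potential of a subgroup -/
noncomputable def theta (C0 : ℝ) (T : (ι → ℤ) →ₗ[ℤ] F) (U : Submodule ℤ (ι → ℤ)) : ℝ :=
  - Real.log (cov T U)
    - C0 * (Module.finrank ℤ U : ℝ) * ((Fintype.card ι : ℝ) - (Module.finrank ℤ U : ℝ))

/-- the maximal potential -/
noncomputable def Theta (C0 : ℝ) (𝒰 : Set (Submodule ℤ (ι → ℤ))) (T : (ι → ℤ) →ₗ[ℤ] F) : ℝ :=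
  sSup (theta C0 T '' 𝒰)

end lat

section rep
variable {E : Type*} [NormedAddCommGroup E] [InnerProductSpace ℝ E] [FiniteDimensional ℝ E]
variable {κ : Type*} [Fintype κ] [DecidableEq κ]

/-- several copies of `E` -/
abbrev Cop (κ E : Type*) [Fintype κ] [NormedAddCommGroup E] [InnerProductSpace ℝ E] :=
  PiLp 2 (fun _ : κ => E)

/-- the operator acting by `A` on the copies with sign `true` and by `B` on the others -/
noncomputable def blk (sg : κ → Bool) (A B : E →L[ℝ] E) : Cop κ E →L[ℝ] Cop κ E :=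
  LinearMap.toContinuousLinearMap
    { toFun := fun v => WithLp.toLp 2 fun k => if sg k then A (v k) else B (v k)
      map_add' := by
        intro v w
        ext k
        by_cases h : sg k <;> simp [h]
      map_smul' := by
        intro c v
        ext k
        by_cases h : sg k <;> simp [h] }

/-- the group of invertible operators -/
abbrev GE (E : Type*) [NormedAddCommGroup E] [InnerProductSpace ℝ E] := (E →L[ℝ] E)ˣ

/-- determinant -/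
noncomputable def detu (g : GE E) : ℝ :=
  LinearMap.det (((g : E →L[ℝ] E)) : E →ₗ[ℝ] E)

/-- the representation on the copies: `g` on the positive ones, its inverse adjoint on the
negative ones -/
noncomputable def rep (sg : κ → Bool) (g : GE E) : Cop κ E →L[ℝ] Cop κ E :=
  blk sg (g : E →L[ℝ] E) (ContinuousLinearMap.adjoint ((g⁻¹ : GE E) : E →L[ℝ] E))

/-- its differential on self-adjoint operators -/
noncomputable def drep (sg : κ → Bool) (X : E →L[ℝ] E) : Cop κ E →L[ℝ] Cop κ E :=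
  blk sg X (-X)

/-- the exponential of an operator as an invertible operator -/
noncomputable def eU (X : E →L[ℝ] E) : GE E :=
  letI : NormedAlgebra ℚ (E →L[ℝ] E) := NormedAlgebra.restrictScalars ℚ ℝ _
  (NormedSpace.isUnit_exp X).unit

/-- mixing of the copies by a matrix -/
noncomputable def mix (c : Matrix κ κ ℝ) : Cop κ E →ₗ[ℝ] Cop κ E where
  toFun v := WithLp.toLp 2 fun k => ∑ j, c j k • v j
  map_add' := by
    intro v w
    ext k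
    simp [Finset.sum_add_distrib]
  map_smul' := by
    intro a v
    ext k
    simp [Finset.smul_sum, smul_smul, mul_comm]

/-- the embedding `π(g) T₀` of the lattice -/
noncomputable def TT {ι : Type*} (sg : κ → Bool) (T0 : (ι → ℤ) →ₗ[ℤ] Cop κ E) (g : GE E) :
    (ι → ℤ) →ₗ[ℤ] Cop κ E :=
  cmp (rep sg g) T0

omit [DecidableEq κ] in
@[simp] theorem TT_apply {ι : Type*} (sg : κ → Bool) (T0 : (ι → ℤ) →ₗ[ℤ] Cop κ E) (g : GE E)
    (x : ι → ℤ) : TT sg T0 g x = rep sg g (T0 x) := rfl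

section pot
variable {ι : Type*} [Fintype ι] [DecidableEq ι]

/-- thinness of `g` -/
noncomputable def Th (C0 : ℝ) (𝒰 : Set (Submodule ℤ (ι → ℤ))) (sg : κ → Bool)
    (T0 : (ι → ℤ) →ₗ[ℤ] Cop κ E) (g : GE E) : ℝ :=
  Theta C0 𝒰 (TT sg T0 g)

/-- existence of push-out directions -/
def XEX (C0 : ℝ) (𝒰 : Set (Submodule ℤ (ι → ℤ))) (sg : κ → Bool)
    (T0 : (ι → ℤ) →ₗ[ℤ] Cop κ E) : Prop :=
  ∃ C1 c δ : ℝ, 0 < δ ∧ ∀ g : GE E, detu g = 1 → C1 ≤ Th C0 𝒰 sg T0 g →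
    ∀ z : E, ‖z‖ = 1 → ∃ X : E →L[ℝ] E, IsSelfAdjoint X ∧
      LinearMap.trace ℝ E (X : E →ₗ[ℝ] E) = 0 ∧ ‖X‖ ≤ c ∧ inner ℝ (X z) z ≤ -1 ∧
      ∀ U ∈ 𝒰, Th C0 𝒰 sg T0 g - C0 / 4 ≤ theta C0 (TT sg T0 g) U →
        δ ≤ dlog (drep sg X) (fun i => TT sg T0 g (ubas U i))

/-- admissible push-out directions for the vector `x` at `g` (weak form, stable under small
changes of `g`) -/
def Good (C0 : ℝ) (𝒰 : Set (Submodule ℤ (ι → ℤ))) (sg : κ → Bool)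
    (T0 : (ι → ℤ) →ₗ[ℤ] Cop κ E) (C1 c δ : ℝ) (x : E) (g : GE E) : Set (E →L[ℝ] E) :=
  {X | IsSelfAdjoint X ∧ LinearMap.trace ℝ E (X : E →ₗ[ℝ] E) = 0 ∧ ‖X‖ ≤ c ∧
    inner ℝ (X ((g : E →L[ℝ] E) x)) ((g : E →L[ℝ] E) x) ≤ -(1 / 2) * ‖(g : E →L[ℝ] E) x‖ ^ 2 ∧
    (C1 + 1 ≤ Th C0 𝒰 sg T0 g → ∀ U ∈ 𝒰,
      Th C0 𝒰 sg T0 g - C0 / 8 ≤ theta C0 (TT sg T0 g) U →
        δ / 2 ≤ dlog (drep sg X) (fun i => TT sg T0 g (ubas U i)))}

/-- two elements of the region of depth `t` and thinness at most `C`, at bounded distance -/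
def stepG (C0 : ℝ) (𝒰 : Set (Submodule ℤ (ι → ℤ))) (sg : κ → Bool)
    (T0 : (ι → ℤ) →ₗ[ℤ] Cop κ E) (C : ℝ) (x : E) (t : ℝ) (a b : GE E) : Prop :=
  (detu a = 1 ∧ Th C0 𝒰 sg T0 a ≤ C ∧ ‖(a : E →L[ℝ] E) x‖ ≤ t) ∧
  (detu b = 1 ∧ Th C0 𝒰 sg T0 b ≤ C ∧ ‖(b : E →L[ℝ] E) x‖ ≤ t) ∧
  ‖((b * a⁻¹ : GE E) : E →L[ℝ] E)‖ ≤ 2 ∧ ‖((a * b⁻¹ : GE E) : E →L[ℝ] E)‖ ≤ 2

/-- every element of `SL(E)` of bounded thinness is at bounded distance from `Γ` -/
def ThickCoc (C0 : ℝ) (𝒰 : Set (Submodule ℤ (ι → ℤ))) (sg : κ → Bool)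
    (T0 : (ι → ℤ) →ₗ[ℤ] Cop κ E) (Γ : Subgroup (GE E)) : Prop :=
  ∀ C : ℝ, ∃ R : ℝ, ∀ g : GE E, detu g = 1 → Th C0 𝒰 sg T0 g ≤ C →
    ∃ γ ∈ Γ, ‖((g * γ⁻¹ : GE E) : E →L[ℝ] E)‖ ≤ R ∧ ‖((γ * g⁻¹ : GE E) : E →L[ℝ] E)‖ ≤ R

end pot

/-- the two properties of a group of operators which the analytic core uses: every vector can be
contracted, and the elements which contract `x` at least by `t` are connected inside the set of
elements which contract it at least by `C t` -/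
def NoHorn (Γ : Subgroup (GE E)) : Prop :=
  (∀ x : E, x ≠ 0 → ∀ t > (0 : ℝ), ∃ γ ∈ Γ, ‖(γ : E →L[ℝ] E) x‖ ≤ t) ∧
  ∃ (S : Finset (GE E)) (C : ℝ), (∀ s ∈ S, s ∈ Γ) ∧
    ∀ x : E, x ≠ 0 → ∀ t > (0 : ℝ), ∀ γ ∈ Γ, ∀ γ' ∈ Γ,
      ‖(γ : E →L[ℝ] E) x‖ ≤ t → ‖(γ' : E →L[ℝ] E) x‖ ≤ t →
      Relation.ReflTransGen (fun a b : GE E =>
        ‖(a : E →L[ℝ] E) x‖ ≤ C * t ∧ ‖(b : E →L[ℝ] E) x‖ ≤ C * t ∧ ∃ s ∈ S, b = s * a) γ γ'

end rep

end LatN
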