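import Pool.Agent.Lib.LatN.Defs

/-!
# ExpOp: the exponential of operators of a finite dimensional inner product space

`eU X` is the exponential of `X` as a unit of the algebra of operators (see Defs: it is
`NormedSpace.exp X`, the instance `NormedAlgebra ℚ` being obtained by restriction of scalars; use
`letI : NormedAlgebra ℚ (E →L[ℝ] E) := NormedAlgebra.restrictScalars ℚ ℝ _` in the proofs).

Proofs.
* `eU_val`: by definition. `eU_inv`, `eU_add_smul`: `NormedSpace.exp_add_of_commute`.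
* `eU_continuous`: `Units.continuous_iff`, `NormedSpace.exp_continuous`, `eU_inv`.
* `eU_norm_le`, `eU_sub_le`: power series `∑ X^n / n!`:
  `‖∑_{n ≥ 2} X^n/n!‖ ≤ ‖X‖^2 ∑ ‖X‖^(n-2)/n! ≤ ‖X‖^2 exp ‖X‖`.
* `eU_selfAdj`: the series (or `NormedSpace.star_exp`).
* `eU_eig`: apply the power series to `v`: `X^n v = μ^n v`.
* `eU_det`: orthonormal basis of eigenvectors (`LinearMap.IsSymmetric.eigenvectorBasis`), matrix of
  `exp X` diagonal with entries `exp μ_i`, determinant `∏ exp μ_i = exp (∑ μ_i) = exp (tr X)`.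
* `eU_jensen`: with the eigenvector basis `e_i`, `f = ∑ a_i e_i`, `∑ a_i² = 1`:
  `‖exp X f‖² = ∑ exp(2 μ_i) a_i² ≥ exp (2 ∑ μ_i a_i²) = exp (2 ⟪X f, f⟫)` by Jensen
  (`ConvexOn.map_sum_le`, `convexOn_exp`).
* `eU_segment`: `‖exp (s X) v‖² = ∑ exp (2 s μ_i) a_i²` is convex in `s` (sum of convex functions),
  hence on `[0,1]` bounded by the maximum of its values at the end points.
* `eU_blk`: `blk sg` is a continuous ring homomorphism from pairs of operators
  (`NormedSpace.map_exp`, or compare the power series on every copy), and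
  `adjoint ((exp X)⁻¹) = adjoint (exp (-X)) = exp (-X)`.
-/

namespace LatN

section
variable {E : Type*} [NormedAddCommGroup E] [InnerProductSpace ℝ E] [FiniteDimensional ℝ E]

private theorem expop_hs (X : E →L[ℝ] E) :
    HasSum (fun n : ℕ => ((n.factorial : ℝ)⁻¹) • X ^ n) (NormedSpace.exp X) :=
  NormedSpace.exp_series_hasSum_exp' (𝕂 := ℝ) X

private theorem expop_real (x : ℝ) : HasSum (fun n : ℕ => (n.factorial : ℝ)⁻¹ * x ^ n) (Real.exp x) := by
  have h := NormedSpace.expSeries_div_hasSum_exp x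
  rw [← Real.exp_eq_exp_ℝ] at h
  refine h.congr_fun ?_
  intro n
  rw [div_eq_inv_mul]

private theorem expop_add {X Y : E →L[ℝ] E} (h : Commute X Y) :
    NormedSpace.exp (X + Y) = NormedSpace.exp X * NormedSpace.exp Y := by
  let _ : NormedAlgebra ℚ (E →L[ℝ] E) := NormedAlgebra.restrictScalars ℚ ℝ _
  exact NormedSpace.exp_add_of_commute h

private theorem expop_pow_le (X : E →L[ℝ] E) (n : ℕ) : ‖X ^ n‖ ≤ ‖X‖ ^ n := by
  rcases n.eq_zero_or_pos with rfl | h
  · rw [pow_zero, pow_zero]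
    exact ContinuousLinearMap.norm_id_le
  · exact norm_pow_le' X h

theorem eU_val (X : E →L[ℝ] E) : ((eU X : GE E) : E →L[ℝ] E) = NormedSpace.exp X := by
  rfl

theorem eU_zero : (eU (0 : E →L[ℝ] E) : GE E) = 1 := by
  apply Units.ext
  rw [eU_val, NormedSpace.exp_zero, Units.val_one]

theorem eU_inv (X : E →L[ℝ] E) : (eU X)⁻¹ = eU (-X) := by
  apply inv_eq_of_mul_eq_one_right
  apply Units.ext
  rw [Units.val_mul, eU_val, eU_val, ← expop_add (Commute.neg_right (Commute.refl X)), add_neg_cancel,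
    NormedSpace.exp_zero, Units.val_one]

theorem eU_continuous : Continuous (eU : (E →L[ℝ] E) → GE E) := by
  let _ : NormedAlgebra ℚ (E →L[ℝ] E) := NormedAlgebra.restrictScalars ℚ ℝ _
  rw [Units.continuous_iff]
  refine ⟨NormedSpace.exp_continuous, ?_⟩
  have h : (fun X : E →L[ℝ] E => (((eU X)⁻¹ : GE E) : E →L[ℝ] E)) = fun X => NormedSpace.exp (-X) := by
    funext X
    rw [eU_inv, eU_val]
  rw [h]
  exact NormedSpace.exp_continuous.comp continuous_neg

theorem eU_norm_le (X : E →L[ℝ] E) : ‖((eU X : GE E) : E →L[ℝ] E)‖ ≤ Real.exp ‖X‖ := by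
  rw [eU_val, ← (expop_hs X).tsum_eq]
  refine tsum_of_norm_bounded (expop_real ‖X‖) fun n => ?_
  rw [norm_smul, Real.norm_of_nonneg (by positivity)]
  exact mul_le_mul_of_nonneg_left (expop_pow_le X n) (by positivity)

theorem eU_sub_le (X : E →L[ℝ] E) :
    ‖((eU X : GE E) : E →L[ℝ] E) - 1 - X‖ ≤ ‖X‖ ^ 2 * Real.exp ‖X‖ := by
  have h1 := (hasSum_nat_add_iff' 2).mpr (expop_hs X)
  have h2 : (∑ i ∈ Finset.range 2, ((i.factorial : ℝ)⁻¹) • X ^ i) = 1 + X := by
    rw [Finset.sum_range_succ, Finset.sum_range_one]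
    simp
  rw [h2] at h1
  have h3 := (expop_real ‖X‖).mul_left (‖X‖ ^ 2)
  have h4 : ‖NormedSpace.exp X - (1 + X)‖ ≤ ‖X‖ ^ 2 * Real.exp ‖X‖ := by
    rw [← h1.tsum_eq]
    refine tsum_of_norm_bounded h3 fun n => ?_
    rw [norm_smul, Real.norm_of_nonneg (by positivity)]
    have h5 : ((n + 2).factorial : ℝ)⁻¹ ≤ (n.factorial : ℝ)⁻¹ := by
      apply inv_anti₀ (by positivity)
      exact_mod_cast Nat.factorial_le (Nat.le_add_right n 2)
    calc ((n + 2).factorial : ℝ)⁻¹ * ‖X ^ (n + 2)‖ ≤ (n.factorial : ℝ)⁻¹ * ‖X‖ ^ (n + 2) :=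
          mul_le_mul h5 (expop_pow_le X _) (norm_nonneg _) (by positivity)
      _ = ‖X‖ ^ 2 * ((n.factorial : ℝ)⁻¹ * ‖X‖ ^ n) := by ring
  rw [eU_val, sub_sub]
  exact h4

theorem eU_add_smul (a b : ℝ) (X : E →L[ℝ] E) : eU ((a + b) • X) = eU (a • X) * eU (b • X) := by
  apply Units.ext
  rw [Units.val_mul, eU_val, eU_val, eU_val, add_smul]
  exact expop_add (((Commute.refl X).smul_left a).smul_right b)

theorem eU_selfAdj {X : E →L[ℝ] E} (hX : IsSelfAdjoint X) :
    IsSelfAdjoint ((eU X : GE E) : E →L[ℝ] E) := by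
  rw [eU_val]
  exact hX.exp

theorem eU_eig {X : E →L[ℝ] E} {v : E} {μ : ℝ} (h : X v = μ • v) :
    ((eU X : GE E) : E →L[ℝ] E) v = Real.exp μ • v := by
  rw [eU_val]
  have h1 : ∀ n : ℕ, (X ^ n) v = μ ^ n • v := by
    intro n
    induction n with
    | zero => simp
    | succ n ih =>
      rw [pow_succ, mul_apply_eq_comp, h, map_smul, ih, smul_smul, pow_succ, mul_comm]
  have h2 := (expop_hs X).mapL (ContinuousLinearMap.apply ℝ E v)
  have h3 := (expop_real μ).smul_const v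
  refine h2.unique ?_
  refine h3.congr_fun ?_
  intro n
  rw [ContinuousLinearMap.apply_apply, smul_apply, h1, smul_smul]

private theorem expop_spec {X : E →L[ℝ] E} (hX : IsSelfAdjoint X) :
    ∃ (n : ℕ) (b : OrthonormalBasis (Fin n) ℝ E) (μ : Fin n → ℝ), ∀ i, X (b i) = μ i • b i := by
  have h := ContinuousLinearMap.isSelfAdjoint_iff_isSymmetric.mp hX
  exact ⟨_, h.eigenvectorBasis rfl, h.eigenvalues rfl, fun i => h.apply_eigenvectorBasis rfl i⟩

private theorem expop_inner {X : E →L[ℝ] E} (hX : IsSelfAdjoint X) {n : ℕ} {b : OrthonormalBasis (Fin n) ℝ E}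
    {μ : Fin n → ℝ} (h : ∀ i, X (b i) = μ i • b i) (v : E) (i : Fin n) :
    inner ℝ (b i) (X v) = μ i * inner ℝ (b i) v := by
  have h1 := ContinuousLinearMap.isSelfAdjoint_iff_isSymmetric.mp hX
  have h2 : inner ℝ (X (b i)) v = inner ℝ (b i) (X v) := h1 (b i) v
  rw [← h2, h, real_inner_smul_left]

private theorem expop_quad {X : E →L[ℝ] E} (hX : IsSelfAdjoint X) {n : ℕ} {b : OrthonormalBasis (Fin n) ℝ E}
    {μ : Fin n → ℝ} (h : ∀ i, X (b i) = μ i • b i) (v : E) :
    inner ℝ (X v) v = ∑ i, (inner ℝ (b i) v) ^ 2 * μ i := by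
  rw [← b.sum_inner_mul_inner]
  refine Finset.sum_congr rfl fun i _ => ?_
  rw [real_inner_comm, expop_inner hX h]
  ring

private theorem expop_normsq {X : E →L[ℝ] E} (hX : IsSelfAdjoint X) {n : ℕ} {b : OrthonormalBasis (Fin n) ℝ E}
    {μ : Fin n → ℝ} (h : ∀ i, X (b i) = μ i • b i) (v : E) :
    ‖((eU X : GE E) : E →L[ℝ] E) v‖ ^ 2 = ∑ i, (inner ℝ (b i) v) ^ 2 * Real.exp (2 * μ i) := by
  rw [← b.sum_sq_norm_inner_right]
  refine Finset.sum_congr rfl fun i _ => ?_
  rw [expop_inner (eU_selfAdj hX) (fun i => eU_eig (h i)), Real.norm_eq_abs, sq_abs, mul_pow, ← Real.exp_nat_mul]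
  push_cast
  ring

private theorem expop_det {X : E →L[ℝ] E} {n : ℕ} (b : OrthonormalBasis (Fin n) ℝ E)
    {μ : Fin n → ℝ} (h : ∀ i, X (b i) = μ i • b i) : LinearMap.det (X : E →ₗ[ℝ] E) = ∏ i, μ i := by
  rw [← LinearMap.det_toMatrix b.toBasis]
  have h1 : LinearMap.toMatrix b.toBasis b.toBasis (X : E →ₗ[ℝ] E) = Matrix.diagonal μ := by
    ext i j
    rw [LinearMap.toMatrix_apply, OrthonormalBasis.coe_toBasis, ContinuousLinearMap.coe_coe, h, map_smul,
      Finsupp.smul_apply, OrthonormalBasis.coe_toBasis_repr_apply, Matrix.diagonal_apply, b.repr_self]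
    by_cases hij : i = j
    · subst hij
      simp
    · rw [if_neg hij]
      simp [hij]
  rw [h1, Matrix.det_diagonal]

private theorem expop_trace {X : E →L[ℝ] E} {n : ℕ} (b : OrthonormalBasis (Fin n) ℝ E)
    {μ : Fin n → ℝ} (h : ∀ i, X (b i) = μ i • b i) : LinearMap.trace ℝ E (X : E →ₗ[ℝ] E) = ∑ i, μ i := by
  rw [LinearMap.trace_eq_sum_inner _ b]
  refine Finset.sum_congr rfl fun i _ => ?_
  rw [ContinuousLinearMap.coe_coe, h, real_inner_smul_right, real_inner_self_eq_norm_sq, b.norm_eq_one]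
  ring

theorem eU_det {X : E →L[ℝ] E} (hX : IsSelfAdjoint X)
    (ht : LinearMap.trace ℝ E (X : E →ₗ[ℝ] E) = 0) : detu (eU X) = 1 := by
  obtain ⟨n, b, μ, h⟩ := expop_spec hX
  rw [expop_trace b h] at ht
  unfold detu
  rw [expop_det b (fun i => eU_eig (h i)), ← Real.exp_sum, ht, Real.exp_zero]

theorem eU_jensen {X : E →L[ℝ] E} (hX : IsSelfAdjoint X) {f : E} (hf : ‖f‖ = 1) :
    Real.exp (2 * inner ℝ (X f) f) ≤ ‖((eU X : GE E) : E →L[ℝ] E) f‖ ^ 2 := by
  obtain ⟨n, b, μ, h⟩ := expop_spec hX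
  rw [expop_quad hX h, expop_normsq hX h, Finset.mul_sum]
  have h1 : ∑ i, (inner ℝ (b i) f) ^ 2 = (1 : ℝ) := by
    have h2 := b.sum_sq_norm_inner_right f
    rw [hf, one_pow] at h2
    rw [← h2]
    refine Finset.sum_congr rfl fun i _ => ?_
    rw [Real.norm_eq_abs, sq_abs]
  have h2 := convexOn_exp.map_sum_le (t := Finset.univ) (w := fun i => (inner ℝ (b i) f) ^ 2)
    (p := fun i => 2 * μ i) (fun i _ => sq_nonneg _) h1 (fun i _ => Set.mem_univ _)
  simp only [smul_eq_mul] at h2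
  refine le_trans (le_of_eq ?_) h2
  congr 1
  refine Finset.sum_congr rfl fun i _ => ?_
  ring

theorem eU_segment {X : E →L[ℝ] E} (hX : IsSelfAdjoint X) (v : E) {s : ℝ} (h0 : 0 ≤ s)
    (h1 : s ≤ 1) :
    ‖((eU (s • X) : GE E) : E →L[ℝ] E) v‖ ≤ max ‖v‖ ‖((eU X : GE E) : E →L[ℝ] E) v‖ := by
  obtain ⟨n, b, μ, h⟩ := expop_spec hX
  have hs : IsSelfAdjoint (s • X) := (IsSelfAdjoint.all s).smul hX
  have h' : ∀ i, (s • X) (b i) = (s * μ i) • b i := fun i => by
    rw [smul_apply, h, smul_smul]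
  have e1 : ‖((eU (s • X) : GE E) : E →L[ℝ] E) v‖ ^ 2 ≤
      (1 - s) * ‖v‖ ^ 2 + s * ‖((eU X : GE E) : E →L[ℝ] E) v‖ ^ 2 := by
    rw [expop_normsq hs h', expop_normsq hX h, ← b.sum_sq_norm_inner_right v, Finset.mul_sum, Finset.mul_sum,
      ← Finset.sum_add_distrib]
    refine Finset.sum_le_sum fun i _ => ?_
    have h2 := convexOn_exp.2 (Set.mem_univ (0 : ℝ)) (Set.mem_univ (2 * μ i)) (sub_nonneg.mpr h1) h0
      (sub_add_cancel 1 s)
    simp only [smul_eq_mul, mul_zero, zero_add, Real.exp_zero, mul_one] at h2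
    rw [Real.norm_eq_abs, sq_abs]
    have h3 : 2 * (s * μ i) = s * (2 * μ i) := by ring
    rw [h3]
    nlinarith [mul_le_mul_of_nonneg_left h2 (sq_nonneg (inner ℝ (b i) v))]
  set M := max ‖v‖ ‖((eU X : GE E) : E →L[ℝ] E) v‖ with hM
  have hM0 : 0 ≤ M := (norm_nonneg v).trans (le_max_left _ _)
  refine le_of_sq_le_sq ?_ hM0
  have h2 : ‖v‖ ^ 2 ≤ M ^ 2 := pow_le_pow_left₀ (norm_nonneg _) (le_max_left _ _) 2
  have h3 : ‖((eU X : GE E) : E →L[ℝ] E) v‖ ^ 2 ≤ M ^ 2 := pow_le_pow_left₀ (norm_nonneg _) (le_max_right _ _) 2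
  nlinarith [mul_le_mul_of_nonneg_left h2 (sub_nonneg.mpr h1), mul_le_mul_of_nonneg_left h3 h0]

private theorem expop_det_adj (T : E →L[ℝ] E) :
    LinearMap.det ((ContinuousLinearMap.adjoint T : E →L[ℝ] E) : E →ₗ[ℝ] E) = LinearMap.det (T : E →ₗ[ℝ] E) := by
  set b := stdOrthonormalBasis ℝ E
  rw [← LinearMap.det_toMatrix b.toBasis, ← LinearMap.det_toMatrix b.toBasis, ← Matrix.det_transpose]
  congr 1
  ext i j
  rw [Matrix.transpose_apply, LinearMap.toMatrix_apply, LinearMap.toMatrix_apply, OrthonormalBasis.coe_toBasis,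
    OrthonormalBasis.coe_toBasis_repr_apply, OrthonormalBasis.coe_toBasis_repr_apply, b.repr_apply_apply,
    b.repr_apply_apply, ContinuousLinearMap.coe_coe, ContinuousLinearMap.coe_coe,
    ContinuousLinearMap.adjoint_inner_right, real_inner_comm]

/-- polar decomposition: every invertible operator with determinant one is an isometry times the
exponential of a self-adjoint operator of trace zero.
Proof: `A = g* g` is self-adjoint and positive definite; eigenvector basis `e_i`, eigenvalues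
`λ_i > 0`; let `X e_i = (1/2) log λ_i e_i` (a self-adjoint operator). Then `exp(X)² = A`, so
`‖exp X v‖² = ⟪A v, v⟫ = ‖g v‖²` and `k = g exp(-X)` preserves norms; `det A = (det g)² = 1`
gives `∑ log λ_i = 0`. -/
theorem exists_polar (g : GE E) (hg : detu g = 1) :
    ∃ X : E →L[ℝ] E, IsSelfAdjoint X ∧ LinearMap.trace ℝ E (X : E →ₗ[ℝ] E) = 0 ∧
      ∀ v, ‖((g * (eU X)⁻¹ : GE E) : E →L[ℝ] E) v‖ = ‖v‖ := by
  set G : E →L[ℝ] E := (g : E →L[ℝ] E) with hG
  set A : E →L[ℝ] E := ContinuousLinearMap.adjoint G * G with hA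
  have hAs : IsSelfAdjoint A := IsSelfAdjoint.star_mul_self G
  have hAv : ∀ v, inner ℝ (A v) v = ‖G v‖ ^ 2 := by
    intro v
    rw [hA, mul_apply_eq_comp, ContinuousLinearMap.adjoint_inner_left, real_inner_self_eq_norm_sq]
  obtain ⟨n, b, lam, h⟩ := expop_spec hAs
  have hlam : ∀ i, lam i = ‖G (b i)‖ ^ 2 := by
    intro i
    rw [← hAv, h, real_inner_smul_left, real_inner_self_eq_norm_sq, b.norm_eq_one]
    ring
  have hpos : ∀ i, 0 < lam i := by
    intro i
    rw [hlam]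
    have h1 : G (b i) ≠ 0 := by
      intro h0
      have h2 : ((g⁻¹ : GE E) : E →L[ℝ] E) (G (b i)) = b i := by
        rw [hG, ← mul_apply_eq_comp, Units.inv_mul, one_apply_eq_self]
      rw [h0, map_zero] at h2
      have h3 := b.norm_eq_one i
      rw [← h2, norm_zero] at h3
      exact zero_ne_one h3
    positivity
  set μ : Fin n → ℝ := fun i => Real.log (lam i) / 2 with hμ
  set X : E →L[ℝ] E := ∑ i, μ i • (innerSL ℝ (b i)).smulRight (b i) with hX
  have hXapp : ∀ v, X v = ∑ i, μ i • (inner ℝ (b i) v • b i) := by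
    intro v
    rw [hX, sum_apply]
    rfl
  have hXe : ∀ i, X (b i) = μ i • b i := by
    intro i
    rw [hXapp, Finset.sum_eq_single i]
    · rw [real_inner_self_eq_norm_sq, b.norm_eq_one, one_pow, one_smul]
    · intro j _ hji
      rw [b.orthonormal.2 hji, zero_smul, smul_zero]
    · intro hc
      exact absurd (Finset.mem_univ i) hc
  have hXs : IsSelfAdjoint X := by
    rw [ContinuousLinearMap.isSelfAdjoint_iff_isSymmetric]
    intro v w
    rw [ContinuousLinearMap.coe_coe, hXapp, hXapp, sum_inner, inner_sum]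
    refine Finset.sum_congr rfl fun i _ => ?_
    rw [real_inner_smul_left, real_inner_smul_left, real_inner_smul_right, real_inner_smul_right, real_inner_comm (b i) v]
    ring
  refine ⟨X, hXs, ?_, ?_⟩
  · rw [expop_trace b hXe]
    have h1 : LinearMap.det (A : E →ₗ[ℝ] E) = 1 := by
      have h2 : (A : E →ₗ[ℝ] E) = ((ContinuousLinearMap.adjoint G : E →L[ℝ] E) : E →ₗ[ℝ] E) * (G : E →ₗ[ℝ] E) := rfl
      rw [h2, map_mul, expop_det_adj]
      have h3 : LinearMap.det (G : E →ₗ[ℝ] E) = 1 := hg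
      rw [h3, one_mul]
    rw [expop_det b h] at h1
    have h2 : ∑ i, Real.log (lam i) = 0 := by
      rw [← Real.log_prod (fun i _ => (hpos i).ne'), h1, Real.log_one]
    rw [hμ]
    simp only
    rw [← Finset.sum_div, h2, zero_div]
  · intro v
    have h1 : ∀ w, ‖G w‖ ^ 2 = ‖((eU X : GE E) : E →L[ℝ] E) w‖ ^ 2 := by
      intro w
      rw [← hAv, expop_quad hAs h, expop_normsq hXs hXe]
      refine Finset.sum_congr rfl fun i _ => ?_
      have h2 : 2 * μ i = Real.log (lam i) := by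
        rw [hμ]
        ring
      rw [h2, Real.exp_log (hpos i)]
    have h2 := h1 ((((eU X)⁻¹ : GE E) : E →L[ℝ] E) v)
    have h3 : ((eU X : GE E) : E →L[ℝ] E) ((((eU X)⁻¹ : GE E) : E →L[ℝ] E) v) = v := by
      rw [← mul_apply_eq_comp, Units.mul_inv, one_apply_eq_self]
    rw [h3] at h2
    rw [Units.val_mul, mul_apply_eq_comp]
    exact (pow_left_inj₀ (norm_nonneg _) (norm_nonneg _) two_ne_zero).mp h2

end

section
variable {E : Type*} [NormedAddCommGroup E] [InnerProductSpace ℝ E] [FiniteDimensional ℝ E]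
variable {κ : Type*} [Fintype κ] [DecidableEq κ]

private theorem expop_blk_apply (sg : κ → Bool) (A B : E →L[ℝ] E) (v : Cop κ E) (k : κ) :
    blk sg A B v k = if sg k then A (v k) else B (v k) := rfl

private theorem expop_blk_pow (sg : κ → Bool) (A B : E →L[ℝ] E) (n : ℕ) (v : Cop κ E) (k : κ) :
    (blk sg A B ^ n) v k = if sg k then (A ^ n) (v k) else (B ^ n) (v k) := by
  induction n generalizing v with
  | zero => simp
  | succ n ih =>
    rw [pow_succ, mul_apply_eq_comp, ih, expop_blk_apply]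
    split_ifs
    · rw [pow_succ, mul_apply_eq_comp]
    · rw [pow_succ, mul_apply_eq_comp]

private theorem expop_blk_exp (sg : κ → Bool) (A B : E →L[ℝ] E) :
    blk sg (NormedSpace.exp A) (NormedSpace.exp B) =
      ((eU (blk sg A B) : GE (Cop κ E)) : Cop κ E →L[ℝ] Cop κ E) := by
  refine ContinuousLinearMap.ext fun v => PiLp.ext fun k => ?_
  rw [expop_blk_apply, eU_val]
  have h1 := ((expop_hs (E := Cop κ E) (blk sg A B)).mapL (ContinuousLinearMap.apply ℝ (Cop κ E) v)).mapL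
    (PiLp.proj 2 (fun _ : κ => E) k : Cop κ E →L[ℝ] E)
  have h2 := (expop_hs A).mapL (ContinuousLinearMap.apply ℝ E (v k))
  have h3 := (expop_hs B).mapL (ContinuousLinearMap.apply ℝ E (v k))
  have h4 : ∀ n : ℕ, (((n.factorial : ℝ)⁻¹ • blk sg A B ^ n) v) k =
      (n.factorial : ℝ)⁻¹ • ((blk sg A B ^ n) v k) := fun n => rfl
  by_cases hk : sg k
  · rw [if_pos hk]
    refine h2.unique (h1.congr_fun fun n => ?_)
    change ((n.factorial : ℝ)⁻¹ • A ^ n) (v k) = (((n.factorial : ℝ)⁻¹ • blk sg A B ^ n) v) k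
    rw [h4, expop_blk_pow, if_pos hk]
    rfl
  · rw [if_neg hk]
    refine h3.unique (h1.congr_fun fun n => ?_)
    change ((n.factorial : ℝ)⁻¹ • B ^ n) (v k) = (((n.factorial : ℝ)⁻¹ • blk sg A B ^ n) v) k
    rw [h4, expop_blk_pow, if_neg hk]
    rfl

theorem eU_blk (sg : κ → Bool) {X : E →L[ℝ] E} (hX : IsSelfAdjoint X) :
    rep sg (eU X) = ((eU (drep sg X) : GE (Cop κ E)) : Cop κ E →L[ℝ] Cop κ E) := by
  unfold rep drep
  have h1 : IsSelfAdjoint (((eU (-X)) : GE E) : E →L[ℝ] E) := eU_selfAdj hX.neg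
  have h2 : ContinuousLinearMap.adjoint (((eU X)⁻¹ : GE E) : E →L[ℝ] E) = NormedSpace.exp (-X) := by
    rw [eU_inv]
    exact h1.adjoint_eq
  rw [h2, eU_val, expop_blk_exp]

end

end LatN
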