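import Mathlib

/-!
# InjRat: equivariant local homeomorphisms are injective

`InjRel ρ`: every open, locally discrete, invariant equivalence relation on `E` is trivial (it is
applied to the relation `ψ x = ψ y` of an equivariant local homeomorphism `ψ`).
`RatFam ρ 𝒲`: a family of subspaces such that the stabilizer of a vector `x ∈ W` moves every `y ∉ W`
along a set with an accumulation point, and such that every `x` can be approximated by vectors
`x' ∈ W` with `W` far from a given `y ∉ ℝ x`.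
-/

open scoped Topology

namespace LatN

variable {E : Type*} [NormedAddCommGroup E] [NormedSpace ℝ E] {Γ : Type*} [Group Γ]

/-- open, locally discrete, invariant equivalence relations are trivial -/
def InjRel (ρ : Γ →* (E ≃L[ℝ] E)) : Prop :=
  ∀ R : E → E → Prop, Equivalence R → (∀ γ x y, R x y → R (ρ γ x) (ρ γ y)) →
    (∀ z : E, ∃ N ∈ 𝓝 z, ∀ x ∈ N, ∀ y ∈ N, R x y → x = y) →
    (∀ x y, R x y → ∀ N ∈ 𝓝 y, ∀ᶠ x' in 𝓝 x, ∃ y' ∈ N, R x' y') →
    ∀ x y, R x y → x = y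

/-- families of rational subspaces -/
structure RatFam (ρ : Γ →* (E ≃L[ℝ] E)) (𝒲 : Set (Submodule ℝ E)) : Prop where
  acc : ∀ W ∈ 𝒲, ∀ x ∈ W, ∀ y : E, y ∉ W → ∃ z : E, ∀ ε > (0 : ℝ),
    ∃ γ γ' : Γ, ρ γ x = x ∧ ρ γ' x = x ∧ ρ γ y ≠ ρ γ' y ∧ ‖ρ γ y - z‖ < ε ∧ ‖ρ γ' y - z‖ < ε
  dense : ∀ x y : E, (∀ a : ℝ, y ≠ a • x) → ∃ c > (0 : ℝ), ∀ ε > (0 : ℝ),
    ∃ W ∈ 𝒲, ∃ x' ∈ W, ‖x' - x‖ < ε ∧ ∀ w ∈ W, c ≤ ‖y - w‖

theorem injRel_of_ratFam {ρ : Γ →* (E ≃L[ℝ] E)} {𝒲 : Set (Submodule ℝ E)} (h : RatFam ρ 𝒲)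
    (hC : ∀ x : E, ∀ t > 0, ∃ γ : Γ, ‖ρ γ x‖ ≤ t) : InjRel ρ := by
  intro R hR hinv hloc hop x y hxy
  have hpar : ∃ a : ℝ, y = a • x := by
    by_contra hcon
    push Not at hcon
    obtain ⟨c, hc, hd⟩ := h.dense x y hcon
    have h1 := hop x y hxy (Metric.ball y (c / 2)) (Metric.ball_mem_nhds y (by positivity))
    obtain ⟨δ, hδ, h2⟩ := Metric.eventually_nhds_iff.1 h1
    obtain ⟨W, hW, x', hx', hxx', hyW⟩ := hd δ hδ
    obtain ⟨y', hy', hR'⟩ := h2 (by rw [dist_eq_norm]; exact hxx')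
    have hy'W : y' ∉ W := by
      intro hmem
      have h3 := hyW y' hmem
      rw [Metric.mem_ball, dist_eq_norm] at hy'
      rw [norm_sub_rev] at hy'
      linarith
    obtain ⟨z, hz⟩ := h.acc W hW x' hx' y' hy'W
    obtain ⟨N, hN, hN'⟩ := hloc z
    obtain ⟨ε, hε, hεN⟩ := Metric.mem_nhds_iff.1 hN
    obtain ⟨γ, γ', h4, h5, h6, h7, h8⟩ := hz ε hε
    have h9 := hinv γ x' y' hR'
    have h10 := hinv γ' x' y' hR'
    rw [h4] at h9
    rw [h5] at h10
    refine h6 (hN' _ (hεN ?_) _ (hεN ?_) (hR.trans (hR.symm h9) h10))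
    · rw [Metric.mem_ball, dist_eq_norm]
      exact h7
    · rw [Metric.mem_ball, dist_eq_norm]
      exact h8
  obtain ⟨a, rfl⟩ := hpar
  obtain ⟨N, hN, hN'⟩ := hloc 0
  obtain ⟨ε, hε, hεN⟩ := Metric.mem_nhds_iff.1 hN
  obtain ⟨γ, hγ⟩ := hC x (ε / (2 * (|a| + 1))) (by positivity)
  have h1 : ‖ρ γ x‖ * (|a| + 1) ≤ ε / 2 := by
    have h2 := mul_le_mul_of_nonneg_right hγ (show 0 ≤ |a| + 1 by positivity)
    have h3 : ε / (2 * (|a| + 1)) * (|a| + 1) = ε / 2 := by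
      field_simp
    linarith
  have h2 : ‖ρ γ x‖ < ε := by
    have h3 := norm_nonneg (ρ γ x)
    have h4 := abs_nonneg a
    nlinarith
  have h3 : ‖ρ γ (a • x)‖ < ε := by
    rw [map_smul, norm_smul, Real.norm_eq_abs]
    have h3 := norm_nonneg (ρ γ x)
    have h4 := abs_nonneg a
    nlinarith
  refine (ρ γ).injective (hN' _ (hεN ?_) _ (hεN ?_) (hinv γ _ _ hxy))
  · rw [Metric.mem_ball, dist_zero_right]
    exact h2
  · rw [Metric.mem_ball, dist_zero_right]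
    exact h3

/-- the property passes from a subgroup to the group -/
theorem InjRel.of_subgroup {ρ : Γ →* (E ≃L[ℝ] E)} (H : Subgroup Γ)
    (h : InjRel (ρ.comp H.subtype)) : InjRel ρ :=
  fun R hR hinv hloc hop => h R hR (fun γ => hinv (γ : Γ)) hloc hop

/-- the property only depends on the image -/
theorem InjRel.of_hom {Γ' : Type*} [Group Γ'] {ρ : Γ →* (E ≃L[ℝ] E)} {ρ' : Γ' →* (E ≃L[ℝ] E)}
    (h : InjRel ρ') (hr : ∀ γ' : Γ', ∃ γ : Γ, ρ γ = ρ' γ') : InjRel ρ := by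
  intro R hR hinv hloc hop
  refine h R hR (fun γ' x y hxy => ?_) hloc hop
  obtain ⟨γ, hγ⟩ := hr γ'
  rw [← hγ]
  exact hinv γ x y hxy

/-- transport by a linear equivalence -/
theorem InjRel.conj {F : Type*} [NormedAddCommGroup F] [NormedSpace ℝ F]
    {ρ : Γ →* (E ≃L[ℝ] E)} (h : InjRel ρ) (L : E ≃L[ℝ] F) {ρ' : Γ →* (F ≃L[ℝ] F)}
    (hL : ∀ γ v, L (ρ γ v) = ρ' γ (L v)) : InjRel ρ' := by
  intro R hR hinv hloc hop
  have key := h (fun x y => R (L x) (L y)) ⟨fun x => hR.refl _, fun h => hR.symm h,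
    fun h1 h2 => hR.trans h1 h2⟩ (fun γ x y hxy => by
      rw [hL, hL]
      exact hinv γ _ _ hxy) (fun z => by
      obtain ⟨N, hN, hN'⟩ := hloc (L z)
      refine ⟨L ⁻¹' N, L.continuous.continuousAt.preimage_mem_nhds hN, fun x hx y hy hxy => ?_⟩
      exact L.injective (hN' _ hx _ hy hxy)) (fun x y hxy N hN => by
      have h1 : L.symm ⁻¹' N ∈ 𝓝 (L y) := by
        refine L.symm.continuous.continuousAt.preimage_mem_nhds ?_
        rw [L.symm_apply_apply]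
        exact hN
      have h2 := hop _ _ hxy _ h1
      have h3 := (L.continuous.tendsto x).eventually h2
      filter_upwards [h3] with x' hx'
      obtain ⟨y', hy', hR'⟩ := hx'
      exact ⟨L.symm y', hy', by rw [L.apply_symm_apply]; exact hR'⟩)
  intro x y hxy
  have h1 := key (L.symm x) (L.symm y) (by
    change R (L (L.symm x)) (L (L.symm y))
    rw [L.apply_symm_apply, L.apply_symm_apply]
    exact hxy)
  exact L.symm.injective h1

end LatN
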