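import Pool.Agent.Lib.MP_2392aa_gt.Mfd
import Pool.Agent.Lib.LatN.InjRat

/-!
# Glob2: global linearization from contraction of single vectors and `InjRel`

(The same construction as in `Mfd.global_lin_of`, with a different proof of injectivity.)
-/

open scoped ContDiff Manifold Topology
open Metric

namespace LatLin

/-- Global linearization from the local one (`hloc`), contraction of single vectors (`hcon`) and
triviality of invariant open locally discrete equivalence relations (`hinj`). -/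
theorem global_lin_rel {E : Type*} [NormedAddCommGroup E] [InnerProductSpace ℝ E]
    [FiniteDimensional ℝ E] {M : Type*} [TopologicalSpace M]
    [ChartedSpace E M] [IsManifold 𝓘(ℝ, E) ∞ M] {Γ : Type*} [Group Γ]
    [MulAction Γ M] (hs : ∀ γ : Γ, ContMDiff 𝓘(ℝ, E) 𝓘(ℝ, E) ∞ (fun x : M => γ • x))
    (p : M) (hp : ∀ γ : Γ, γ • p = p) (ρ : Γ →* (E ≃L[ℝ] E))
    (hρ : ∀ (γ : Γ) (v : E),
      (mfderiv 𝓘(ℝ, E) 𝓘(ℝ, E) (fun x : M => γ • x) p : E →L[ℝ] E) v = ρ γ v)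
    (hloc : [ContinuousConstSMul Γ M] → ∀ D : LocData (M := M) ρ,
      ∃ r > 0, ∃ u : E → E, ContDiffOn ℝ ∞ u (ball 0 r) ∧
        HasFDerivAt u (ContinuousLinearMap.id ℝ E) 0 ∧ u 0 = 0 ∧
        (∀ z ∈ ball (0 : E) r, u z ∈ ball (0 : E) D.r0) ∧
        ∀ (γ : Γ) (z : E), z ∈ ball (0 : E) r → ρ γ z ∈ ball (0 : E) r →
          γ • D.χ (u z) = D.χ (u (ρ γ z)))
    (hcon : ∀ (z : E) (r : ℝ), 0 < r → ∃ γ : Γ, ‖ρ γ z‖ < r) (hinj : LatN.InjRel ρ) :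
    ∃ (U : Set M) (φ : M → E) (ψ : E → M), IsOpen U ∧ p ∈ U ∧
      (∀ (γ : Γ) (x : M), x ∈ U → γ • x ∈ U) ∧
      ContMDiffOn 𝓘(ℝ, E) 𝓘(ℝ, E) ∞ φ U ∧ ContMDiff 𝓘(ℝ, E) 𝓘(ℝ, E) ∞ ψ ∧
      (∀ v, ψ v ∈ U ∧ φ (ψ v) = v) ∧ (∀ x ∈ U, ψ (φ x) = x) ∧ φ p = 0 ∧
      ∀ (γ : Γ), ∀ x ∈ U, φ (γ • x) = ρ γ (φ x) := by
  obtain ⟨D, hDχ, hDr⟩ := exists_locData hs p hp ρ hρ
  have : ContinuousConstSMul Γ M := ⟨fun γ => (hs γ).continuous⟩
  obtain ⟨r, hr, u, hu, hud, hu0, hur, heq⟩ := hloc D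
  obtain ⟨s, hs0, hsr, v, hvo, hvu, hvs⟩ := local_inv u hr hu hud
  rw [hDχ] at heq
  have hBr : ball (0 : E) s ⊆ ball 0 r := ball_subset_ball hsr
  have hudom : ∀ z ∈ ball (0 : E) s, u z ∈ dom E p := fun z hz => hDr (hur z (hBr hz))
  set X : E → M := fun z => chi p (u z) with hX
  have hXinj : Set.InjOn X (ball 0 s) := by
    intro z hz w hw h
    have h1 : u z = u w := chi_inj p (hudom z hz) (hudom w hw) h
    rw [← hvu z hz, ← hvu w hw, h1]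
  have heq' : ∀ (γ : Γ) (z : E), z ∈ ball (0 : E) s → ρ γ z ∈ ball (0 : E) s →
      γ • X z = X (ρ γ z) := fun γ z hz hz' => heq γ z (hBr hz) (hBr hz')
  have hXs : ContMDiffOn 𝓘(ℝ, E) 𝓘(ℝ, E) ∞ X (ball 0 s) :=
    (chi_smooth p).comp ((contMDiffOn_iff_contDiffOn.2 hu).mono hBr) hudom
  set θ : M → E := fun x => v (extChartAt 𝓘(ℝ, E) p x - extChartAt 𝓘(ℝ, E) p p) with hθ
  have hW : X '' ball 0 s = (extChartAt 𝓘(ℝ, E) p).source ∩
      (fun x => extChartAt 𝓘(ℝ, E) p x - extChartAt 𝓘(ℝ, E) p p) ⁻¹' (u '' ball 0 s) := by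
    ext x
    constructor
    · rintro ⟨z, hz, rfl⟩
      refine ⟨chi_mem_source p (hudom z hz), ?_⟩
      simp only [Set.mem_preimage, hX]
      rw [chart_chi p (hudom z hz)]
      exact ⟨z, hz, rfl⟩
    · rintro ⟨hx, z, hz, hzx⟩
      refine ⟨z, hz, ?_⟩
      simp only [hX]
      rw [hzx]
      exact (chi_chart p hx).1
  have hWo : IsOpen (X '' ball 0 s) := by
    rw [hW]
    exact (chart_smooth p).continuousOn.isOpen_inter_preimage (isOpen_extChartAt_source p) hvo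
  have hθX : ∀ z ∈ ball (0 : E) s, θ (X z) = z := by
    intro z hz
    simp only [hθ, hX]
    rw [chart_chi p (hudom z hz), hvu z hz]
  have hθs : ContMDiffOn 𝓘(ℝ, E) 𝓘(ℝ, E) ∞ θ (X '' ball 0 s) := by
    have h1 := (contMDiffOn_iff_contDiffOn.2 hvs)
    refine h1.comp ((chart_smooth p).mono ?_) ?_
    · rw [hW]; exact Set.inter_subset_left
    · rw [hW]; exact fun x hx => hx.2
  have hsmall : ∀ z : E, ∃ γ : Γ, ρ γ z ∈ ball (0 : E) s := by
    intro z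
    obtain ⟨γ, h1⟩ := hcon z s hs0
    exact ⟨γ, by simpa using h1⟩
  choose g hg using hsmall
  have hρi : ∀ (γ : Γ) (z : E), ρ γ⁻¹ (ρ γ z) = z := by
    intro γ z
    have : (ρ γ⁻¹ * ρ γ) z = z := by rw [← map_mul, inv_mul_cancel, map_one]; rfl
    exact this
  have hρi' : ∀ (γ : Γ) (z : E), ρ γ (ρ γ⁻¹ z) = z := by
    intro γ z
    have : (ρ γ * ρ γ⁻¹) z = z := by rw [← map_mul, mul_inv_cancel, map_one]; rfl
    exact this
  have hρm : ∀ (γ δ : Γ) (z : E), ρ (γ * δ) z = ρ γ (ρ δ z) := by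
    intro γ δ z
    rw [map_mul]; rfl
  set ψ : E → M := fun z => (g z)⁻¹ • X (ρ (g z) z) with hψd
  have hψ : ∀ (γ : Γ) (z : E), ρ γ z ∈ ball (0 : E) s → ψ z = γ⁻¹ • X (ρ γ z) := by
    intro γ z hz
    have h1 := heq' (γ * (g z)⁻¹) (ρ (g z) z) (hg z) (by rw [hρm, hρi]; exact hz)
    rw [hρm, hρi] at h1
    rw [← h1, smul_smul, ← mul_assoc, inv_mul_cancel, one_mul]
  have hψe : ∀ (γ : Γ) (z : E), ψ (ρ γ z) = γ • ψ z := by
    intro γ z
    have h1 := hg (ρ γ z)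
    rw [hψ (g (ρ γ z) * γ) z (by rw [hρm]; exact h1), smul_smul, mul_inv_rev, ← mul_assoc,
      mul_inv_cancel, one_mul, hρm]
  have hψ0 : ψ 0 = p := by
    rw [hψ 1 0 (by simp [hs0])]
    simp [hX, hu0, chi_zero]
  have hψs : ContMDiff 𝓘(ℝ, E) 𝓘(ℝ, E) ∞ ψ := by
    intro z
    have h1 : ContMDiffOn 𝓘(ℝ, E) 𝓘(ℝ, E) ∞ (fun y => (g z)⁻¹ • X (ρ (g z) y))
        ((ρ (g z)) ⁻¹' ball 0 s) := by
      refine (hs (g z)⁻¹).comp_contMDiffOn (hXs.comp ?_ (fun y hy => hy))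
      exact ((ρ (g z)).contDiff.contMDiff).contMDiffOn
    have h2 : (ρ (g z)) ⁻¹' ball (0 : E) s ∈ 𝓝 z :=
      (isOpen_ball.preimage (ρ (g z)).continuous).mem_nhds (hg z)
    refine (h1.contMDiffAt h2).congr_of_eventuallyEq ?_
    filter_upwards [h2] with y hy
    exact hψ (g z) y hy
  have hloc : ∀ (γ : Γ) (x : M), γ • x ∈ X '' ball 0 s →
      ψ (ρ γ⁻¹ (θ (γ • x))) = x := by
    rintro γ x ⟨y, hy, hyx⟩
    rw [← hyx, hθX y hy, hψ γ _ (by rw [hρi']; exact hy), hρi', hyx, smul_smul, inv_mul_cancel,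
      one_smul]
  have hmem : ∀ z, (g z) • ψ z ∈ X '' ball 0 s := by
    intro z
    refine ⟨ρ (g z) z, (hg z), ?_⟩
    rw [hψd, smul_smul, mul_inv_cancel, one_smul]
  have hψinj : Function.Injective ψ := by
    refine fun z w h => hinj (fun z w => ψ z = ψ w) ⟨fun _ => rfl, fun h => h.symm,
      fun h1 h2 => h1.trans h2⟩ (fun γ z w h => by rw [hψe, hψe, h]) (fun z => ?_)
      (fun z w h N hN => ?_) z w h
    · refine ⟨(ρ (g z)) ⁻¹' ball 0 s,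
        (isOpen_ball.preimage (ρ (g z)).continuous).mem_nhds (hg z), fun x hx y hy hxy => ?_⟩
      rw [hψ (g z) x hx, hψ (g z) y hy] at hxy
      exact (ρ (g z)).injective (hXinj hx hy (MulAction.injective _ hxy))
    · have h1 : (fun x : M => g w • x) ⁻¹' (X '' ball 0 s) ∈ 𝓝 (ψ w) :=
        (hWo.preimage (hs (g w)).continuous).mem_nhds (hmem w)
      have h2 : ContinuousOn (fun x => ρ (g w)⁻¹ (θ (g w • x)))
          ((fun x : M => g w • x) ⁻¹' (X '' ball 0 s)) := by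
        refine (ρ (g w)⁻¹).continuous.comp_continuousOn ?_
        exact hθs.continuousOn.comp (hs (g w)).continuous.continuousOn (fun x hx => hx)
      have h3 : ContinuousAt (fun x => ρ (g w)⁻¹ (θ (g w • x))) (ψ w) := h2.continuousAt h1
      have h4 : ρ (g w)⁻¹ (θ (g w • ψ w)) = w := by
        have h5 : g w • ψ w = X (ρ (g w) w) := by
          rw [hψd, smul_smul, mul_inv_cancel, one_smul]
        rw [h5, hθX _ (hg w), hρi]
      have h6 : ∀ᶠ x in 𝓝 (ψ w), ρ (g w)⁻¹ (θ (g w • x)) ∈ N := by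
        refine h3.eventually ?_
        change N ∈ 𝓝 (ρ (g w)⁻¹ (θ (g w • ψ w)))
        rw [h4]
        exact hN
      have h7 : ∀ᶠ x in 𝓝 (ψ w), ∃ y' ∈ N, x = ψ y' := by
        filter_upwards [h1, h6] with x hx hx'
        exact ⟨_, hx', (hloc (g w) x hx).symm⟩
      rw [← h] at h7
      exact (hψs.continuous.tendsto z).eventually h7
  have hinv : ∀ z, Function.invFun ψ (ψ z) = z := Function.leftInverse_invFun hψinj
  refine ⟨Set.range ψ, Function.invFun ψ, ψ, ?_, ⟨0, hψ0⟩, ?_, ?_, hψs, fun z => ⟨⟨z, rfl⟩, hinv z⟩,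
    ?_, ?_, ?_⟩
  · rw [isOpen_iff_mem_nhds]
    rintro x ⟨z, rfl⟩
    have h1 : (fun x : M => g z • x) ⁻¹' (X '' ball 0 s) ∈ 𝓝 (ψ z) :=
      (hWo.preimage (hs (g z)).continuous).mem_nhds (hmem z)
    filter_upwards [h1] with x hx
    exact ⟨_, hloc (g z) x hx⟩
  · rintro γ x ⟨z, rfl⟩
    exact ⟨ρ γ z, hψe γ z⟩
  · rintro x ⟨z, rfl⟩
    apply ContMDiffAt.contMDiffWithinAt
    have h1 : (fun x : M => g z • x) ⁻¹' (X '' ball 0 s) ∈ 𝓝 (ψ z) :=
      (hWo.preimage (hs (g z)).continuous).mem_nhds (hmem z)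
    have h2 : ContMDiffOn 𝓘(ℝ, E) 𝓘(ℝ, E) ∞ (fun x => ρ (g z)⁻¹ (θ (g z • x)))
        ((fun x : M => g z • x) ⁻¹' (X '' ball 0 s)) := by
      refine ((ρ (g z)⁻¹).contDiff.contMDiff).comp_contMDiffOn ?_
      exact hθs.comp (hs (g z)).contMDiffOn (fun x hx => hx)
    refine (h2.contMDiffAt h1).congr_of_eventuallyEq ?_
    filter_upwards [h1] with x hx
    conv_lhs => rw [← hloc (g z) x hx]
    exact hinv _
  · rintro x ⟨z, rfl⟩
    rw [hinv]
  · rw [← hψ0, hinv]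
  · rintro γ x ⟨z, rfl⟩
    rw [← hψe, hinv, hinv]

end LatLin
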