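import Pool.Agent.Lib.LatN.Defs

/-!
# GramDiag: Gram determinants under linear maps

Proofs.
* `vsq_nonneg`, `vsq_pos`: `Matrix.posSemidef_gram`, `Matrix.posDef_gram_of_linearIndependent`,
  `Matrix.PosSemidef.det_nonneg`, `Matrix.PosDef.det_pos`.
* `vsq_comb`: `gram (v M) = Mᵀ (gram v) M`.
* `gram_diag`: `V = span v`, an orthonormal basis of `V` of eigenvectors `f` of the symmetric
  operator `(h ∘ V.subtype)* ∘ (h ∘ V.subtype)` of `V` (index type `α` by `card α = dim V`): then
  `⟪h f_i, h f_j⟫ = 0` for `i ≠ j`. Write `v_j = ∑ M_ij f_i`; `vsq v = (det M)²` since `gram f = 1`,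
  and `vsq (h v) = (det M)² vsq (h f) = (det M)² ∏ ‖h f_i‖²`.
* `vsq_le_opNorm`: from `gram_diag`, `‖h f_i‖ ≤ ‖h‖`.
* `dlog_eq`: `v = f M` with `M` invertible, `gram v = Mᵀ M`, and the matrix
  `⟪A v_i, v_j⟫ = Mᵀ Q M` with `Q_ij = ⟪A f_i, f_j⟫`; trace of `(Mᵀ M)⁻¹ Mᵀ Q M = M⁻¹ Q M`.
* `vsq_exp_ge`: `gram_diag` for `h = exp A`, `eU_jensen` for each `f_i`, and `dlog_eq`.
-/

namespace LatN

variable {F : Type*} [NormedAddCommGroup F] [InnerProductSpace ℝ F]
variable {α : Type*} [Fintype α] [DecidableEq α]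

omit [Fintype α] [DecidableEq α] in
private theorem bm_comb [Fintype α] {G : Type*} [NormedAddCommGroup G] [InnerProductSpace ℝ G]
    (P Q : G →L[ℝ] F) (w : α → G) (M : Matrix α α ℝ) :
    (Matrix.of fun a b => inner ℝ (P (∑ i, M i a • w i)) (Q (∑ i, M i b • w i)) :
      Matrix α α ℝ) =
      M.transpose * (Matrix.of fun i j => inner ℝ (P (w i)) (Q (w j))) * M := by
  ext a b
  simp only [Matrix.of_apply, Matrix.mul_apply, Matrix.transpose_apply, map_sum, map_smul]
  rw [sum_inner]
  simp only [inner_sum, real_inner_smul_left, real_inner_smul_right, Finset.sum_mul]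
  rw [Finset.sum_comm]
  refine Finset.sum_congr rfl fun x _ => Finset.sum_congr rfl fun y _ => ?_
  ring

omit [Fintype α] [DecidableEq α] in
private theorem gram_comb [Fintype α] (v : α → F) (M : Matrix α α ℝ) :
    Matrix.gram ℝ (fun j => ∑ i, M i j • v i) = M.transpose * Matrix.gram ℝ v * M :=
  bm_comb (ContinuousLinearMap.id ℝ F) (ContinuousLinearMap.id ℝ F) v M

theorem vsq_nonneg (v : α → F) : 0 ≤ vsq v :=
  (Matrix.posSemidef_gram ℝ v).det_nonneg

theorem vsq_pos {v : α → F} (h : LinearIndependent ℝ v) : 0 < vsq v :=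
  (Matrix.posDef_gram_of_linearIndependent h).det_pos

theorem vsq_comb (v : α → F) (M : Matrix α α ℝ) :
    vsq (fun j => ∑ i, M i j • v i) = M.det ^ 2 * vsq v := by
  unfold vsq
  rw [gram_comb, Matrix.det_mul, Matrix.det_mul, Matrix.det_transpose]
  ring

theorem vsq_reindex {β : Type*} [Fintype β] [DecidableEq β] (e : β ≃ α) (v : α → F) :
    vsq (fun i => v (e i)) = vsq v := by
  unfold vsq
  have h : Matrix.gram ℝ (fun i => v (e i)) = (Matrix.gram ℝ v).submatrix e e := rfl
  rw [h, Matrix.det_submatrix_equiv_self]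

omit [DecidableEq α] in
private theorem exists_comb {v f : α → F}
    (hs : Submodule.span ℝ (Set.range f) = Submodule.span ℝ (Set.range v)) :
    ∃ M : Matrix α α ℝ, v = fun j => ∑ i, M i j • f i := by
  have h : ∀ j, ∃ c : α → ℝ, ∑ i, c i • f i = v j := by
    intro j
    rw [← Submodule.mem_span_range_iff_exists_fun, hs]
    exact Submodule.subset_span ⟨j, rfl⟩
  choose c hc using h
  exact ⟨Matrix.of fun i j => c j i, funext fun j => (hc j).symm⟩

private theorem vsq_ortho {f : α → F} (hf : Orthonormal ℝ f) : vsq f = 1 := by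
  unfold vsq
  rw [Matrix.gram_eq_one_iff_orthonormal.2 hf, Matrix.det_one]

theorem gram_diag [FiniteDimensional ℝ F] {v : α → F} (hv : LinearIndependent ℝ v)
    (h : F →L[ℝ] F) :
    ∃ f : α → F, Orthonormal ℝ f ∧
      Submodule.span ℝ (Set.range f) = Submodule.span ℝ (Set.range v) ∧
      vsq (fun i => h (v i)) = (∏ i, ‖h (f i)‖ ^ 2) * vsq v := by
  let V := Submodule.span ℝ (Set.range v)
  let g : V →ₗ[ℝ] F := (h : F →ₗ[ℝ] F) ∘ₗ V.subtype
  let T : V →ₗ[ℝ] V := LinearMap.adjoint g ∘ₗ g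
  have hTi : ∀ x y : V, inner ℝ (T x) y = inner ℝ (g x) (g y) := fun x y =>
    LinearMap.adjoint_inner_left g y (g x)
  have hTs : T.IsSymmetric := by
    intro x y
    rw [hTi, real_inner_comm, ← hTi, real_inner_comm]
  have hn : Module.finrank ℝ V = Fintype.card α := finrank_span_eq_card hv
  let b := hTs.eigenvectorBasis hn
  let e := Fintype.equivFin α
  let f : α → F := fun i => (b (e i) : F)
  have hfo : Orthonormal ℝ f := by
    have h1 : Orthonormal ℝ (fun i => b (e i)) := b.orthonormal.comp e e.injective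
    exact h1.comp_linearIsometry V.subtypeₗᵢ
  have hspan : Submodule.span ℝ (Set.range f) = Submodule.span ℝ (Set.range v) := by
    have h1 : Set.range f = V.subtype '' Set.range b := by
      ext x
      constructor
      · rintro ⟨i, rfl⟩
        exact ⟨b (e i), ⟨e i, rfl⟩, rfl⟩
      · rintro ⟨-, ⟨i, rfl⟩, rfl⟩
        exact ⟨e.symm i, by simp [f]⟩
    rw [h1, Submodule.span_image, ← b.coe_toBasis, b.toBasis.span_eq, Submodule.map_top,
      Submodule.range_subtype]
  refine ⟨f, hfo, hspan, ?_⟩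
  obtain ⟨M, hM⟩ := exists_comb hspan
  have h1 : vsq v = M.det ^ 2 := by
    rw [hM, vsq_comb, vsq_ortho hfo, mul_one]
  have h2 : (fun i => h (v i)) = fun j => ∑ i, M i j • h (f i) := by
    funext j
    rw [hM]
    simp only [map_sum, map_smul]
  have h3 : Matrix.gram ℝ (fun i => h (f i)) = Matrix.diagonal fun i => ‖h (f i)‖ ^ 2 := by
    ext i j
    rw [Matrix.gram_apply]
    by_cases hij : i = j
    · subst hij
      rw [Matrix.diagonal_apply_eq, real_inner_self_eq_norm_sq]
    · rw [Matrix.diagonal_apply_ne _ hij]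
      have h4 : inner ℝ (h (f i)) (h (f j)) = inner ℝ (T (b (e i))) (b (e j)) :=
        (hTi (b (e i)) (b (e j))).symm
      rw [h4, hTs.apply_eigenvectorBasis hn, inner_smul_left]
      have h5 : inner ℝ (b (e i)) (b (e j)) = 0 :=
        b.orthonormal.2 (fun h => hij (e.injective h))
      rw [show (hTs.eigenvectorBasis hn) (e i) = b (e i) from rfl, h5, mul_zero]
  rw [h2, vsq_comb, h1]
  unfold vsq
  rw [h3, Matrix.det_diagonal]
  ring

theorem vsq_le_opNorm [FiniteDimensional ℝ F] {v : α → F} (hv : LinearIndependent ℝ v)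
    (h : F →L[ℝ] F) :
    vsq (fun i => h (v i)) ≤ ‖h‖ ^ (2 * Fintype.card α) * vsq v := by
  obtain ⟨f, hf, -, he⟩ := gram_diag hv h
  rw [he]
  refine mul_le_mul_of_nonneg_right ?_ (vsq_nonneg v)
  have h1 : ∏ i : α, ‖h (f i)‖ ^ 2 ≤ ∏ _i : α, ‖h‖ ^ 2 := by
    refine Finset.prod_le_prod (fun i _ => by positivity) fun i _ => ?_
    have h2 : ‖h (f i)‖ ≤ ‖h‖ := by
      have h3 := h.le_opNorm (f i)
      rwa [hf.1 i, mul_one] at h3
    gcongr
  refine h1.trans (le_of_eq ?_)
  rw [Finset.prod_const, Finset.card_univ, ← pow_mul]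

theorem dlog_eq {v : α → F} (hv : LinearIndependent ℝ v) (A : F →L[ℝ] F) {f : α → F}
    (hf : Orthonormal ℝ f)
    (hs : Submodule.span ℝ (Set.range f) = Submodule.span ℝ (Set.range v)) :
    dlog A v = ∑ i, inner ℝ (A (f i)) (f i) := by
  obtain ⟨M, hM⟩ := exists_comb hs
  have hv1 := vsq_pos hv
  have hd : M.det ≠ 0 := by
    intro h0
    rw [hM, vsq_comb, h0] at hv1
    simp at hv1
  have hdu : IsUnit M.det := isUnit_iff_ne_zero.2 hd
  have hdt : IsUnit M.transpose.det := by rwa [Matrix.det_transpose]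
  have h1 : Matrix.gram ℝ v = M.transpose * M := by
    rw [hM, gram_comb, Matrix.gram_eq_one_iff_orthonormal.2 hf, Matrix.mul_one]
  have h2 : (Matrix.of fun i j => inner ℝ (A (v i)) (v j) : Matrix α α ℝ) =
      M.transpose * (Matrix.of fun i j => inner ℝ (A (f i)) (f j)) * M := by
    rw [hM]
    exact bm_comb A (ContinuousLinearMap.id ℝ F) f M
  unfold dlog
  rw [h1, h2, Matrix.mul_inv_rev]
  have h3 : M⁻¹ * M.transpose⁻¹ *
      (M.transpose * (Matrix.of fun i j => inner ℝ (A (f i)) (f j)) * M) =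
      M⁻¹ * (Matrix.of fun i j => inner ℝ (A (f i)) (f j)) * M := by
    rw [Matrix.mul_assoc M.transpose, Matrix.mul_assoc M⁻¹ M.transpose⁻¹,
      ← Matrix.mul_assoc M.transpose⁻¹ M.transpose, Matrix.nonsing_inv_mul _ hdt, Matrix.one_mul,
      Matrix.mul_assoc]
  rw [h3, Matrix.trace_mul_cycle, Matrix.mul_nonsing_inv _ hdu, Matrix.one_mul]
  rfl

theorem dlog_reindex {β : Type*} [Fintype β] [DecidableEq β] (e : β ≃ α) (A : F →L[ℝ] F)
    (v : α → F) : dlog A (fun i => v (e i)) = dlog A v := by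
  unfold dlog
  have h : Matrix.gram ℝ (fun i => v (e i)) = (Matrix.gram ℝ v).submatrix e e := rfl
  have h' : (Matrix.of fun i j => inner ℝ (A (v (e i))) (v (e j)) : Matrix β β ℝ) =
      (Matrix.of fun i j => inner ℝ (A (v i)) (v j) : Matrix α α ℝ).submatrix e e := rfl
  rw [h, h', Matrix.inv_submatrix_equiv, Matrix.submatrix_mul_equiv]
  unfold Matrix.trace
  exact Equiv.sum_comp e (fun i => ((Matrix.gram ℝ v)⁻¹ *
    (Matrix.of fun i j => inner ℝ (A (v i)) (v j) : Matrix α α ℝ)).diag i)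

theorem dlog_add (A B : F →L[ℝ] F) (v : α → F) : dlog (A + B) v = dlog A v + dlog B v := by
  unfold dlog
  rw [← Matrix.trace_add, ← Matrix.mul_add]
  congr 2
  ext i j
  simp [inner_add_left]

theorem dlog_smul (a : ℝ) (A : F →L[ℝ] F) (v : α → F) : dlog (a • A) v = a * dlog A v := by
  have h1 : (Matrix.of fun i j => inner ℝ ((a • A) (v i)) (v j) : Matrix α α ℝ) =
      a • (Matrix.of fun i j => inner ℝ (A (v i)) (v j) : Matrix α α ℝ) := by
    ext i j
    simp [real_inner_smul_left]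
  unfold dlog
  rw [h1, Matrix.mul_smul, Matrix.trace_smul, smul_eq_mul]

/-- continuity of the logarithmic derivative at a linearly independent family -/
theorem dlog_continuousAt {Y : Type*} [TopologicalSpace Y] (A : F →L[ℝ] F) (v : Y → α → F)
    (y : Y) (hv : LinearIndependent ℝ (v y)) (hc : ∀ i, ContinuousAt (fun z => v z i) y) :
    ContinuousAt (fun z => dlog A (v z)) y := by
  have h1 : ContinuousAt (fun z => Matrix.gram ℝ (v z)) y :=
    continuousAt_pi.2 fun i => continuousAt_pi.2 fun j => ContinuousAt.inner (𝕜 := ℝ) (hc i) (hc j)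
  have h2 : ContinuousAt (fun z => (Matrix.of fun i j => inner ℝ (A (v z i)) (v z j) :
      Matrix α α ℝ)) y :=
    continuousAt_pi.2 fun i => continuousAt_pi.2 fun j =>
      ContinuousAt.inner (𝕜 := ℝ) (A.continuous.continuousAt.comp (hc i)) (hc j)
  have h3 : (Matrix.gram ℝ (v y)).det ≠ 0 := (vsq_pos hv).ne'
  have d1 : Continuous (fun G : Matrix α α ℝ => G.det) := Continuous.matrix_det continuous_id
  have d2 : Continuous (fun G : Matrix α α ℝ => G.adjugate) :=
    Continuous.matrix_adjugate continuous_id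
  have e1 : ContinuousAt (fun z => (Matrix.gram ℝ (v z)).det) y :=
    ContinuousAt.comp (g := fun G : Matrix α α ℝ => G.det)
      (f := fun z => Matrix.gram ℝ (v z)) d1.continuousAt h1
  have e2 : ContinuousAt (fun z => (Matrix.gram ℝ (v z)).adjugate) y :=
    ContinuousAt.comp (g := fun G : Matrix α α ℝ => G.adjugate)
      (f := fun z => Matrix.gram ℝ (v z)) d2.continuousAt h1
  have e3 : ContinuousAt (fun z => ((Matrix.gram ℝ (v z)).det)⁻¹) y := e1.inv₀ h3
  have h4 : ContinuousAt (fun z => (Matrix.gram ℝ (v z))⁻¹) y := by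
    have h5 : (fun z => (Matrix.gram ℝ (v z))⁻¹) =
        fun z => ((Matrix.gram ℝ (v z)).det)⁻¹ • (Matrix.gram ℝ (v z)).adjugate := by
      funext z
      rw [Matrix.inv_def, Ring.inverse_eq_inv']
    rw [h5]
    exact e3.smul e2
  have h6 : Continuous (fun p : Matrix α α ℝ × Matrix α α ℝ => (p.1 * p.2).trace) :=
    Continuous.matrix_trace (Continuous.matrix_mul continuous_fst continuous_snd)
  exact ContinuousAt.comp (g := fun p : Matrix α α ℝ × Matrix α α ℝ => (p.1 * p.2).trace)
    (f := fun z => ((Matrix.gram ℝ (v z))⁻¹,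
      (Matrix.of fun i j => inner ℝ (A (v z i)) (v z j) : Matrix α α ℝ)))
    h6.continuousAt (h4.prodMk h2)

end LatN
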