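import Pool.Agent.Lib.LatN.ShortV

/-!
# InnerX: push-out directions in the inner case

All signs are `true`, and every nonzero vector of the lattice has components spanning at least a
plane of `E` (no elements of rank one).

Proof of `xex_inner`. `n = finrank ℝ E`, `T_g = TT sg T0 g`, `𝒰 = RU T0 R`. By `RU_shape` every
`U ∈ 𝒰` has `rsp T0 U = {v | ∀ k, v k ∈ W_U}` (only `W true` matters), so
`rsp T_g U = {v | ∀ k, v k ∈ g W_U}` (`rsp_TT`).
(1) If `U ≠ ⊥` then `finrank W_U ≥ 2`: `0 ≠ x ∈ U`, the components of `T0 x` lie in `W_U` (`hno`).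
(2) If `U ≠ ⊤`, `U` saturated, then `W_U ≠ E`: otherwise `rsp T0 U = ⊤` and `mem_of_rsp` gives
`U = ⊤`. So `finrank W_U ≤ n - 1`.
(3) `theta T_g ⊥ = 0` and `theta T_g ⊤ = - log (cov T0 ⊤)` (`cov_top_TT`). Let
`C1 = C0/2 + |log (cov T0 ⊤)| + 1`, `c = n + 1`, `δ = 1`. If `Th g ≥ C1` then every `U ∈ 𝒰` with
`Th g - C0/4 ≤ theta T_g U` satisfies `U ≠ ⊥, ⊤`, and these `U` form a chain (`near_chain`, `C0/4 ≤
C0/2`). There are finitely many and at least one (`near_finite`, `Theta_attained`); let `U₁` be the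
smallest one.
(4) `g W_{U₁}` has dimension `≥ 2`, so it contains a unit vector `u ⊥ z`. Let
`X v = n ⟪u, v⟫ u - v`: self-adjoint, trace `0`, `‖X‖ ≤ n + 1`, `⟪X z, z⟫ = -1`.
(5) Let `U` be as above, `W = g W_U ∋ u` (chain: `U₁ ≤ U`, so `W_{U₁} ≤ W_U`). Choose an orthonormal
basis `f_1, ..., f_w` of `W`; the vectors `f_{a,k}` (entry `f_a` at `k`, zero elsewhere) are an
orthonormal basis of `rsp T_g U`, so by `dlog_eq` (`rsp_ubas`, `ubasT_li`, `dlog_reindex` for the
index type `Fin w × κ`)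
`dlog (drep X) (T_g ∘ ubas U) = card κ ∑_a ⟪X f_a, f_a⟫ = card κ (n ∑ ⟪u, f_a⟫² - w) = card κ (n - w)`
which is `≥ 1`, as `card κ ≥ 1` (`κ` is nonempty) and `w ≤ n - 1`. (The family for `dlog_eq` must
have the index type of `ubas U`: its cardinality is `finrank U = dim rsp T_g U = w card κ`.)
-/

open scoped Topology

namespace LatN

variable {E : Type*} [NormedAddCommGroup E] [InnerProductSpace ℝ E] [FiniteDimensional ℝ E]
variable {κ : Type*} [Fintype κ] [DecidableEq κ] {ι : Type*} [Fintype ι] [DecidableEq ι]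

/-- the vector with the entry `x` on the copy `k` -/
private noncomputable def ixS (k : κ) : E →ₗ[ℝ] Cop κ E where
  toFun x := WithLp.toLp 2 (Pi.single k x)
  map_add' x y := by
    ext j
    show (Pi.single k (x + y) : κ → E) j = (Pi.single k x : κ → E) j + (Pi.single k y : κ → E) j
    rw [Pi.single_add]
    rfl
  map_smul' c x := by
    ext j
    show (Pi.single k (c • x) : κ → E) j = c • (Pi.single k x : κ → E) j
    rw [Pi.single_smul]
    rfl

private theorem ixS_same (k : κ) (x : E) : ixS k x k = x := by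
  show (Pi.single k x : κ → E) k = x
  rw [Pi.single_eq_same]

private theorem ixS_ne {k j : κ} (h : j ≠ k) (x : E) : ixS k x j = 0 := by
  show (Pi.single k x : κ → E) j = 0
  rw [Pi.single_eq_of_ne h]

private theorem ixS_inner (k : κ) (x : E) (v : Cop κ E) : inner ℝ (ixS k x) v = inner ℝ x (v k) := by
  rw [PiLp.inner_apply, Finset.sum_eq_single k]
  · rw [ixS_same]
  · intro j _ hj
    rw [ixS_ne hj, inner_zero_left]
  · intro h
    exact absurd (Finset.mem_univ k) h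

private theorem ixS_sum (v : Cop κ E) : v = ∑ k, ixS k (v k) := by
  ext j
  have h1 : (∑ k, ixS k (v k)) j = ∑ k, (ixS k (v k)) j := by
    simp
  rw [h1, Finset.sum_eq_single j]
  · rw [ixS_same]
  · intro k _ hk
    rw [ixS_ne hk.symm]
  · intro h
    exact absurd (Finset.mem_univ j) h

/-- general trace formula: if `rsp T_g U` is the space of all `v` with `v k ∈ W (sg k)` and `f b` is an
orthonormal basis of `W b` then `dlog (drep X)` is the sum over the copies of `±` the trace of `X`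
compressed to `W (sg k)` -/
theorem dlog_shape {sg : κ → Bool} {T : (ι → ℤ) →ₗ[ℤ] Cop κ E} (hT : Emb T)
    {U : Submodule ℤ (ι → ℤ)} {W : Bool → Submodule ℝ E}
    (hW : ∀ v : Cop κ E, v ∈ rsp T U ↔ ∀ k, v k ∈ W (sg k)) {w : Bool → ℕ}
    (f : ∀ b : Bool, OrthonormalBasis (Fin (w b)) ℝ (W b)) (X : E →L[ℝ] E) :
    dlog (drep sg X) (fun i => T (ubas U i)) =
      ∑ k : κ, (if sg k then (1 : ℝ) else -1) *
        ∑ a, inner ℝ (X (f (sg k) a : E)) (f (sg k) a : E) := by
  let G : (Σ k : κ, Fin (w (sg k))) → Cop κ E := fun p => ixS p.1 (f (sg p.1) p.2 : E)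
  have hG : Orthonormal ℝ G := by
    rw [orthonormal_iff_ite]
    rintro ⟨k, a⟩ ⟨j, b⟩
    show inner ℝ (ixS k (f (sg k) a : E)) (ixS j (f (sg j) b : E)) = _
    rw [ixS_inner]
    by_cases hkj : k = j
    · subst hkj
      rw [ixS_same]
      have h1 := orthonormal_iff_ite.1 (f (sg k)).orthonormal a b
      rw [Submodule.coe_inner] at h1
      rw [h1]
      by_cases hab : a = b
      · subst hab
        rw [if_pos rfl, if_pos rfl]
      · rw [if_neg hab, if_neg]
        intro h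
        simp only [Sigma.mk.injEq, heq_eq_eq, true_and] at h
        exact hab h
    · rw [ixS_ne hkj, inner_zero_right, if_neg]
      intro h
      exact hkj (congrArg Sigma.fst h)
  have hspan : Submodule.span ℝ (Set.range G) = rsp T U := by
    refine le_antisymm (Submodule.span_le.2 ?_) fun v hv => ?_
    · rintro _ ⟨⟨k, a⟩, rfl⟩
      refine (hW _).2 fun j => ?_
      show ixS k (f (sg k) a : E) j ∈ W (sg j)
      by_cases hj : j = k
      · subst hj
        rw [ixS_same]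
        exact (f (sg j) a).2
      · rw [ixS_ne hj]
        exact Submodule.zero_mem _
    · rw [ixS_sum v]
      refine Submodule.sum_mem _ fun k _ => ?_
      have h1 := (f (sg k)).sum_repr ⟨v k, (hW v).1 hv k⟩
      have h2 : v k = ∑ a, ((f (sg k)).repr ⟨v k, (hW v).1 hv k⟩) a • (f (sg k) a : E) := by
        have h3 := congrArg (fun u : W (sg k) => (u : E)) h1
        simp only [Submodule.coe_sum, Submodule.coe_smul] at h3
        exact h3.symm
      rw [h2, map_sum]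
      refine Submodule.sum_mem _ fun a _ => ?_
      rw [map_smul]
      exact Submodule.smul_mem _ _ (Submodule.subset_span ⟨⟨k, a⟩, rfl⟩)
  have hcard : Fintype.card (Fin (Module.finrank ℤ U)) = Fintype.card (Σ k : κ, Fin (w (sg k))) := by
    rw [← finrank_span_eq_card hG.linearIndependent, hspan, finrank_rsp hT, Fintype.card_fin]
  let e := Fintype.equivOfCardEq hcard
  have hs : Submodule.span ℝ (Set.range fun i => G (e i)) =
      Submodule.span ℝ (Set.range fun i => T (ubas U i)) := by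
    rw [← rsp_ubas, ← hspan]
    congr 1
    exact e.surjective.range_comp G
  rw [dlog_eq (ubasT_li hT U) (drep sg X) (hG.comp e e.injective) hs]
  refine (Equiv.sum_comp e fun p => inner ℝ (drep sg X (G p)) (G p)).trans ?_
  rw [Fintype.sum_sigma]
  refine Finset.sum_congr rfl fun k _ => ?_
  rw [Finset.mul_sum]
  refine Finset.sum_congr rfl fun a _ => ?_
  rw [real_inner_comm]
  show inner ℝ (ixS k (f (sg k) a : E)) (drep sg X (ixS k (f (sg k) a : E))) = _
  rw [ixS_inner]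
  unfold drep
  rw [blk_apply, ixS_same]
  split_ifs
  · rw [one_mul, real_inner_comm]
  · rw [ContinuousLinearMap.neg_apply, inner_neg_right, real_inner_comm]
    ring

theorem xex_inner [Nonempty κ] {T0 : (ι → ℤ) →ₗ[ℤ] Cop κ E} {R : Subring (Matrix κ κ ℝ)}
    (h : ArD (fun _ : κ => true) T0 R)
    (hno : ∀ x : ι → ℤ, x ≠ 0 →
      2 ≤ Module.finrank ℝ (Submodule.span ℝ (Set.range fun k => T0 x k)))
    {C0 : ℝ} (hC : 0 < C0) : XEX C0 (RU T0 R) (fun _ : κ => true) T0 := by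
  set n := Module.finrank ℝ E with hn
  refine ⟨C0 / 2 + |Real.log (cov T0 ⊤)| + 1, n + 1, 1, one_pos, fun g hg hTh z hz => ?_⟩
  set T := TT (fun _ : κ => true) T0 g with hTdef
  have hT : Emb T := emb_TT h.emb g
  have hadm := adm_RU h
  have hginj : ∀ x : E, ((g⁻¹ : GE E) : E →L[ℝ] E) ((g : E →L[ℝ] E) x) = x := by
    intro x
    have h1 : ((g⁻¹ : GE E) : E →L[ℝ] E) * (g : E →L[ℝ] E) = 1 := Units.inv_mul g
    exact DFunLike.congr_fun h1 x
  -- the near maximal subgroups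
  set 𝒩 : Set (Submodule ℤ (ι → ℤ)) := {U | U ∈ RU T0 R ∧
    Th C0 (RU T0 R) (fun _ : κ => true) T0 g - C0 / 4 ≤ theta C0 T U} with h𝒩
  have hfin : 𝒩.Finite := (near_finite hT hC.le _).subset fun U hU => hU.2
  have hne : 𝒩.Nonempty := by
    obtain ⟨U, hU, hU'⟩ := Theta_attained hT hC.le hadm
    refine ⟨U, hU, ?_⟩
    rw [hU']
    show Theta C0 (RU T0 R) T - C0 / 4 ≤ _
    linarith
  have hbot : ∀ U ∈ 𝒩, U ≠ ⊥ := by
    rintro U ⟨-, hU⟩ rfl
    rw [theta, cov_bot] at hU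
    have := abs_nonneg (Real.log (cov T0 ⊤))
    simp only [Real.log_one, neg_zero, zero_sub, finrank_bot, CharP.cast_eq_zero, mul_zero,
      zero_mul, neg_zero] at hU
    linarith
  have htop : ∀ U ∈ 𝒩, U ≠ ⊤ := by
    rintro U ⟨-, hU⟩ rfl
    rw [theta, finrank_top, Module.finrank_fintype_fun_eq_card, sub_self, mul_zero, sub_zero,
      hTdef, cov_top_TT h hg] at hU
    have := neg_abs_le (Real.log (cov T0 ⊤))
    linarith
  have hshape : ∀ U ∈ RU T0 R, ∃ W : Submodule ℝ E, ∀ v : Cop κ E, v ∈ rsp T0 U ↔ ∀ k, v k ∈ W := by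
    intro U hU
    obtain ⟨W, hW⟩ := RU_shape h hU
    exact ⟨W true, hW⟩
  have hmap : ∀ (U : Submodule ℤ (ι → ℤ)) (W : Submodule ℝ E),
      (∀ v : Cop κ E, v ∈ rsp T0 U ↔ ∀ k, v k ∈ W) →
      ∀ v : Cop κ E, v ∈ rsp T U ↔ ∀ k, v k ∈ W.map ((g : E →L[ℝ] E) : E →ₗ[ℝ] E) := by
    intro U W hW v
    rw [hTdef, rsp_TT]
    constructor
    · rintro ⟨v0, hv0, rfl⟩ k
      exact ⟨v0 k, (hW v0).1 hv0 k, rfl⟩
    · intro hv
      choose w hw hw' using hv
      refine ⟨WithLp.toLp 2 w, (hW _).2 hw, ?_⟩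
      ext k
      exact hw' k
  have hdim2 : ∀ (U : Submodule ℤ (ι → ℤ)) (W : Submodule ℝ E), U ≠ ⊥ →
      (∀ v : Cop κ E, v ∈ rsp T0 U ↔ ∀ k, v k ∈ W) → 2 ≤ Module.finrank ℝ W := by
    intro U W hU hW
    obtain ⟨x, hx, hx0⟩ := Submodule.exists_mem_ne_zero_of_ne_bot hU
    refine (hno x hx0).trans (Submodule.finrank_mono (Submodule.span_le.2 ?_))
    rintro _ ⟨k, rfl⟩
    exact (hW (T0 x)).1 (Submodule.subset_span ⟨x, hx, rfl⟩) k
  have hdimn : ∀ (U : Submodule ℤ (ι → ℤ)) (W : Submodule ℝ E), U ∈ RU T0 R → U ≠ ⊤ →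
      (∀ v : Cop κ E, v ∈ rsp T0 U ↔ ∀ k, v k ∈ W) → Module.finrank ℝ W < n := by
    intro U W hUR hU hW
    refine Submodule.finrank_lt ?_
    rintro rfl
    refine hU (eq_top_iff.2 fun x _ => ?_)
    exact mem_of_rsp h.emb hUR.1 ((hW _).2 fun k => Submodule.mem_top)
  obtain ⟨U₁, hU₁, hmin⟩ := Set.exists_min_image 𝒩 (fun U => Module.finrank ℤ U) hfin hne
  have hle : ∀ U ∈ 𝒩, U₁ ≤ U := by
    intro U hU
    have h1 : Theta C0 (RU T0 R) T - C0 / 2 ≤ theta C0 T U := by
      have := hU.2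
      change Theta C0 (RU T0 R) T - C0 / 4 ≤ _ at this
      linarith
    have h2 : Theta C0 (RU T0 R) T - C0 / 2 ≤ theta C0 T U₁ := by
      have := hU₁.2
      change Theta C0 (RU T0 R) T - C0 / 4 ≤ _ at this
      linarith
    rcases near_chain hT hC hadm hU.1 hU₁.1 h1 h2 with h3 | h3
    · have h4 := sat_eq hU.1.1 h3 (le_antisymm (Submodule.finrank_mono h3) (hmin U hU))
      exact h4.ge
    · exact h3
  obtain ⟨W₁, hW₁⟩ := hshape U₁ hU₁.1
  -- the direction
  obtain ⟨u, hu1, huz, w₁, hw₁, hw₁'⟩ : ∃ u : E, ‖u‖ = 1 ∧ inner ℝ u z = 0 ∧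
      ∃ w ∈ W₁, (g : E →L[ℝ] E) w = u := by
    let φ : W₁ →ₗ[ℝ] ℝ := ((innerSL ℝ z : E →L[ℝ] ℝ) : E →ₗ[ℝ] ℝ) ∘ₗ
      ((g : E →L[ℝ] E) : E →ₗ[ℝ] E) ∘ₗ W₁.subtype
    have h1 : LinearMap.ker φ ≠ ⊥ := by
      refine LinearMap.ker_ne_bot_of_finrank_lt ?_
      rw [Module.finrank_self]
      exact hdim2 U₁ W₁ (hbot U₁ hU₁) hW₁
    obtain ⟨w, hw, hw0⟩ := Submodule.exists_mem_ne_zero_of_ne_bot h1
    have h2 : inner ℝ z ((g : E →L[ℝ] E) (w : E)) = 0 := hw
    have h3 : (g : E →L[ℝ] E) (w : E) ≠ 0 := by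
      intro h4
      have h5 := hginj (w : E)
      rw [h4, map_zero] at h5
      exact hw0 (Subtype.ext h5.symm)
    refine ⟨‖(g : E →L[ℝ] E) (w : E)‖⁻¹ • (g : E →L[ℝ] E) (w : E), ?_, ?_,
      ‖(g : E →L[ℝ] E) (w : E)‖⁻¹ • (w : E), W₁.smul_mem _ w.2, ?_⟩
    · rw [norm_smul, norm_inv, norm_norm, inv_mul_cancel₀ (norm_ne_zero_iff.2 h3)]
    · rw [real_inner_smul_left, real_inner_comm, h2, mul_zero]
    · rw [map_smul]
  let X : E →L[ℝ] E := (n : ℝ) • ((innerSL ℝ u).smulRight u) - ContinuousLinearMap.id ℝ E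
  have hX : ∀ v, X v = (n : ℝ) • (inner ℝ u v • u) - v := fun v => rfl
  have hXi : ∀ v w, inner ℝ (X v) w = n * (inner ℝ u v * inner ℝ u w) - inner ℝ v w := by
    intro v w
    rw [hX, inner_sub_left, real_inner_smul_left, real_inner_smul_left]
  refine ⟨X, ?_, ?_, ?_, ?_, fun U hU hU' => ?_⟩
  · rw [ContinuousLinearMap.isSelfAdjoint_iff_isSymmetric]
    intro v w
    show inner ℝ (X v) w = inner ℝ v (X w)
    rw [hXi, real_inner_comm (X w) v, hXi, real_inner_comm v w]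
    ring
  · have h1 : (X : E →ₗ[ℝ] E) = (n : ℝ) • (((innerSL ℝ u : E →L[ℝ] ℝ) : E →ₗ[ℝ] ℝ).smulRight u) -
        LinearMap.id := rfl
    rw [h1, map_sub, map_smul, LinearMap.trace_smulRight, LinearMap.trace_id]
    show (n : ℝ) • inner ℝ u u - (Module.finrank ℝ E : ℝ) = 0
    rw [real_inner_self_eq_norm_sq, hu1, smul_eq_mul]
    ring
  · refine ContinuousLinearMap.opNorm_le_bound _ (by positivity) fun v => ?_
    rw [hX]
    refine (norm_sub_le _ _).trans ?_
    rw [norm_smul, norm_smul, hu1, mul_one]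
    have h1 := norm_inner_le_norm (𝕜 := ℝ) u v
    rw [hu1, one_mul] at h1
    have h2 : ‖(n : ℝ)‖ = n := by
      rw [Real.norm_eq_abs, abs_of_nonneg (Nat.cast_nonneg n)]
    rw [h2]
    have h3 := mul_le_mul_of_nonneg_left h1 (Nat.cast_nonneg (α := ℝ) n)
    linarith
  · rw [hXi, huz, real_inner_self_eq_norm_sq, hz]
    norm_num
  · have hUN : U ∈ 𝒩 := ⟨hU, hU'⟩
    obtain ⟨W, hW⟩ := hshape U hU
    obtain ⟨k₀⟩ := ‹Nonempty κ›
    have hWW : w₁ ∈ W := by
      have h1 : ixS k₀ w₁ ∈ rsp T0 U₁ := by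
        refine (hW₁ _).2 fun j => ?_
        by_cases hj : j = k₀
        · subst hj
          rw [ixS_same]
          exact hw₁
        · rw [ixS_ne hj]
          exact Submodule.zero_mem _
      have h2 := (hW _).1 (rsp_mono T0 (hle U hUN) h1) k₀
      rwa [ixS_same] at h2
    set W' : Submodule ℝ E := W.map ((g : E →L[ℝ] E) : E →ₗ[ℝ] E) with hW'
    have huW : u ∈ W' := ⟨w₁, hWW, hw₁'⟩
    have hw : Module.finrank ℝ W' < n :=
      lt_of_le_of_lt (Submodule.finrank_map_le _ _) (hdimn U W hU (htop U hUN) hW)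
    let f : ∀ b : Bool, OrthonormalBasis (Fin ((fun _ => Module.finrank ℝ W') b)) ℝ
      ((fun _ : Bool => W') b) := fun _ => stdOrthonormalBasis ℝ W'
    have h1 := dlog_shape (sg := fun _ : κ => true) (W := fun _ => W') hT (hmap U W hW) f X
    rw [h1]
    have h2 : ∑ a, inner ℝ (X ((stdOrthonormalBasis ℝ W' a : W') : E))
        ((stdOrthonormalBasis ℝ W' a : W') : E) = n - (Module.finrank ℝ W' : ℝ) := by
      have h3 : ∀ a, inner ℝ (X ((stdOrthonormalBasis ℝ W' a : W') : E))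
          ((stdOrthonormalBasis ℝ W' a : W') : E) =
          n * (inner ℝ (⟨u, huW⟩ : W') (stdOrthonormalBasis ℝ W' a)) ^ 2 - 1 := by
        intro a
        have h4 := (stdOrthonormalBasis ℝ W').orthonormal.1 a
        rw [hXi, real_inner_self_eq_norm_sq, Submodule.coe_inner]
        have h5 : ‖((stdOrthonormalBasis ℝ W' a : W') : E)‖ = 1 := h4
        rw [h5]
        ring
      simp only [h3]
      rw [Finset.sum_sub_distrib, ← Finset.mul_sum, (stdOrthonormalBasis ℝ W').sum_sq_inner_left]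
      have h6 : ‖(⟨u, huW⟩ : W')‖ = 1 := hu1
      rw [h6, Finset.sum_const, Finset.card_univ, Fintype.card_fin]
      simp
    have h7 : ∀ k : κ, (if true = true then (1 : ℝ) else -1) *
        ∑ a, inner ℝ (X (f true a : E)) (f true a : E) = n - (Module.finrank ℝ W' : ℝ) := by
      intro k
      rw [if_pos rfl, one_mul]
      exact h2
    rw [Finset.sum_congr rfl fun k _ => h7 k, Finset.sum_const, Finset.card_univ, nsmul_eq_mul]
    have h8 : (1 : ℝ) ≤ Fintype.card κ := by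
      exact_mod_cast Fintype.card_pos_iff.2 ⟨k₀⟩
    have h9 : (1 : ℝ) ≤ n - (Module.finrank ℝ W' : ℝ) := by
      have : (Module.finrank ℝ W' : ℝ) + 1 ≤ n := by exact_mod_cast hw
      linarith
    nlinarith

end LatN
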