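import Pool.Agent.Lib.LatN.ThickG
import Pool.Agent.Lib.LatN.InnerX

/-!
# InnerR: the inner case, conclusion

Proofs (all signs `true`, pairing `β = 0`).
* `hrep_inner`: `H` commutes with `mix c` for all matrices `c`. For the vector `s_k(w)` with entry
  `w` at `k` and zero elsewhere, `mix (single k k 1)` fixes it, so `H s_k(w) = s_k(A_k w)`;
  `mix (single j k 1) s_j(w) = s_k(w)` gives `A_j = A_k =: A`. `A` is linear, continuous and
  invertible (the same for `H⁻¹`), and `H = rep sg A` on all `s_k(w)`, which span.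
* `det_inner`: for `γ ∈ LatPres` the operator `rep sg γ` maps the lattice `T0 ℤ^ι` onto itself, so in
  the basis `T0 e_i` of the space its matrix is an integer matrix with integer inverse:
  `det (rep sg γ) = ±1`; and `det (rep sg γ) = (detu γ)^(card κ)` (all signs `true`; product of
  copies), `card κ ≥ 1`, so `|detu γ| = 1`.
* `noHorn_inner`: `thick_of_types` with `β = 0`, `noHorn_ar` with `C0 = 1` and `xex_inner`.
  (`2 ≤ finrank E`: if `card ι = 0` then `finrank E = 0` or ...: it is a hypothesis `hn`.)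
-/

open scoped Topology

namespace LatN

variable {E : Type*} [NormedAddCommGroup E] [InnerProductSpace ℝ E] [FiniteDimensional ℝ E]
variable {κ : Type*} [Fintype κ] [DecidableEq κ] {ι : Type*} [Fintype ι] [DecidableEq ι]

private noncomputable def sing' (k : κ) : E →ₗ[ℝ] Cop κ E :=
  ((WithLp.linearEquiv 2 ℝ (κ → E)).symm : (κ → E) →ₗ[ℝ] Cop κ E) ∘ₗ
    LinearMap.single ℝ (fun _ : κ => E) k

omit [FiniteDimensional ℝ E] in
private theorem sing'_apply (k : κ) (w : E) (i : κ) :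
    (sing' k w : Cop κ E) i = if i = k then w else 0 := by
  show (Pi.single k w : κ → E) i = _
  rw [Pi.single_apply]

omit [FiniteDimensional ℝ E] in
private theorem mix_single (a b : κ) (v : Cop κ E) :
    mix (Matrix.single a b (1 : ℝ)) v = sing' b (v a) := by
  ext i
  rw [sing'_apply]
  show ∑ j, (Matrix.single a b (1 : ℝ)) j i • v j = _
  by_cases hi : i = b
  · subst hi
    rw [if_pos rfl, Finset.sum_eq_single a]
    · simp
    · intro j _ hj
      have h0 : (Matrix.single a i (1 : ℝ)) j i = 0 := by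
        simp [Matrix.single, Ne.symm hj]
      exact (congrArg (fun t : ℝ => t • v j) h0).trans (zero_smul ℝ _)
    · intro h
      exact absurd (Finset.mem_univ a) h
  · rw [if_neg hi]
    refine Finset.sum_eq_zero fun j _ => ?_
    have h0 : (Matrix.single a b (1 : ℝ)) j i = 0 := by
      simp [Matrix.single, Ne.symm hi]
    exact (congrArg (fun t : ℝ => t • v j) h0).trans (zero_smul ℝ _)

private noncomputable def cmpt (k0 : κ) (H : Cop κ E →L[ℝ] Cop κ E) : E →L[ℝ] E :=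
  LinearMap.toContinuousLinearMap
    ((PiLp.projₗ 2 (𝕜 := ℝ) (fun _ : κ => E) k0) ∘ₗ (H : Cop κ E →ₗ[ℝ] Cop κ E) ∘ₗ sing' k0)

private theorem cmpt_apply (k0 : κ) (H : Cop κ E →L[ℝ] Cop κ E) (w : E) :
    cmpt k0 H w = (H (sing' k0 w)) k0 := rfl

private theorem cmpt_spec (k0 : κ) {H : Cop κ E →L[ℝ] Cop κ E}
    (hH : ∀ c : Matrix κ κ ℝ, ∀ v : Cop κ E, mix c (H v) = H (mix c v)) (v : Cop κ E) (a : κ) :
    (H v) a = cmpt k0 H (v a) := by
  have h1 := hH (Matrix.single a k0 1) v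
  rw [mix_single, mix_single] at h1
  rw [cmpt_apply, ← h1, sing'_apply, if_pos rfl]

private theorem cmpt_mul (k0 : κ) {H K : Cop κ E →L[ℝ] Cop κ E}
    (hH : ∀ c : Matrix κ κ ℝ, ∀ v : Cop κ E, mix c (H v) = H (mix c v))
    (hHK : ∀ v, H (K v) = v) : cmpt k0 H * cmpt k0 K = 1 := by
  ext w
  show cmpt k0 H (cmpt k0 K w) = w
  rw [cmpt_apply k0 K, ← cmpt_spec k0 hH, hHK, sing'_apply, if_pos rfl]

omit [DecidableEq κ] in
private theorem finrank_Cop' :
    Module.finrank ℝ (Cop κ E) = Fintype.card κ * Module.finrank ℝ E := by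
  rw [(WithLp.linearEquiv 2 ℝ (κ → E)).finrank_eq, Module.finrank_pi_fintype]
  simp

private theorem det_rep' (γ : GE E) :
    LinearMap.det ((rep (fun _ : κ => true) γ : Cop κ E →L[ℝ] Cop κ E) :
      Cop κ E →ₗ[ℝ] Cop κ E) = (detu γ) ^ Fintype.card κ := by
  have h1 : ((rep (fun _ : κ => true) γ : Cop κ E →L[ℝ] Cop κ E) : Cop κ E →ₗ[ℝ] Cop κ E) =
      ((WithLp.linearEquiv 2 ℝ (κ → E)).symm : (κ → E) →ₗ[ℝ] Cop κ E) ∘ₗ
        (LinearMap.pi (fun i => ((γ : E →L[ℝ] E) : E →ₗ[ℝ] E).comp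
          (LinearMap.proj (φ := fun _ : κ => E) i))) ∘ₗ
        ((WithLp.linearEquiv 2 ℝ (κ → E)) : Cop κ E →ₗ[ℝ] (κ → E)) := by
    ext v k
    rfl
  have h2 := LinearMap.det_conj (LinearMap.pi (fun i => ((γ : E →L[ℝ] E) : E →ₗ[ℝ] E).comp
          (LinearMap.proj (φ := fun _ : κ => E) i))) (WithLp.linearEquiv 2 ℝ (κ → E)).symm
  rw [h1]
  refine h2.trans ?_
  rw [LinearMap.det_pi, Finset.prod_const, Finset.card_univ]
  rfl

private theorem int_det {F : Type*} [NormedAddCommGroup F] [InnerProductSpace ℝ F]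
    [FiniteDimensional ℝ F] {T : (ι → ℤ) →ₗ[ℤ] F} (hT : Emb T)
    (hc : Fintype.card ι = Module.finrank ℝ F) (h : F →ₗ[ℝ] F) (hh : ∀ x, ∃ y, h (T x) = T y) :
    ∃ n : ℤ, LinearMap.det h = n := by
  classical
  choose y hy using fun i : ι => hh (Pi.single i 1)
  by_cases hι : Nonempty ι
  · have hT' : LinearIndependent ℝ fun i => T (Pi.single i 1) := hT
    let b : Module.Basis ι ℝ F := basisOfLinearIndependentOfCardEqFinrank hT' hc
    have hb : ∀ i, b i = T (Pi.single i 1) := fun i =>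
      congrFun (coe_basisOfLinearIndependentOfCardEqFinrank hT' hc) i
    refine ⟨(Matrix.of fun i j => y j i).det, ?_⟩
    rw [← LinearMap.det_toMatrix b]
    have h2 : LinearMap.toMatrix b b h = (Matrix.of fun i j => y j i).map (Int.castRingHom ℝ) := by
      ext i j
      rw [LinearMap.toMatrix_apply, hb, hy, Matrix.map_apply, Matrix.of_apply]
      have h3 : T (y j) = ∑ k, (y j k : ℝ) • b k := by
        have h4 : y j = ∑ k, y j k • (Pi.single k (1 : ℤ) : ι → ℤ) := by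
          ext i
          rw [Finset.sum_apply, Finset.sum_eq_single i]
          · simp
          · intro k _ hk
            simp [Pi.single_apply, Ne.symm hk]
          · intro h
            exact absurd (Finset.mem_univ i) h
        conv_lhs => rw [h4]
        rw [map_sum]
        refine Finset.sum_congr rfl fun k _ => ?_
        rw [map_smul, hb, Int.cast_smul_eq_zsmul]
      rw [h3, Module.Basis.repr_sum_self]
      rfl
    rw [h2]
    exact (Int.castRingHom ℝ).map_det _ |>.symm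
  · haveI : IsEmpty ι := not_nonempty_iff.1 hι
    have h0 : Module.finrank ℝ F = 0 := by rw [← hc, Fintype.card_eq_zero]
    exact ⟨1, by rw [LinearMap.det_eq_one_of_finrank_eq_zero h0, Int.cast_one]⟩

theorem hrep_inner [Nonempty κ] (H : GE (Cop κ E))
    (hH : ∀ c : Matrix κ κ ℝ, ∀ v : Cop κ E,
      mix c ((H : Cop κ E →L[ℝ] Cop κ E) v) = (H : Cop κ E →L[ℝ] Cop κ E) (mix c v)) :
    ∃ A : GE E, (H : Cop κ E →L[ℝ] Cop κ E) = rep (fun _ : κ => true) A := by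
  obtain ⟨k0⟩ := (inferInstance : Nonempty κ)
  have hK : ∀ c : Matrix κ κ ℝ, ∀ v : Cop κ E,
      mix c (((H⁻¹ : GE (Cop κ E)) : Cop κ E →L[ℝ] Cop κ E) v) =
        ((H⁻¹ : GE (Cop κ E)) : Cop κ E →L[ℝ] Cop κ E) (mix c v) := by
    intro c v
    have h1 : ∀ u, ((H⁻¹ : GE (Cop κ E)) : Cop κ E →L[ℝ] Cop κ E)
        ((H : Cop κ E →L[ℝ] Cop κ E) u) = u := fun u => by
      show (((H⁻¹ : GE (Cop κ E)) : Cop κ E →L[ℝ] Cop κ E) * (H : Cop κ E →L[ℝ] Cop κ E)) u = u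
      rw [Units.inv_mul]
      rfl
    have h2 : ∀ u, (H : Cop κ E →L[ℝ] Cop κ E)
        (((H⁻¹ : GE (Cop κ E)) : Cop κ E →L[ℝ] Cop κ E) u) = u := fun u => by
      show ((H : Cop κ E →L[ℝ] Cop κ E) * ((H⁻¹ : GE (Cop κ E)) : Cop κ E →L[ℝ] Cop κ E)) u = u
      rw [Units.mul_inv]
      rfl
    rw [← h1 (mix c _), ← hH, h2]
  have h1 : ∀ u, ((H⁻¹ : GE (Cop κ E)) : Cop κ E →L[ℝ] Cop κ E)
      ((H : Cop κ E →L[ℝ] Cop κ E) u) = u := fun u => by
    show (((H⁻¹ : GE (Cop κ E)) : Cop κ E →L[ℝ] Cop κ E) * (H : Cop κ E →L[ℝ] Cop κ E)) u = u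
    rw [Units.inv_mul]
    rfl
  have h2 : ∀ u, (H : Cop κ E →L[ℝ] Cop κ E)
      (((H⁻¹ : GE (Cop κ E)) : Cop κ E →L[ℝ] Cop κ E) u) = u := fun u => by
    show ((H : Cop κ E →L[ℝ] Cop κ E) * ((H⁻¹ : GE (Cop κ E)) : Cop κ E →L[ℝ] Cop κ E)) u = u
    rw [Units.mul_inv]
    rfl
  refine ⟨⟨cmpt k0 (H : Cop κ E →L[ℝ] Cop κ E),
    cmpt k0 ((H⁻¹ : GE (Cop κ E)) : Cop κ E →L[ℝ] Cop κ E), cmpt_mul k0 hH h2,
    cmpt_mul k0 hK h1⟩, ?_⟩
  ext v a
  rw [cmpt_spec k0 hH]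
  rfl

theorem det_inner [Nonempty κ] {T0 : (ι → ℤ) →ₗ[ℤ] Cop κ E} {R : Subring (Matrix κ κ ℝ)}
    (h : ArD (fun _ : κ => true) T0 R) {γ : GE E}
    (hγ : γ ∈ LatPres (fun _ : κ => true) T0) : |detu γ| = 1 := by
  have hc : Fintype.card ι = Module.finrank ℝ (Cop κ E) := by rw [finrank_Cop', h.card_eq]
  obtain ⟨m, hm⟩ := int_det h.emb hc
    ((rep (fun _ : κ => true) γ : Cop κ E →L[ℝ] Cop κ E) : Cop κ E →ₗ[ℝ] Cop κ E) hγ.1
  obtain ⟨n, hn⟩ := int_det h.emb hc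
    ((rep (fun _ : κ => true) γ⁻¹ : Cop κ E →L[ℝ] Cop κ E) : Cop κ E →ₗ[ℝ] Cop κ E) hγ.2
  rw [det_rep'] at hm hn
  have h3 : (m : ℝ) * n = 1 := by
    rw [← hm, ← hn, ← mul_pow, ← detu_mul, mul_inv_cancel, detu_one, one_pow]
  have h4 : m * n = 1 := by exact_mod_cast h3
  have h5 : |m| = 1 := Int.isUnit_iff_abs_eq.1 (IsUnit.of_mul_eq_one _ h4)
  have h6 : |detu γ| ^ Fintype.card κ = 1 := by
    rw [← abs_pow, hm, ← Int.cast_abs, h5, Int.cast_one]
  exact (pow_eq_one_iff_of_nonneg (abs_nonneg _) Fintype.card_ne_zero).1 h6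

theorem noHorn_inner [Nonempty κ] {T0 : (ι → ℤ) →ₗ[ℤ] Cop κ E} {R : Subring (Matrix κ κ ℝ)}
    (h : ArD (fun _ : κ => true) T0 R) (hn : 2 ≤ Module.finrank ℝ E)
    (hno : ∀ x : ι → ℤ, x ≠ 0 →
      2 ≤ Module.finrank ℝ (Submodule.span ℝ (Set.range fun k => T0 x k)))
    {Γ : Subgroup (GE E)} (hΓ : Γ ≤ Gam0 (fun _ : κ => true) T0)
    (hfi : Γ.relIndex (Gam0 (fun _ : κ => true) T0) ≠ 0) : NoHorn Γ := by
  refine noHorn_ar h hn one_pos (xex_inner h hno one_pos) hΓ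
    (thick_of_types h 0 (fun _ _ _ => by simp) ⟨1, one_ne_zero, fun x y => ⟨0, by simp⟩⟩
      (fun H h1 _ => hrep_inner H fun c v => h1 c (fun j k hjk => absurd rfl hjk) v)
      (fun B => ?_) zero_le_one hΓ hfi)
  refine Set.Finite.subset (Set.toFinite {1, -1}) ?_
  rintro d ⟨γ, hγ, rfl, -, -⟩
  rcases abs_eq (zero_le_one) |>.1 (det_inner h hγ) with h1 | h1
  · simp [h1]
  · simp [h1]

end LatN
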