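import Pool.Agent.Lib.LatN.OrdDefs

/-!
# OrdB: matrices over a division order

`D0 ⊆ M_d(ℝ)` is a division order: a subring which is the integer span of a real basis of `M_d(ℝ)` and
in which every nonzero matrix has nonzero determinant. `blkO m D0` is the ring of the
`(m d) × (m d)` matrices all of whose `d × d` blocks lie in `D0`.

* `blkO_ord`: basis: for `(i, j) ∈ μ × μ` and a basis element `b_p`, `p ∈ δ × δ`, the matrix with the
  block `b_p` at `(i, j)` and zero blocks elsewhere, reindexed by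
  `(μ × μ) × (δ × δ) ≃ (μ × δ) × (μ × δ)` (e.g. through `Matrix.comp`, or: independent and spanning
  directly).
* `blkO_inn`: let `x ∈ blkO` have rank one. Some block `y ∈ D0` of `x` is not zero, so `det y ≠ 0`,
  `rank y = card δ ≥ 2`; but `rank y ≤ rank x = 1` (`y` is a submatrix:
  `Matrix.rank_submatrix_le` for rows, transpose for columns). Contradiction.
-/

open scoped Topology

namespace LatN

variable {μ δ : Type*} [Fintype μ] [DecidableEq μ] [Fintype δ] [DecidableEq δ]

/-- division orders -/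
structure DivO (δ : Type*) [Fintype δ] [DecidableEq δ] (D0 : Subring (Matrix δ δ ℝ)) : Prop where
  ord : IsOrd δ D0
  div : ∀ x ∈ D0, x ≠ 0 → x.det ≠ 0

/-- block of a matrix -/
def blo (x : Matrix (μ × δ) (μ × δ) ℝ) (i j : μ) : Matrix δ δ ℝ := fun a b => x (i, a) (j, b)

/-- the ring of matrices with blocks in `D0` -/
def blkO (μ : Type*) [Fintype μ] [DecidableEq μ] {δ : Type*} [Fintype δ] [DecidableEq δ]
    (D0 : Subring (Matrix δ δ ℝ)) : Subring (Matrix (μ × δ) (μ × δ) ℝ) where
  carrier := {x | ∀ i j, blo x i j ∈ D0}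
  mul_mem' := by
    intro x y hx hy i j
    have h : blo (x * y) i j = ∑ k, blo x i k * blo y k j := by
      ext a b
      simp only [blo, Matrix.mul_apply, Matrix.sum_apply, Fintype.sum_prod_type]
    rw [h]
    exact D0.sum_mem fun k _ => D0.mul_mem (hx i k) (hy k j)
  one_mem' := by
    intro i j
    by_cases hij : i = j
    · subst hij
      have h : blo (1 : Matrix (μ × δ) (μ × δ) ℝ) i i = 1 := by
        ext a b
        simp [blo, Matrix.one_apply]
      rw [h]
      exact D0.one_mem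
    · have h : blo (1 : Matrix (μ × δ) (μ × δ) ℝ) i j = 0 := by
        ext a b
        simp [blo, Matrix.one_apply, hij]
      rw [h]
      exact D0.zero_mem
  add_mem' := by
    intro x y hx hy i j
    exact D0.add_mem (hx i j) (hy i j)
  zero_mem' := fun _ _ => D0.zero_mem
  neg_mem' := by
    intro x hx i j
    exact D0.neg_mem (hx i j)

/-- the decomposition into blocks -/
private def bloE (μ δ : Type*) : Matrix (μ × δ) (μ × δ) ℝ ≃ₗ[ℝ] (μ × μ → Matrix δ δ ℝ) where
  toFun x := fun ij => blo x ij.1 ij.2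
  invFun y := fun p q => y (p.1, q.1) p.2 q.2
  map_add' _ _ := rfl
  map_smul' _ _ := rfl
  left_inv _ := rfl
  right_inv _ := rfl

/-- the reindexing -/
private def blkI (μ δ : Type*) : (Σ _ : μ × μ, δ × δ) ≃ (μ × δ) × (μ × δ) where
  toFun z := ((z.1.1, z.2.1), (z.1.2, z.2.2))
  invFun z := ⟨(z.1.1, z.2.1), (z.1.2, z.2.2)⟩
  left_inv _ := rfl
  right_inv _ := rfl

theorem blkO_ord {D0 : Subring (Matrix δ δ ℝ)} (h : IsOrd δ D0) : IsOrd (μ × δ) (blkO μ D0) := by
  obtain ⟨b, hb⟩ := h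
  refine ⟨((Pi.basis fun _ : μ × μ => b).map (bloE μ δ).symm).reindex (blkI μ δ), fun x => ?_⟩
  rw [Module.Basis.mem_span_iff_repr_mem]
  have h1 : x ∈ blkO μ D0 ↔ ∀ i j, blo x i j ∈ D0 := Iff.rfl
  rw [h1]
  constructor
  · rintro hx ⟨⟨i, a⟩, ⟨j, c⟩⟩
    have h2 := (b.mem_span_iff_repr_mem ℤ _).1 ((hb _).1 (hx i j)) (a, c)
    exact h2
  · intro hx i j
    rw [hb, Module.Basis.mem_span_iff_repr_mem]
    rintro ⟨a, c⟩
    exact hx ((i, a), (j, c))

theorem blkO_inn {D0 : Subring (Matrix δ δ ℝ)} (h : DivO δ D0) (hd : 2 ≤ Fintype.card δ) :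
    InnO (μ × δ) (blkO μ D0) := by
  refine ⟨blkO_ord h.ord, fun x hx hr => ?_⟩
  have hx' : ∀ i j, blo x i j ∈ D0 := hx
  obtain ⟨i, j, hij⟩ : ∃ i j, blo x i j ≠ 0 := by
    by_contra hcon
    push Not at hcon
    have h0 : x = 0 := by
      ext ⟨i, a⟩ ⟨j, c⟩
      exact congr_fun (congr_fun (hcon i j) a) c
    rw [h0, Matrix.rank_zero] at hr
    exact zero_ne_one hr
  have h1 : (blo x i j).rank = Fintype.card δ :=
    Matrix.rank_of_isUnit _ ((Matrix.isUnit_iff_isUnit_det _).2 (isUnit_iff_ne_zero.2 (h.div _ (hx' i j) hij)))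
  have h2 : (x.submatrix (fun a : δ => (i, a)) (fun c : δ => (j, c))).rank ≤ x.rank :=
    Matrix.rank_submatrix_le x _ _
  have h3 : x.submatrix (fun a : δ => (i, a)) (fun c : δ => (j, c)) = blo x i j := rfl
  rw [h3, h1, hr] at h2
  omega

end LatN
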