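import Pool.Agent.Lib.LatN.Defs

/-! Orders and arithmetic subgroups of `SL_n(ℝ)` (MP_2392aa_gt, class N). -/

open scoped Topology
open MulOpposite

namespace LatN

variable (ν : Type*) [Fintype ν] [DecidableEq ν]

/-- the Euclidean space with coordinates indexed by `ν` -/
abbrev En (ν : Type*) := EuclideanSpace ℝ ν

/-- matrices of determinant one as operators on Euclidean space -/
noncomputable def toGE : Matrix.SpecialLinearGroup ν ℝ →* GE (En ν) where
  toFun g :=
    { val := Matrix.toEuclideanCLM (n := ν) (𝕜 := ℝ) g.1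
      inv := Matrix.toEuclideanCLM (n := ν) (𝕜 := ℝ) g⁻¹.1
      val_inv := by
        rw [← map_mul, ← Matrix.SpecialLinearGroup.coe_mul, mul_inv_cancel,
          Matrix.SpecialLinearGroup.coe_one, map_one]
      inv_val := by
        rw [← map_mul, ← Matrix.SpecialLinearGroup.coe_mul, inv_mul_cancel,
          Matrix.SpecialLinearGroup.coe_one, map_one] }
  map_one' := by
    ext1
    exact map_one _
  map_mul' g h := by
    ext1
    exact map_mul (Matrix.toEuclideanCLM (n := ν) (𝕜 := ℝ)) g.1 h.1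

/-- an order of `M_n(ℝ)`: a subring which is the integer span of a real basis -/
def IsOrd (O : Subring (Matrix ν ν ℝ)) : Prop :=
  ∃ b : Module.Basis (ν × ν) ℝ (Matrix ν ν ℝ),
    ∀ x, x ∈ O ↔ x ∈ Submodule.span ℤ (Set.range b)

/-- inner type: an order without elements of rank one -/
structure InnO (O : Subring (Matrix ν ν ℝ)) : Prop where
  ord : IsOrd ν O
  rank : ∀ x ∈ O, x.rank ≠ 1

/-- the ring `M_n(ℝ) × M_n(ℝ)ᵒᵖ` -/
abbrev DM (ν : Type*) := Matrix ν ν ℝ × (Matrix ν ν ℝ)ᵐᵒᵖ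

/-- outer type: a subring of `M_n(ℝ) × M_n(ℝ)ᵒᵖ` which is the integer span of a real basis, contains
`(√D, -√D)` for some positive integer `D` which is not a square, and is up to a factor stable under
the exchange of the factors -/
structure OutO (O : Subring (DM ν)) : Prop where
  ord : ∃ b : Module.Basis ((ν × ν) ⊕ (ν × ν)) ℝ (DM ν),
    ∀ x, x ∈ O ↔ x ∈ Submodule.span ℤ (Set.range b)
  sqrt : ∃ D : ℕ, ¬ IsSquare D ∧
    ((Real.sqrt D • (1 : Matrix ν ν ℝ),
      op (-(Real.sqrt D • (1 : Matrix ν ν ℝ)))) : DM ν) ∈ O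
  swap : ∃ N : ℤ, N ≠ 0 ∧ ∀ x : DM ν, x ∈ O → (N • (unop x.2, op x.1) : DM ν) ∈ O

variable {ν}

/-- the arithmetic group of an order of inner type -/
def unitI (O : Subring (Matrix ν ν ℝ)) :
    Subgroup (Matrix.SpecialLinearGroup ν ℝ) where
  carrier := {g | g.1 ∈ O ∧ g⁻¹.1 ∈ O}
  mul_mem' := by
    rintro a b ⟨h1, h2⟩ ⟨h3, h4⟩
    refine ⟨?_, ?_⟩
    · rw [Matrix.SpecialLinearGroup.coe_mul]
      exact O.mul_mem h1 h3
    · rw [mul_inv_rev, Matrix.SpecialLinearGroup.coe_mul]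
      exact O.mul_mem h4 h2
  one_mem' := by
    refine ⟨?_, ?_⟩
    · rw [Matrix.SpecialLinearGroup.coe_one]
      exact O.one_mem
    · rw [inv_one, Matrix.SpecialLinearGroup.coe_one]
      exact O.one_mem
  inv_mem' := by
    rintro a ⟨h1, h2⟩
    exact ⟨h2, by rw [inv_inv]; exact h1⟩

/-- the arithmetic group of an order of outer type -/
def unitO (O : Subring (DM ν)) : Subgroup (Matrix.SpecialLinearGroup ν ℝ) where
  carrier := {g | ((g.1, op g⁻¹.1) : DM ν) ∈ O ∧ ((g⁻¹.1, op g.1) : DM ν) ∈ O}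
  mul_mem' := by
    rintro a b ⟨h1, h2⟩ ⟨h3, h4⟩
    refine ⟨?_, ?_⟩
    · have h := O.mul_mem h1 h3
      rw [Prod.mk_mul_mk, ← op_mul, ← Matrix.SpecialLinearGroup.coe_mul,
        ← Matrix.SpecialLinearGroup.coe_mul, ← mul_inv_rev] at h
      exact h
    · have h := O.mul_mem h4 h2
      rw [Prod.mk_mul_mk, ← op_mul, ← Matrix.SpecialLinearGroup.coe_mul,
        ← Matrix.SpecialLinearGroup.coe_mul, ← mul_inv_rev] at h
      exact h
  one_mem' := by
    refine ⟨?_, ?_⟩
    · rw [inv_one, Matrix.SpecialLinearGroup.coe_one]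
      exact O.one_mem
    · rw [inv_one, Matrix.SpecialLinearGroup.coe_one]
      exact O.one_mem
  inv_mem' := by
    rintro a ⟨h1, h2⟩
    refine ⟨?_, ?_⟩
    · rw [inv_inv]
      exact h2
    · rw [inv_inv]
      exact h1

variable (ν)

/-- the dual representation `g ↦ (g⁻¹)ᵀ` of `SL_n(ℝ)` -/
def dualSL :
    Matrix.SpecialLinearGroup ν ℝ →* Matrix.SpecialLinearGroup ν ℝ where
  toFun g := ⟨g⁻¹.1.transpose, by rw [Matrix.det_transpose]; exact g⁻¹.2⟩
  map_one' := by
    apply Subtype.ext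
    change (1 : Matrix.SpecialLinearGroup ν ℝ)⁻¹.1.transpose =
      (1 : Matrix.SpecialLinearGroup ν ℝ).1
    rw [inv_one, Matrix.SpecialLinearGroup.coe_one, Matrix.transpose_one]
  map_mul' g h := by
    apply Subtype.ext
    change (g * h)⁻¹.1.transpose = g⁻¹.1.transpose * h⁻¹.1.transpose
    rw [mul_inv_rev, Matrix.SpecialLinearGroup.coe_mul, Matrix.transpose_mul]

end LatN
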