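import Pool.Agent.Lib.LatN.OrdDefs
import Pool.Agent.Lib.LatN.InnerR

/-!
# OrdI: orders of inner type

`colT b x` is the family of the columns of the matrix `∑ x_p b_p`.

Proof of `noHorn_innO`. Take the basis `b` of `O`, `κ = ν`, `ι = ν × ν`, `T0 = colT b`,
`R = O`, `E = En ν`. `mix c` acts on the columns of `M` by right multiplication with `c`
(`col_k (M c) = ∑_j c_jk col_j M`), `rep γ` acts on the columns by left multiplication with the matrix
of `γ` (`Matrix.toEuclideanCLM`). `ArD`: `emb` from the independence of `b` (the map matrix ↦ columns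
is injective and linear); `card_eq`: `n * n`, `n = card ν`; `block` is void (all signs `true`);
`stab`: `O` is a ring, and every element of `O` is `∑ x_p b_p` with integers `x_p`; `span`: `O` contains
the real basis `b`. The rank condition: `span (range fun k => T0 x k)` has dimension the rank of the
matrix `∑ x_p b_p` (`Matrix.rank_eq_finrank_span_cols`), which is neither `1` (`InnO.rank`) nor `0`
(`x ≠ 0`). `(unitI O).map (toGE ν) = Gam0 _ T0`: for `γ ∈ Gam0` let `A` be its matrix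
(`Matrix.toEuclideanCLM` is bijective), `det A = 1`, and `A O ⊆ O`, `A⁻¹ O ⊆ O` gives `A, A⁻¹ ∈ O`
(`1 ∈ O`); conversely clear. `toGE` is injective, so
`(Γ.map toGE).relIndex (Gam0) = Γ.relIndex (unitI O)` (`Subgroup.relIndex_map_map_of_injective`). Now
`noHorn_inner`.
-/

open scoped Topology

namespace LatN

/-- embedding of the lattice by columns -/
noncomputable def colT {ν : Type*} [Fintype ν] [DecidableEq ν]
    (b : Module.Basis (ν × ν) ℝ (Matrix ν ν ℝ)) :
    ((ν × ν) → ℤ) →ₗ[ℤ] Cop ν (En ν) where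
  toFun x := WithLp.toLp 2 fun k => WithLp.toLp 2 fun i => (∑ p, (x p : ℝ) • b p) i k
  map_add' := by
    intro x y
    ext k i
    simp only [Pi.add_apply, Int.cast_add, add_smul, Finset.sum_add_distrib, Matrix.add_apply,
      PiLp.add_apply]
  map_smul' := by
    intro c x
    ext k i
    simp only [Pi.smul_apply, smul_eq_mul, Int.cast_mul, mul_smul, ← Finset.smul_sum,
      eq_intCast, Int.cast_id]
    rw [Matrix.smul_apply]
    simp [zsmul_eq_mul]

private noncomputable def oM {ν : Type*} [Fintype ν] [DecidableEq ν]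
    (b : Module.Basis (ν × ν) ℝ (Matrix ν ν ℝ)) (x : (ν × ν) → ℤ) :
    Matrix ν ν ℝ := ∑ p, (x p : ℝ) • b p

private noncomputable def oC (ν : Type*) [Fintype ν] [DecidableEq ν] : Matrix ν ν ℝ →ₗ[ℝ] Cop ν (En ν) where
  toFun M := WithLp.toLp 2 fun k => WithLp.toLp 2 fun i => M i k
  map_add' := by
    intro x y
    ext k i
    simp only [Matrix.add_apply, PiLp.add_apply]
  map_smul' := by
    intro c x
    ext k i
    simp only [Matrix.smul_apply, PiLp.smul_apply, RingHom.id_apply]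

private theorem oC_apply {ν : Type*} [Fintype ν] [DecidableEq ν] (M : Matrix ν ν ℝ) (k i : ν) :
    oC ν M k i = M i k := rfl

private theorem oT {ν : Type*} [Fintype ν] [DecidableEq ν]
    (b : Module.Basis (ν × ν) ℝ (Matrix ν ν ℝ)) (x : (ν × ν) → ℤ) :
    colT b x = oC ν (oM b x) := rfl

private theorem oC_inj {ν : Type*} [Fintype ν] [DecidableEq ν] : Function.Injective (oC ν) := by
  intro M N h
  ext i k
  rw [← oC_apply M k i, h, oC_apply]

private theorem o_mix {ν : Type*} [Fintype ν] [DecidableEq ν] (c M : Matrix ν ν ℝ) :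
    mix c (oC ν M) = oC ν (M * c) := by
  ext k i
  rw [oC_apply, Matrix.mul_apply]
  show ((∑ j, c j k • (oC ν M) j : En ν)) i = _
  simp only [WithLp.ofLp_sum, Finset.sum_apply, PiLp.smul_apply, smul_eq_mul]
  apply Finset.sum_congr rfl
  intro j _
  rw [oC_apply, mul_comm]

private theorem o_rep {ν : Type*} [Fintype ν] [DecidableEq ν] (γ : GE (En ν)) (A M : Matrix ν ν ℝ)
    (h : (γ : En ν →L[ℝ] En ν) = Matrix.toEuclideanCLM (n := ν) (𝕜 := ℝ) A) :
    rep (fun _ : ν => true) γ (oC ν M) = oC ν (A * M) := by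
  ext k i
  unfold rep
  rw [blk_apply, if_pos rfl, h]
  rfl

private theorem o_mem {ν : Type*} [Fintype ν] [DecidableEq ν] {O : Subring (Matrix ν ν ℝ)}
    {b : Module.Basis (ν × ν) ℝ (Matrix ν ν ℝ)}
    (hb : ∀ x, x ∈ O ↔ x ∈ Submodule.span ℤ (Set.range b)) (x : Matrix ν ν ℝ) :
    x ∈ O ↔ ∃ z : (ν × ν) → ℤ, oM b z = x := by
  rw [hb, Submodule.mem_span_range_iff_exists_fun]
  simp only [oM, Int.cast_smul_eq_zsmul]

private theorem o_single {ν : Type*} [Fintype ν] [DecidableEq ν]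
    (b : Module.Basis (ν × ν) ℝ (Matrix ν ν ℝ)) (p : ν × ν) :
    oM b (Pi.single p 1) = b p := by
  unfold oM
  rw [Finset.sum_eq_single p]
  · simp
  · intro q _ hq
    simp [Pi.single_eq_of_ne hq]
  · intro h
    exact absurd (Finset.mem_univ p) h

private theorem oM_zero {ν : Type*} [Fintype ν] [DecidableEq ν]
    {b : Module.Basis (ν × ν) ℝ (Matrix ν ν ℝ)} {x : (ν × ν) → ℤ}
    (h : oM b x = 0) : x = 0 := by
  have h1 := Fintype.linearIndependent_iff.1 b.linearIndependent (fun p => (x p : ℝ)) h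
  funext p
  have := h1 p
  exact_mod_cast this

private theorem o_ArD {ν : Type*} [Fintype ν] [DecidableEq ν] {O : Subring (Matrix ν ν ℝ)}
    {b : Module.Basis (ν × ν) ℝ (Matrix ν ν ℝ)}
    (hb : ∀ x, x ∈ O ↔ x ∈ Submodule.span ℤ (Set.range b)) :
    ArD (E := En ν) (fun _ : ν => true) (colT b) O where
  emb := by
    unfold Emb
    have h : (fun p : ν × ν => colT b (Pi.single p 1)) = (oC ν) ∘ b := by
      funext p
      rw [oT, o_single]
      rfl
    rw [h]
    exact b.linearIndependent.map' (oC ν) (LinearMap.ker_eq_bot.2 oC_inj)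
  card_eq := by simp
  block := fun _ _ j k h => absurd rfl h
  stab := by
    intro c hc x
    rw [oT, o_mix]
    have h1 : oM b x * c ∈ O := O.mul_mem ((o_mem hb _).2 ⟨x, rfl⟩) hc
    obtain ⟨y, hy⟩ := (o_mem hb _).1 h1
    exact ⟨y, by rw [oT, hy]⟩
  span := by
    intro c _
    have h1 : Submodule.span ℝ (Set.range b) ≤
        Submodule.span ℝ (O : Set (Matrix ν ν ℝ)) := by
      apply Submodule.span_mono
      rintro _ ⟨p, rfl⟩
      exact (hb _).2 (Submodule.subset_span ⟨p, rfl⟩)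
    apply h1
    rw [b.span_eq]
    trivial

private theorem o_rank {ν : Type*} [Fintype ν] [DecidableEq ν] (M : Matrix ν ν ℝ) :
    Module.finrank ℝ (Submodule.span ℝ (Set.range fun k => oC ν M k)) = M.rank := by
  rw [Matrix.rank_eq_finrank_span_cols]
  have h : Submodule.span ℝ (Set.range fun k => oC ν M k) =
      (Submodule.span ℝ (Set.range M.col)).map
        ((WithLp.linearEquiv 2 ℝ (ν → ℝ)).symm : (ν → ℝ) →ₗ[ℝ] En ν) := by
    rw [Submodule.map_span, ← Set.range_comp]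
    rfl
  rw [h]
  exact LinearEquiv.finrank_map_eq (WithLp.linearEquiv 2 ℝ (ν → ℝ)).symm _

private theorem o_toGE_inj {ν : Type*} [Fintype ν] [DecidableEq ν] : Function.Injective (toGE ν) := by
  intro g h hgh
  have h1 : ((toGE ν g : GE (En ν)) : En ν →L[ℝ] En ν) = (toGE ν h : GE (En ν)) := by rw [hgh]
  have h2 : Matrix.toEuclideanCLM (n := ν) (𝕜 := ℝ) g.1 =
    Matrix.toEuclideanCLM (n := ν) (𝕜 := ℝ) h.1 := h1
  exact Subtype.ext ((Matrix.toEuclideanCLM (n := ν) (𝕜 := ℝ)).injective h2)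

private theorem o_det {ν : Type*} [Fintype ν] [DecidableEq ν] (γ : GE (En ν)) (A : Matrix ν ν ℝ)
    (h : (γ : En ν →L[ℝ] En ν) = Matrix.toEuclideanCLM (n := ν) (𝕜 := ℝ) A) :
    detu γ = A.det := by
  unfold detu
  rw [h, Matrix.coe_toEuclideanCLM_eq_toEuclideanLin, Matrix.toEuclideanLin_eq_toLin_orthonormal,
    LinearMap.det_toLin]

private theorem o_Gam {ν : Type*} [Fintype ν] [DecidableEq ν] {O : Subring (Matrix ν ν ℝ)}
    {b : Module.Basis (ν × ν) ℝ (Matrix ν ν ℝ)}
    (hb : ∀ x, x ∈ O ↔ x ∈ Submodule.span ℤ (Set.range b)) :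
    (unitI O).map (toGE ν) = Gam0 (E := En ν) (fun _ : ν => true) (colT b) := by
  ext γ
  constructor
  · rintro ⟨g, ⟨hg1, hg2⟩, rfl⟩
    refine ⟨⟨fun x => ?_, fun x => ?_⟩, ?_⟩
    · rw [oT, o_rep (toGE ν g) g.1 _ rfl]
      obtain ⟨y, hy⟩ := (o_mem hb _).1 (O.mul_mem hg1 ((o_mem hb _).2 ⟨x, rfl⟩))
      exact ⟨y, by rw [oT, hy]⟩
    · rw [oT, ← map_inv, o_rep (toGE ν g⁻¹) (g⁻¹ : Matrix.SpecialLinearGroup ν ℝ).1 _ rfl]
      obtain ⟨y, hy⟩ := (o_mem hb _).1 (O.mul_mem hg2 ((o_mem hb _).2 ⟨x, rfl⟩))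
      exact ⟨y, by rw [oT, hy]⟩
    · rw [o_det (toGE ν g) g.1 rfl]
      exact g.2
  · rintro ⟨⟨h1, h2⟩, h3⟩
    set T := Matrix.toEuclideanCLM (n := ν) (𝕜 := ℝ) with hT
    set A := T.symm (γ : En ν →L[ℝ] En ν) with hA
    set B := T.symm ((γ⁻¹ : GE (En ν)) : En ν →L[ℝ] En ν) with hB
    have hTA : (γ : En ν →L[ℝ] En ν) = T A := (T.apply_symm_apply _).symm
    have hTB : ((γ⁻¹ : GE (En ν)) : En ν →L[ℝ] En ν) = T B := (T.apply_symm_apply _).symm
    have hAB : A * B = 1 := by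
      have h7 : T (A * B) = T 1 := by
        rw [map_mul, map_one, ← hTA, ← hTB, Units.mul_inv]
      exact T.injective h7
    have hdA : A.det = 1 := by rw [← o_det γ A hTA]; exact h3
    set g : Matrix.SpecialLinearGroup ν ℝ := ⟨A, hdA⟩ with hg
    have hone : ∃ z, oM b z = 1 := (o_mem hb _).1 O.one_mem
    obtain ⟨z, hz⟩ := hone
    have hAO : A ∈ O := by
      obtain ⟨y, hy⟩ := h1 z
      rw [oT, oT, o_rep γ A _ hTA, hz, mul_one] at hy
      rw [oC_inj hy]
      exact (o_mem hb _).2 ⟨y, rfl⟩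
    have hBO : B ∈ O := by
      obtain ⟨y, hy⟩ := h2 z
      rw [oT, oT, o_rep γ⁻¹ B _ hTB, hz, mul_one] at hy
      rw [oC_inj hy]
      exact (o_mem hb _).2 ⟨y, rfl⟩
    have hgi : (g⁻¹).1 = B := by
      have h4 : (g⁻¹).1 * A = 1 := by
        have h5 : g⁻¹ * g = 1 := inv_mul_cancel g
        have h6 := congrArg Subtype.val h5
        exact h6
      calc (g⁻¹).1 = (g⁻¹).1 * (A * B) := by rw [hAB, mul_one]
        _ = ((g⁻¹).1 * A) * B := by rw [mul_assoc]
        _ = B := by rw [h4, one_mul]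
    refine ⟨g, ⟨hAO, by rw [hgi]; exact hBO⟩, ?_⟩
    apply Units.ext
    rw [hTA]
    rfl

theorem noHorn_innO {ν : Type*} [Fintype ν] [DecidableEq ν] (hn : 2 ≤ Fintype.card ν)
    {O : Subring (Matrix ν ν ℝ)} (hO : InnO ν O)
    {Γ : Subgroup (Matrix.SpecialLinearGroup ν ℝ)} (hΓ : Γ ≤ unitI O)
    (hfi : Γ.relIndex (unitI O) ≠ 0) : NoHorn (Γ.map (toGE ν)) := by
  have hne : Nonempty ν := Fintype.card_pos_iff.1 (by omega)
  obtain ⟨b, hb⟩ := hO.ord
  have har := o_ArD hb
  have hG := o_Gam hb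
  refine noHorn_inner (κ := ν) har (by simpa using hn) ?_ (Γ := Γ.map (toGE ν)) ?_ ?_
  · intro x hx
    have hr : Module.finrank ℝ (Submodule.span ℝ (Set.range fun k => colT b x k)) =
        (oM b x).rank := o_rank (oM b x)
    rw [hr]
    have h1 : (oM b x).rank ≠ 1 := hO.rank _ ((o_mem hb _).2 ⟨x, rfl⟩)
    have h0 : (oM b x).rank ≠ 0 := by
      intro h
      rw [← hr, Submodule.finrank_eq_zero, Submodule.span_eq_bot] at h
      apply hx
      apply oM_zero (b := b)
      ext i k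
      have h4 := h _ ⟨k, rfl⟩
      have h5 : colT b x k i = 0 := by
        have h6 : (colT b x k) = 0 := h4
        rw [h6]
        rfl
      exact h5
    omega
  · rw [← hG]
    exact Subgroup.map_mono hΓ
  · rw [← hG, Subgroup.relIndex_map_map_of_injective _ _ o_toGE_inj]
    exact hfi

end LatN
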