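import Pool.Agent.Lib.LatN.OuPerp

/-!
# OuDet: finitely many determinants in a bounded range (outer case)

* `det_blk`: the determinant of a block operator is the product over the copies.

* `det_outer`. Let `D`, `s = sdiag κ (sqrt D) ∈ R` from `OuD.sqrt`, `γ ∈ LatPres (sgo κ) T0`,
  `A = rep (sgo κ) γ`, `Σ = mix s`. Both map the lattice `T0 ℤ^ι` into itself (`ArD.stab`), so in the
  basis `T0 e_i` of the space of copies (`Emb`, `card ι = dim Cop`) they have integer matrices `X`,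
  `S`. Let `Y = D (X + 1) + √D (X - 1) S`, a matrix over `Zsqrtd D` (`ℤ√D`), and `φ₊`, `φ₋` the two
  ring homomorphisms `ℤ√D → ℝ` (`Zsqrtd.lift` with `sqrt D` and `- sqrt D`). With
  `det Y = p + q √D`: `φ₊ (det Y) + φ₋ (det Y) = 2 p`. By `RingHom.map_det` `φ₊ (det Y)` is the
  determinant of the real operator `D (A + 1) + sqrt D (A - 1) Σ`. On the positive copies
  `Σ = sqrt D`, so this operator is `2 D γ` there; on the negative ones `Σ = - sqrt D`, and it is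
  `2 D`. So (`det_blk`) `φ₊ (det Y) = (2D)^(card ι) δ`, `δ = (detu γ)^(card κ)`, and in the same way
  `φ₋ (det Y) = (2D)^(card ι) δ⁻¹` (the operator is `2D` on the positive copies and
  `2 D (γ⁻¹)*` on the negative ones; `LinearMap.det_adjoint`). Here `card ι = 2 card κ finrank E`.
  Hence `(2D)^(card ι) (δ + δ⁻¹)` is an integer `2p`, and `|δ|, |δ⁻¹| ≤ max 1 |B| ^ (card κ)` if
  `|d|, |d⁻¹| ≤ B`, `d = detu γ`: finitely many values of `p`, hence of `δ + δ⁻¹`, of `δ` (root of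
  `δ² - c δ + 1`), and of `d` (`d^(card κ) = δ`, `card κ ≥ 1`: root of a nonzero polynomial).
  (`D ≥ 1` because `D = 0` is a square.)
-/

open scoped Topology

namespace LatN

variable {E : Type*} [NormedAddCommGroup E] [InnerProductSpace ℝ E] [FiniteDimensional ℝ E]

theorem det_blk {κ : Type*} [Fintype κ] [DecidableEq κ] (sg : κ → Bool) (A B : E →L[ℝ] E) :
    LinearMap.det ((blk sg A B : Cop κ E →L[ℝ] Cop κ E) : Cop κ E →ₗ[ℝ] Cop κ E) =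
      ∏ k, if sg k then LinearMap.det (A : E →ₗ[ℝ] E) else LinearMap.det (B : E →ₗ[ℝ] E) := by
  let f : κ → E →ₗ[ℝ] E := fun k => if sg k then (A : E →ₗ[ℝ] E) else (B : E →ₗ[ℝ] E)
  have h1 : ((blk sg A B : Cop κ E →L[ℝ] Cop κ E) : Cop κ E →ₗ[ℝ] Cop κ E) =
      ((WithLp.linearEquiv 2 ℝ (κ → E)).symm : (κ → E) →ₗ[ℝ] Cop κ E) ∘ₗ
        (LinearMap.pi (fun i => (f i).comp (LinearMap.proj i))) ∘ₗ
        ((WithLp.linearEquiv 2 ℝ (κ → E)) : Cop κ E →ₗ[ℝ] (κ → E)) := by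
    ext v k
    show blk sg A B v k = f k (v k)
    rw [blk_apply]
    simp only [f]
    split_ifs <;> rfl
  have h2 := LinearMap.det_conj (LinearMap.pi (fun i => (f i).comp (LinearMap.proj i)))
    (WithLp.linearEquiv 2 ℝ (κ → E)).symm
  rw [h1]
  refine h2.trans ?_
  rw [LinearMap.det_pi]
  refine Finset.prod_congr rfl fun k _ => ?_
  simp only [f]
  split_ifs <;> rfl

private theorem det_adj' (A : E →L[ℝ] E) :
    LinearMap.det ((ContinuousLinearMap.adjoint A : E →L[ℝ] E) : E →ₗ[ℝ] E) =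
      LinearMap.det (A : E →ₗ[ℝ] E) := by
  have h1 : ((ContinuousLinearMap.adjoint A : E →L[ℝ] E) : E →ₗ[ℝ] E) =
      LinearMap.adjoint (A : E →ₗ[ℝ] E) := by
    rw [LinearMap.eq_adjoint_iff]
    intro x y
    exact ContinuousLinearMap.adjoint_inner_left A y x
  let b := stdOrthonormalBasis ℝ E
  rw [h1, ← LinearMap.det_toMatrix b.toBasis, LinearMap.toMatrix_adjoint b b,
    Matrix.det_conjTranspose, LinearMap.det_toMatrix, star_trivial]

/-- an operator which preserves the lattice has an integer matrix -/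
private theorem int_matrix {ι : Type*} [Fintype ι] [DecidableEq ι] {V : Type*}
    [NormedAddCommGroup V] [InnerProductSpace ℝ V] {T0 : (ι → ℤ) →ₗ[ℤ] V}
    (b : Module.Basis ι ℝ V) (hb : ∀ i, b i = T0 (Pi.single i 1)) (h : V →ₗ[ℝ] V)
    (hh : ∀ x, ∃ y, h (T0 x) = T0 y) :
    ∃ X : Matrix ι ι ℤ, LinearMap.toMatrix b b h = X.map (Int.cast : ℤ → ℝ) := by
  choose y hy using fun j => hh (Pi.single j 1)
  refine ⟨Matrix.of fun i j => y j i, ?_⟩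
  ext i j
  rw [LinearMap.toMatrix_apply, hb, hy]
  have h1 : T0 (y j) = ∑ l, ((y j l : ℤ) : ℝ) • b l := by
    have h2 : y j = ∑ l, y j l • (Pi.single l (1 : ℤ) : ι → ℤ) := by
      ext m
      simp [Finset.sum_apply, Pi.single_apply]
    conv_lhs => rw [h2]
    rw [map_sum]
    refine Finset.sum_congr rfl fun l _ => ?_
    rw [map_smul, hb, Int.cast_smul_eq_zsmul]
  rw [h1, map_sum, Finsupp.finset_sum_apply, Finset.sum_eq_single i]
  · simp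
  · intro l _ hl
    simp [Finsupp.single_apply, hl]
  · simp

variable {κ : Type*} [Fintype κ] [DecidableEq κ] {ι : Type*} [Fintype ι] [DecidableEq ι]

private theorem mix_inl (r : ℝ) (v : Cop (κ ⊕ κ) E) (k : κ) :
    mix (sdiag κ r) v (Sum.inl k) = r • v (Sum.inl k) := by
  show ∑ j, sdiag κ r j (Sum.inl k) • v j = _
  rw [Finset.sum_eq_single (Sum.inl k)]
  · simp [sdiag]
  · intro j _ hj
    simp [sdiag, Matrix.diagonal_apply_ne _ hj]
  · simp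

private theorem mix_inr (r : ℝ) (v : Cop (κ ⊕ κ) E) (k : κ) :
    mix (sdiag κ r) v (Sum.inr k) = -(r • v (Sum.inr k)) := by
  show ∑ j, sdiag κ r j (Sum.inr k) • v j = _
  rw [Finset.sum_eq_single (Sum.inr k)]
  · simp [sdiag]
  · intro j _ hj
    simp [sdiag, Matrix.diagonal_apply_ne _ hj]
  · simp

private theorem prod_sgo (a b : ℝ) :
    (∏ k : κ ⊕ κ, if sgo κ k then a else b) = a ^ Fintype.card κ * b ^ Fintype.card κ := by
  rw [Fintype.prod_sum_type]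
  simp [sgo]

private theorem op_plus {D : ℕ} (γ : GE E) :
    ((D : ℝ) • (((rep (sgo κ) γ : Cop (κ ⊕ κ) E →L[ℝ] Cop (κ ⊕ κ) E) :
        Cop (κ ⊕ κ) E →ₗ[ℝ] Cop (κ ⊕ κ) E) + 1) +
      Real.sqrt D • (((((rep (sgo κ) γ : Cop (κ ⊕ κ) E →L[ℝ] Cop (κ ⊕ κ) E) :
        Cop (κ ⊕ κ) E →ₗ[ℝ] Cop (κ ⊕ κ) E) - 1)) * mix (sdiag κ (Real.sqrt D)))) =
      ((blk (sgo κ) ((2 * (D : ℝ)) • (γ : E →L[ℝ] E)) ((2 * (D : ℝ)) • (1 : E →L[ℝ] E)) :
        Cop (κ ⊕ κ) E →L[ℝ] Cop (κ ⊕ κ) E) : Cop (κ ⊕ κ) E →ₗ[ℝ] Cop (κ ⊕ κ) E) := by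
  have hD : Real.sqrt D * Real.sqrt D = (D : ℝ) := Real.mul_self_sqrt (Nat.cast_nonneg D)
  ext v k
  rcases k with k | k
  · show (D : ℝ) • (rep (sgo κ) γ v (Sum.inl k) + v (Sum.inl k)) +
      Real.sqrt D • (rep (sgo κ) γ (mix (sdiag κ (Real.sqrt D)) v) (Sum.inl k) -
        mix (sdiag κ (Real.sqrt D)) v (Sum.inl k)) =
      blk (sgo κ) ((2 * (D : ℝ)) • (γ : E →L[ℝ] E)) ((2 * (D : ℝ)) • (1 : E →L[ℝ] E)) v (Sum.inl k)
    unfold rep
    rw [blk_apply, blk_apply, blk_apply, mix_inl]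
    simp only [sgo, Sum.elim_inl, if_true]
    rw [map_smul, ContinuousLinearMap.smul_apply, ← smul_sub, smul_smul, hD, ← smul_add]
    rw [mul_smul, two_smul, ← smul_add]
    congr 1
    abel
  · show (D : ℝ) • (rep (sgo κ) γ v (Sum.inr k) + v (Sum.inr k)) +
      Real.sqrt D • (rep (sgo κ) γ (mix (sdiag κ (Real.sqrt D)) v) (Sum.inr k) -
        mix (sdiag κ (Real.sqrt D)) v (Sum.inr k)) =
      blk (sgo κ) ((2 * (D : ℝ)) • (γ : E →L[ℝ] E)) ((2 * (D : ℝ)) • (1 : E →L[ℝ] E)) v (Sum.inr k)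
    unfold rep
    rw [blk_apply, blk_apply, blk_apply, mix_inr]
    simp only [sgo, Sum.elim_inr, Bool.false_eq_true, if_false]
    rw [map_neg, map_smul, ContinuousLinearMap.smul_apply, ← neg_add', ← sub_eq_add_neg,
      ← smul_sub, smul_neg, smul_smul, hD, ← sub_eq_add_neg, ← smul_sub]
    rw [mul_smul, two_smul, ← smul_add]
    congr 1
    show _ = v (Sum.inr k) + v (Sum.inr k)
    abel

private theorem op_minus {D : ℕ} (γ : GE E) :
    ((D : ℝ) • (((rep (sgo κ) γ : Cop (κ ⊕ κ) E →L[ℝ] Cop (κ ⊕ κ) E) :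
        Cop (κ ⊕ κ) E →ₗ[ℝ] Cop (κ ⊕ κ) E) + 1) +
      (-Real.sqrt D) • (((((rep (sgo κ) γ : Cop (κ ⊕ κ) E →L[ℝ] Cop (κ ⊕ κ) E) :
        Cop (κ ⊕ κ) E →ₗ[ℝ] Cop (κ ⊕ κ) E) - 1)) * mix (sdiag κ (Real.sqrt D)))) =
      ((blk (sgo κ) ((2 * (D : ℝ)) • (1 : E →L[ℝ] E))
        ((2 * (D : ℝ)) • (ContinuousLinearMap.adjoint ((γ⁻¹ : GE E) : E →L[ℝ] E))) :
        Cop (κ ⊕ κ) E →L[ℝ] Cop (κ ⊕ κ) E) : Cop (κ ⊕ κ) E →ₗ[ℝ] Cop (κ ⊕ κ) E) := by
  have hD : Real.sqrt D * Real.sqrt D = (D : ℝ) := Real.mul_self_sqrt (Nat.cast_nonneg D)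
  ext v k
  rcases k with k | k
  · show (D : ℝ) • (rep (sgo κ) γ v (Sum.inl k) + v (Sum.inl k)) +
      (-Real.sqrt D) • (rep (sgo κ) γ (mix (sdiag κ (Real.sqrt D)) v) (Sum.inl k) -
        mix (sdiag κ (Real.sqrt D)) v (Sum.inl k)) =
      blk (sgo κ) ((2 * (D : ℝ)) • (1 : E →L[ℝ] E))
        ((2 * (D : ℝ)) • (ContinuousLinearMap.adjoint ((γ⁻¹ : GE E) : E →L[ℝ] E))) v (Sum.inl k)
    unfold rep
    rw [blk_apply, blk_apply, blk_apply, mix_inl]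
    simp only [sgo, Sum.elim_inl, if_true]
    rw [map_smul, ContinuousLinearMap.smul_apply, ← smul_sub, smul_smul, neg_mul, hD, neg_smul,
      ← sub_eq_add_neg, ← smul_sub]
    rw [mul_smul, two_smul, ← smul_add]
    congr 1
    show _ = v (Sum.inl k) + v (Sum.inl k)
    abel
  · show (D : ℝ) • (rep (sgo κ) γ v (Sum.inr k) + v (Sum.inr k)) +
      (-Real.sqrt D) • (rep (sgo κ) γ (mix (sdiag κ (Real.sqrt D)) v) (Sum.inr k) -
        mix (sdiag κ (Real.sqrt D)) v (Sum.inr k)) =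
      blk (sgo κ) ((2 * (D : ℝ)) • (1 : E →L[ℝ] E))
        ((2 * (D : ℝ)) • (ContinuousLinearMap.adjoint ((γ⁻¹ : GE E) : E →L[ℝ] E))) v (Sum.inr k)
    unfold rep
    rw [blk_apply, blk_apply, blk_apply, mix_inr]
    simp only [sgo, Sum.elim_inr, Bool.false_eq_true, if_false]
    rw [map_neg, map_smul, ContinuousLinearMap.smul_apply, sub_neg_eq_add, ← sub_eq_neg_add,
      ← smul_sub, smul_smul, neg_mul, hD, neg_smul, ← smul_neg, ← smul_add]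
    rw [mul_smul, two_smul, ← smul_add]
    congr 1
    abel

theorem det_outer [Nonempty κ] {T0 : (ι → ℤ) →ₗ[ℤ] Cop (κ ⊕ κ) E}
    {R : Subring (Matrix (κ ⊕ κ) (κ ⊕ κ) ℝ)} (h : OuD T0 R) (B : ℝ) :
    {d : ℝ | ∃ γ ∈ LatPres (sgo κ) T0, detu γ = d ∧ |d| ≤ B ∧ |d⁻¹| ≤ B}.Finite := by
  obtain ⟨D, hDsq, hDR⟩ := h.sqrt
  have hD0 : 0 < D := by
    rcases Nat.eq_zero_or_pos D with h0 | h0
    · exact absurd (by rw [h0]; exact ⟨0, rfl⟩) hDsq
    · exact h0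
  have hDr : (0 : ℝ) < D := by exact_mod_cast hD0
  have hDD : Real.sqrt D * Real.sqrt D = (D : ℝ) := Real.mul_self_sqrt hDr.le
  -- the basis
  have hli : LinearIndependent ℝ (fun i : ι => T0 (Pi.single i 1)) := h.ar.emb
  have hfr : Module.finrank ℝ (Cop (κ ⊕ κ) E) = Fintype.card (κ ⊕ κ) * Module.finrank ℝ E := by
    rw [(WithLp.linearEquiv 2 ℝ ((κ ⊕ κ) → E)).finrank_eq, Module.finrank_pi_fintype]
    simp
  have hspan : Submodule.span ℝ (Set.range fun i : ι => T0 (Pi.single i 1)) = ⊤ := by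
    refine hli.span_eq_top_of_card_eq_finrank' ?_
    rw [h.ar.card_eq, hfr]
  let b : Module.Basis ι ℝ (Cop (κ ⊕ κ) E) := Module.Basis.mk hli hspan.ge
  have hb : ∀ i, b i = T0 (Pi.single i 1) := fun i => by
    rw [Module.Basis.mk_apply]
  obtain ⟨S, hS⟩ := int_matrix b hb (mix (sdiag κ (Real.sqrt D))) (h.ar.stab _ hDR)
  set n := Module.finrank ℝ E with hn
  set m := Fintype.card κ with hm
  have hm1 : 1 ≤ m := Fintype.card_pos
  -- the two homomorphisms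
  let φp : ℤ√(D : ℤ) →+* ℝ := Zsqrtd.lift ⟨Real.sqrt D, by rw [hDD]; push_cast; rfl⟩
  let φm : ℤ√(D : ℤ) →+* ℝ := Zsqrtd.lift ⟨-Real.sqrt D, by rw [neg_mul_neg, hDD]; push_cast; rfl⟩
  have hφp : ∀ z : ℤ√(D : ℤ), φp z = z.re + z.im * Real.sqrt D := fun z => rfl
  have hφm : ∀ z : ℤ√(D : ℤ), φm z = z.re + z.im * (-Real.sqrt D) := fun z => rfl
  set W : ℝ := (2 * (D : ℝ)) ^ (2 * n * m) with hW
  have hW0 : 0 < W := by positivity
  -- the integrality statement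
  have key : ∀ γ ∈ LatPres (sgo κ) T0, ∃ p : ℤ,
      W * ((detu γ) ^ m + ((detu γ)⁻¹) ^ m) = 2 * (p : ℝ) := by
    intro γ hγ
    obtain ⟨X, hX⟩ := int_matrix b hb ((rep (sgo κ) γ : Cop (κ ⊕ κ) E →L[ℝ] Cop (κ ⊕ κ) E) :
      Cop (κ ⊕ κ) E →ₗ[ℝ] Cop (κ ⊕ κ) E) hγ.1
    let c : ℤ →+* ℤ√(D : ℤ) := Int.castRingHom _
    let Y : Matrix ι ι (ℤ√(D : ℤ)) := ((D : ℤ) : ℤ√(D : ℤ)) • (c.mapMatrix X + 1) +
      (Zsqrtd.sqrtd : ℤ√(D : ℤ)) • ((c.mapMatrix X - 1) * c.mapMatrix S)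
    have hcomp : ∀ (φ : ℤ√(D : ℤ) →+* ℝ) (Q : Matrix ι ι ℤ),
        φ.mapMatrix (c.mapMatrix Q) = Q.map (Int.cast : ℤ → ℝ) := by
      intro φ Q
      ext i j
      simp [c]
    have hmap : ∀ (φ : ℤ√(D : ℤ) →+* ℝ), φ.mapMatrix Y =
        LinearMap.toMatrix b b ((D : ℝ) • (((rep (sgo κ) γ :
          Cop (κ ⊕ κ) E →L[ℝ] Cop (κ ⊕ κ) E) : Cop (κ ⊕ κ) E →ₗ[ℝ] Cop (κ ⊕ κ) E) + 1) +
          (φ Zsqrtd.sqrtd) • (((((rep (sgo κ) γ : Cop (κ ⊕ κ) E →L[ℝ] Cop (κ ⊕ κ) E) :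
          Cop (κ ⊕ κ) E →ₗ[ℝ] Cop (κ ⊕ κ) E) - 1)) * mix (sdiag κ (Real.sqrt D)))) := by
      intro φ
      have hsm : ∀ (z : ℤ√(D : ℤ)) (Q : Matrix ι ι (ℤ√(D : ℤ))),
          φ.mapMatrix (z • Q) = φ z • φ.mapMatrix Q := by
        intro z Q
        ext i j
        simp
      have hR : LinearMap.toMatrix b b ((D : ℝ) • (((rep (sgo κ) γ :
          Cop (κ ⊕ κ) E →L[ℝ] Cop (κ ⊕ κ) E) : Cop (κ ⊕ κ) E →ₗ[ℝ] Cop (κ ⊕ κ) E) + 1) +
          (φ Zsqrtd.sqrtd) • (((((rep (sgo κ) γ : Cop (κ ⊕ κ) E →L[ℝ] Cop (κ ⊕ κ) E) :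
          Cop (κ ⊕ κ) E →ₗ[ℝ] Cop (κ ⊕ κ) E) - 1)) * mix (sdiag κ (Real.sqrt D)))) =
          (D : ℝ) • (X.map (Int.cast : ℤ → ℝ) + 1) +
          (φ Zsqrtd.sqrtd) • ((X.map (Int.cast : ℤ → ℝ) - 1) * S.map (Int.cast : ℤ → ℝ)) := by
        rw [map_add, map_smul, map_smul, map_add, LinearMap.toMatrix_mul, map_sub,
          LinearMap.toMatrix_one, hX, hS]
      rw [hR]
      show φ.mapMatrix (((D : ℤ) : ℤ√(D : ℤ)) • (c.mapMatrix X + 1) +
        (Zsqrtd.sqrtd : ℤ√(D : ℤ)) • ((c.mapMatrix X - 1) * c.mapMatrix S)) = _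
      rw [map_add, hsm, hsm, map_add, map_mul, map_sub, map_one, hcomp, hcomp]
      congr 2
      simp
    have hdp : φp Y.det = W * (detu γ) ^ m := by
      rw [RingHom.map_det, hmap, LinearMap.det_toMatrix]
      have h1 : φp Zsqrtd.sqrtd = Real.sqrt D := by rw [hφp]; simp
      rw [h1, op_plus, det_blk, prod_sgo]
      have h2 : LinearMap.det ((((2 * (D : ℝ)) • (γ : E →L[ℝ] E) : E →L[ℝ] E)) : E →ₗ[ℝ] E) =
          (2 * (D : ℝ)) ^ n * detu γ := LinearMap.det_smul _ _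
      have h3 : LinearMap.det ((((2 * (D : ℝ)) • (1 : E →L[ℝ] E) : E →L[ℝ] E)) : E →ₗ[ℝ] E) =
          (2 * (D : ℝ)) ^ n := by
        have h4 : ((((2 * (D : ℝ)) • (1 : E →L[ℝ] E) : E →L[ℝ] E)) : E →ₗ[ℝ] E) =
          (2 * (D : ℝ)) • (1 : E →ₗ[ℝ] E) := rfl
        rw [h4, LinearMap.det_smul, map_one, mul_one]
      rw [h2, h3, hW, ← hm]
      ring
    have hdm : φm Y.det = W * ((detu γ)⁻¹) ^ m := by
      rw [RingHom.map_det, hmap, LinearMap.det_toMatrix]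
      have h1 : φm Zsqrtd.sqrtd = -Real.sqrt D := by rw [hφm]; simp
      rw [h1, op_minus, det_blk, prod_sgo]
      have h2 : LinearMap.det ((((2 * (D : ℝ)) •
          (ContinuousLinearMap.adjoint ((γ⁻¹ : GE E) : E →L[ℝ] E)) : E →L[ℝ] E)) : E →ₗ[ℝ] E) =
          (2 * (D : ℝ)) ^ n * (detu γ)⁻¹ := by
        have h4 : ((((2 * (D : ℝ)) •
          (ContinuousLinearMap.adjoint ((γ⁻¹ : GE E) : E →L[ℝ] E)) : E →L[ℝ] E)) : E →ₗ[ℝ] E) =
          (2 * (D : ℝ)) • ((ContinuousLinearMap.adjoint ((γ⁻¹ : GE E) : E →L[ℝ] E) :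
            E →L[ℝ] E) : E →ₗ[ℝ] E) := rfl
        rw [h4, LinearMap.det_smul, det_adj', ← detu_inv]
        rfl
      have h3 : LinearMap.det ((((2 * (D : ℝ)) • (1 : E →L[ℝ] E) : E →L[ℝ] E)) : E →ₗ[ℝ] E) =
          (2 * (D : ℝ)) ^ n := by
        have h4 : ((((2 * (D : ℝ)) • (1 : E →L[ℝ] E) : E →L[ℝ] E)) : E →ₗ[ℝ] E) =
          (2 * (D : ℝ)) • (1 : E →ₗ[ℝ] E) := rfl
        rw [h4, LinearMap.det_smul, map_one, mul_one]
      rw [h2, h3, hW, ← hm]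
      ring
    refine ⟨Y.det.re, ?_⟩
    rw [mul_add, ← hdp, ← hdm, hφp, hφm]
    ring
  -- finiteness
  have hBm : 0 ≤ |B| ^ m := by positivity
  set P : Set ℤ := {p : ℤ | |(p : ℝ)| ≤ W * |B| ^ m} with hP
  have hPfin : P.Finite := by
    refine (Set.finite_Icc (-⌈W * |B| ^ m⌉) ⌈W * |B| ^ m⌉).subset ?_
    intro p hp
    have h1 : |(p : ℝ)| ≤ W * |B| ^ m := hp
    obtain ⟨h2, h3⟩ := abs_le.1 h1
    have h4 := Int.le_ceil (W * |B| ^ m)
    constructor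
    · have : (-(⌈W * |B| ^ m⌉ : ℤ) : ℝ) ≤ p := by linarith
      exact_mod_cast this
    · have : (p : ℝ) ≤ (⌈W * |B| ^ m⌉ : ℤ) := by linarith
      exact_mod_cast this
  let q : ℤ → Polynomial ℝ := fun p => Polynomial.X ^ (2 * m) -
    Polynomial.C (2 * (p : ℝ) / W) * Polynomial.X ^ m + 1
  have hq : ∀ p, q p ≠ 0 := by
    intro p h0
    have h1 := congrArg (fun f => Polynomial.coeff f 0) h0
    simp only [q] at h1
    have h2 : (2 * m : ℕ) ≠ 0 := by omega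
    have h3 : (m : ℕ) ≠ 0 := by omega
    simp [Polynomial.coeff_X_pow, h2.symm, h3.symm, Polynomial.mul_coeff_zero] at h1
  refine (hPfin.biUnion fun p _ => (q p).roots.toFinset.finite_toSet).subset ?_
  rintro d ⟨γ, hγ, rfl, hd1, hd2⟩
  obtain ⟨p, hp⟩ := key γ hγ
  have hd0 : detu γ ≠ 0 := by
    intro h0
    have h1 := detu_mul γ γ⁻¹
    rw [mul_inv_cancel, detu_one, h0, zero_mul] at h1
    exact one_ne_zero h1
  have hpP : p ∈ P := by
    show |(p : ℝ)| ≤ W * |B| ^ m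
    have h1 : |detu γ ^ m + (detu γ)⁻¹ ^ m| ≤ 2 * |B| ^ m := by
      refine (abs_add_le _ _).trans ?_
      rw [abs_pow, abs_pow]
      have h2 : |detu γ| ^ m ≤ |B| ^ m :=
        pow_le_pow_left₀ (abs_nonneg _) (hd1.trans (le_abs_self _)) m
      have h3 : |(detu γ)⁻¹| ^ m ≤ |B| ^ m :=
        pow_le_pow_left₀ (abs_nonneg _) (hd2.trans (le_abs_self _)) m
      linarith
    have h2 : |2 * (p : ℝ)| ≤ W * (2 * |B| ^ m) := by
      rw [← hp, abs_mul, abs_of_pos hW0]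
      gcongr
    rw [abs_mul, abs_of_pos (show (0 : ℝ) < 2 by norm_num)] at h2
    linarith
  refine Set.mem_biUnion hpP ?_
  simp only [Finset.mem_coe, Multiset.mem_toFinset]
  rw [Polynomial.mem_roots (hq p), Polynomial.IsRoot.def]
  simp only [q, Polynomial.eval_add, Polynomial.eval_sub, Polynomial.eval_mul,
    Polynomial.eval_pow, Polynomial.eval_X, Polynomial.eval_C, Polynomial.eval_one]
  rw [← hp]
  have h1 : detu γ ^ m ≠ 0 := pow_ne_zero _ hd0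
  rw [inv_pow]
  field_simp
  ring

end LatN
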