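import Pool.Agent.Lib.LatN.ShortV

/-!
# OuPerp: orthogonal complements for the pairing (outer case)

`β = pairo κ`, `β(v, w) = ∑_k ⟪v_{inr k}, w_{inl k}⟫ + ⟪v_{inl k}, w_{inr k}⟫`, symmetric,
nondegenerate, invariant under `rep (sgo κ) g` (`pairo_rep`), rational on the lattice (`OuD.int`).
`perp T0 U = {y | β(T0 x, T0 y) = 0 for all x ∈ U}`.

Proofs.
* `pairo_rep`: on the negative copies `adjoint g⁻¹`: `⟪(g⁻¹)* a, g b⟫ = ⟪a, g⁻¹ g b⟫ = ⟪a, b⟫`.
* `rsp_perp`: `rsp T0 (perp T0 U) = {w | ∀ v ∈ rsp T0 U, β v w = 0}`. `⊆` is clear. The right side has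
  dimension `N - r`, `N = card ι = dim Cop`, `r = finrank U = dim rsp T0 U` (nondegenerate form:
  `β(v, w) = ⟪J v, w⟫`, `J` the isometry exchanging the copies `inl k` and `inr k`, so the right side
  is the orthogonal complement of `J (rsp T0 U)`). And `finrank (perp T0 U) = N - r`: with the integer
  matrix `B_ij = M β(T0 e_i, T0 e_j)` (invertible over `ℚ`), `perp T0 U` is the set of integer
  solutions `y` of the `r` linear equations `(x_a)ᵀ B y = 0`, `x_a` a basis of `U`, with integer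
  coefficients and rank `r`; so its rank is `N - r` (rank-nullity over `ℚ` and clearing denominators;
  or: by `exists_adapted` take a basis `b` of `ℤ^ι` extending a basis of `U`, `B' = bᵀ B b`, and
  the vectors `y_j = b · adj(B')_{·j}` for `j` outside `U` are `N - r` independent elements of
  `perp T0 U`, which gives `≥`; `≤` follows from `⊆` and `finrank_rsp`).
* `finrank_perp` is contained in this. `perp_mem`: saturated (clear); stable under `c ∈ R`: for
  `v ∈ rsp T0 U` and `w` one has `β(v, mix c w) = β(mix c' v, w)` with the block matrix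
  `c' = c transposed with the blocks exchanged`, `c'_{inl j, inl k} = c_{inr k, inr j}`,
  `c'_{inr j, inr k} = c_{inl k, inl j}`, and `mix c' v ∈ rsp T0 U` (`mix_rsp`).
* `perp_perp`: `U ≤ perp (perp U)` (symmetry), equal ranks, `sat_eq`.
* `perp_shape`: from `rsp_perp`: if `rsp T0 U = {v | v_k ∈ W (sg k)}` then `w ∈ rsp T0 (perp U)` iff
  `w_{inl k} ∈ (W false)ᗮ` and `w_{inr k} ∈ (W true)ᗮ` for all `k` (test with `v` having one nonzero
  entry).
* `dim_eq`: `s = sdiag κ (sqrt D) ∈ R` acts on `U`: `mix s (T0 x) = T0 (σ x)`, `σ x ∈ U`, `σ` linear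
  over `ℤ`. In the basis `T0 (ubas U i)` of `rsp T0 U` the operator `mix s` has an integer matrix, so
  its trace on `rsp T0 U` is an integer; on the other hand `mix s` is `sqrt D` on the `inl` and
  `- sqrt D` on the `inr` components, so the trace is
  `sqrt D · card κ · (finrank (W true) - finrank (W false))`. `sqrt D` is irrational
  (`Nat` not a square), so the difference vanishes (`κ` is nonempty).
-/

open scoped Topology

namespace LatN

variable {E : Type*} [NormedAddCommGroup E] [InnerProductSpace ℝ E] [FiniteDimensional ℝ E]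
variable {κ : Type*} [Fintype κ] [DecidableEq κ] {ι : Type*} [Fintype ι] [DecidableEq ι]

/-- orthogonal complement with respect to the pairing -/
noncomputable def perp (T0 : (ι → ℤ) →ₗ[ℤ] Cop (κ ⊕ κ) E) (U : Submodule ℤ (ι → ℤ)) :
    Submodule ℤ (ι → ℤ) where
  carrier := {y | ∀ x ∈ U, pairo κ (T0 x) (T0 y) = 0}
  zero_mem' := fun x _ => by simp
  add_mem' := by
    intro a b ha hb x hx
    rw [map_add, map_add, ha x hx, hb x hx, add_zero]
  smul_mem' := by
    intro c a ha x hx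
    rw [map_zsmul, map_zsmul, ha x hx, smul_zero]

theorem pairo_apply (v w : Cop (κ ⊕ κ) E) : pairo κ v w =
    ∑ k : κ, (inner ℝ (v (Sum.inr k)) (w (Sum.inl k)) +
      inner ℝ (v (Sum.inl k)) (w (Sum.inr k))) := rfl

private theorem ou_pair (v w : Cop (κ ⊕ κ) E) : pairo κ v w =
    ∑ k : κ ⊕ κ, inner ℝ (v k.swap) (w k) := by
  rw [pairo_apply, Fintype.sum_sum_type, Finset.sum_add_distrib]
  rfl

theorem pairo_symm (v w : Cop (κ ⊕ κ) E) : pairo κ v w = pairo κ w v := by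
  rw [pairo_apply, pairo_apply]
  refine Finset.sum_congr rfl fun k _ => ?_
  rw [add_comm, real_inner_comm (w (Sum.inr k)), real_inner_comm (w (Sum.inl k))]

theorem pairo_rep (g : GE E) (v w : Cop (κ ⊕ κ) E) :
    pairo κ (rep (sgo κ) g v) (rep (sgo κ) g w) = pairo κ v w := by
  have hg : ∀ x : E, ((g⁻¹ : GE E) : E →L[ℝ] E) ((g : E →L[ℝ] E) x) = x := by
    intro x
    have h : ((g⁻¹ : GE E) : E →L[ℝ] E) * (g : E →L[ℝ] E) = 1 := Units.inv_mul g
    exact DFunLike.congr_fun h x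
  rw [pairo_apply, pairo_apply]
  refine Finset.sum_congr rfl fun k _ => ?_
  unfold rep
  rw [blk_apply, blk_apply, blk_apply, blk_apply]
  simp only [sgo, Sum.elim_inl, Sum.elim_inr, if_true, Bool.false_eq_true, if_false]
  rw [ContinuousLinearMap.adjoint_inner_left, ContinuousLinearMap.adjoint_inner_right, hg, hg]

private theorem ou_span {s : Set (Cop (κ ⊕ κ) E)} {w : Cop (κ ⊕ κ) E}
    (h : ∀ v ∈ s, pairo κ v w = 0) : ∀ v ∈ Submodule.span ℝ s, pairo κ v w = 0 := by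
  intro v hv
  have h1 : Submodule.span ℝ s ≤ LinearMap.ker ((pairo (E := E) κ).flip w) :=
    Submodule.span_le.2 fun v hv => h v hv
  exact h1 hv

/-- the orthogonal complement of a real subspace -/
private noncomputable def ouC (V : Submodule ℝ (Cop (κ ⊕ κ) E)) : Submodule ℝ (Cop (κ ⊕ κ) E) where
  carrier := {w | ∀ v ∈ V, pairo κ v w = 0}
  zero_mem' := fun v _ => by simp
  add_mem' := by
    intro a b ha hb v hv
    rw [map_add, ha v hv, hb v hv, add_zero]
  smul_mem' := by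
    intro c a ha v hv
    rw [map_smul, ha v hv, smul_zero]

private noncomputable def ouJ : Cop (κ ⊕ κ) E ≃ₗ[ℝ] Cop (κ ⊕ κ) E where
  toFun v := WithLp.toLp 2 fun k => v k.swap
  invFun v := WithLp.toLp 2 fun k => v k.swap
  map_add' v w := by
    ext k
    rfl
  map_smul' c v := by
    ext k
    rfl
  left_inv v := by
    ext k
    show v k.swap.swap = v k
    rw [Sum.swap_swap]
  right_inv v := by
    ext k
    show v k.swap.swap = v k
    rw [Sum.swap_swap]

private theorem ou_J (v w : Cop (κ ⊕ κ) E) : pairo κ v w = inner ℝ (ouJ v) w := by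
  rw [ou_pair, PiLp.inner_apply]
  rfl

private theorem finrank_ouC (V : Submodule ℝ (Cop (κ ⊕ κ) E)) :
    Module.finrank ℝ (ouC V) + Module.finrank ℝ V = Module.finrank ℝ (Cop (κ ⊕ κ) E) := by
  have h1 : ouC V = (V.map (ouJ : Cop (κ ⊕ κ) E ≃ₗ[ℝ] Cop (κ ⊕ κ) E).toLinearMap)ᗮ := by
    ext w
    rw [Submodule.mem_orthogonal]
    constructor
    · rintro h _ ⟨v, hv, rfl⟩
      have h2 := h v hv
      rw [ou_J] at h2
      exact h2
    · intro h v hv
      rw [ou_J]
      exact h _ ⟨v, hv, rfl⟩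
  have h2 : Module.finrank ℝ (V.map (ouJ : Cop (κ ⊕ κ) E ≃ₗ[ℝ] Cop (κ ⊕ κ) E).toLinearMap) =
      Module.finrank ℝ V := LinearEquiv.finrank_map_eq ouJ V
  have h3 := Submodule.finrank_add_finrank_orthogonal
    (V.map (ouJ : Cop (κ ⊕ κ) E ≃ₗ[ℝ] Cop (κ ⊕ κ) E).toLinearMap)
  rw [h1]
  omega

private theorem ou_le (T0 : (ι → ℤ) →ₗ[ℤ] Cop (κ ⊕ κ) E) (U : Submodule ℤ (ι → ℤ)) :
    rsp T0 (perp T0 U) ≤ ouC (rsp T0 U) := by
  refine Submodule.span_le.2 ?_
  rintro _ ⟨y, hy, rfl⟩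
  refine ou_span ?_
  rintro _ ⟨x, hx, rfl⟩
  exact hy x hx

private theorem ou_dim {T0 : (ι → ℤ) →ₗ[ℤ] Cop (κ ⊕ κ) E}
    {R : Subring (Matrix (κ ⊕ κ) (κ ⊕ κ) ℝ)} (h : OuD T0 R) :
    Module.finrank ℝ (Cop (κ ⊕ κ) E) = Fintype.card ι := by
  rw [h.ar.card_eq]
  have h1 : Module.finrank ℝ (Cop (κ ⊕ κ) E) = Module.finrank ℝ ((κ ⊕ κ) → E) :=
    (WithLp.linearEquiv 2 ℝ ((κ ⊕ κ) → E)).finrank_eq
  rw [h1, Module.finrank_pi_fintype, Finset.sum_const, Finset.card_univ, smul_eq_mul]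

private theorem ou_ge {T0 : (ι → ℤ) →ₗ[ℤ] Cop (κ ⊕ κ) E}
    {R : Subring (Matrix (κ ⊕ κ) (κ ⊕ κ) ℝ)} (h : OuD T0 R) (U : Submodule ℤ (ι → ℤ)) :
    Fintype.card ι ≤ Module.finrank ℤ (perp T0 U) + Module.finrank ℤ U := by
  obtain ⟨M, hM, hk⟩ := h.int
  have hM' : (M : ℝ) ≠ 0 := by exact_mod_cast hM
  let φ : (ι → ℤ) →ₗ[ℤ] (Fin (Module.finrank ℤ U) → ℝ) :=
    { toFun := fun y i => (M : ℝ) * pairo κ (T0 (ubas U i)) (T0 y)
      map_add' := by
        intro a b
        funext i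
        show (M : ℝ) * pairo κ (T0 (ubas U i)) (T0 (a + b)) =
          (M : ℝ) * pairo κ (T0 (ubas U i)) (T0 a) + (M : ℝ) * pairo κ (T0 (ubas U i)) (T0 b)
        rw [map_add, map_add, mul_add]
      map_smul' := by
        intro c a
        funext i
        show (M : ℝ) * pairo κ (T0 (ubas U i)) (T0 (c • a)) =
          c • ((M : ℝ) * pairo κ (T0 (ubas U i)) (T0 a))
        rw [map_zsmul, map_zsmul, mul_smul_comm] }
  let ψ : (Fin (Module.finrank ℤ U) → ℤ) →ₗ[ℤ] (Fin (Module.finrank ℤ U) → ℝ) :=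
    { toFun := fun y i => (y i : ℝ)
      map_add' := by
        intro a b
        funext i
        push_cast [Pi.add_apply]
        rfl
      map_smul' := by
        intro c a
        funext i
        show ((c • a) i : ℝ) = c • (a i : ℝ)
        rw [Pi.smul_apply, smul_eq_mul, zsmul_eq_mul]
        push_cast
        rfl }
  have h1 : LinearMap.range φ ≤ LinearMap.range ψ := by
    rintro _ ⟨y, rfl⟩
    choose n hn using fun i => hk (ubas U i) y
    exact ⟨n, funext fun i => (hn i).symm⟩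
  have h2 : LinearMap.ker φ = perp T0 U := by
    ext y
    constructor
    · intro hy x hx
      have h3 : T0 x ∈ rsp T0 U := Submodule.subset_span ⟨x, hx, rfl⟩
      rw [rsp_ubas] at h3
      refine ou_span ?_ _ h3
      rintro _ ⟨i, rfl⟩
      have h4 : (M : ℝ) * pairo κ (T0 (ubas U i)) (T0 y) = 0 := congrFun (LinearMap.mem_ker.1 hy) i
      exact (mul_eq_zero.1 h4).resolve_left hM'
    · intro hy
      rw [LinearMap.mem_ker]
      funext i
      show (M : ℝ) * pairo κ (T0 (ubas U i)) (T0 y) = 0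
      rw [hy _ (ubas U i).2, mul_zero]
  have h3 := Submodule.finrank_quotient_add_finrank (LinearMap.ker φ)
  rw [φ.quotKerEquivRange.finrank_eq] at h3
  have h4 := Submodule.finrank_mono h1
  have h5 : Module.finrank ℤ (LinearMap.range ψ) ≤ Module.finrank ℤ U := by
    have h6 := LinearMap.finrank_range_le ψ
    rwa [Module.finrank_fin_fun] at h6
  rw [h2, Module.finrank_fintype_fun_eq_card] at h3
  omega

private theorem ou_both {T0 : (ι → ℤ) →ₗ[ℤ] Cop (κ ⊕ κ) E}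
    {R : Subring (Matrix (κ ⊕ κ) (κ ⊕ κ) ℝ)} (h : OuD T0 R) (U : Submodule ℤ (ι → ℤ)) :
    rsp T0 (perp T0 U) = ouC (rsp T0 U) ∧
      Module.finrank ℤ (perp T0 U) + Module.finrank ℤ U = Fintype.card ι := by
  have h1 := finrank_rsp h.ar.emb U
  have h2 := finrank_rsp h.ar.emb (perp T0 U)
  have h3 := finrank_ouC (rsp T0 U)
  have h4 := Submodule.finrank_mono (ou_le T0 U)
  have h5 := ou_ge h U
  rw [ou_dim h] at h3
  refine ⟨Submodule.eq_of_le_of_finrank_eq (ou_le T0 U) ?_, ?_⟩ <;> omega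

theorem rsp_perp {T0 : (ι → ℤ) →ₗ[ℤ] Cop (κ ⊕ κ) E} {R : Subring (Matrix (κ ⊕ κ) (κ ⊕ κ) ℝ)}
    (h : OuD T0 R) {U : Submodule ℤ (ι → ℤ)} (hU : Sat U) (w : Cop (κ ⊕ κ) E) :
    w ∈ rsp T0 (perp T0 U) ↔ ∀ v ∈ rsp T0 U, pairo κ v w = 0 := by
  rw [(ou_both h U).1]
  rfl

theorem finrank_perp {T0 : (ι → ℤ) →ₗ[ℤ] Cop (κ ⊕ κ) E}
    {R : Subring (Matrix (κ ⊕ κ) (κ ⊕ κ) ℝ)} (h : OuD T0 R) {U : Submodule ℤ (ι → ℤ)}
    (hU : Sat U) :
    Module.finrank ℤ (perp T0 U) + Module.finrank ℤ U = Fintype.card ι :=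
  (ou_both h U).2

private theorem ou_sat (T0 : (ι → ℤ) →ₗ[ℤ] Cop (κ ⊕ κ) E) (U : Submodule ℤ (ι → ℤ)) :
    Sat (perp T0 U) := by
  intro k y hk hy x hx
  have h1 := hy x hx
  rw [map_zsmul, map_zsmul] at h1
  exact (smul_eq_zero.1 h1).resolve_left hk

private theorem ou_mix (c : Matrix (κ ⊕ κ) (κ ⊕ κ) ℝ) (v w : Cop (κ ⊕ κ) E) :
    pairo κ v (mix c w) = pairo κ (mix (Matrix.of fun j k => c k.swap j.swap) v) w := by
  rw [ou_pair, ou_pair]
  have h1 : ∀ k : κ ⊕ κ, inner ℝ (v k.swap) ((mix c w) k) =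
      ∑ j, c j k * inner ℝ (v k.swap) (w j) := by
    intro k
    show inner ℝ (v k.swap) (∑ j, c j k • w j) = _
    rw [inner_sum]
    exact Finset.sum_congr rfl fun j _ => real_inner_smul_right _ _ _
  have h2 : ∀ k : κ ⊕ κ, inner ℝ ((mix (Matrix.of fun j k => c k.swap j.swap) v) k.swap) (w k) =
      ∑ j : κ ⊕ κ, c k j.swap * inner ℝ (v j) (w k) := by
    intro k
    show inner ℝ (∑ j, c k.swap.swap j.swap • v j) (w k) = _
    rw [sum_inner, Sum.swap_swap]
    exact Finset.sum_congr rfl fun j _ => real_inner_smul_left _ _ _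
  simp only [h1, h2]
  rw [Finset.sum_comm]
  refine Finset.sum_congr rfl fun k _ => ?_
  refine Fintype.sum_equiv (Equiv.sumComm κ κ) _ _ fun j => ?_
  show c k j * inner ℝ (v j.swap) (w k) = c k j.swap.swap * inner ℝ (v j.swap) (w k)
  rw [Sum.swap_swap]

omit [Fintype κ] [DecidableEq κ] in
private theorem ou_sgo (k : κ ⊕ κ) : sgo κ k.swap = !(sgo κ k) := by
  rcases k with k | k <;> rfl

theorem perp_mem {T0 : (ι → ℤ) →ₗ[ℤ] Cop (κ ⊕ κ) E} {R : Subring (Matrix (κ ⊕ κ) (κ ⊕ κ) ℝ)}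
    (h : OuD T0 R) {U : Submodule ℤ (ι → ℤ)} (hU : U ∈ RU T0 R) : perp T0 U ∈ RU T0 R := by
  refine ⟨ou_sat T0 U, fun c hc y hy z hz x hx => ?_⟩
  rw [← hz, ou_mix]
  have h1 : mix (Matrix.of fun j k => c k.swap j.swap) (T0 x) ∈ rsp T0 U := by
    refine mix_rsp h.ar hU (fun j k hjk => ?_) (Submodule.subset_span ⟨x, hx, rfl⟩)
    refine h.ar.block c hc _ _ ?_
    rw [ou_sgo, ou_sgo]
    intro h2
    exact hjk (Bool.not_inj h2).symm
  have h2 : T0 y ∈ ouC (rsp T0 U) := ou_le T0 U (Submodule.subset_span ⟨y, hy, rfl⟩)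
  exact h2 _ h1

theorem perp_anti (T0 : (ι → ℤ) →ₗ[ℤ] Cop (κ ⊕ κ) E) {U V : Submodule ℤ (ι → ℤ)}
    (hUV : U ≤ V) : perp T0 V ≤ perp T0 U :=
  fun _ hy x hx => hy x (hUV hx)

theorem perp_perp {T0 : (ι → ℤ) →ₗ[ℤ] Cop (κ ⊕ κ) E} {R : Subring (Matrix (κ ⊕ κ) (κ ⊕ κ) ℝ)}
    (h : OuD T0 R) {U : Submodule ℤ (ι → ℤ)} (hU : Sat U) : perp T0 (perp T0 U) = U := by
  symm
  refine sat_eq hU (fun x hx y hy => ?_) ?_
  · rw [pairo_symm]
    exact hy x hx
  · have h1 := (ou_both h U).2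
    have h2 := (ou_both h (perp T0 U)).2
    omega

theorem perp_shape {T0 : (ι → ℤ) →ₗ[ℤ] Cop (κ ⊕ κ) E}
    {R : Subring (Matrix (κ ⊕ κ) (κ ⊕ κ) ℝ)} (h : OuD T0 R) {U : Submodule ℤ (ι → ℤ)}
    (hU : Sat U) {W : Bool → Submodule ℝ E}
    (hW : ∀ v : Cop (κ ⊕ κ) E, v ∈ rsp T0 U ↔ ∀ k, v k ∈ W (sgo κ k)) (w : Cop (κ ⊕ κ) E) :
    w ∈ rsp T0 (perp T0 U) ↔ ∀ k, w k ∈ (W (!(sgo κ k)))ᗮ := by
  rw [rsp_perp h hU]
  constructor
  · intro h1 k
    rw [Submodule.mem_orthogonal]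
    intro u hu
    have h2 := h1 (WithLp.toLp 2 fun j => if j = k.swap then u else 0) ((hW _).2 fun j => ?_)
    · rw [ou_pair, Finset.sum_eq_single k] at h2
      · have h3 : inner ℝ (if k.swap = k.swap then u else 0) (w k) = 0 := h2
        rwa [if_pos rfl] at h3
      · intro j _ hj
        show inner ℝ (if j.swap = k.swap then u else 0) (w j) = 0
        rw [if_neg, inner_zero_left]
        intro h3
        exact hj (by rw [← Sum.swap_swap j, h3, Sum.swap_swap])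
      · intro h3
        exact absurd (Finset.mem_univ k) h3
    · show (if j = k.swap then u else 0) ∈ W (sgo κ j)
      by_cases hj : j = k.swap
      · rw [if_pos hj, hj, ou_sgo]
        exact hu
      · rw [if_neg hj]
        exact Submodule.zero_mem _
  · intro h1 v hv
    rw [ou_pair]
    refine Finset.sum_eq_zero fun k _ => ?_
    have h2 := (hW v).1 hv k.swap
    rw [ou_sgo] at h2
    exact (Submodule.mem_orthogonal _ _).1 (h1 k) _ h2

theorem dim_eq [Nonempty κ] {T0 : (ι → ℤ) →ₗ[ℤ] Cop (κ ⊕ κ) E}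
    {R : Subring (Matrix (κ ⊕ κ) (κ ⊕ κ) ℝ)} (h : OuD T0 R) {U : Submodule ℤ (ι → ℤ)}
    (hU : U ∈ RU T0 R) {W : Bool → Submodule ℝ E}
    (hW : ∀ v : Cop (κ ⊕ κ) E, v ∈ rsp T0 U ↔ ∀ k, v k ∈ W (sgo κ k)) :
    Module.finrank ℝ (W true) = Module.finrank ℝ (W false) := by
  obtain ⟨D, hD, hs⟩ := h.sqrt
  set s := sdiag κ (Real.sqrt D) with hsdef
  have hbl : ∀ v ∈ rsp T0 U, mix s v ∈ rsp T0 U := fun v hv => mix_rsp h.ar hU (h.ar.block s hs) hv
  let L : rsp T0 U →ₗ[ℝ] rsp T0 U := (mix s).restrict hbl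
  -- the integer matrix
  have hmem : ∀ i, T0 (ubas U i) ∈ rsp T0 U := fun i =>
    Submodule.subset_span ⟨_, (ubas U i).2, rfl⟩
  have hli : LinearIndependent ℝ (fun i => (⟨T0 (ubas U i), hmem i⟩ : rsp T0 U)) :=
    LinearIndependent.of_comp (rsp T0 U).subtype (ubasT_li h.ar.emb U)
  have hsp : ⊤ ≤ Submodule.span ℝ (Set.range fun i => (⟨T0 (ubas U i), hmem i⟩ : rsp T0 U)) := by
    rintro ⟨v, hv⟩ -
    have h1 := hv
    rw [rsp_ubas] at h1
    have h2 : (fun i => T0 (ubas U i)) =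
        (rsp T0 U).subtype ∘ fun i => (⟨T0 (ubas U i), hmem i⟩ : rsp T0 U) := rfl
    rw [h2, Set.range_comp, ← Submodule.map_span] at h1
    obtain ⟨u, hu, hu'⟩ := h1
    have h3 : u = ⟨v, hv⟩ := Subtype.ext hu'
    rw [← h3]
    exact hu
  let b := Module.Basis.mk hli hsp
  have hb : ∀ i, b i = (⟨T0 (ubas U i), hmem i⟩ : rsp T0 U) := fun i => Module.Basis.mk_apply hli hsp i
  have hint : ∀ i, ∃ n : Fin (Module.finrank ℤ U) → ℤ, L (b i) = ∑ j, (n j : ℝ) • b j := by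
    intro i
    obtain ⟨y, hy⟩ := h.ar.stab s hs (ubas U i)
    have hyU : y ∈ U := hU.2 s hs _ (ubas U i).2 y hy
    refine ⟨fun j => (ubas U).repr ⟨y, hyU⟩ j, Subtype.ext ?_⟩
    rw [hb]
    have h1 : ((∑ j, (((ubas U).repr ⟨y, hyU⟩ j : ℤ) : ℝ) • b j : rsp T0 U) : Cop (κ ⊕ κ) E) =
        ∑ j, (((ubas U).repr ⟨y, hyU⟩ j : ℤ) : ℝ) • T0 (ubas U j) := by
      rw [Submodule.coe_sum]
      refine Finset.sum_congr rfl fun j _ => ?_
      rw [Submodule.coe_smul, hb]
    rw [h1]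
    show mix s (T0 (ubas U i)) = _
    rw [hy]
    have h2 := (ubas U).sum_repr ⟨y, hyU⟩
    have h3 : y = ∑ j, ((ubas U).repr ⟨y, hyU⟩ j) • ((ubas U j : U) : ι → ℤ) := by
      have h4 := congrArg (fun u : U => (u : ι → ℤ)) h2
      simp only [Submodule.coe_sum, Submodule.coe_smul] at h4
      exact h4.symm
    conv_lhs => rw [h3]
    rw [map_sum]
    refine Finset.sum_congr rfl fun j _ => ?_
    rw [map_zsmul, Int.cast_smul_eq_zsmul]
  choose n hn using hint
  have htr : LinearMap.trace ℝ _ L = ((∑ i, n i i : ℤ) : ℝ) := by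
    rw [LinearMap.trace_eq_matrix_trace ℝ b, Matrix.trace]
    push_cast
    refine Finset.sum_congr rfl fun i _ => ?_
    rw [Matrix.diag_apply, LinearMap.toMatrix_apply, hn]
    simp [map_sum, Finsupp.single_apply]
  -- the decomposition
  let e : rsp T0 U ≃ₗ[ℝ] (κ → W true) × (κ → W false) :=
    { toFun := fun v => (fun k => ⟨(v : Cop (κ ⊕ κ) E) (Sum.inl k), (hW v).1 v.2 (Sum.inl k)⟩,
        fun k => ⟨(v : Cop (κ ⊕ κ) E) (Sum.inr k), (hW v).1 v.2 (Sum.inr k)⟩)
      map_add' := fun v w => rfl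
      map_smul' := fun c v => rfl
      invFun := fun p => ⟨WithLp.toLp 2 (Sum.elim (fun k => (p.1 k : E)) fun k => (p.2 k : E)),
        (hW _).2 (by
          rintro (k | k)
          · exact (p.1 k).2
          · exact (p.2 k).2)⟩
      left_inv := by
        intro v
        refine Subtype.ext ?_
        ext k
        rcases k with k | k <;> rfl
      right_inv := by
        intro p
        rfl }
  have hmix : ∀ (v : Cop (κ ⊕ κ) E) (k : κ ⊕ κ), (mix s v) k =
      (Sum.elim (fun _ => Real.sqrt D) (fun _ => - Real.sqrt D) k : ℝ) • v k := by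
    intro v k
    show ∑ j, s j k • v j = _
    rw [Finset.sum_eq_single k]
    · rw [hsdef, sdiag, Matrix.diagonal_apply_eq]
    · intro j _ hj
      rw [hsdef, sdiag, Matrix.diagonal_apply_ne _ hj, zero_smul]
    · intro h3
      exact absurd (Finset.mem_univ k) h3
  have hconj : e.conj L = LinearMap.prodMap (Real.sqrt D • LinearMap.id)
      ((- Real.sqrt D) • LinearMap.id) := by
    refine LinearMap.ext fun p => ?_
    refine Prod.ext ?_ ?_
    · funext k
      refine Subtype.ext ?_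
      exact hmix ((e.symm p : rsp T0 U) : Cop (κ ⊕ κ) E) (Sum.inl k)
    · funext k
      refine Subtype.ext ?_
      exact hmix ((e.symm p : rsp T0 U) : Cop (κ ⊕ κ) E) (Sum.inr k)
  have htr2 : LinearMap.trace ℝ _ L = Real.sqrt D * ((Fintype.card κ * Module.finrank ℝ (W true) : ℕ) : ℝ) -
      Real.sqrt D * ((Fintype.card κ * Module.finrank ℝ (W false) : ℕ) : ℝ) := by
    rw [← LinearMap.trace_conj' L e, hconj, LinearMap.trace_prodMap', map_smul, map_smul,
      LinearMap.trace_id, LinearMap.trace_id, Module.finrank_pi_fintype, Module.finrank_pi_fintype,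
      Finset.sum_const, Finset.sum_const, Finset.card_univ, smul_eq_mul, smul_eq_mul]
    simp only [smul_eq_mul]
    ring
  have hirr : Irrational (Real.sqrt D) := irrational_sqrt_natCast_iff.2 hD
  by_contra hne
  have hz : ((Fintype.card κ : ℤ) * ((Module.finrank ℝ (W true) : ℤ) - Module.finrank ℝ (W false))) ≠ 0 := by
    refine mul_ne_zero ?_ ?_
    · exact_mod_cast Fintype.card_ne_zero
    · intro h1
      exact hne (by exact_mod_cast sub_eq_zero.1 h1)
  refine hirr.mul_intCast hz ⟨((∑ i, n i i : ℤ) : ℚ), ?_⟩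
  have h1 := htr.symm.trans htr2
  push_cast at h1 ⊢
  rw [h1]
  ring

end LatN
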