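import Pool.Agent.Lib.LatN.InnerX
import Pool.Agent.Lib.LatN.OuPerp

/-!
# OuXa: vectors and traces for the push-out directions, outer case

`Xu u v = ⟪u, v⟫ u - 2 v`.

Proofs.
* `Xu_selfAdj`: `⟪Xu u v, w⟫ = ⟪u, v⟫⟪u, w⟫ - 2 ⟪v, w⟫`. `Xu_trace`: `‖u‖² - 2 n`. `Xu_norm`:
  `‖Xu u v‖ ≤ (‖u‖² + 2) ‖v‖`.
* `exists_u`: `dim L ≥ 2`, so there is a unit vector `u₀ ∈ L` orthogonal to `z`; changing its sign we
  may assume `⟪u₀, a⟫ ≥ 0`. Let `s > 0`, `s² = 1/(2n)` (`n ≥ 1`, so `s ≤ 1`) and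
  `u' = u₀ + s a ∈ L`: `‖u'‖² = 1 + 2 s ⟪u₀, a⟫ + s² ∈ [1, 4]`, `⟪u', z⟫ = s ⟪a, z⟫`,
  `⟪u', a⟫ ≥ s`. `u = (sqrt (2n) / ‖u'‖) • u'`: `‖u‖² = 2n`, `⟪u, z⟫² ≤ 2n s² / ‖u'‖² ≤ 1`,
  `⟪u, a⟫² ≥ 2n s² / ‖u'‖² ≥ 1/4`.
* `sum_onb`: `∑_a (⟪u, f_a⟫² - 2) = ‖P_A u‖² - 2 dim A` for an orthonormal basis `f` of `A`.
  Here `P_A u` is written as the orthogonal projection onto `A`.
* `shape_g`: on the positive copies `g W`, on the negative copies `(g⁻¹)* W' = (g (W'ᗮ))ᗮ`: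
  `⟪(g⁻¹)* a, g b⟫ = ⟪a, b⟫` gives `⊆`, and dimensions agree (or: if `c ⊥ g b` for all `b ∈ W'ᗮ` then
  `g* c ⊥ W'ᗮ`, so `g* c ∈ W'` and `c = (g⁻¹)* (g* c)`).
* `dlog_outer`: `dlog_shape` for `T_g = TT (sgo κ) T0 g` (`emb_TT`), the shape `shape_g`, orthonormal
  bases of `A = g (W true)` (dimension `w`) and of `Bᗮ`, `B = g ((W false)ᗮ)` (dimension `n - w`, as
  `dim W false = w`), and `sum_onb`:
  `card κ ((‖P_A u‖² - 2 w) - (‖P_{Bᗮ} u‖² - 2 w))`, `‖P_{Bᗮ} u‖² = ‖u‖² - ‖P_B u‖²`, `‖u‖² = 2 n`: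
  this is `card κ (‖P_A u‖² + ‖P_B u‖² - 2 n)`.
-/

open scoped Topology

namespace LatN

variable {E : Type*} [NormedAddCommGroup E] [InnerProductSpace ℝ E] [FiniteDimensional ℝ E]

/-- the operator `⟪u, ·⟫ u - 2` -/
noncomputable def Xu (u : E) : E →L[ℝ] E :=
  (innerSL ℝ u).smulRight u - (2 : ℝ) • (1 : E →L[ℝ] E)

theorem Xu_apply (u v : E) : Xu u v = (inner ℝ u v : ℝ) • u - (2 : ℝ) • v := by
  simp [Xu]

private theorem Xu_inner (u v w : E) : inner ℝ (Xu u v) w =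
    inner ℝ u v * inner ℝ u w - 2 * inner ℝ v w := by
  rw [Xu_apply, inner_sub_left, real_inner_smul_left, real_inner_smul_left]

theorem Xu_selfAdj (u : E) : IsSelfAdjoint (Xu u) := by
  rw [ContinuousLinearMap.isSelfAdjoint_iff_isSymmetric]
  intro v w
  show inner ℝ (Xu u v) w = inner ℝ v (Xu u w)
  rw [Xu_inner, real_inner_comm (Xu u w) v, Xu_inner, real_inner_comm v w]
  ring

theorem Xu_trace (u : E) : LinearMap.trace ℝ E ((Xu u : E →L[ℝ] E) : E →ₗ[ℝ] E) =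
    ‖u‖ ^ 2 - 2 * (Module.finrank ℝ E : ℝ) := by
  have h1 : ((Xu u : E →L[ℝ] E) : E →ₗ[ℝ] E) =
      (((innerSL ℝ u : E →L[ℝ] ℝ) : E →ₗ[ℝ] ℝ).smulRight u) - (2 : ℝ) • LinearMap.id := rfl
  rw [h1, map_sub, map_smul, LinearMap.trace_smulRight, LinearMap.trace_id]
  show inner ℝ u u - (2 : ℝ) • (Module.finrank ℝ E : ℝ) = _
  rw [real_inner_self_eq_norm_sq, smul_eq_mul]

theorem Xu_norm (u : E) : ‖Xu u‖ ≤ ‖u‖ ^ 2 + 2 := by
  refine ContinuousLinearMap.opNorm_le_bound _ (by positivity) fun v => ?_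
  rw [Xu_apply]
  refine (norm_sub_le _ _).trans ?_
  rw [norm_smul, norm_smul]
  have h1 := norm_inner_le_norm (𝕜 := ℝ) u v
  have h2 : ‖(2 : ℝ)‖ = 2 := by norm_num
  rw [h2]
  have h3 := mul_le_mul_of_nonneg_right h1 (norm_nonneg u)
  nlinarith

private theorem ox_unit (L : Submodule ℝ E) (hL : 2 ≤ Module.finrank ℝ L) (z : E) :
    ∃ u ∈ L, ‖u‖ = 1 ∧ inner ℝ u z = 0 := by
  let φ : L →ₗ[ℝ] ℝ := ((innerSL ℝ z : E →L[ℝ] ℝ) : E →ₗ[ℝ] ℝ) ∘ₗ L.subtype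
  have h1 : LinearMap.ker φ ≠ ⊥ := by
    refine LinearMap.ker_ne_bot_of_finrank_lt ?_
    rw [Module.finrank_self]
    exact hL
  obtain ⟨w, hw, hw0⟩ := Submodule.exists_mem_ne_zero_of_ne_bot h1
  have h2 : inner ℝ z (w : E) = 0 := hw
  have h3 : (w : E) ≠ 0 := fun h4 => hw0 (Subtype.ext h4)
  refine ⟨‖(w : E)‖⁻¹ • (w : E), L.smul_mem _ w.2, ?_, ?_⟩
  · rw [norm_smul, norm_inv, norm_norm, inv_mul_cancel₀ (norm_ne_zero_iff.2 h3)]
  · rw [real_inner_smul_left, real_inner_comm, h2, mul_zero]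

theorem exists_u (L : Submodule ℝ E) (hL : 2 ≤ Module.finrank ℝ L) {a z : E} (ha : a ∈ L)
    (ha1 : ‖a‖ = 1) (hz : ‖z‖ = 1) :
    ∃ u ∈ L, ‖u‖ ^ 2 = 2 * (Module.finrank ℝ E : ℝ) ∧ (inner ℝ u z : ℝ) ^ 2 ≤ 1 ∧
      1 / 4 ≤ (inner ℝ u a : ℝ) ^ 2 := by
  obtain ⟨u₀, hu₀, hu1, hu2, hu3⟩ : ∃ u ∈ L, ‖u‖ = 1 ∧ inner ℝ u z = 0 ∧ 0 ≤ inner ℝ u a := by
    obtain ⟨u, h1, h2, h3⟩ := ox_unit L hL z
    rcases le_total 0 (inner ℝ u a) with h4 | h4
    · exact ⟨u, h1, h2, h3, h4⟩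
    · refine ⟨-u, L.neg_mem h1, by rw [norm_neg, h2], by rw [inner_neg_left, h3, neg_zero], ?_⟩
      rw [inner_neg_left]
      linarith
  have hn : (2 : ℝ) ≤ Module.finrank ℝ E := by
    have h1 := hL.trans (Submodule.finrank_le L)
    exact_mod_cast h1
  set n : ℝ := (Module.finrank ℝ E : ℝ) with hndef
  have hn0 : 0 < 2 * n := by linarith
  set s : ℝ := Real.sqrt (1 / (2 * n)) with hs
  have hs2 : s ^ 2 = 1 / (2 * n) := Real.sq_sqrt (by positivity)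
  have hs0 : 0 < s := Real.sqrt_pos.2 (by positivity)
  have hs1 : s ≤ 1 := by
    have h1 : s ^ 2 ≤ 1 := by
      rw [hs2, div_le_one hn0]
      linarith
    nlinarith
  have hza : (inner ℝ a z) ^ 2 ≤ 1 := by
    have h1 := abs_real_inner_le_norm a z
    rw [ha1, hz, one_mul] at h1
    have h2 := sq_abs (inner ℝ a z)
    have h3 := abs_nonneg (inner ℝ a z)
    nlinarith
  have hua : inner ℝ u₀ a ≤ 1 := by
    have h1 := real_inner_le_norm u₀ a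
    rwa [hu1, ha1, one_mul] at h1
  set u' : E := u₀ + s • a with hu'
  have hN : ‖u'‖ ^ 2 = 1 + 2 * s * inner ℝ u₀ a + s ^ 2 := by
    rw [hu', norm_add_sq_real, real_inner_smul_right, norm_smul, hu1, ha1, Real.norm_eq_abs, mul_one,
      sq_abs]
    ring
  have hN1 : 1 ≤ ‖u'‖ ^ 2 := by
    rw [hN]
    nlinarith [mul_nonneg hs0.le hu3]
  have hN4 : ‖u'‖ ^ 2 ≤ 4 := by
    rw [hN]
    nlinarith [mul_le_mul hs1 hua hu3 zero_le_one]
  have hN0 : ‖u'‖ ≠ 0 := by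
    intro h
    rw [h] at hN1
    norm_num at hN1
  set c : ℝ := Real.sqrt (2 * n) / ‖u'‖ with hc
  have hc2 : c ^ 2 * ‖u'‖ ^ 2 = 2 * n := by
    rw [hc, div_pow, Real.sq_sqrt hn0.le]
    field_simp
  have hcs : c ^ 2 * s ^ 2 * ‖u'‖ ^ 2 = 1 := by
    rw [hs2]
    have : c ^ 2 * (1 / (2 * n)) * ‖u'‖ ^ 2 = (c ^ 2 * ‖u'‖ ^ 2) / (2 * n) := by ring
    rw [this, hc2, div_self hn0.ne']
  have hcs0 : 0 ≤ c ^ 2 * s ^ 2 := by positivity
  refine ⟨c • u', L.smul_mem _ (L.add_mem hu₀ (L.smul_mem _ ha)), ?_, ?_, ?_⟩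
  · rw [norm_smul, mul_pow, Real.norm_eq_abs, sq_abs]
    exact hc2
  · rw [real_inner_smul_left, hu', inner_add_left, hu2, real_inner_smul_left, zero_add]
    have h1 : (c * (s * inner ℝ a z)) ^ 2 = c ^ 2 * s ^ 2 * (inner ℝ a z) ^ 2 := by ring
    rw [h1]
    nlinarith [mul_le_mul_of_nonneg_left hza hcs0, mul_le_mul_of_nonneg_left hN1 hcs0]
  · rw [real_inner_smul_left, hu', inner_add_left, real_inner_smul_left, real_inner_self_eq_norm_sq,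
      ha1]
    have h1 : (c * (inner ℝ u₀ a + s * 1 ^ 2)) ^ 2 = c ^ 2 * (inner ℝ u₀ a + s) ^ 2 := by ring
    rw [h1]
    have h2 : s ^ 2 ≤ (inner ℝ u₀ a + s) ^ 2 := by nlinarith
    have h3 := mul_le_mul_of_nonneg_left h2 (sq_nonneg c)
    nlinarith [mul_le_mul_of_nonneg_left hN4 hcs0]

theorem sum_onb (A : Submodule ℝ E) {w : ℕ} (f : OrthonormalBasis (Fin w) ℝ A) (u : E) :
    ∑ a, (inner ℝ (Xu u (f a : E)) (f a : E) : ℝ) =
      ‖A.starProjection u‖ ^ 2 - 2 * (Module.finrank ℝ A : ℝ) := by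
  have h1 : ∀ a, inner ℝ (Xu u (f a : E)) (f a : E) =
      (inner ℝ (f a) (A.orthogonalProjectionOnto u)) ^ 2 - 2 := by
    intro a
    have h2 : ‖((f a : A) : E)‖ = 1 := f.orthonormal.1 a
    rw [Xu_inner, real_inner_self_eq_norm_sq, h2,
      Submodule.inner_orthogonalProjectionOnto_eq_of_mem_left, real_inner_comm]
    ring
  simp only [h1]
  rw [Finset.sum_sub_distrib, f.sum_sq_inner_right, Finset.sum_const, Finset.card_univ,
    Fintype.card_fin, Module.finrank_eq_card_basis f.toBasis, Fintype.card_fin, nsmul_eq_mul]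
  show ‖A.starProjection u‖ ^ 2 - _ = _
  ring

variable {κ : Type*} [Fintype κ] [DecidableEq κ] {ι : Type*} [Fintype ι] [DecidableEq ι]

theorem shape_g {T0 : (ι → ℤ) →ₗ[ℤ] Cop (κ ⊕ κ) E} {U : Submodule ℤ (ι → ℤ)}
    {W : Bool → Submodule ℝ E}
    (hW : ∀ v : Cop (κ ⊕ κ) E, v ∈ rsp T0 U ↔ ∀ k, v k ∈ W (sgo κ k)) (g : GE E)
    (v : Cop (κ ⊕ κ) E) :
    v ∈ rsp (TT (sgo κ) T0 g) U ↔ ∀ k, v k ∈ (fun b : Bool =>
      if b then (W true).map ((g : E →L[ℝ] E) : E →ₗ[ℝ] E)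
      else (((W false)ᗮ).map ((g : E →L[ℝ] E) : E →ₗ[ℝ] E))ᗮ) (sgo κ k) := by
  have hg : ∀ x : E, ((g⁻¹ : GE E) : E →L[ℝ] E) ((g : E →L[ℝ] E) x) = x := by
    intro x
    have h1 : ((g⁻¹ : GE E) : E →L[ℝ] E) * (g : E →L[ℝ] E) = 1 := Units.inv_mul g
    exact DFunLike.congr_fun h1 x
  have hrep : ∀ v : Cop (κ ⊕ κ) E, rep (sgo κ) g (rep (sgo κ) g⁻¹ v) = v := by
    intro v
    have h1 : rep (sgo κ) g * rep (sgo κ) g⁻¹ = 1 := by
      rw [← rep_mul, mul_inv_cancel, rep_one]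
    exact DFunLike.congr_fun h1 v
  rw [rsp_TT]
  constructor
  · rintro ⟨v0, hv0, rfl⟩ k
    have h1 := (hW v0).1 hv0 k
    show rep (sgo κ) g v0 k ∈ _
    unfold rep
    rw [blk_apply]
    cases hk : sgo κ k
    · rw [hk] at h1
      simp only [Bool.false_eq_true, if_false]
      rw [Submodule.mem_orthogonal]
      rintro _ ⟨b, hb, rfl⟩
      show inner ℝ ((g : E →L[ℝ] E) b) _ = 0
      rw [ContinuousLinearMap.adjoint_inner_right, hg, real_inner_comm]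
      exact (Submodule.mem_orthogonal _ _).1 hb _ h1
    · rw [hk] at h1
      simp only [if_true]
      exact ⟨v0 k, h1, rfl⟩
  · intro hv
    refine ⟨rep (sgo κ) g⁻¹ v, (hW _).2 fun k => ?_, hrep v⟩
    have h1 := hv k
    unfold rep
    rw [blk_apply]
    cases hk : sgo κ k
    · rw [hk] at h1
      simp only [Bool.false_eq_true, if_false] at h1 ⊢
      rw [inv_inv, ← Submodule.orthogonal_orthogonal (W false), Submodule.mem_orthogonal]
      intro b hb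
      rw [ContinuousLinearMap.adjoint_inner_right]
      exact (Submodule.mem_orthogonal _ _).1 h1 _ ⟨b, hb, rfl⟩
    · rw [hk] at h1
      simp only [if_true] at h1 ⊢
      obtain ⟨w, hw, hw'⟩ := h1
      rw [← hw']
      show ((g⁻¹ : GE E) : E →L[ℝ] E) ((g : E →L[ℝ] E) w) ∈ W true
      rw [hg]
      exact hw

theorem dlog_outer {T0 : (ι → ℤ) →ₗ[ℤ] Cop (κ ⊕ κ) E} (hT : Emb T0)
    {U : Submodule ℤ (ι → ℤ)} {W : Bool → Submodule ℝ E}
    (hW : ∀ v : Cop (κ ⊕ κ) E, v ∈ rsp T0 U ↔ ∀ k, v k ∈ W (sgo κ k))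
    (hd : Module.finrank ℝ (W true) = Module.finrank ℝ (W false)) (g : GE E) {u : E}
    (hu : ‖u‖ ^ 2 = 2 * (Module.finrank ℝ E : ℝ)) :
    dlog (drep (sgo κ) (Xu u)) (fun i => TT (sgo κ) T0 g (ubas U i)) =
      (Fintype.card κ : ℝ) *
        (‖((W true).map ((g : E →L[ℝ] E) : E →ₗ[ℝ] E)).starProjection u‖ ^ 2 +
          ‖(((W false)ᗮ).map ((g : E →L[ℝ] E) : E →ₗ[ℝ] E)).starProjection u‖ ^ 2 -
          2 * (Module.finrank ℝ E : ℝ)) := by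
  have hg : ∀ x : E, ((g⁻¹ : GE E) : E →L[ℝ] E) ((g : E →L[ℝ] E) x) = x := by
    intro x
    have h1 : ((g⁻¹ : GE E) : E →L[ℝ] E) * (g : E →L[ℝ] E) = 1 := Units.inv_mul g
    exact DFunLike.congr_fun h1 x
  have hinj : Function.Injective ((g : E →L[ℝ] E) : E →ₗ[ℝ] E) := by
    intro x y hxy
    rw [← hg x, ← hg y]
    exact congrArg _ hxy
  have hmap : ∀ V : Submodule ℝ E, Module.finrank ℝ (V.map ((g : E →L[ℝ] E) : E →ₗ[ℝ] E)) =
      Module.finrank ℝ V := fun V =>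
    ((Submodule.equivMapOfInjective _ hinj V).finrank_eq).symm
  set A := (W true).map ((g : E →L[ℝ] E) : E →ₗ[ℝ] E) with hA
  set B := ((W false)ᗮ).map ((g : E →L[ℝ] E) : E →ₗ[ℝ] E) with hB
  have dA : Module.finrank ℝ A = Module.finrank ℝ (W true) := hmap _
  have dB : Module.finrank ℝ B = Module.finrank ℝ ((W false)ᗮ : Submodule ℝ E) := hmap _
  have d1 := Submodule.finrank_add_finrank_orthogonal (W false)
  have d2 := Submodule.finrank_add_finrank_orthogonal B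
  have hdim : Module.finrank ℝ A = Module.finrank ℝ (Bᗮ : Submodule ℝ E) := by omega
  have hsh := shape_g hW g
  rw [dlog_shape (W := fun b : Bool => if b then A else Bᗮ)
    (w := fun b : Bool => Module.finrank ℝ ((fun b : Bool => if b then A else Bᗮ) b))
    (emb_TT hT g) hsh (fun b => stdOrthonormalBasis ℝ _) (Xu u)]
  have h1 : ∀ k : κ ⊕ κ, (if sgo κ k then (1 : ℝ) else -1) *
      ∑ a, inner ℝ (Xu u ((stdOrthonormalBasis ℝ ((fun b : Bool => if b then A else Bᗮ) (sgo κ k)) a :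
        ((fun b : Bool => if b then A else Bᗮ) (sgo κ k) : Submodule ℝ E)) : E))
        ((stdOrthonormalBasis ℝ ((fun b : Bool => if b then A else Bᗮ) (sgo κ k)) a :
        ((fun b : Bool => if b then A else Bᗮ) (sgo κ k) : Submodule ℝ E)) : E) =
      (if sgo κ k then (1 : ℝ) else -1) *
        (‖((fun b : Bool => if b then A else Bᗮ) (sgo κ k)).starProjection u‖ ^ 2 -
          2 * (Module.finrank ℝ ((fun b : Bool => if b then A else Bᗮ) (sgo κ k)) : ℝ)) := by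
    intro k
    rw [sum_onb]
  refine (Finset.sum_congr rfl fun k _ => h1 k).trans ?_
  rw [Fintype.sum_sum_type]
  have h2 : ∀ k : κ, (if sgo κ (Sum.inl k) then (1 : ℝ) else -1) *
        (‖((fun b : Bool => if b then A else Bᗮ) (sgo κ (Sum.inl k))).starProjection u‖ ^ 2 -
          2 * (Module.finrank ℝ ((fun b : Bool => if b then A else Bᗮ) (sgo κ (Sum.inl k))) : ℝ)) =
      ‖A.starProjection u‖ ^ 2 - 2 * (Module.finrank ℝ A : ℝ) := fun k => by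
    show (if true = true then (1 : ℝ) else -1) * (‖A.starProjection u‖ ^ 2 -
      2 * (Module.finrank ℝ A : ℝ)) = _
    rw [if_pos rfl, one_mul]
  have h3 : ∀ k : κ, (if sgo κ (Sum.inr k) then (1 : ℝ) else -1) *
        (‖((fun b : Bool => if b then A else Bᗮ) (sgo κ (Sum.inr k))).starProjection u‖ ^ 2 -
          2 * (Module.finrank ℝ ((fun b : Bool => if b then A else Bᗮ) (sgo κ (Sum.inr k))) : ℝ)) =
      -(‖(Bᗮ).starProjection u‖ ^ 2 - 2 * (Module.finrank ℝ (Bᗮ : Submodule ℝ E) : ℝ)) := fun k => by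
    show (if false = true then (1 : ℝ) else -1) * (‖(Bᗮ).starProjection u‖ ^ 2 -
      2 * (Module.finrank ℝ (Bᗮ : Submodule ℝ E) : ℝ)) = _
    rw [if_neg (by decide)]
    ring
  rw [Finset.sum_congr rfl fun k _ => h2 k, Finset.sum_congr rfl fun k _ => h3 k, Finset.sum_const,
    Finset.sum_const, Finset.card_univ, nsmul_eq_mul, nsmul_eq_mul]
  have h4 := Submodule.norm_sq_eq_add_norm_sq_starProjection u B
  rw [hu] at h4
  rw [← hdim, h4]
  ring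

end LatN
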