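import Pool.Agent.Lib.LatN.OuDual
import Pool.Agent.Lib.LatN.OuXa

/-!
# OuX: push-out directions in the outer case

Proof of `xex_outer`. `n = finrank ℝ E ≥ 3`, `T_g = TT (sgo κ) T0 g`, `𝒰 = RU T0 R`, `c1` from
`theta_perp_ge`, `C0 = 4 c1 + 1`, `C1 = C0/2 + |log (cov T0 ⊤)| + 1`, `c = 2n + 2`, `δ = 1/4`.
Let `detu g = 1`, `Th g ≥ C1`, `‖z‖ = 1`.
(1) `𝒩 = {U ∈ 𝒰 | Th g - C0/2 ≤ theta C0 T_g U}` is a chain (`near_chain`), finite (`near_finite`),
and does not contain `⊥` (`theta ⊥ = 0`, `cov_bot`) nor `⊤` (`theta ⊤ = - log (cov T0 ⊤)`,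
`cov_top_TT`). `𝒩' = {U ∈ 𝒰 | Th g - C0/4 ≤ theta C0 T_g U} ⊆ 𝒩` is nonempty (`Theta_attained`); if
`U ∈ 𝒩'` then `perp T0 U ∈ 𝒩` (`theta_perp_ge`, `perp_mem`, `c1 ≤ C0/4`).
(2) For `U ∈ 𝒰` let `W_U : Bool → Submodule ℝ E` be its shape (`RU_shape`) and `A_U = W_U true`,
`B_U = (W_U false)ᗮ`, so `B_U = A_{perp U}` (`perp_shape`; a shape of `perp U` is
`b ↦ (W_U (!b))ᗮ`, `κ` nonempty) and `dim A_U + dim B_U = n` (`dim_eq`). If `U ≤ V` then `A_U ≤ A_V` and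
`B_V ≤ B_U` (`rsp_mono`, `κ` nonempty: put a vector on the copy `inl k`). For `U ≠ ⊥`, `U ≠ ⊤`: `A_U ≠ 0`
(else also `W_U false = 0` by `dim_eq`, so `rsp T0 U = 0` and `U = ⊥` by `mem_of_rsp`/`emb_inj`) and
`A_U ≠ E` (else `W_U false = E` too, `rsp T0 U = ⊤`, `U = ⊤` by `mem_of_rsp`), hence also `B_U ≠ 0`.
(3) For `U ∈ 𝒩'`: `U ≤ perp U` or `perp U ≤ U`, so `A_U ≤ B_U` or `B_U ≤ A_U`; let `S_U` be the smaller
and `L_U` the larger one of `A_U`, `B_U`: `dim S_U ≥ 1`, `dim L_U ≥ n/2`, so `dim L_U ≥ 2` (`n ≥ 3`).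
All `S_U`, `L_U` are of the form `A_V`, `V ∈ 𝒩` (`V = U` or `perp U`), so they form a finite chain of
subspaces. Let `S` be the smallest of the `S_U` and `L` the smallest of the `L_U`, `U ∈ 𝒩'`
(`Set.Finite` + chain, e.g. minimise the dimension); `S ≤ L` (if `L = L_U` then `S ≤ S_U ≤ L_U`).
(4) Choose a unit vector `a ∈ g S`, and `u ∈ g L` by `exists_u`. `X = Xu u`: `IsSelfAdjoint`,
trace `0`, `‖X‖ ≤ 2n + 2`, `⟪X z, z⟫ = ⟪u, z⟫² - 2 ≤ -1`.
(5) For `U ∈ 𝒩'`: `u ∈ g L_U`, `a ∈ g S_U`, so `‖P_{g L_U} u‖² = ‖u‖² = 2n`,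
`‖P_{g S_U} u‖² ≥ ⟪u, a⟫² ≥ 1/4`, and by `dlog_outer` the logarithmic derivative is
`card κ * (2n + ‖P_{g S_U} u‖² - 2n) ≥ 1/4`.
-/

open scoped Topology

namespace LatN

variable {E : Type*} [NormedAddCommGroup E] [InnerProductSpace ℝ E] [FiniteDimensional ℝ E]
variable {κ : Type*} [Fintype κ] [DecidableEq κ] {ι : Type*} [Fintype ι] [DecidableEq ι]

omit [FiniteDimensional ℝ E] [DecidableEq κ] in
private theorem shape_le [Nonempty κ] [DecidableEq κ] {W W' : Bool → Submodule ℝ E}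
    (hWW : ∀ v : Cop (κ ⊕ κ) E, (∀ k, v k ∈ W (sgo κ k)) → ∀ k, v k ∈ W' (sgo κ k)) (b : Bool) :
    W b ≤ W' b := by
  obtain ⟨k0⟩ := (inferInstance : Nonempty κ)
  obtain ⟨k1, hk1⟩ : ∃ k1 : κ ⊕ κ, sgo κ k1 = b := by
    cases b
    · exact ⟨Sum.inr k0, rfl⟩
    · exact ⟨Sum.inl k0, rfl⟩
  intro w hw
  have h1 := hWW (WithLp.toLp 2 fun k => if k = k1 then w else 0) (fun k => by
    by_cases hk : k = k1
    · subst hk
      simp only [if_true]
      rw [hk1]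
      exact hw
    · simp only [hk, if_false]
      exact Submodule.zero_mem _) k1
  simp only [if_true] at h1
  rw [hk1] at h1
  exact h1

private theorem exists_min_nat {α : Type*} {s : Set α} (hs : s.Nonempty) (f : α → ℕ) :
    ∃ a ∈ s, ∀ b ∈ s, f a ≤ f b := by
  obtain ⟨a, ha, hfa⟩ := Nat.sInf_mem (hs.image f)
  refine ⟨a, ha, fun b hb => ?_⟩
  rw [hfa]
  exact Nat.sInf_le ⟨b, hb, rfl⟩

private theorem le_of_comp_finrank {A B : Submodule ℝ E} (h : A ≤ B ∨ B ≤ A)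
    (hf : Module.finrank ℝ A ≤ Module.finrank ℝ B) : A ≤ B := by
  rcases h with h | h
  · exact h
  · have h1 := Submodule.finrank_mono h
    exact (Submodule.eq_of_le_of_finrank_eq h (le_antisymm h1 hf)).ge

private theorem proj_ge (A : Submodule ℝ E) (u : E) {a : E} (ha : a ∈ A) (ha1 : ‖a‖ = 1) :
    (inner ℝ u a : ℝ) ^ 2 ≤ ‖A.starProjection u‖ ^ 2 := by
  have h1 : (inner ℝ u a : ℝ) = inner ℝ (A.starProjection u) a := by
    have h2 : (inner ℝ (u - A.starProjection u) a : ℝ) = 0 :=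
      Submodule.starProjection_inner_eq_zero u a ha
    rw [inner_sub_left] at h2
    linarith
  have h3 : |(inner ℝ u a : ℝ)| ≤ ‖A.starProjection u‖ := by
    rw [h1]
    have h4 := abs_real_inner_le_norm (A.starProjection u) a
    rwa [ha1, mul_one] at h4
  rw [← sq_abs]
  exact pow_le_pow_left₀ (abs_nonneg _) h3 2

theorem xex_outer [Nonempty κ] {T0 : (ι → ℤ) →ₗ[ℤ] Cop (κ ⊕ κ) E}
    {R : Subring (Matrix (κ ⊕ κ) (κ ⊕ κ) ℝ)} (h : OuD T0 R)
    (hn : 3 ≤ Module.finrank ℝ E) :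
    ∃ C0 > (0 : ℝ), XEX C0 (RU T0 R) (sgo κ) T0 := by
  classical
  obtain ⟨c1, hc1, hperp⟩ := theta_perp_ge h
  choose! W hW using fun U (hU : U ∈ RU T0 R) => RU_shape h.ar hU
  have hperpW : ∀ U ∈ RU T0 R, W (perp T0 U) true = (W U false)ᗮ := by
    intro U hU
    have h1 := perp_shape h hU.1 (hW U hU)
    have h2 := hW (perp T0 U) (perp_mem h hU)
    refine le_antisymm ?_ ?_
    · exact shape_le (W := W (perp T0 U)) (W' := fun b => (W U (!b))ᗮ)
        (fun v hv => (h1 v).1 ((h2 v).2 hv)) true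
    · exact shape_le (W := fun b => (W U (!b))ᗮ) (W' := W (perp T0 U))
        (fun v hv => (h2 v).1 ((h1 v).2 hv)) true
  have hmono : ∀ U ∈ RU T0 R, ∀ V ∈ RU T0 R, U ≤ V → W U true ≤ W V true := by
    intro U hU V hV hUV
    exact shape_le (fun v hv => (hW V hV v).1 (rsp_mono T0 hUV ((hW U hU v).2 hv))) true
  have hdim : ∀ U ∈ RU T0 R, Module.finrank ℝ (W U true) = Module.finrank ℝ (W U false) :=
    fun U hU => dim_eq h hU (hW U hU)
  have hdim2 : ∀ U ∈ RU T0 R, Module.finrank ℝ (W U true) +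
      Module.finrank ℝ ((W U false)ᗮ : Submodule ℝ E) = Module.finrank ℝ E := by
    intro U hU
    rw [hdim U hU]
    exact Submodule.finrank_add_finrank_orthogonal _
  have hbot : ∀ U ∈ RU T0 R, W U true = ⊥ → U = ⊥ := by
    intro U hU hb
    have hf : W U false = ⊥ := by
      have h1 := hdim U hU
      rw [hb, finrank_bot] at h1
      exact Submodule.finrank_eq_zero.1 h1.symm
    rw [eq_bot_iff]
    intro x hx
    have h2 : T0 x ∈ rsp T0 U := Submodule.subset_span ⟨x, hx, rfl⟩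
    have h3 := (hW U hU _).1 h2
    have h4 : T0 x = 0 := by
      ext1 k
      have h5 := h3 k
      rcases k with k | k
      · change T0 x (Sum.inl k) ∈ W U true at h5
        rw [hb] at h5
        simpa using h5
      · change T0 x (Sum.inr k) ∈ W U false at h5
        rw [hf] at h5
        simpa using h5
    exact (emb_inj h.ar.emb) (by rw [h4, map_zero])
  have htop : ∀ U ∈ RU T0 R, W U true = ⊤ → U = ⊤ := by
    intro U hU hb
    have hf : W U false = ⊤ := by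
      have h1 := hdim U hU
      rw [hb, finrank_top] at h1
      exact Submodule.eq_top_of_finrank_eq h1.symm
    rw [eq_top_iff]
    intro x _
    refine mem_of_rsp h.ar.emb hU.1 ((hW U hU _).2 fun k => ?_)
    rcases k with k | k
    · change T0 x (Sum.inl k) ∈ W U true
      rw [hb]
      trivial
    · change T0 x (Sum.inr k) ∈ W U false
      rw [hf]
      trivial
  obtain ⟨C0, hC0def⟩ : ∃ C0 : ℝ, C0 = 4 * c1 + 1 := ⟨_, rfl⟩
  have hC0 : 0 < C0 := by rw [hC0def]; positivity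
  set n : ℕ := Module.finrank ℝ E with hndef
  refine ⟨C0, hC0, C0 / 2 + |Real.log (cov T0 ⊤)| + 1, 2 * n + 2, 1 / 4, by norm_num, ?_⟩
  intro g hg hTh z hz
  have hE : Emb (TT (sgo κ) T0 g) := emb_TT h.ar.emb g
  have hadm : Adm (RU T0 R) := adm_RU h.ar
  set Tg := TT (sgo κ) T0 g with hTg
  have hThdef : Th C0 (RU T0 R) (sgo κ) T0 g = Theta C0 (RU T0 R) Tg := rfl
  rw [hThdef] at hTh ⊢
  -- neither bottom nor top
  have hnot : ∀ U ∈ RU T0 R, Theta C0 (RU T0 R) Tg - C0 / 2 ≤ theta C0 Tg U →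
      U ≠ ⊥ ∧ U ≠ ⊤ := by
    intro U hU hth
    have habs := neg_abs_le (Real.log (cov T0 ⊤))
    have habs0 := abs_nonneg (Real.log (cov T0 ⊤))
    constructor
    · rintro rfl
      have h1 : theta C0 Tg ⊥ = 0 := by
        rw [theta, cov_bot]
        simp
      rw [h1] at hth
      linarith
    · rintro rfl
      have h1 : theta C0 Tg ⊤ = - Real.log (cov T0 ⊤) := by
        rw [theta, cov_top_TT h.ar hg]
        have h2 : Module.finrank ℤ (⊤ : Submodule ℤ (ι → ℤ)) = Fintype.card ι := by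
          rw [finrank_top, Module.finrank_fintype_fun_eq_card]
        rw [h2]
        ring
      rw [h1] at hth
      linarith
  set 𝒩 : Set (Submodule ℤ (ι → ℤ)) :=
    {U | U ∈ RU T0 R ∧ Theta C0 (RU T0 R) Tg - C0 / 4 ≤ theta C0 Tg U} with h𝒩
  have hne : 𝒩.Nonempty := by
    obtain ⟨U, hU, hU'⟩ := Theta_attained hE hC0.le hadm
    exact ⟨U, hU, by rw [hU']; linarith⟩
  have hchain : ∀ U ∈ RU T0 R, ∀ V ∈ RU T0 R, Theta C0 (RU T0 R) Tg - C0 / 2 ≤ theta C0 Tg U →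
      Theta C0 (RU T0 R) Tg - C0 / 2 ≤ theta C0 Tg V →
      W U true ≤ W V true ∨ W V true ≤ W U true := by
    intro U hU V hV h1 h2
    rcases near_chain hE hC0 hadm hU hV h1 h2 with h3 | h3
    · exact Or.inl (hmono U hU V hV h3)
    · exact Or.inr (hmono V hV U hU h3)
  have hmem : ∀ U ∈ 𝒩, ∃ V ∈ RU T0 R, Theta C0 (RU T0 R) Tg - C0 / 2 ≤ theta C0 Tg V ∧
      W V true = (W U false)ᗮ := by
    intro U hU
    refine ⟨perp T0 U, perp_mem h hU.1, ?_, hperpW U hU.1⟩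
    have h1 := hperp C0 g hg U hU.1.1
    have h2 := hU.2
    rw [← hTg] at h1
    linarith
  have hweak : ∀ U ∈ 𝒩, Theta C0 (RU T0 R) Tg - C0 / 2 ≤ theta C0 Tg U := by
    intro U hU
    have h2 := hU.2
    linarith
  -- small and large spaces
  set Sm : Submodule ℤ (ι → ℤ) → Submodule ℝ E := fun U =>
    if W U true ≤ (W U false)ᗮ then W U true else (W U false)ᗮ with hSm
  set Lg : Submodule ℤ (ι → ℤ) → Submodule ℝ E := fun U =>
    if W U true ≤ (W U false)ᗮ then (W U false)ᗮ else W U true with hLg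
  have hcases : ∀ U ∈ 𝒩, (Sm U = W U true ∧ Lg U = (W U false)ᗮ ∧ W U true ≤ (W U false)ᗮ) ∨
      (Sm U = (W U false)ᗮ ∧ Lg U = W U true ∧ (W U false)ᗮ ≤ W U true) := by
    intro U hU
    by_cases hc : W U true ≤ (W U false)ᗮ
    · left
      exact ⟨by simp only [hSm, if_pos hc], by simp only [hLg, if_pos hc], hc⟩
    · right
      obtain ⟨V, hV, hV1, hV2⟩ := hmem U hU
      refine ⟨by simp only [hSm, if_neg hc], by simp only [hLg, if_neg hc], ?_⟩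
      rcases hchain U hU.1 V hV (hweak U hU) hV1 with h3 | h3
      · rw [hV2] at h3
        exact absurd h3 hc
      · rw [hV2] at h3
        exact h3
  have hSrep : ∀ U ∈ 𝒩, ∃ V ∈ RU T0 R, Theta C0 (RU T0 R) Tg - C0 / 2 ≤ theta C0 Tg V ∧
      W V true = Sm U := by
    intro U hU
    rcases hcases U hU with ⟨h1, -, -⟩ | ⟨h1, -, -⟩
    · exact ⟨U, hU.1, hweak U hU, h1.symm⟩
    · rw [h1]
      exact hmem U hU
  have hLrep : ∀ U ∈ 𝒩, ∃ V ∈ RU T0 R, Theta C0 (RU T0 R) Tg - C0 / 2 ≤ theta C0 Tg V ∧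
      W V true = Lg U := by
    intro U hU
    rcases hcases U hU with ⟨-, h1, -⟩ | ⟨-, h1, -⟩
    · rw [h1]
      exact hmem U hU
    · exact ⟨U, hU.1, hweak U hU, h1.symm⟩
  have hSL : ∀ U ∈ 𝒩, Sm U ≤ Lg U := by
    intro U hU
    rcases hcases U hU with ⟨h1, h2, h3⟩ | ⟨h1, h2, h3⟩
    · rw [h1, h2]; exact h3
    · rw [h1, h2]; exact h3
  have hLdim : ∀ U ∈ 𝒩, 2 ≤ Module.finrank ℝ (Lg U) := by
    intro U hU
    have h0 := hdim2 U hU.1
    rcases hcases U hU with ⟨-, h2, h3⟩ | ⟨-, h2, h3⟩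
    · rw [h2]
      have h4 := Submodule.finrank_mono h3
      omega
    · rw [h2]
      have h4 := Submodule.finrank_mono h3
      omega
  have hSne : ∀ U ∈ 𝒩, Sm U ≠ ⊥ := by
    intro U hU
    obtain ⟨V, hV, hV1, hV2⟩ := hSrep U hU
    rw [← hV2]
    intro h3
    exact (hnot V hV hV1).1 (hbot V hV h3)
  obtain ⟨U1, hU1, hmin1⟩ := exists_min_nat hne fun U => Module.finrank ℝ (Sm U)
  obtain ⟨U2, hU2, hmin2⟩ := exists_min_nat hne fun U => Module.finrank ℝ (Lg U)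
  have hS1 : ∀ V ∈ 𝒩, Sm U1 ≤ Sm V := by
    intro V hV
    obtain ⟨V1, h1, h2, h3⟩ := hSrep U1 hU1
    obtain ⟨V2, h4, h5, h6⟩ := hSrep V hV
    refine le_of_comp_finrank ?_ (hmin1 V hV)
    rw [← h3, ← h6]
    exact hchain V1 h1 V2 h4 h2 h5
  have hL2 : ∀ V ∈ 𝒩, Lg U2 ≤ Lg V := by
    intro V hV
    obtain ⟨V1, h1, h2, h3⟩ := hLrep U2 hU2
    obtain ⟨V2, h4, h5, h6⟩ := hLrep V hV
    refine le_of_comp_finrank ?_ (hmin2 V hV)
    rw [← h3, ← h6]
    exact hchain V1 h1 V2 h4 h2 h5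
  -- the unit vector in `g S`
  have hginj : Function.Injective ((g : E →L[ℝ] E) : E →ₗ[ℝ] E) := by
    intro x y hxy
    have e : ∀ w : E, ((g⁻¹ : GE E) : E →L[ℝ] E) ((g : E →L[ℝ] E) w) = w := fun w =>
      congrArg (fun A : E →L[ℝ] E => A w) (Units.inv_mul g)
    have hxy' : (g : E →L[ℝ] E) x = (g : E →L[ℝ] E) y := hxy
    rw [← e x, ← e y, hxy']
  obtain ⟨s0, hs0, hs0'⟩ := Submodule.exists_mem_ne_zero_of_ne_bot (hSne U1 hU1)
  have hgs0 : (g : E →L[ℝ] E) s0 ≠ 0 := by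
    intro h0
    exact hs0' (hginj (by rw [map_zero]; exact h0))
  obtain ⟨a, hadef⟩ : ∃ a : E, a = ‖(g : E →L[ℝ] E) s0‖⁻¹ • (g : E →L[ℝ] E) s0 := ⟨_, rfl⟩
  have ha1 : ‖a‖ = 1 := by
    rw [hadef, norm_smul, norm_inv, norm_norm]
    exact inv_mul_cancel₀ (norm_ne_zero_iff.2 hgs0)
  have haS : a ∈ (Sm U1).map ((g : E →L[ℝ] E) : E →ₗ[ℝ] E) := by
    rw [hadef]
    exact Submodule.smul_mem _ _ ⟨s0, hs0, rfl⟩
  have haL : a ∈ (Lg U2).map ((g : E →L[ℝ] E) : E →ₗ[ℝ] E) :=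
    Submodule.map_mono ((hS1 U2 hU2).trans (hSL U2 hU2)) haS
  have hgL : 2 ≤ Module.finrank ℝ ((Lg U2).map ((g : E →L[ℝ] E) : E →ₗ[ℝ] E)) := by
    rw [← (Submodule.equivMapOfInjective _ hginj (Lg U2)).finrank_eq]
    exact hLdim U2 hU2
  obtain ⟨u, huL, hu1, hu2, hu3⟩ := exists_u _ hgL haL ha1 hz
  refine ⟨Xu u, Xu_selfAdj u, ?_, ?_, ?_, ?_⟩
  · rw [Xu_trace, hu1]
    ring
  · refine (Xu_norm u).trans ?_
    rw [hu1]
  · rw [Xu_apply, inner_sub_left, real_inner_smul_left, real_inner_smul_left,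
      real_inner_self_eq_norm_sq, hz]
    nlinarith
  · intro U hU hth
    have hUN : U ∈ 𝒩 := ⟨hU, hth⟩
    have hval := dlog_outer h.ar.emb (hW U hU) (hdim U hU) g hu1
    rw [hval]
    have hcard : (1 : ℝ) ≤ Fintype.card κ := by
      exact_mod_cast Fintype.card_pos
    have huU : u ∈ (Lg U).map ((g : E →L[ℝ] E) : E →ₗ[ℝ] E) :=
      Submodule.map_mono (hL2 U hUN) huL
    have haU : a ∈ (Sm U).map ((g : E →L[ℝ] E) : E →ₗ[ℝ] E) :=
      Submodule.map_mono (hS1 U hUN) haS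
    have hp1 : ‖((Lg U).map ((g : E →L[ℝ] E) : E →ₗ[ℝ] E)).starProjection u‖ ^ 2 =
        2 * (n : ℝ) := by
      rw [Submodule.starProjection_eq_self_iff.2 huU, hu1]
    have hp2 := proj_ge ((Sm U).map ((g : E →L[ℝ] E) : E →ₗ[ℝ] E)) u haU ha1
    have hkey : 1 / 4 ≤ ‖((W U true).map ((g : E →L[ℝ] E) : E →ₗ[ℝ] E)).starProjection u‖ ^ 2 +
        ‖(((W U false)ᗮ).map ((g : E →L[ℝ] E) : E →ₗ[ℝ] E)).starProjection u‖ ^ 2 -
          2 * (Module.finrank ℝ E : ℝ) := by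
      rcases hcases U hUN with ⟨h1, h2, -⟩ | ⟨h1, h2, -⟩
      · rw [h1] at hp2
        rw [h2] at hp1
        rw [hp1]
        linarith
      · rw [h1] at hp2
        rw [h2] at hp1
        rw [hp1]
        linarith
    nlinarith

end LatN
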