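import Pool.Agent.Lib.LatN.ThickG
import Pool.Agent.Lib.LatN.OuX
import Pool.Agent.Lib.LatN.OuDet

/-!
# OuR: the outer case, conclusion

Proof of `hrep_outer`. Let `s_k(w)` be the vector with entry `w` at the copy `k` and zero elsewhere.
`mix (single k k 1)` fixes `s_k(w)`, so `H s_k(w) = s_k(A_k w)`; for `j, k` of the same sign
`mix (single j k 1) s_j(w) = s_k(w)` gives `A_j = A_k`. So there are continuous linear `A`, `B` with
`H s_{inl k}(w) = s_{inl k}(A w)`, `H s_{inr k}(w) = s_{inr k}(B w)`, and in the same way for `H⁻¹`, so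
`A` and `B` are invertible. `β(H s_{inr k}(a), H s_{inl k}(b)) = ⟪B a, A b⟫ = ⟪a, b⟫`, so
`adjoint A ∘ B = 1`, `B = adjoint (A⁻¹)`, and `H = rep (sgo κ) A`.
-/

open scoped Topology

namespace LatN

variable {E : Type*} [NormedAddCommGroup E] [InnerProductSpace ℝ E] [FiniteDimensional ℝ E]
variable {κ : Type*} [Fintype κ] [DecidableEq κ] {ι : Type*} [Fintype ι] [DecidableEq ι]

/-- the vector with one nonzero entry -/
private noncomputable def sgl {μ : Type*} [Fintype μ] [DecidableEq μ] (k : μ) (w : E) :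
    Cop μ E :=
  WithLp.toLp 2 fun j => if j = k then w else 0

omit [FiniteDimensional ℝ E] in
private theorem sgl_apply {μ : Type*} [Fintype μ] [DecidableEq μ] (k : μ) (w : E) (j : μ) :
    (sgl k w : Cop μ E) j = if j = k then w else 0 := rfl

omit [FiniteDimensional ℝ E] in
private theorem sgl_self {μ : Type*} [Fintype μ] [DecidableEq μ] (k : μ) (w : E) :
    (sgl k w : Cop μ E) k = w := by
  rw [sgl_apply, if_pos rfl]

omit [FiniteDimensional ℝ E] in
private theorem sgl_inj {μ : Type*} [Fintype μ] [DecidableEq μ] {k : μ} {w w' : E}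
    (h : (sgl k w : Cop μ E) = sgl k w') : w = w' := by
  rw [← sgl_self (μ := μ) k w, h, sgl_self]

omit [FiniteDimensional ℝ E] in
private theorem mix_single {μ : Type*} [Fintype μ] [DecidableEq μ] (j k : μ) (v : Cop μ E) :
    mix (Matrix.single j k (1 : ℝ)) v = sgl k (v j) := by
  refine PiLp.ext fun l => ?_
  show ∑ i, (Matrix.single j k (1 : ℝ)) i l • v i = if l = k then v j else 0
  rw [Finset.sum_eq_single j]
  · rw [Matrix.single_apply]
    by_cases h : l = k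
    · simp [h]
    · have h' : ¬ (k = l) := fun h1 => h h1.symm
      simp [h, h']
  · intro i _ hi
    rw [Matrix.single_apply, if_neg (fun h => hi h.1.symm), zero_smul]
  · intro h
    exact absurd (Finset.mem_univ j) h

theorem hrep_outer [Nonempty κ] (H : GE (Cop (κ ⊕ κ) E))
    (hH : ∀ c : Matrix (κ ⊕ κ) (κ ⊕ κ) ℝ, (∀ j k, sgo κ j ≠ sgo κ k → c j k = 0) →
      ∀ v : Cop (κ ⊕ κ) E, mix c ((H : Cop (κ ⊕ κ) E →L[ℝ] Cop (κ ⊕ κ) E) v) =
        (H : Cop (κ ⊕ κ) E →L[ℝ] Cop (κ ⊕ κ) E) (mix c v))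
    (hβ : ∀ v w : Cop (κ ⊕ κ) E, pairo κ ((H : Cop (κ ⊕ κ) E →L[ℝ] Cop (κ ⊕ κ) E) v)
        ((H : Cop (κ ⊕ κ) E →L[ℝ] Cop (κ ⊕ κ) E) w) = pairo κ v w) :
    ∃ A : GE E, (H : Cop (κ ⊕ κ) E →L[ℝ] Cop (κ ⊕ κ) E) = rep (sgo κ) A := by
  obtain ⟨k0⟩ := (inferInstance : Nonempty κ)
  -- commutation with the elementary matrices
  have hcomm : ∀ j k : κ ⊕ κ, sgo κ j = sgo κ k → ∀ v : Cop (κ ⊕ κ) E,
      (H : Cop (κ ⊕ κ) E →L[ℝ] Cop (κ ⊕ κ) E) (sgl k (v j)) =
        sgl k ((H : Cop (κ ⊕ κ) E →L[ℝ] Cop (κ ⊕ κ) E) v j) := by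
    intro j k hjk v
    have h1 := hH (Matrix.single j k (1 : ℝ)) (fun j' k' hne => by
      rw [Matrix.single_apply]
      refine if_neg ?_
      rintro ⟨rfl, rfl⟩
      exact hne hjk) v
    rw [mix_single, mix_single] at h1
    exact h1.symm
  -- the two operators
  have hlin : ∀ j : κ ⊕ κ, ∃ A : E →L[ℝ] E, ∀ w : E, A w =
      (H : Cop (κ ⊕ κ) E →L[ℝ] Cop (κ ⊕ κ) E) (sgl j w) j := by
    intro j
    have hadd : ∀ w w' : E, (sgl j (w + w') : Cop (κ ⊕ κ) E) = sgl j w + sgl j w' := by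
      intro w w'
      refine PiLp.ext fun l => ?_
      rw [PiLp.add_apply, sgl_apply, sgl_apply, sgl_apply]
      split_ifs <;> simp
    have hsmul : ∀ (a : ℝ) (w : E), (sgl j (a • w) : Cop (κ ⊕ κ) E) = a • sgl j w := by
      intro a w
      refine PiLp.ext fun l => ?_
      rw [PiLp.smul_apply, sgl_apply, sgl_apply]
      split_ifs <;> simp
    refine ⟨LinearMap.toContinuousLinearMap
      { toFun := fun w => (H : Cop (κ ⊕ κ) E →L[ℝ] Cop (κ ⊕ κ) E) (sgl j w) j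
        map_add' := fun w w' => by rw [hadd, map_add, PiLp.add_apply]
        map_smul' := fun a w => by rw [hsmul, map_smul, PiLp.smul_apply, RingHom.id_apply] },
      fun w => rfl⟩
  obtain ⟨A, hA⟩ := hlin (Sum.inl k0)
  obtain ⟨B, hB⟩ := hlin (Sum.inr k0)
  have hl : ∀ (v : Cop (κ ⊕ κ) E) (k : κ),
      (H : Cop (κ ⊕ κ) E →L[ℝ] Cop (κ ⊕ κ) E) v (Sum.inl k) = A (v (Sum.inl k)) := by
    intro v k
    have h1 := hcomm (Sum.inl k) (Sum.inl k0) rfl v
    rw [hA, h1, sgl_self]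
  have hr : ∀ (v : Cop (κ ⊕ κ) E) (k : κ),
      (H : Cop (κ ⊕ κ) E →L[ℝ] Cop (κ ⊕ κ) E) v (Sum.inr k) = B (v (Sum.inr k)) := by
    intro v k
    have h1 := hcomm (Sum.inr k) (Sum.inr k0) rfl v
    rw [hB, h1, sgl_self]
  -- the pairing
  have hBA : ∀ a b : E, inner ℝ (B a) (A b) = (inner ℝ a b : ℝ) := by
    intro a b
    have h1 := hβ (sgl (Sum.inr k0) a) (sgl (Sum.inl k0) b)
    have h2 : ∀ v w : Cop (κ ⊕ κ) E, pairo κ v w = ∑ k : κ, (inner ℝ (v (Sum.inr k))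
        (w (Sum.inl k)) + inner ℝ (v (Sum.inl k)) (w (Sum.inr k))) := fun v w => rfl
    rw [h2, h2] at h1
    rw [Finset.sum_eq_single k0, Finset.sum_eq_single k0] at h1
    · rw [hr, hl, hl, hr, sgl_self, sgl_self, sgl_apply, if_neg (by simp), map_zero,
        inner_zero_left, inner_zero_left, add_zero, add_zero] at h1
      exact h1
    · intro k _ hk
      rw [sgl_apply, if_neg (by simpa using hk), sgl_apply (Sum.inr k0) a (Sum.inl k),
        if_neg (by simp)]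
      simp
    · intro h
      exact absurd (Finset.mem_univ k0) h
    · intro k _ hk
      rw [hr, hl, hl, hr, sgl_apply, if_neg (by simpa using hk),
        sgl_apply (Sum.inr k0) a (Sum.inl k), if_neg (by simp)]
      simp
    · intro h
      exact absurd (Finset.mem_univ k0) h
  -- invertibility
  have hinj : Function.Injective (A : E →ₗ[ℝ] E) := by
    rw [← LinearMap.ker_eq_bot, LinearMap.ker_eq_bot']
    intro b hb
    have h1 := hBA b b
    have h2 : A b = 0 := hb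
    rw [h2, inner_zero_right] at h1
    exact inner_self_eq_zero.1 h1.symm
  let e : E ≃L[ℝ] E := (LinearEquiv.ofInjectiveEndo (A : E →ₗ[ℝ] E) hinj).toContinuousLinearEquiv
  have he : ∀ x, e x = A x := fun x => rfl
  let g : GE E := ContinuousLinearEquiv.toUnit e
  have hg : ∀ x, (g : E →L[ℝ] E) x = A x := fun x => rfl
  have hg' : ∀ x, A (((g⁻¹ : GE E) : E →L[ℝ] E) x) = x := fun x => by
    rw [← hg]
    have h1 : ((g : E →L[ℝ] E) * ((g⁻¹ : GE E) : E →L[ℝ] E)) x = x := by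
      rw [Units.mul_inv]
      rfl
    exact h1
  refine ⟨g, ContinuousLinearMap.ext fun v => PiLp.ext fun j => ?_⟩
  show _ = (rep (sgo κ) g v) j
  rw [rep, blk_apply]
  rcases j with k | k
  · rw [hl]
    rfl
  · rw [hr]
    show B (v (Sum.inr k)) = ContinuousLinearMap.adjoint ((g⁻¹ : GE E) : E →L[ℝ] E)
      (v (Sum.inr k))
    refine ext_inner_right ℝ fun c => ?_
    rw [ContinuousLinearMap.adjoint_inner_left,
      ← hBA (v (Sum.inr k)) (((g⁻¹ : GE E) : E →L[ℝ] E) c), hg']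

theorem noHorn_outer [Nonempty κ] {T0 : (ι → ℤ) →ₗ[ℤ] Cop (κ ⊕ κ) E}
    {R : Subring (Matrix (κ ⊕ κ) (κ ⊕ κ) ℝ)} (h : OuD T0 R)
    (hn : 3 ≤ Module.finrank ℝ E) {Γ : Subgroup (GE E)} (hΓ : Γ ≤ Gam0 (sgo κ) T0)
    (hfi : Γ.relIndex (Gam0 (sgo κ) T0) ≠ 0) : NoHorn Γ := by
  obtain ⟨C0, hC, hX⟩ := xex_outer h hn
  exact noHorn_ar h.ar (by omega) hC hX hΓ
    (thick_of_types h.ar (pairo κ) pairo_rep h.int (fun H h1 h2 => hrep_outer H h1 h2)
      (det_outer h) hC.le hΓ hfi)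

end LatN
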