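import Pool.Agent.Lib.LatN.OrdDefs
import Pool.Agent.Lib.LatN.OuR

/-!
# OrdO: orders of outer type

`crT b x`: with `(a, c) = ∑ x_p b_p` the copy `inl k` is column `k` of `a` and the copy `inr k` is row
`k` of `c`.

Proof of `noHorn_outO`. Take the basis `b` of `O`, `κ = ν`, `T0 = crT b`, `E = En ν`,
`R = {fromBlocks c 0 0 dᵀ | (c, d) ∈ O}` (a subring: `(c, d)(c', d') = (c c', d' d)` and
`dᵀ d'ᵀ = (d' d)ᵀ`). Right multiplication of `(a, e) ∈ O` with `(c, d)` is `(a c, d e)`, and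
`col_k (a c) = ∑_j c_jk col_j a`, `row_k (d e) = ∑_j d_kj row_j e`, so it is `mix` of this block matrix.
`rep (sgo κ) γ` for `γ` with matrix `A` is left multiplication with `(A, A⁻¹)`:
`(A a, e A⁻¹)`: columns `A col_k a`, rows `(A⁻¹)ᵀ row_k e` (`rep` acts on the negative copies by
the adjoint of `γ⁻¹`; the adjoint of `Matrix.toEuclideanCLM B` is `Matrix.toEuclideanCLM Bᴴ`,
`map_star`).
* `ArD`: `emb` (independence of `b`); `card_eq`: `2 n² = (n + n) n`; `block` clear; `stab` as above;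
  `span`: the block diagonal matrices are the real span of `R`, since `O` spans `M_n × M_nᵒᵖ`.
* `int`: for `z = (c, d) ∈ O` the left multiplication by `z` on `M_n × M_nᵒᵖ`, which preserves `O`,
  has an integer matrix in the basis `b`, so its trace `n (tr c + tr d)` is an integer. For
  `x = (a, e)`, `y = (a', e')` in `O`: `N (e, a) ∈ O` (`swap`), `N (e, a) (a', e') = N (e a', e' a)`,
  so `n N (tr (e a') + tr (e' a)) = n N pairo (T0 x) (T0 y)` is an integer. (`M = n N`, `n ≥ 1`.)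
* `sqrt`: `(√D, -√D) ∈ O` gives `fromBlocks √D 0 0 (-√D) = sdiag ν √D`.
* `(unitO O).map (toGE ν) = Gam0 (sgo _) T0` : `(A, A⁻¹) O ⊆ O` iff `(A, A⁻¹) ∈ O`.
Then as in `OrdI` with `noHorn_outer`.
-/

open scoped Topology
open MulOpposite

namespace LatN

/-- embedding of the lattice by columns and rows -/
noncomputable def crT {ν : Type*} [Fintype ν] [DecidableEq ν]
    (b : Module.Basis ((ν × ν) ⊕ (ν × ν)) ℝ (DM ν)) :
    (((ν × ν) ⊕ (ν × ν)) → ℤ) →ₗ[ℤ] Cop (ν ⊕ ν) (En ν) where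
  toFun x := WithLp.toLp 2 (Sum.elim
    (fun k => WithLp.toLp 2 fun i => (∑ p, (x p : ℝ) • b p : DM ν).1 i k)
    (fun k => WithLp.toLp 2 fun i => (unop (∑ p, (x p : ℝ) • b p : DM ν).2) k i))
  map_add' := by
    intro x y
    ext k i
    rcases k with k | k
    · simp [add_smul, Finset.sum_add_distrib, Matrix.add_apply]
    · simp [add_smul, Finset.sum_add_distrib, Matrix.add_apply]
  map_smul' := by
    intro c x
    ext k i
    have h : (∑ p, (((c • x) p : ℤ) : ℝ) • b p : DM ν) = (c : ℝ) • ∑ p, (x p : ℝ) • b p := by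
      simp only [Pi.smul_apply, smul_eq_mul, Int.cast_mul, mul_smul, ← Finset.smul_sum]
    rw [h]
    rcases k with k | k
    · simp [Matrix.smul_apply, zsmul_eq_mul]
    · simp [Matrix.smul_apply, zsmul_eq_mul]

private noncomputable def pM {ν : Type*} [Fintype ν] [DecidableEq ν]
    (b : Module.Basis ((ν × ν) ⊕ (ν × ν)) ℝ (DM ν)) (x : ((ν × ν) ⊕ (ν × ν)) → ℤ) :
    DM ν := ∑ p, (x p : ℝ) • b p

private noncomputable def pC (ν : Type*) [Fintype ν] [DecidableEq ν] :
    DM ν →ₗ[ℝ] Cop (ν ⊕ ν) (En ν) where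
  toFun z := WithLp.toLp 2 (Sum.elim
    (fun k => WithLp.toLp 2 fun i => z.1 i k)
    (fun k => WithLp.toLp 2 fun i => (unop z.2) k i))
  map_add' := by
    intro x y
    ext k i
    rcases k with k | k <;> rfl
  map_smul' := by
    intro c x
    ext k i
    rcases k with k | k <;> rfl

private theorem pC_inl {ν : Type*} [Fintype ν] [DecidableEq ν] (z : DM ν) (k i : ν) :
    pC ν z (Sum.inl k) i = z.1 i k := rfl

private theorem pC_inr {ν : Type*} [Fintype ν] [DecidableEq ν] (z : DM ν) (k i : ν) :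
    pC ν z (Sum.inr k) i = (unop z.2) k i := rfl

private theorem pT {ν : Type*} [Fintype ν] [DecidableEq ν]
    (b : Module.Basis ((ν × ν) ⊕ (ν × ν)) ℝ (DM ν)) (x : ((ν × ν) ⊕ (ν × ν)) → ℤ) :
    crT b x = pC ν (pM b x) := rfl

private theorem pC_inj {ν : Type*} [Fintype ν] [DecidableEq ν] : Function.Injective (pC ν) := by
  intro z w h
  refine Prod.ext ?_ ?_
  · ext i k
    rw [← pC_inl z k i, h, pC_inl]
  · apply unop_injective
    ext k i
    rw [← pC_inr z k i, h, pC_inr]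

/-- the block matrix of an element -/
private noncomputable def pL (ν : Type*) [Fintype ν] [DecidableEq ν] :
    DM ν →ₗ[ℝ] Matrix (ν ⊕ ν) (ν ⊕ ν) ℝ where
  toFun z := Matrix.fromBlocks z.1 0 0 (unop z.2).transpose
  map_add' := by
    intro x y
    ext j k
    rcases j with j | j <;> rcases k with k | k <;> simp [Matrix.fromBlocks]
  map_smul' := by
    intro c x
    ext j k
    rcases j with j | j <;> rcases k with k | k <;> simp [Matrix.fromBlocks]

private noncomputable def pR (ν : Type*) [Fintype ν] [DecidableEq ν] :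
    DM ν →+* Matrix (ν ⊕ ν) (ν ⊕ ν) ℝ where
  toFun z := pL ν z
  map_zero' := map_zero _
  map_add' := map_add _
  map_one' := by
    show Matrix.fromBlocks 1 0 0 ((unop (1 : (Matrix ν ν ℝ)ᵐᵒᵖ)).transpose) = 1
    rw [unop_one, Matrix.transpose_one, Matrix.fromBlocks_one]
  map_mul' := by
    intro x y
    show Matrix.fromBlocks (x.1 * y.1) 0 0 ((unop (x.2 * y.2)).transpose) =
      Matrix.fromBlocks x.1 0 0 (unop x.2).transpose * Matrix.fromBlocks y.1 0 0 (unop y.2).transpose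
    rw [Matrix.fromBlocks_multiply, unop_mul, Matrix.transpose_mul]
    simp

private theorem p_mix {ν : Type*} [Fintype ν] [DecidableEq ν] (z w : DM ν) :
    mix (pL ν z) (pC ν w) = pC ν (w * z) := by
  ext k i
  show ((∑ j, (pL ν z) j k • (pC ν w) j : En ν)) i = _
  simp only [WithLp.ofLp_sum, Finset.sum_apply, PiLp.smul_apply, smul_eq_mul]
  rw [Fintype.sum_sum_type]
  rcases k with k | k
  · rw [pC_inl]
    show (∑ j, z.1 j k * w.1 i j) + ∑ j : ν, (0 : ℝ) * _ = (w.1 * z.1) i k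
    rw [Matrix.mul_apply]
    simp only [zero_mul, Finset.sum_const_zero, add_zero]
    exact Finset.sum_congr rfl fun j _ => mul_comm _ _
  · rw [pC_inr]
    show (∑ j : ν, (0 : ℝ) * _) + ∑ j, (unop z.2) k j * (unop w.2) j i = (unop (w.2 * z.2)) k i
    rw [unop_mul, Matrix.mul_apply]
    simp only [zero_mul, Finset.sum_const_zero, zero_add]

private theorem p_rep {ν : Type*} [Fintype ν] [DecidableEq ν] (γ : GE (En ν)) (A B : Matrix ν ν ℝ)
    (hA : (γ : En ν →L[ℝ] En ν) = Matrix.toEuclideanCLM (n := ν) (𝕜 := ℝ) A)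
    (hB : ((γ⁻¹ : GE (En ν)) : En ν →L[ℝ] En ν) = Matrix.toEuclideanCLM (n := ν) (𝕜 := ℝ) B)
    (w : DM ν) : rep (sgo ν) γ (pC ν w) = pC ν ((A, op B) * w) := by
  ext k i
  unfold rep
  rw [blk_apply]
  rcases k with k | k
  · rw [pC_inl]
    show (γ : En ν →L[ℝ] En ν) (pC ν w (Sum.inl k)) i = (A * w.1) i k
    rw [hA]
    rfl
  · rw [pC_inr]
    show (ContinuousLinearMap.adjoint ((γ⁻¹ : GE (En ν)) : En ν →L[ℝ] En ν))
      (pC ν w (Sum.inr k)) i = (unop (op B * w.2)) k i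
    rw [hB, ← ContinuousLinearMap.star_eq_adjoint, ← map_star, unop_mul, unop_op, Matrix.mul_apply]
    show (Matrix.mulVec (star B) fun j => (unop w.2) k j) i = _
    rw [Matrix.star_eq_conjTranspose, Matrix.mulVec, dotProduct]
    refine Finset.sum_congr rfl fun j _ => ?_
    rw [Matrix.conjTranspose_apply, star_trivial, mul_comm]

private theorem p_mem {ν : Type*} [Fintype ν] [DecidableEq ν] {O : Subring (DM ν)}
    {b : Module.Basis ((ν × ν) ⊕ (ν × ν)) ℝ (DM ν)}
    (hb : ∀ x, x ∈ O ↔ x ∈ Submodule.span ℤ (Set.range b)) (x : DM ν) :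
    x ∈ O ↔ ∃ z : ((ν × ν) ⊕ (ν × ν)) → ℤ, pM b z = x := by
  rw [hb, Submodule.mem_span_range_iff_exists_fun]
  simp only [pM, Int.cast_smul_eq_zsmul]

private theorem p_single {ν : Type*} [Fintype ν] [DecidableEq ν]
    (b : Module.Basis ((ν × ν) ⊕ (ν × ν)) ℝ (DM ν)) (p : (ν × ν) ⊕ (ν × ν)) :
    pM b (Pi.single p 1) = b p := by
  unfold pM
  rw [Finset.sum_eq_single p]
  · simp
  · intro q _ hq
    simp [Pi.single_eq_of_ne hq]
  · intro h
    exact absurd (Finset.mem_univ p) h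

private theorem p_ArD {ν : Type*} [Fintype ν] [DecidableEq ν] {O : Subring (DM ν)}
    {b : Module.Basis ((ν × ν) ⊕ (ν × ν)) ℝ (DM ν)}
    (hb : ∀ x, x ∈ O ↔ x ∈ Submodule.span ℤ (Set.range b)) :
    ArD (E := En ν) (sgo ν) (crT b) (O.map (pR ν)) where
  emb := by
    unfold Emb
    have h : (fun p : (ν × ν) ⊕ (ν × ν) => crT b (Pi.single p 1)) = (pC ν) ∘ b := by
      funext p
      rw [pT, p_single]
      rfl
    rw [h]
    exact b.linearIndependent.map' (pC ν) (LinearMap.ker_eq_bot.2 pC_inj)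
  card_eq := by
    simp
    ring
  block := by
    rintro _ ⟨z, -, rfl⟩ j k hjk
    show Matrix.fromBlocks z.1 0 0 (unop z.2).transpose j k = 0
    rcases j with j | j <;> rcases k with k | k
    · exact absurd rfl hjk
    · rfl
    · rfl
    · exact absurd rfl hjk
  stab := by
    rintro _ ⟨z, hz, rfl⟩ x
    have h0 : mix ((pR ν) z) (crT b x) = pC ν (pM b x * z) := by
      rw [pT]
      exact p_mix z _
    have h1 : pM b x * z ∈ O := O.mul_mem ((p_mem hb _).2 ⟨x, rfl⟩) hz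
    obtain ⟨y, hy⟩ := (p_mem hb _).1 h1
    exact ⟨y, by rw [h0, pT, hy]⟩
  span := by
    intro c hc
    have h1 : c = pL ν (c.toBlocks₁₁, op (c.toBlocks₂₂.transpose)) := by
      show c = Matrix.fromBlocks c.toBlocks₁₁ 0 0 (unop (op (c.toBlocks₂₂.transpose))).transpose
      rw [unop_op, Matrix.transpose_transpose]
      ext j k
      rcases j with j | j <;> rcases k with k | k
      · rfl
      · exact hc _ _ (by simp [sgo])
      · exact hc _ _ (by simp [sgo])
      · rfl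
    have h2 : c ∈ (⊤ : Submodule ℝ (DM ν)).map (pL ν) := ⟨_, Submodule.mem_top, h1.symm⟩
    rw [← b.span_eq, Submodule.map_span] at h2
    refine Submodule.span_mono ?_ h2
    rintro _ ⟨_, ⟨p, rfl⟩, rfl⟩
    exact ⟨b p, (hb _).2 (Submodule.subset_span ⟨p, rfl⟩), rfl⟩

/-- the pairing is a trace -/
private theorem p_pair {ν : Type*} [Fintype ν] [DecidableEq ν] (x y : DM ν) :
    pairo ν (pC ν x) (pC ν y) = (unop x.2 * y.1).trace + (unop y.2 * x.1).trace := by
  show ∑ k : ν, (inner ℝ (pC ν x (Sum.inr k)) (pC ν y (Sum.inl k)) +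
      inner ℝ (pC ν x (Sum.inl k)) (pC ν y (Sum.inr k))) = _
  rw [Finset.sum_add_distrib]
  have e1 : ∑ k : ν, inner ℝ (pC ν x (Sum.inr k)) (pC ν y (Sum.inl k)) =
      (unop x.2 * y.1).trace := by
    unfold Matrix.trace
    refine Finset.sum_congr rfl fun k _ => ?_
    rw [Matrix.diag_apply, Matrix.mul_apply, PiLp.inner_apply]
    refine Finset.sum_congr rfl fun i _ => ?_
    show (y.1 i k) * (unop x.2 k i) = _
    rw [mul_comm]
  have e2 : ∑ k : ν, inner ℝ (pC ν x (Sum.inl k)) (pC ν y (Sum.inr k)) =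
      (unop y.2 * x.1).trace := by
    unfold Matrix.trace
    refine Finset.sum_congr rfl fun k _ => ?_
    rw [Matrix.diag_apply, Matrix.mul_apply, PiLp.inner_apply]
    rfl
  rw [e1, e2]

/-- the trace of a left multiplication -/
private theorem p_trace {ν : Type*} [Fintype ν] [DecidableEq ν] (z : DM ν) :
    LinearMap.trace ℝ (DM ν) (LinearMap.mulLeft ℝ z) =
      Fintype.card ν * (z.1.trace + (unop z.2).trace) := by
  let B0 : Module.Basis ((ν × ν) ⊕ (ν × ν)) ℝ (DM ν) :=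
    (Matrix.stdBasis ℝ ν ν).prod ((Matrix.stdBasis ℝ ν ν).map (opLinearEquiv ℝ))
  rw [LinearMap.trace_eq_matrix_trace ℝ B0, Matrix.trace, Fintype.sum_sum_type]
  have h1 : ∀ p : ν × ν, (LinearMap.toMatrix B0 B0 (LinearMap.mulLeft ℝ z)).diag (Sum.inl p) =
      z.1 p.1 p.1 := by
    rintro ⟨i, j⟩
    rw [Matrix.diag_apply, LinearMap.toMatrix_apply, LinearMap.mulLeft_apply]
    have h2 : B0 (Sum.inl (i, j)) = (Matrix.single i j 1, 0) := by
      simp [B0, Matrix.stdBasis_eq_single]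
    rw [h2]
    have h3 : (B0.repr (z * (Matrix.single i j 1, 0))) (Sum.inl (i, j)) =
        (z.1 * Matrix.single i j (1 : ℝ) : Matrix ν ν ℝ) i j := by
      simp only [B0, Module.Basis.prod_repr_inl]
      rfl
    rw [h3]
    simp
  have h4 : ∀ p : ν × ν, (LinearMap.toMatrix B0 B0 (LinearMap.mulLeft ℝ z)).diag (Sum.inr p) =
      (unop z.2) p.2 p.2 := by
    rintro ⟨i, j⟩
    rw [Matrix.diag_apply, LinearMap.toMatrix_apply, LinearMap.mulLeft_apply]
    have h2 : B0 (Sum.inr (i, j)) = (0, op (Matrix.single i j 1)) := by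
      simp [B0, Matrix.stdBasis_eq_single]
    rw [h2]
    have h3 : (B0.repr (z * (0, op (Matrix.single i j 1)))) (Sum.inr (i, j)) =
        (Matrix.single i j (1 : ℝ) * unop z.2 : Matrix ν ν ℝ) i j := by
      simp only [B0, Module.Basis.prod_repr_inr]
      rfl
    rw [h3]
    simp
  rw [Finset.sum_congr rfl fun p _ => h1 p, Finset.sum_congr rfl fun p _ => h4 p,
    Fintype.sum_prod_type, Fintype.sum_prod_type]
  simp only [Finset.sum_const, Finset.card_univ, nsmul_eq_mul, Matrix.trace, Matrix.diag_apply]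
  rw [← Finset.mul_sum]
  ring

private theorem p_int {ν : Type*} [Fintype ν] [DecidableEq ν] {O : Subring (DM ν)}
    {b : Module.Basis ((ν × ν) ⊕ (ν × ν)) ℝ (DM ν)}
    (hb : ∀ x, x ∈ O ↔ x ∈ Submodule.span ℤ (Set.range b)) {z : DM ν} (hz : z ∈ O) :
    ∃ k : ℤ, (Fintype.card ν : ℝ) * (z.1.trace + (unop z.2).trace) = k := by
  rw [← p_trace, LinearMap.trace_eq_matrix_trace ℝ b, Matrix.trace]
  have h1 : ∀ p, ∃ k : ℤ, (LinearMap.toMatrix b b (LinearMap.mulLeft ℝ z)).diag p = k := by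
    intro p
    rw [Matrix.diag_apply, LinearMap.toMatrix_apply, LinearMap.mulLeft_apply]
    obtain ⟨y, hy⟩ := (p_mem hb _).1 (O.mul_mem hz ((p_mem hb (b p)).2 ⟨_, p_single b p⟩))
    refine ⟨y p, ?_⟩
    rw [← hy, pM]
    exact congrFun (b.repr_sum_self fun q => (y q : ℝ)) p
  choose k hk using h1
  refine ⟨∑ p, k p, ?_⟩
  rw [Finset.sum_congr rfl fun p _ => hk p]
  push_cast
  rfl

private theorem p_OuD {ν : Type*} [Fintype ν] [DecidableEq ν] [Nonempty ν] {O : Subring (DM ν)}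
    (hO : OutO ν O) {b : Module.Basis ((ν × ν) ⊕ (ν × ν)) ℝ (DM ν)}
    (hb : ∀ x, x ∈ O ↔ x ∈ Submodule.span ℤ (Set.range b)) :
    OuD (E := En ν) (crT b) (O.map (pR ν)) where
  ar := p_ArD hb
  int := by
    obtain ⟨N, hN, hswap⟩ := hO.swap
    refine ⟨Fintype.card ν * N, mul_ne_zero (by exact_mod_cast Fintype.card_ne_zero) hN,
      fun x y => ?_⟩
    have h1 := O.mul_mem (hswap _ ((p_mem hb _).2 ⟨x, rfl⟩)) ((p_mem hb (pM b y)).2 ⟨y, rfl⟩)
    obtain ⟨k, hk⟩ := p_int hb h1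
    refine ⟨k, ?_⟩
    rw [← hk, pT, pT, p_pair]
    have e1 : (N • ((unop (pM b x).2, op (pM b x).1) : DM ν) * pM b y).1 =
        (N : ℝ) • (unop (pM b x).2 * (pM b y).1) := by
      show (N • unop (pM b x).2) * (pM b y).1 = _
      rw [← Int.cast_smul_eq_zsmul ℝ, Matrix.smul_mul]
    have e2 : unop (N • ((unop (pM b x).2, op (pM b x).1) : DM ν) * pM b y).2 =
        (N : ℝ) • (unop (pM b y).2 * (pM b x).1) := by
      show unop ((N • op (pM b x).1) * (pM b y).2) = _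
      rw [unop_mul, unop_smul, unop_op, ← Int.cast_smul_eq_zsmul ℝ, Matrix.mul_smul]
    rw [e1, e2, Matrix.trace_smul, Matrix.trace_smul]
    push_cast
    simp only [smul_eq_mul]
    ring
  sqrt := by
    obtain ⟨D, hD, h1⟩ := hO.sqrt
    refine ⟨D, hD, _, h1, ?_⟩
    show Matrix.fromBlocks (Real.sqrt D • (1 : Matrix ν ν ℝ)) 0 0
      (unop (op (-(Real.sqrt D • (1 : Matrix ν ν ℝ))))).transpose = sdiag ν (Real.sqrt D)
    unfold sdiag
    ext j k
    rcases j with j | j <;> rcases k with k | k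
    · by_cases h : j = k
      · subst h
        simp
      · simp [Matrix.diagonal, h]
    · simp [Matrix.diagonal]
    · simp [Matrix.diagonal]
    · by_cases h : j = k
      · subst h
        simp
      · have h' : ¬ k = j := fun h2 => h h2.symm
        simp [Matrix.diagonal, h, h']

private theorem p_toGE_inj {ν : Type*} [Fintype ν] [DecidableEq ν] : Function.Injective (toGE ν) := by
  intro g h hgh
  have h1 : ((toGE ν g : GE (En ν)) : En ν →L[ℝ] En ν) = (toGE ν h : GE (En ν)) := by rw [hgh]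
  have h2 : Matrix.toEuclideanCLM (n := ν) (𝕜 := ℝ) g.1 =
    Matrix.toEuclideanCLM (n := ν) (𝕜 := ℝ) h.1 := h1
  exact Subtype.ext ((Matrix.toEuclideanCLM (n := ν) (𝕜 := ℝ)).injective h2)

private theorem p_det {ν : Type*} [Fintype ν] [DecidableEq ν] (γ : GE (En ν)) (A : Matrix ν ν ℝ)
    (h : (γ : En ν →L[ℝ] En ν) = Matrix.toEuclideanCLM (n := ν) (𝕜 := ℝ) A) :
    detu γ = A.det := by
  unfold detu
  rw [h, Matrix.coe_toEuclideanCLM_eq_toEuclideanLin, Matrix.toEuclideanLin_eq_toLin_orthonormal,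
    LinearMap.det_toLin]

private theorem p_Gam {ν : Type*} [Fintype ν] [DecidableEq ν] {O : Subring (DM ν)}
    {b : Module.Basis ((ν × ν) ⊕ (ν × ν)) ℝ (DM ν)}
    (hb : ∀ x, x ∈ O ↔ x ∈ Submodule.span ℤ (Set.range b)) :
    (unitO O).map (toGE ν) = Gam0 (E := En ν) (sgo ν) (crT b) := by
  ext γ
  constructor
  · rintro ⟨g, ⟨hg1, hg2⟩, rfl⟩
    refine ⟨⟨fun x => ?_, fun x => ?_⟩, ?_⟩
    · rw [pT, p_rep (toGE ν g) g.1 (g⁻¹ : Matrix.SpecialLinearGroup ν ℝ).1 rfl rfl]
      obtain ⟨y, hy⟩ := (p_mem hb _).1 (O.mul_mem hg1 ((p_mem hb _).2 ⟨x, rfl⟩))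
      exact ⟨y, by rw [pT, hy]⟩
    · rw [pT, p_rep (toGE ν g)⁻¹ (g⁻¹ : Matrix.SpecialLinearGroup ν ℝ).1 g.1 rfl
        (by rw [inv_inv]; rfl)]
      obtain ⟨y, hy⟩ := (p_mem hb _).1 (O.mul_mem hg2 ((p_mem hb _).2 ⟨x, rfl⟩))
      exact ⟨y, by rw [pT, hy]⟩
    · rw [p_det (toGE ν g) g.1 rfl]
      exact g.2
  · rintro ⟨⟨h1, h2⟩, h3⟩
    set T := Matrix.toEuclideanCLM (n := ν) (𝕜 := ℝ) with hT
    set A := T.symm (γ : En ν →L[ℝ] En ν) with hA
    set B := T.symm ((γ⁻¹ : GE (En ν)) : En ν →L[ℝ] En ν) with hB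
    have hTA : (γ : En ν →L[ℝ] En ν) = T A := (T.apply_symm_apply _).symm
    have hTB : ((γ⁻¹ : GE (En ν)) : En ν →L[ℝ] En ν) = T B := (T.apply_symm_apply _).symm
    have hAB : A * B = 1 := by
      have h7 : T (A * B) = T 1 := by
        rw [map_mul, map_one, ← hTA, ← hTB, Units.mul_inv]
      exact T.injective h7
    have hdA : A.det = 1 := by rw [← p_det γ A hTA]; exact h3
    set g : Matrix.SpecialLinearGroup ν ℝ := ⟨A, hdA⟩ with hg
    have hone : ∃ z, pM b z = 1 := (p_mem hb _).1 O.one_mem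
    obtain ⟨z, hz⟩ := hone
    have hAO : ((A, op B) : DM ν) ∈ O := by
      obtain ⟨y, hy⟩ := h1 z
      rw [pT, pT, p_rep γ A B hTA hTB, hz, mul_one] at hy
      rw [pC_inj hy]
      exact (p_mem hb _).2 ⟨y, rfl⟩
    have hBO : ((B, op A) : DM ν) ∈ O := by
      obtain ⟨y, hy⟩ := h2 z
      rw [pT, pT, p_rep γ⁻¹ B A hTB (by rw [inv_inv]; exact hTA), hz, mul_one] at hy
      rw [pC_inj hy]
      exact (p_mem hb _).2 ⟨y, rfl⟩
    have hgi : (g⁻¹).1 = B := by
      have h4 : (g⁻¹).1 * A = 1 := by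
        have h5 : g⁻¹ * g = 1 := inv_mul_cancel g
        have h6 := congrArg Subtype.val h5
        exact h6
      calc (g⁻¹).1 = (g⁻¹).1 * (A * B) := by rw [hAB, mul_one]
        _ = ((g⁻¹).1 * A) * B := by rw [mul_assoc]
        _ = B := by rw [h4, one_mul]
    refine ⟨g, ⟨?_, ?_⟩, ?_⟩
    · rw [hgi]
      exact hAO
    · rw [hgi]
      exact hBO
    · apply Units.ext
      rw [hTA]
      rfl

theorem noHorn_outO {ν : Type*} [Fintype ν] [DecidableEq ν] (hn : 3 ≤ Fintype.card ν)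
    {O : Subring (DM ν)} (hO : OutO ν O)
    {Γ : Subgroup (Matrix.SpecialLinearGroup ν ℝ)} (hΓ : Γ ≤ unitO O)
    (hfi : Γ.relIndex (unitO O) ≠ 0) : NoHorn (Γ.map (toGE ν)) := by
  have hne : Nonempty ν := Fintype.card_pos_iff.1 (by omega)
  obtain ⟨b, hb⟩ := hO.ord
  have hG := p_Gam hb
  refine noHorn_outer (κ := ν) (p_OuD hO hb) (by simpa using hn) (Γ := Γ.map (toGE ν)) ?_ ?_
  · rw [← hG]
    exact Subgroup.map_mono hΓ
  · rw [← hG, Subgroup.relIndex_map_map_of_injective _ _ p_toGE_inj]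
    exact hfi

end LatN
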