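import Pool.Agent.Lib.LatN.OrdI
import Pool.Agent.Lib.LatN.OrdO

/-!
# OrdT: conjugation and duality

* `NoHorn.conj`: transport along a continuous linear equivalence `L`: the same elements, constants
  multiplied by `‖L‖ ‖L⁻¹‖`: `‖(L γ L⁻¹) x‖ ≤ ‖L‖ ‖γ (L⁻¹ x)‖`, `‖γ (L⁻¹ x)‖ ≤ ‖L⁻¹‖ ‖(L γ L⁻¹) x‖`.
* `trI O = {x | xᵀ ∈ O}`, `trO O = {x | (x.2ᵀ, x.1ᵀ) ∈ O}` are again orders of the same type; the
  transposed basis; rank of the transpose (`Matrix.rank_transpose`), and
  `(unitI O).map (dualSL ν) = unitI (trI O)`, `(unitO O).map (dualSL ν) = unitO (trO O)`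
  (`dualSL` is an involution). `dualSL` is injective, so relative indices are preserved.
-/

open scoped Topology
open MulOpposite

namespace LatN

section
variable {E F : Type*} [NormedAddCommGroup E] [InnerProductSpace ℝ E] [NormedAddCommGroup F]
  [InnerProductSpace ℝ F]

/-- conjugation of operators by a linear equivalence -/
noncomputable def conjU (L : E ≃L[ℝ] F) : GE E →* GE F where
  toFun g :=
    { val := (L : E →L[ℝ] F).comp ((g : E →L[ℝ] E).comp (L.symm : F →L[ℝ] E))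
      inv := (L : E →L[ℝ] F).comp (((g⁻¹ : GE E) : E →L[ℝ] E).comp (L.symm : F →L[ℝ] E))
      val_inv := by
        ext x
        have h : (g : E →L[ℝ] E) (((g⁻¹ : GE E) : E →L[ℝ] E) (L.symm x)) = L.symm x :=
          congrArg (fun A : E →L[ℝ] E => A (L.symm x)) (Units.mul_inv g)
        simp [h]
      inv_val := by
        ext x
        have h : ((g⁻¹ : GE E) : E →L[ℝ] E) ((g : E →L[ℝ] E) (L.symm x)) = L.symm x :=
          congrArg (fun A : E →L[ℝ] E => A (L.symm x)) (Units.inv_mul g)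
        simp [h] }
  map_one' := by
    ext x
    simp
  map_mul' g h := by
    ext x
    simp

theorem NoHorn.conj [FiniteDimensional ℝ E] [FiniteDimensional ℝ F] {Γ : Subgroup (GE E)}
    (h : NoHorn Γ) (L : E ≃L[ℝ] F) : NoHorn (Γ.map (conjU L)) := by
  classical
  obtain ⟨hc, S, C, hS, hconn⟩ := h
  set K1 : ℝ := ‖(L : E →L[ℝ] F)‖ + 1 with hK1
  set K2 : ℝ := ‖(L.symm : F →L[ℝ] E)‖ + 1 with hK2
  have hK1p : 0 < K1 := by positivity
  have hK2p : 0 < K2 := by positivity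
  have ha1 : ∀ (γ : GE E) (y : F), ‖((conjU L γ : GE F) : F →L[ℝ] F) y‖ ≤
      K1 * ‖(γ : E →L[ℝ] E) (L.symm y)‖ := by
    intro γ y
    have h1 : ((conjU L γ : GE F) : F →L[ℝ] F) y =
      (L : E →L[ℝ] F) ((γ : E →L[ℝ] E) (L.symm y)) := rfl
    rw [h1]
    refine ((L : E →L[ℝ] F).le_opNorm _).trans ?_
    exact mul_le_mul_of_nonneg_right (by rw [hK1]; linarith) (norm_nonneg _)
  have ha2 : ∀ (γ : GE E) (y : F), ‖(γ : E →L[ℝ] E) (L.symm y)‖ ≤
      K2 * ‖((conjU L γ : GE F) : F →L[ℝ] F) y‖ := by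
    intro γ y
    have h1 : (γ : E →L[ℝ] E) (L.symm y) =
      (L.symm : F →L[ℝ] E) (((conjU L γ : GE F) : F →L[ℝ] F) y) := by
      have h2 : ((conjU L γ : GE F) : F →L[ℝ] F) y =
        (L : E →L[ℝ] F) ((γ : E →L[ℝ] E) (L.symm y)) := rfl
      rw [h2]
      simp
    rw [h1]
    refine ((L.symm : F →L[ℝ] E).le_opNorm _).trans ?_
    exact mul_le_mul_of_nonneg_right (by rw [hK2]; linarith) (norm_nonneg _)
  refine ⟨?_, S.image (conjU L), K1 * C * K2, ?_, ?_⟩
  · intro y hy t ht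
    have hx : L.symm y ≠ 0 := by
      intro h0
      exact hy ((LinearEquiv.map_eq_zero_iff L.symm.toLinearEquiv).1 h0)
    obtain ⟨γ, hγ, h1⟩ := hc (L.symm y) hx (t / K1) (by positivity)
    refine ⟨conjU L γ, ⟨γ, hγ, rfl⟩, (ha1 γ y).trans ?_⟩
    calc K1 * ‖(γ : E →L[ℝ] E) (L.symm y)‖ ≤ K1 * (t / K1) :=
          mul_le_mul_of_nonneg_left h1 hK1p.le
      _ = t := by field_simp
  · intro s hs
    obtain ⟨s', hs', rfl⟩ := Finset.mem_image.1 hs
    exact ⟨s', hS s' hs', rfl⟩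
  · rintro y hy t ht _ ⟨γ, hγ, rfl⟩ _ ⟨γ', hγ', rfl⟩ h1 h2
    have hx : L.symm y ≠ 0 := by
      intro h0
      exact hy ((LinearEquiv.map_eq_zero_iff L.symm.toLinearEquiv).1 h0)
    have h3 := hconn (L.symm y) hx (K2 * t) (by positivity) γ hγ γ' hγ'
      ((ha2 γ y).trans (mul_le_mul_of_nonneg_left h1 hK2p.le))
      ((ha2 γ' y).trans (mul_le_mul_of_nonneg_left h2 hK2p.le))
    refine Relation.ReflTransGen.lift (conjU L) ?_ _ _ h3
    rintro a b ⟨h4, h5, s, hs, rfl⟩
    refine ⟨(ha1 _ y).trans ?_, (ha1 _ y).trans ?_, conjU L s,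
      Finset.mem_image.2 ⟨s, hs, rfl⟩, map_mul _ _ _⟩
    · refine (mul_le_mul_of_nonneg_left h4 hK1p.le).trans (le_of_eq ?_)
      ring
    · refine (mul_le_mul_of_nonneg_left h5 hK1p.le).trans (le_of_eq ?_)
      ring

end

variable {ν : Type*} [Fintype ν] [DecidableEq ν]

/-- the transposed order -/
def trI (O : Subring (Matrix ν ν ℝ)) :
    Subring (Matrix ν ν ℝ) where
  carrier := {x | x.transpose ∈ O}
  mul_mem' := by
    intro a b ha hb
    change (a * b).transpose ∈ O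
    rw [Matrix.transpose_mul]
    exact O.mul_mem hb ha
  one_mem' := by
    change (1 : Matrix ν ν ℝ).transpose ∈ O
    rw [Matrix.transpose_one]
    exact O.one_mem
  add_mem' := by
    intro a b ha hb
    change (a + b).transpose ∈ O
    rw [Matrix.transpose_add]
    exact O.add_mem ha hb
  zero_mem' := by
    change (0 : Matrix ν ν ℝ).transpose ∈ O
    rw [Matrix.transpose_zero]
    exact O.zero_mem
  neg_mem' := by
    intro a ha
    change (-a).transpose ∈ O
    rw [Matrix.transpose_neg]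
    exact O.neg_mem ha

/-- the transposed order, outer type -/
def trO (O : Subring (DM ν)) : Subring (DM ν) where
  carrier := {x | (((unop x.2).transpose, op x.1.transpose) : DM ν) ∈ O}
  mul_mem' := by
    rintro ⟨a, a'⟩ ⟨b, b'⟩ ha hb
    change (((unop (a' * b')).transpose, op (a * b).transpose) : DM ν) ∈ O
    rw [unop_mul, Matrix.transpose_mul, Matrix.transpose_mul, op_mul]
    exact O.mul_mem ha hb
  one_mem' := by
    change ((unop (1 : (Matrix ν ν ℝ)ᵐᵒᵖ)).transpose,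
      op (1 : Matrix ν ν ℝ).transpose) ∈ O
    rw [unop_one, Matrix.transpose_one]
    exact O.one_mem
  add_mem' := by
    rintro ⟨a, a'⟩ ⟨b, b'⟩ ha hb
    change (((unop (a' + b')).transpose, op (a + b).transpose) : DM ν) ∈ O
    rw [unop_add, Matrix.transpose_add, Matrix.transpose_add, op_add]
    exact O.add_mem ha hb
  zero_mem' := by
    change ((unop (0 : (Matrix ν ν ℝ)ᵐᵒᵖ)).transpose,
      op (0 : Matrix ν ν ℝ).transpose) ∈ O
    rw [unop_zero, Matrix.transpose_zero]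
    exact O.zero_mem
  neg_mem' := by
    rintro ⟨a, a'⟩ ha
    change (((unop (-a')).transpose, op (-a).transpose) : DM ν) ∈ O
    rw [unop_neg, Matrix.transpose_neg, Matrix.transpose_neg, op_neg]
    exact O.neg_mem ha

private theorem ot_invol (g : Matrix.SpecialLinearGroup ν ℝ) :
    dualSL ν (dualSL ν g) = g := by
  apply Subtype.ext
  have h1 : (dualSL ν (dualSL ν g)).1 = ((dualSL ν g)⁻¹).1.transpose := rfl
  have h2 : (dualSL ν g)⁻¹ = dualSL ν g⁻¹ := (map_inv _ _).symm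
  have h3 : (dualSL ν g⁻¹).1 = (g⁻¹⁻¹).1.transpose := rfl
  rw [h1, h2, h3, inv_inv, Matrix.transpose_transpose]

private theorem ot_inj : Function.Injective (dualSL ν) := by
  intro g h hgh
  rw [← ot_invol g, hgh, ot_invol]

private theorem ot_fst (g : Matrix.SpecialLinearGroup ν ℝ) :
    (dualSL ν g).1.transpose = (g⁻¹).1 := by
  have h1 : (dualSL ν g).1 = (g⁻¹).1.transpose := rfl
  rw [h1, Matrix.transpose_transpose]

private theorem ot_inv (g : Matrix.SpecialLinearGroup ν ℝ) :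
    ((dualSL ν g)⁻¹).1.transpose = g.1 := by
  rw [← map_inv, ot_fst, inv_inv]

/-- the exchange of the factors with transposition -/
private def otP : DM ν ≃ₗ[ℝ] DM ν where
  toFun x := ((unop x.2).transpose, op x.1.transpose)
  invFun x := ((unop x.2).transpose, op x.1.transpose)
  map_add' := by
    rintro ⟨a, a'⟩ ⟨b, b'⟩
    show ((unop (a' + b')).transpose, op (a + b).transpose) = _
    rw [unop_add, Matrix.transpose_add, Matrix.transpose_add, op_add]
    rfl
  map_smul' := by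
    rintro c ⟨a, a'⟩
    show ((unop (c • a')).transpose, op (c • a).transpose) = _
    rw [unop_smul, Matrix.transpose_smul, Matrix.transpose_smul, op_smul]
    rfl
  left_inv := by
    rintro ⟨a, a'⟩
    rfl
  right_inv := by
    rintro ⟨a, a'⟩
    rfl

private theorem otP_mem (O : Subring (DM ν)) (x : DM ν) : x ∈ trO O ↔ otP x ∈ O := Iff.rfl

private theorem otP_otP (x : DM ν) : otP (otP x) = x := rfl

theorem IsOrd.tr {O : Subring (Matrix ν ν ℝ)} (h : IsOrd ν O) :
    IsOrd ν (trI O) := by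
  obtain ⟨b, hb⟩ := h
  refine ⟨b.map (Matrix.transposeLinearEquiv ν ν ℝ ℝ), fun x => ?_⟩
  have h1 : x ∈ trI O ↔ x.transpose ∈ O := Iff.rfl
  rw [h1, hb, Submodule.mem_span_range_iff_exists_fun, Submodule.mem_span_range_iff_exists_fun]
  constructor
  · rintro ⟨c, hc⟩
    refine ⟨c, ?_⟩
    rw [← Matrix.transpose_transpose x, ← hc, Matrix.transpose_sum]
    apply Finset.sum_congr rfl
    intro i _
    rw [Matrix.transpose_smul]
    rfl
  · rintro ⟨c, hc⟩
    refine ⟨c, ?_⟩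
    rw [← hc, Matrix.transpose_sum]
    apply Finset.sum_congr rfl
    intro i _
    rw [Matrix.transpose_smul]
    rfl

theorem InnO.tr {O : Subring (Matrix ν ν ℝ)} (h : InnO ν O) :
    InnO ν (trI O) := by
  refine ⟨h.ord.tr, fun x hx => ?_⟩
  rw [← Matrix.rank_transpose]
  exact h.rank _ hx

theorem OutO.tr {O : Subring (DM ν)} (h : OutO ν O) : OutO ν (trO O) := by
  obtain ⟨⟨b, hb⟩, ⟨D, hD, hDO⟩, ⟨N, hN, hNO⟩⟩ := h
  refine ⟨⟨b.map otP, fun x => ?_⟩, ⟨D, hD, ?_⟩, ⟨N, hN, fun x hx => ?_⟩⟩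
  · rw [otP_mem, hb, Submodule.mem_span_range_iff_exists_fun,
      Submodule.mem_span_range_iff_exists_fun]
    constructor
    · rintro ⟨c, hc⟩
      refine ⟨c, ?_⟩
      rw [← otP_otP x, ← hc, map_sum]
      apply Finset.sum_congr rfl
      intro i _
      rw [map_zsmul]
      rfl
    · rintro ⟨c, hc⟩
      refine ⟨c, ?_⟩
      rw [← hc, map_sum]
      apply Finset.sum_congr rfl
      intro i _
      rw [map_zsmul]
      rfl
  · rw [otP_mem]
    have h1 : otP (((Real.sqrt D • (1 : Matrix ν ν ℝ)),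
      op (-(Real.sqrt D • (1 : Matrix ν ν ℝ)))) : DM ν) =
      -(((Real.sqrt D • (1 : Matrix ν ν ℝ)),
      op (-(Real.sqrt D • (1 : Matrix ν ν ℝ)))) : DM ν) := by
      show ((-(Real.sqrt D • (1 : Matrix ν ν ℝ))).transpose,
        op (Real.sqrt D • (1 : Matrix ν ν ℝ)).transpose) = _
      rw [Matrix.transpose_neg, Matrix.transpose_smul, Matrix.transpose_one, Prod.neg_mk,
        ← op_neg, neg_neg]
    rw [h1]
    exact O.neg_mem hDO
  · rw [otP_mem, map_zsmul]
    exact hNO (otP x) hx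

theorem map_dual_unitI (O : Subring (Matrix ν ν ℝ)) :
    (unitI O).map (dualSL ν) = unitI (trI O) := by
  ext g
  constructor
  · rintro ⟨h, ⟨h1, h2⟩, rfl⟩
    refine ⟨?_, ?_⟩
    · show (dualSL ν h).1.transpose ∈ O
      rw [ot_fst]
      exact h2
    · show ((dualSL ν h)⁻¹).1.transpose ∈ O
      rw [ot_inv]
      exact h1
  · rintro ⟨h1, h2⟩
    have h1' : g.1.transpose ∈ O := h1
    have h2' : (g⁻¹).1.transpose ∈ O := h2
    refine ⟨dualSL ν g, ⟨h2', ?_⟩, ot_invol g⟩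
    rw [← map_inv]
    show (g⁻¹⁻¹).1.transpose ∈ O
    rw [inv_inv]
    exact h1'

theorem map_dual_unitO (O : Subring (DM ν)) :
    (unitO O).map (dualSL ν) = unitO (trO O) := by
  ext g
  constructor
  · rintro ⟨h, ⟨h1, h2⟩, rfl⟩
    refine ⟨?_, ?_⟩
    · show ((((dualSL ν h)⁻¹).1.transpose, op (dualSL ν h).1.transpose) : DM ν) ∈ O
      rw [ot_fst, ot_inv]
      exact h1
    · show (((dualSL ν h).1.transpose, op ((dualSL ν h)⁻¹).1.transpose) : DM ν) ∈ O
      rw [ot_fst, ot_inv]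
      exact h2
  · rintro ⟨h1, h2⟩
    have h1' : (((g⁻¹).1.transpose, op g.1.transpose) : DM ν) ∈ O := h1
    have h2' : ((g.1.transpose, op (g⁻¹).1.transpose) : DM ν) ∈ O := h2
    have h3 : ((dualSL ν g)⁻¹).1 = g.1.transpose := by
      rw [← map_inv]
      show (g⁻¹⁻¹).1.transpose = _
      rw [inv_inv]
    have h4 : (dualSL ν g).1 = (g⁻¹).1.transpose := rfl
    refine ⟨dualSL ν g, ⟨?_, ?_⟩, ot_invol g⟩
    · rw [h3, h4]
      exact h1'
    · rw [h3, h4]
      exact h2'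

theorem noHorn_innO_dual (hn : 2 ≤ Fintype.card ν) {O : Subring (Matrix ν ν ℝ)}
    (hO : InnO ν O) {Γ : Subgroup (Matrix.SpecialLinearGroup ν ℝ)} (hΓ : Γ ≤ unitI O)
    (hfi : Γ.relIndex (unitI O) ≠ 0) : NoHorn ((Γ.map (dualSL ν)).map (toGE ν)) := by
  refine noHorn_innO hn hO.tr (Γ := Γ.map (dualSL ν)) ?_ ?_
  · rw [← map_dual_unitI]
    exact Subgroup.map_mono hΓ
  · rw [← map_dual_unitI, Subgroup.relIndex_map_map_of_injective _ _ ot_inj]
    exact hfi

theorem noHorn_outO_dual (hn : 3 ≤ Fintype.card ν) {O : Subring (DM ν)}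
    (hO : OutO ν O) {Γ : Subgroup (Matrix.SpecialLinearGroup ν ℝ)} (hΓ : Γ ≤ unitO O)
    (hfi : Γ.relIndex (unitO O) ≠ 0) : NoHorn ((Γ.map (dualSL ν)).map (toGE ν)) := by
  refine noHorn_outO hn hO.tr (Γ := Γ.map (dualSL ν)) ?_ ?_
  · rw [← map_dual_unitO]
    exact Subgroup.map_mono hΓ
  · rw [← map_dual_unitO, Subgroup.relIndex_map_map_of_injective _ _ ot_inj]
    exact hfi

end LatN
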