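import Pool.Agent.Lib.LatN.OuPerp

/-!
# OuDual: covolume of the orthogonal complement (outer case)

`β = pairo κ`, `T_g = TT (sgo κ) T0 g`, `N = card ι`, `J` the isometry of the space of copies which
exchanges the copies `inl k` and `inr k`, so that `β(v, w) = ⟪J v, w⟫` (`pairo_apply`).

Proof of `cov_perp_le`. Let `M ≠ 0` be the integer of `OuD.int` and `B_ij = M β(T0 e_i, T0 e_j)`, an
integer matrix, `δ = det B`. `δ ≠ 0` (the `T0 e_i` are a basis of the space: `Emb`,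
`card ι = dim Cop`; `β` is nondegenerate). Let `U` be saturated of rank `r`,
`b : Basis (Fin r ⊕ Fin s) ℤ (ι → ℤ)` adapted to `U` (`exists_adapted`),
`B'_ij = M β(T0 b_i, T0 b_j)`: integer matrix over `α = Fin r ⊕ Fin s`, and `det B' = ± δ` or `= δ`:
`B'` is `Pᵀ B P` with the integer matrix `P` of determinant `±1` (reindex `α ≃ ι`), so `det B' = δ`.
(Only needed: `|det B'| = |δ|`.)
Let `y_j = ∑_k adj(B')_{kj} • b_k`, `j ∈ α`. Then `M β(T0 b_i, T0 y_j) = (B' adj B')_{ij} = δ' δ_ij`,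
`δ' = det B'`. So `y (inr j) ∈ perp T0 U` (it is `β`-orthogonal to all `b (inl i)`, which span `U`).
The `y_j` are linearly independent over `ℤ` (`det adj(B') ≠ 0`), and
`s = card α - r = N - r = finrank (perp T0 U)` (`finrank_perp`). By `cov_le_of_li` (for `T_g`,
`emb_TT`) `cov T_g (perp U) ≤ sqrt (vsq (T_g ∘ y ∘ inr))`.
DUALITY: `w_j = (M/δ') • J (T_g y_j)` satisfies `⟪w_j, T_g b_i⟫ = (M/δ') β(T_g y_j, T_g b_i) =
(M/δ') β(T0 y_j, T0 b_i) = δ_ij` (`pairo_rep`, `pairo_symm`). The `T_g b_i` span the space. So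
`vsq (w ∘ inr) * vsq (T_g ∘ b) = vsq (T_g ∘ b ∘ inl) = (cov T_g U)²` (`vsq_dual`, `cov_eq` for the
basis of `U` given by `b ∘ inl`). `J` is an isometry, so
`vsq (T_g ∘ y ∘ inr) = (δ'/M)^(2 s) vsq (w ∘ inr)` (`vsq_comb` with a scalar matrix, or
`Matrix.det_smul`), and `vsq (T_g ∘ b) = (cov T_g ⊤)² = (cov T0 ⊤)² > 0` (`cov_eq`, `cov_top_TT`,
`cov_pos`). Hence `cov T_g (perp U) ≤ |δ/M|^s cov T_g U / cov T0 ⊤ ≤ K cov T_g U` with
`K = max 1 |δ/M| ^ N / cov T0 ⊤`.

`theta_perp_ge`: ranks `r` and `N - r` (`finrank_perp`), the term `C0 r (N - r)` is symmetric, so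
`theta (perp U) - theta U = - log cov (perp U) + log cov U ≥ - log K` and `c1 = max 0 (log K)`.
-/

open scoped Topology

namespace LatN

variable {E : Type*} [NormedAddCommGroup E] [InnerProductSpace ℝ E] [FiniteDimensional ℝ E]
variable {κ : Type*} [Fintype κ] [DecidableEq κ] {ι : Type*} [Fintype ι] [DecidableEq ι]

private noncomputable def odJ (v : Cop (κ ⊕ κ) E) : Cop (κ ⊕ κ) E :=
  WithLp.toLp 2 fun k => v k.swap

omit [FiniteDimensional ℝ E] [DecidableEq κ] in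
private theorem odJ_inner (v w : Cop (κ ⊕ κ) E) :
    inner ℝ (odJ v) (odJ w) = (inner ℝ v w : ℝ) := by
  rw [PiLp.inner_apply, PiLp.inner_apply]
  exact Fintype.sum_equiv (Equiv.sumComm κ κ) _ _ fun j => rfl

private theorem od_pair (v w : Cop (κ ⊕ κ) E) : pairo κ v w = inner ℝ (odJ v) w := by
  rw [pairo_apply, PiLp.inner_apply, Fintype.sum_sum_type, Finset.sum_add_distrib]
  rfl

private theorem od_smul {F : Type*} [NormedAddCommGroup F] [InnerProductSpace ℝ F]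
    {α : Type*} [Fintype α] [DecidableEq α] (c : ℝ) (x : α → F) :
    vsq (fun i => c • x i) = (c ^ 2) ^ Fintype.card α * vsq x := by
  have h1 : Matrix.gram ℝ (fun i => c • x i) = (c ^ 2) • Matrix.gram ℝ x := by
    ext i j
    rw [Matrix.smul_apply, Matrix.gram_apply, Matrix.gram_apply, real_inner_smul_left,
      real_inner_smul_right, smul_eq_mul]
    ring
  rw [vsq, h1, Matrix.det_smul, vsq]

private theorem od_J {α : Type*} [Fintype α] [DecidableEq α] (x : α → Cop (κ ⊕ κ) E) :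
    vsq (fun i => odJ (x i)) = vsq x := by
  have h1 : Matrix.gram ℝ (fun i => odJ (x i)) = Matrix.gram ℝ x := by
    ext i j
    rw [Matrix.gram_apply, Matrix.gram_apply, odJ_inner]
  rw [vsq, h1, vsq]

private theorem od_det {F : Type*} [NormedAddCommGroup F] [InnerProductSpace ℝ F]
    [FiniteDimensional ℝ F] {α : Type*} [Fintype α] [DecidableEq α]
    (hc : Fintype.card α = Module.finrank ℝ F) (a b : α → F) :
    (Matrix.of fun i j => (inner ℝ (a i) (b j) : ℝ)).det ^ 2 = vsq a * vsq b := by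
  have e : Fin (Module.finrank ℝ F) ≃ α := Fintype.equivOfCardEq (by rw [Fintype.card_fin, hc])
  let o : OrthonormalBasis α ℝ F := (stdOrthonormalBasis ℝ F).reindex e
  let A : (α → F) → Matrix α α ℝ := fun x => Matrix.of fun k i => (inner ℝ (o k) (x i) : ℝ)
  have h1 : ∀ x y : α → F, (Matrix.of fun i j => (inner ℝ (x i) (y j) : ℝ)) =
      (A x).transpose * A y := by
    intro x y
    ext i j
    rw [Matrix.mul_apply, Matrix.of_apply, ← o.sum_inner_mul_inner (x i) (y j)]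
    refine Finset.sum_congr rfl fun k _ => ?_
    rw [Matrix.transpose_apply]
    show _ = inner ℝ (o k) (x i) * inner ℝ (o k) (y j)
    rw [real_inner_comm (o k) (x i)]
  have h2 : ∀ x : α → F, vsq x = (A x).det ^ 2 := by
    intro x
    have h3 : Matrix.gram ℝ x = (A x).transpose * A x := h1 x x
    rw [vsq, h3, Matrix.det_mul, Matrix.det_transpose, sq]
  rw [h1, Matrix.det_mul, Matrix.det_transpose, h2, h2, mul_pow]

private theorem od_key {T0 : (ι → ℤ) →ₗ[ℤ] Cop (κ ⊕ κ) E}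
    {R : Subring (Matrix (κ ⊕ κ) (κ ⊕ κ) ℝ)} (h : OuD T0 R) :
    ∃ Q > (0 : ℝ), ∀ g : GE E, detu g = 1 → ∀ U : Submodule ℤ (ι → ℤ), Sat U →
      cov (TT (sgo κ) T0 g) (perp T0 U) ^ 2 * cov T0 ⊤ ^ 2 ≤
        Q ^ (Module.finrank ℤ (perp T0 U)) * cov (TT (sgo κ) T0 g) U ^ 2 := by
  obtain ⟨M, hM, hint⟩ := h.int
  have hM' : (M : ℝ) ≠ 0 := by exact_mod_cast hM
  have hdim : Module.finrank ℝ (Cop (κ ⊕ κ) E) = Fintype.card ι := by
    rw [h.ar.card_eq]
    have h1 : Module.finrank ℝ (Cop (κ ⊕ κ) E) = Module.finrank ℝ ((κ ⊕ κ) → E) :=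
      (WithLp.linearEquiv 2 ℝ ((κ ⊕ κ) → E)).finrank_eq
    rw [h1, Module.finrank_pi_fintype, Finset.sum_const, Finset.card_univ, smul_eq_mul]
  have hc0 : 0 < cov T0 ⊤ := cov_pos h.ar.emb ⊤
  refine ⟨((M : ℝ) ^ Fintype.card ι * cov T0 ⊤ ^ 2 / M) ^ 2, by positivity, ?_⟩
  intro g hg U hU
  obtain ⟨s, b, hbU, hbs⟩ := exists_adapted U hU
  have hcα : Fintype.card (Fin (Module.finrank ℤ U) ⊕ Fin s) = Fintype.card ι := by
    rw [← Module.finrank_eq_card_basis b, Module.finrank_fintype_fun_eq_card]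
  have hcs : s = Module.finrank ℤ (perp T0 U) := by
    have h1 := finrank_perp h hU
    have h2 : Fintype.card (Fin (Module.finrank ℤ U) ⊕ Fin s) = Module.finrank ℤ U + s := by
      rw [Fintype.card_sum, Fintype.card_fin, Fintype.card_fin]
    omega
  -- the integer matrix
  choose N hN using fun i j : Fin (Module.finrank ℤ U) ⊕ Fin s => hint (b i) (b j)
  let B : Matrix (Fin (Module.finrank ℤ U) ⊕ Fin s) (Fin (Module.finrank ℤ U) ⊕ Fin s) ℤ :=
    Matrix.of N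
  have hB : B.map (Int.cast : ℤ → ℝ) =
      (M : ℝ) • Matrix.of fun i j => (inner ℝ (odJ (T0 (b i))) (T0 (b j)) : ℝ) := by
    ext i j
    rw [Matrix.map_apply, Matrix.smul_apply, Matrix.of_apply, smul_eq_mul, ← od_pair, hN]
    rfl
  have htop : ∀ (T : (ι → ℤ) →ₗ[ℤ] Cop (κ ⊕ κ) E), vsq (fun i => T (b i)) = cov T ⊤ ^ 2 := by
    intro T
    rw [cov_eq T (b.map Submodule.topEquiv.symm), Real.sq_sqrt (vsq_nonneg _)]
    congr 1
  have hdet : ((B.det : ℤ) : ℝ) ^ 2 = ((M : ℝ) ^ Fintype.card ι * cov T0 ⊤ ^ 2) ^ 2 := by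
    rw [Int.cast_det, hB, Matrix.det_smul, mul_pow, od_det (hcα.trans hdim.symm), od_J, htop, hcα,
      mul_pow, sq (cov T0 ⊤ ^ 2)]
  have hdet0 : ((B.det : ℤ) : ℝ) ≠ 0 := by
    intro h0
    rw [h0] at hdet
    have : ((M : ℝ) ^ Fintype.card ι * cov T0 ⊤ ^ 2) ^ 2 ≠ 0 := by positivity
    exact this (by rw [← hdet]; norm_num)
  -- the dual vectors
  let y : Fin (Module.finrank ℤ U) ⊕ Fin s → (ι → ℤ) := fun j => ∑ k, B.adjugate k j • b k
  have hT0y : ∀ j, T0 (y j) = ∑ k, ((B.adjugate k j : ℤ) : ℝ) • T0 (b k) := by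
    intro j
    rw [map_sum]
    refine Finset.sum_congr rfl fun k _ => ?_
    rw [map_smul, Int.cast_smul_eq_zsmul ℝ]
  have hpair : ∀ i j, (M : ℝ) * pairo κ (T0 (b i)) (T0 (y j)) =
      if i = j then ((B.det : ℤ) : ℝ) else 0 := by
    intro i j
    rw [hT0y, map_sum, Finset.mul_sum]
    have h1 : ∀ k, (M : ℝ) * pairo κ (T0 (b i)) (((B.adjugate k j : ℤ) : ℝ) • T0 (b k)) =
        ((B i k * B.adjugate k j : ℤ) : ℝ) := by
      intro k
      rw [map_smul, smul_eq_mul, Int.cast_mul]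
      have h2 : ((B i k : ℤ) : ℝ) = (M : ℝ) * pairo κ (T0 (b i)) (T0 (b k)) := (hN i k).symm
      rw [h2]
      ring
    rw [Finset.sum_congr rfl fun k _ => h1 k, ← Int.cast_sum, ← Matrix.mul_apply,
      Matrix.mul_adjugate, Matrix.smul_apply, Matrix.one_apply, smul_eq_mul]
    by_cases hij : i = j
    · rw [if_pos hij, if_pos hij, mul_one]
    · rw [if_neg hij, if_neg hij, mul_zero, Int.cast_zero]
  have hyp : ∀ j : Fin s, y (Sum.inr j) ∈ perp T0 U := by
    intro j x hx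
    rw [← hbs] at hx
    induction hx using Submodule.span_induction with
    | mem x hx =>
      obtain ⟨i, rfl⟩ := hx
      have h1 := hpair (Sum.inl i) (Sum.inr j)
      rw [if_neg (by simp)] at h1
      exact (mul_eq_zero.1 h1).resolve_left hM'
    | zero => rw [map_zero, map_zero, LinearMap.zero_apply]
    | add u v _ _ hu hv => rw [map_add, map_add, LinearMap.add_apply, hu, hv, add_zero]
    | smul c u _ hu => rw [map_zsmul, map_zsmul, LinearMap.smul_apply, hu, smul_zero]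
  have hyl : LinearIndependent ℤ (fun j : Fin s => y (Sum.inr j)) := by
    rw [Fintype.linearIndependent_iff]
    intro c hc i
    have h1 : (M : ℝ) * pairo κ (T0 (b (Sum.inr i))) (T0 (∑ j, c j • y (Sum.inr j))) = 0 := by
      rw [hc, map_zero, map_zero, mul_zero]
    rw [map_sum, map_sum, Finset.mul_sum, Finset.sum_eq_single i] at h1
    · rw [map_zsmul, map_zsmul, mul_smul_comm, hpair, if_pos rfl, zsmul_eq_mul] at h1
      have h2 := (mul_eq_zero.1 h1).resolve_right hdet0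
      exact_mod_cast h2
    · intro j _ hj
      rw [map_zsmul, map_zsmul, mul_smul_comm, hpair, if_neg, smul_zero]
      intro h2
      exact hj (Sum.inr.inj h2).symm
    · intro h2
      exact absurd (Finset.mem_univ i) h2
  set T := TT (sgo κ) T0 g with hT
  have hTe : Emb T := emb_TT h.ar.emb g
  have hTb : LinearIndependent ℝ (fun i => T (b i)) := emb_li hTe b.linearIndependent
  have hTs : Submodule.span ℝ (Set.range fun i => T (b i)) = ⊤ :=
    hTb.span_eq_top_of_card_eq_finrank' (hcα.trans hdim.symm)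
  let w : Fin (Module.finrank ℤ U) ⊕ Fin s → Cop (κ ⊕ κ) E := fun j => ((M : ℝ) / ((B.det : ℤ) : ℝ)) • odJ (T (y j))
  have hw : ∀ i j, inner ℝ (w i) (T (b j)) = if i = j then (1 : ℝ) else 0 := by
    intro i j
    have h1 : pairo κ (T (y i)) (T (b j)) = pairo κ (T0 (y i)) (T0 (b j)) := pairo_rep g _ _
    show inner ℝ (((M : ℝ) / ((B.det : ℤ) : ℝ)) • odJ (T (y i))) (T (b j)) = _
    rw [real_inner_smul_left, ← od_pair, h1, pairo_symm, div_mul_eq_mul_div, hpair]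
    by_cases hij : i = j
    · rw [if_pos hij, if_pos hij.symm, div_self hdet0]
    · rw [if_neg hij, if_neg (Ne.symm hij), zero_div]
  have hdual := vsq_dual (fun i => T (b i)) w hTs hw
  have hwz : vsq (fun j : Fin s => w (Sum.inr j)) =
      (((M : ℝ) / ((B.det : ℤ) : ℝ)) ^ 2) ^ s * vsq (fun j : Fin s => T (y (Sum.inr j))) := by
    have h1 := od_smul ((M : ℝ) / ((B.det : ℤ) : ℝ)) (fun j : Fin s => odJ (T (y (Sum.inr j))))
    rw [od_J, Fintype.card_fin] at h1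
    exact h1
  have hUb : vsq (fun i : Fin (Module.finrank ℤ U) => T (b (Sum.inl i))) = cov T U ^ 2 := by
    have hli : LinearIndependent ℤ (fun i : Fin (Module.finrank ℤ U) =>
        (⟨b (Sum.inl i), hbU i⟩ : U)) := by
      refine LinearIndependent.of_comp U.subtype ?_
      exact b.linearIndependent.comp Sum.inl Sum.inl_injective
    have hsp : ⊤ ≤ Submodule.span ℤ (Set.range fun i : Fin (Module.finrank ℤ U) =>
        (⟨b (Sum.inl i), hbU i⟩ : U)) := by
      rintro ⟨v, hv⟩ -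
      have h1 := hv
      rw [← hbs] at h1
      have h2 : (fun i : Fin (Module.finrank ℤ U) => b (Sum.inl i)) =
          U.subtype ∘ fun i => (⟨b (Sum.inl i), hbU i⟩ : U) := rfl
      rw [h2, Set.range_comp, ← Submodule.map_span] at h1
      obtain ⟨u, hu, hu'⟩ := h1
      have h3 : u = ⟨v, hv⟩ := Subtype.ext hu'
      rw [← h3]
      exact hu
    rw [cov_eq T (Module.Basis.mk hli hsp), Real.sq_sqrt (vsq_nonneg _)]
    congr 1
    funext i
    rw [Module.Basis.mk_apply]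
  have hcp : cov T (perp T0 U) ^ 2 ≤ vsq (fun j : Fin s => T (y (Sum.inr j))) := by
    have h1 := cov_le_of_li hTe (by rw [Fintype.card_fin, hcs])
      (fun j : Fin s => y (Sum.inr j)) hyp hyl
    have h2 := pow_le_pow_left₀ (Real.sqrt_nonneg _) h1 2
    rwa [Real.sq_sqrt (vsq_nonneg (fun j : Fin s => T (y (Sum.inr j))))] at h2
  have hcT : cov T ⊤ = cov T0 ⊤ := cov_top_TT h.ar hg
  rw [hwz, htop, hUb, hcT] at hdual
  have hq : (((B.det : ℤ) : ℝ) / M) ^ 2 =
      ((M : ℝ) ^ Fintype.card ι * cov T0 ⊤ ^ 2 / M) ^ 2 := by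
    rw [div_pow, hdet, div_pow]
  have hinv : ((((B.det : ℤ) : ℝ) / M) ^ 2) ^ s * (((M : ℝ) / ((B.det : ℤ) : ℝ)) ^ 2) ^ s = 1 := by
    rw [← mul_pow, ← mul_pow, div_mul_div_cancel₀ hM', div_self hdet0, one_pow, one_pow]
  rw [← hcs, ← hq, ← hdual, ← mul_assoc, ← mul_assoc, hinv, one_mul]
  exact mul_le_mul_of_nonneg_right hcp (sq_nonneg _)

theorem cov_perp_le {T0 : (ι → ℤ) →ₗ[ℤ] Cop (κ ⊕ κ) E}
    {R : Subring (Matrix (κ ⊕ κ) (κ ⊕ κ) ℝ)} (h : OuD T0 R) :
    ∃ K > (0 : ℝ), ∀ g : GE E, detu g = 1 → ∀ U : Submodule ℤ (ι → ℤ), Sat U →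
      cov (TT (sgo κ) T0 g) (perp T0 U) ≤ K * cov (TT (sgo κ) T0 g) U := by
  obtain ⟨Q, hQ, hk⟩ := od_key h
  have hc0 : 0 < cov T0 ⊤ := cov_pos h.ar.emb ⊤
  refine ⟨max 1 Q ^ Fintype.card ι / cov T0 ⊤, by positivity, ?_⟩
  intro g hg U hU
  have h1 := hk g hg U hU
  have hp : 0 < cov (TT (sgo κ) T0 g) (perp T0 U) := cov_pos (emb_TT h.ar.emb g) _
  have hu : 0 < cov (TT (sgo κ) T0 g) U := cov_pos (emb_TT h.ar.emb g) _
  have h2 : Q ^ (Module.finrank ℤ (perp T0 U)) ≤ (max 1 Q ^ Fintype.card ι) ^ 2 := by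
    have h3 := finrank_perp h hU
    have h4 : (1 : ℝ) ≤ max 1 Q := le_max_left _ _
    calc Q ^ (Module.finrank ℤ (perp T0 U)) ≤ max 1 Q ^ (Module.finrank ℤ (perp T0 U)) :=
          pow_le_pow_left₀ hQ.le (le_max_right _ _) _
      _ ≤ max 1 Q ^ (Fintype.card ι * 2) := pow_le_pow_right₀ h4 (by omega)
      _ = _ := by rw [pow_mul]
  have h5 : (cov (TT (sgo κ) T0 g) (perp T0 U) * cov T0 ⊤) ^ 2 ≤
      (max 1 Q ^ Fintype.card ι * cov (TT (sgo κ) T0 g) U) ^ 2 := by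
    rw [mul_pow, mul_pow]
    exact h1.trans (mul_le_mul_of_nonneg_right h2 (sq_nonneg _))
  have h6 := (sq_le_sq₀ (mul_pos hp hc0).le (by positivity)).1 h5
  rw [div_mul_eq_mul_div, le_div_iff₀ hc0]
  exact h6

theorem theta_perp_ge {T0 : (ι → ℤ) →ₗ[ℤ] Cop (κ ⊕ κ) E}
    {R : Subring (Matrix (κ ⊕ κ) (κ ⊕ κ) ℝ)} (h : OuD T0 R) :
    ∃ c1 : ℝ, 0 ≤ c1 ∧ ∀ (C0 : ℝ) (g : GE E), detu g = 1 →
      ∀ U : Submodule ℤ (ι → ℤ), Sat U →
      theta C0 (TT (sgo κ) T0 g) U - c1 ≤ theta C0 (TT (sgo κ) T0 g) (perp T0 U) := by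
  obtain ⟨K, hK, hk⟩ := cov_perp_le h
  refine ⟨max 0 (Real.log K), le_max_left _ _, ?_⟩
  intro C0 g hg U hU
  have h1 := hk g hg U hU
  have hp : 0 < cov (TT (sgo κ) T0 g) (perp T0 U) := cov_pos (emb_TT h.ar.emb g) _
  have hu : 0 < cov (TT (sgo κ) T0 g) U := cov_pos (emb_TT h.ar.emb g) _
  have h2 := Real.log_le_log hp h1
  rw [Real.log_mul hK.ne' hu.ne'] at h2
  have h3 : (Module.finrank ℤ (perp T0 U) : ℝ) = Fintype.card ι - Module.finrank ℤ U := by
    have h4 := finrank_perp h hU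
    have h5 : (Module.finrank ℤ (perp T0 U) : ℝ) + Module.finrank ℤ U = Fintype.card ι := by
      exact_mod_cast h4
    linarith
  have h6 := le_max_right 0 (Real.log K)
  unfold theta
  rw [h3]
  have h7 : C0 * ((Fintype.card ι : ℝ) - Module.finrank ℤ U) *
      (Fintype.card ι - ((Fintype.card ι : ℝ) - Module.finrank ℤ U)) =
      C0 * (Module.finrank ℤ U : ℝ) * ((Fintype.card ι : ℝ) - Module.finrank ℤ U) := by ring
  rw [h7]
  linarith

end LatN
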