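import Pool.Agent.Lib.LatN.Step

/-!
# PathP: pushing a continuous path into the thick part

`stepG C x t a b`: both `a, b` have determinant one, thinness at most `C`, `‖a x‖, ‖b x‖ ≤ t`, and
`‖b a⁻¹‖, ‖a b⁻¹‖ ≤ 2` (symmetric relation, monotone in `C` and `t`).

Proof of `path_push`. Constants `C1, c, δ` from `good_local`, `η = η₀` from `step_est`,
`ρ = η δ / 2`, `C2 = C1 + 2`. ONE STAGE: for a continuous path `p` of determinant one take the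
continuous `X` of `good_path` and `q s = eU (η • X s) * p s`, which is continuous
(`eU_continuous`), `detu (q s) = 1`, `‖q s x‖ ≤ ‖p s x‖`,
`Th (q s) ≤ max (Th (p s) - ρ) C2`, and `stepG (max (Th (p s)) C2) x ‖p s x‖ (p s) (q s)`
(`q s (p s)⁻¹ = eU (η X s)`). Iterate `m` times with `M - m ρ ≤ C2` (Archimedes), where `M` bounds
`Th (p s)`: induction on `m` for the statement: if `Th (p s) ≤ C2 + m ρ` for all `s` then the
conclusion holds (in the induction step `Th (q s) ≤ max (Th (p s)) C2`, `‖q s x‖ ≤ ‖p s x‖`, and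
`stepG` is monotone, so the two chains can be composed).
-/

open scoped Topology

namespace LatN

variable {E : Type*} [NormedAddCommGroup E] [InnerProductSpace ℝ E] [FiniteDimensional ℝ E]
variable {κ : Type*} [Fintype κ] [DecidableEq κ] {ι : Type*} [Fintype ι] [DecidableEq ι]

theorem stepG_symm {sg : κ → Bool} {T0 : (ι → ℤ) →ₗ[ℤ] Cop κ E} {C0 : ℝ}
    {𝒰 : Set (Submodule ℤ (ι → ℤ))} {C : ℝ} {x : E} {t : ℝ} {a b : GE E}
    (h : stepG C0 𝒰 sg T0 C x t a b) : stepG C0 𝒰 sg T0 C x t b a :=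
  ⟨h.2.1, h.1, h.2.2.2, h.2.2.1⟩

theorem stepG_mono {sg : κ → Bool} {T0 : (ι → ℤ) →ₗ[ℤ] Cop κ E} {C0 : ℝ}
    {𝒰 : Set (Submodule ℤ (ι → ℤ))} {C C' : ℝ} {x : E} {t t' : ℝ} (hC : C ≤ C') (ht : t ≤ t')
    {a b : GE E} (h : stepG C0 𝒰 sg T0 C x t a b) : stepG C0 𝒰 sg T0 C' x t' a b :=
  ⟨⟨h.1.1, h.1.2.1.trans hC, h.1.2.2.trans ht⟩, ⟨h.2.1.1, h.2.1.2.1.trans hC,
    h.2.1.2.2.trans ht⟩, h.2.2⟩

private theorem one_stage {sg : κ → Bool} {T0 : (ι → ℤ) →ₗ[ℤ] Cop κ E} {C0 : ℝ}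
    {𝒰 : Set (Submodule ℤ (ι → ℤ))} {C1 c δ η : ℝ} (hη : 0 < η) {x : E}
    (hloc : ∀ g0 : GE E, detu g0 = 1 →
      ∃ X : E →L[ℝ] E, ∀ᶠ g in 𝓝 g0, X ∈ Good C0 𝒰 sg T0 C1 c δ x g)
    (hstep : ∀ (g : GE E) (X : E →L[ℝ] E),
      detu g = 1 → X ∈ Good C0 𝒰 sg T0 C1 c δ x g →
      detu (eU (η • X) * g) = 1 ∧
      ‖((eU (η • X) * g : GE E) : E →L[ℝ] E) x‖ ≤ (1 - η / 4) * ‖(g : E →L[ℝ] E) x‖ ∧
      Th C0 𝒰 sg T0 (eU (η • X) * g) ≤ max (Th C0 𝒰 sg T0 g - η * δ / 2) (C1 + 2) ∧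
      ‖((eU (η • X) : GE E) : E →L[ℝ] E)‖ ≤ 2 ∧
      ‖(((eU (η • X))⁻¹ : GE E) : E →L[ℝ] E)‖ ≤ 2)
    {p : unitInterval → GE E} (hp : Continuous p) (hd : ∀ s, detu (p s) = 1) :
    ∃ q : unitInterval → GE E, Continuous q ∧ ∀ s, detu (q s) = 1 ∧
      Th C0 𝒰 sg T0 (q s) ≤ max (Th C0 𝒰 sg T0 (p s) - η * δ / 2) (C1 + 2) ∧
      ‖((q s : GE E) : E →L[ℝ] E) x‖ ≤ ‖((p s : GE E) : E →L[ℝ] E) x‖ ∧
      ‖((q s * (p s)⁻¹ : GE E) : E →L[ℝ] E)‖ ≤ 2 ∧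
      ‖((p s * (q s)⁻¹ : GE E) : E →L[ℝ] E)‖ ≤ 2 := by
  obtain ⟨X, hX⟩ := good_path hloc hp hd
  refine ⟨fun s => eU (η • X s) * p s, ?_, ?_⟩
  · exact (eU_continuous.comp (X.continuous.const_smul η)).mul hp
  · intro s
    obtain ⟨h1, h2, h3, h4, h5⟩ := hstep (p s) (X s) (hd s) (hX s)
    refine ⟨h1, h3, ?_, ?_, ?_⟩
    · refine h2.trans ?_
      have h6 : 0 ≤ ‖((p s : GE E) : E →L[ℝ] E) x‖ := norm_nonneg _
      nlinarith
    · rw [mul_inv_cancel_right]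
      exact h4
    · rw [mul_inv_rev, mul_inv_cancel_left]
      exact h5

theorem path_push {sg : κ → Bool} {T0 : (ι → ℤ) →ₗ[ℤ] Cop κ E} (hT : Emb T0) {C0 : ℝ}
    (hC : 0 < C0) {𝒰 : Set (Submodule ℤ (ι → ℤ))} (h𝒰 : Adm 𝒰)
    (hn : 2 ≤ Module.finrank ℝ E) (hX : XEX C0 𝒰 sg T0) :
    ∃ C2 : ℝ, ∀ x : E, x ≠ 0 → ∀ p : unitInterval → GE E, Continuous p →
      (∀ s, detu (p s) = 1) → ∀ M : ℝ, (∀ s, Th C0 𝒰 sg T0 (p s) ≤ M) →
      ∃ q : unitInterval → GE E, Continuous q ∧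
        (∀ s, detu (q s) = 1 ∧ Th C0 𝒰 sg T0 (q s) ≤ C2 ∧
          ‖((q s : GE E) : E →L[ℝ] E) x‖ ≤ ‖((p s : GE E) : E →L[ℝ] E) x‖) ∧
        ∀ s, Relation.ReflTransGen
          (stepG C0 𝒰 sg T0 (max (Th C0 𝒰 sg T0 (p s)) C2) x
            ‖((p s : GE E) : E →L[ℝ] E) x‖) (p s) (q s) := by
  obtain ⟨C1, c, δ, hδ, hc, hloc⟩ := good_local hT hC h𝒰 hn hX
  obtain ⟨η, hη, hη1, hstep⟩ := step_est hT hC h𝒰 C1 hδ hc
  have hstep' := hstep η hη le_rfl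
  refine ⟨C1 + 2, ?_⟩
  intro x hx
  set ρ : ℝ := η * δ / 2 with hρ
  have hρ0 : 0 < ρ := by positivity
  have key : ∀ m : ℕ, ∀ p : unitInterval → GE E, Continuous p → (∀ s, detu (p s) = 1) →
      (∀ s, Th C0 𝒰 sg T0 (p s) ≤ C1 + 2 + m * ρ) →
      ∃ q : unitInterval → GE E, Continuous q ∧
        (∀ s, detu (q s) = 1 ∧ Th C0 𝒰 sg T0 (q s) ≤ C1 + 2 ∧
          ‖((q s : GE E) : E →L[ℝ] E) x‖ ≤ ‖((p s : GE E) : E →L[ℝ] E) x‖) ∧
        ∀ s, Relation.ReflTransGen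
          (stepG C0 𝒰 sg T0 (max (Th C0 𝒰 sg T0 (p s)) (C1 + 2)) x
            ‖((p s : GE E) : E →L[ℝ] E) x‖) (p s) (q s) := by
    intro m
    induction m with
    | zero =>
      intro p hp hd hM
      refine ⟨p, hp, fun s => ⟨hd s, ?_, le_rfl⟩, fun s => Relation.ReflTransGen.refl⟩
      have := hM s
      simpa using this
    | succ m ih =>
      intro p hp hd hM
      obtain ⟨q1, hq1, hq1'⟩ := one_stage hη (hloc x hx) (hstep' x) hp hd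
      have hm0 : (0 : ℝ) ≤ m * ρ := by positivity
      obtain ⟨q, hq, hq', hch⟩ := ih q1 hq1 (fun s => (hq1' s).1) (fun s => by
        refine (hq1' s).2.1.trans (max_le ?_ (by linarith))
        have h1 := hM s
        push_cast at h1
        linarith)
      refine ⟨q, hq, fun s => ⟨(hq' s).1, (hq' s).2.1, (hq' s).2.2.trans (hq1' s).2.2.1⟩, fun s => ?_⟩
      obtain ⟨a1, a2, a3, a4, a5⟩ := hq1' s
      have hTq : Th C0 𝒰 sg T0 (q1 s) ≤ max (Th C0 𝒰 sg T0 (p s)) (C1 + 2) :=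
        a2.trans (max_le_max (by linarith) le_rfl)
      refine Relation.ReflTransGen.head (b := q1 s) ?_ ?_
      · exact ⟨⟨hd s, le_max_left _ _, le_rfl⟩, ⟨a1, hTq, a3⟩, a4, a5⟩
      · refine Relation.ReflTransGen.mono ?_ _ _ (hch s)
        intro a b hab
        exact stepG_mono (max_le hTq (le_max_right _ _)) a3 hab
  intro p hp hd M hM
  obtain ⟨m, hm⟩ := exists_nat_ge ((M - (C1 + 2)) / ρ)
  refine key m p hp hd (fun s => (hM s).trans ?_)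
  rw [div_le_iff₀ hρ0] at hm
  linarith

/-- every vector can be contracted inside the thick part.
Proof: constants as above, `C' = max (Th 1) C2`. Starting from `g = 1` the step
`g ↦ eU (η X) g` with `X ∈ Good x g` (`good_local` at `g₀ = g`, `Filter.Eventually.self_of_nhds`)
keeps `Th ≤ C'` and multiplies `‖g x‖` by a factor `≤ 1 - η/4 < 1`; iterate until
`(1 - η/4)^m ‖x‖ ≤ t`. -/
theorem contract_G {sg : κ → Bool} {T0 : (ι → ℤ) →ₗ[ℤ] Cop κ E} (hT : Emb T0) {C0 : ℝ}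
    (hC : 0 < C0) {𝒰 : Set (Submodule ℤ (ι → ℤ))} (h𝒰 : Adm 𝒰)
    (hn : 2 ≤ Module.finrank ℝ E) (hX : XEX C0 𝒰 sg T0) :
    ∃ C' : ℝ, ∀ x : E, x ≠ 0 → ∀ t > (0 : ℝ), ∃ g : GE E, detu g = 1 ∧
      Th C0 𝒰 sg T0 g ≤ C' ∧ ‖(g : E →L[ℝ] E) x‖ ≤ t := by
  obtain ⟨C1, c, δ, hδ, hc, hloc⟩ := good_local hT hC h𝒰 hn hX
  obtain ⟨η, hη, hη1, hstep⟩ := step_est hT hC h𝒰 C1 hδ hc
  have hstep' := hstep η hη le_rfl
  refine ⟨max (Th C0 𝒰 sg T0 (1 : GE E)) (C1 + 2), ?_⟩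
  intro x hx t ht
  have hη4 : 0 ≤ 1 - η / 4 := by linarith
  have key : ∀ m : ℕ, ∃ g : GE E, detu g = 1 ∧
      Th C0 𝒰 sg T0 g ≤ max (Th C0 𝒰 sg T0 (1 : GE E)) (C1 + 2) ∧
      ‖(g : E →L[ℝ] E) x‖ ≤ (1 - η / 4) ^ m * ‖x‖ := by
    intro m
    induction m with
    | zero =>
      refine ⟨1, ?_, le_max_left _ _, ?_⟩
      · unfold detu
        exact LinearMap.det_id
      · simp
    | succ m ih =>
      obtain ⟨g, h1, h2, h3⟩ := ih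
      obtain ⟨X, hX'⟩ := hloc x hx g h1
      have hXg := hX'.self_of_nhds
      obtain ⟨a1, a2, a3, _, _⟩ := hstep' x g X h1 hXg
      refine ⟨eU (η • X) * g, a1, a3.trans (max_le ?_ (le_max_right _ _)), ?_⟩
      · have : 0 < η * δ / 2 := by positivity
        linarith
      · refine a2.trans ?_
        have := mul_le_mul_of_nonneg_left h3 hη4
        rw [pow_succ]
        linarith
  have hx0 : 0 < ‖x‖ := norm_pos_iff.2 hx
  obtain ⟨m, hm⟩ := exists_pow_lt_of_lt_one (div_pos ht hx0) (show 1 - η / 4 < 1 by linarith)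
  obtain ⟨g, h1, h2, h3⟩ := key m
  refine ⟨g, h1, h2, h3.trans ?_⟩
  rw [lt_div_iff₀ hx0] at hm
  exact hm.le

end LatN
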