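import Pool.Agent.Lib.LatN.Defs
import Pool.Agent.Lib.LatN.ExpOp

/-!
# RepM: the representation on the copies

`rep sg g` acts on the copies `k` with `sg k = true` by `g` and on the others by the adjoint of
`g⁻¹`; `drep sg X` by `X` and `-X`.

Proofs.
* `blk_apply`: by definition. `blk_mul`, `rep_mul`, `rep_one`: on every copy.
* `norm_blk_le`: `‖blk v‖² = ∑ ‖A v_k‖² or ‖B v_k‖² ≤ max(‖A‖,‖B‖)² ∑ ‖v_k‖²` (`EuclideanSpace`/`PiLp`
  norm formula, `ContinuousLinearMap.opNorm_le_bound`); `LinearIsometryEquiv.norm_map` for the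
  adjoint (`‖adjoint A‖ = ‖A‖`).
* `repU`: the unit with value `rep sg g` and inverse `rep sg g⁻¹`.
* `rep_continuous`: `blk sg` is continuous in the pair (linear, `norm_blk_le`), `adjoint` is
  continuous, `Units.continuous_iff` for the inverse.
* `drep_selfAdj`: `⟪blk sg X (-X) v, w⟫ = ∑ ± ⟪X v_k, w_k⟫`.
* `det_rep`: `Cop κ E` is a product of copies of `E`; the determinant of a block diagonal operator
  is the product of the determinants (`LinearMap.det_pi` or through
  `Matrix.det_blockDiagonal'`), `det (adjoint A) = det A` (`LinearMap.det_adjoint`).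
* `mix_rep`: `mix c` commutes with `rep sg g` if `c j k = 0` whenever `sg j ≠ sg k`: on the copy
  `k` both sides are `∑ j, c j k • A_k (v j)`.
* `vsq_det`: for a basis `v` of `F` (card α = dim F, linearly independent)
  `vsq (h ∘ v) = (det h)² vsq v`: write `h (v j) = ∑ M i j • v i`, `M` is the matrix of `h` in the
  basis `v`, `vsq_comb`.
* `cov_top_rep`: `cov_top` and `vsq_det` (`GramDiag`/`CovBasic` are not imported: prove
  `vsq_det` there directly from `Matrix.gram`).
-/

namespace LatN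

section
variable {E : Type*} [NormedAddCommGroup E] [InnerProductSpace ℝ E] [FiniteDimensional ℝ E]
variable {κ : Type*} [Fintype κ] [DecidableEq κ]

omit [FiniteDimensional ℝ E] [DecidableEq κ] in
private theorem EuclideanSpace_norm_sq' (v : Cop κ E) : ‖v‖ ^ 2 = ∑ k, ‖v k‖ ^ 2 :=
  PiLp.norm_sq_eq_of_L2 _ v

theorem blk_apply (sg : κ → Bool) (A B : E →L[ℝ] E) (v : Cop κ E) (k : κ) :
    blk sg A B v k = if sg k then A (v k) else B (v k) := rfl

theorem norm_blk_le (sg : κ → Bool) (A B : E →L[ℝ] E) : ‖blk sg A B‖ ≤ max ‖A‖ ‖B‖ := by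
  have hm : 0 ≤ max ‖A‖ ‖B‖ := le_max_of_le_left (norm_nonneg _)
  refine ContinuousLinearMap.opNorm_le_bound _ hm fun v => ?_
  refine (sq_le_sq₀ (norm_nonneg _) (mul_nonneg hm (norm_nonneg _))).1 ?_
  rw [mul_pow, EuclideanSpace_norm_sq', EuclideanSpace_norm_sq', Finset.mul_sum]
  refine Finset.sum_le_sum fun k _ => ?_
  rw [← mul_pow, blk_apply]
  refine pow_le_pow_left₀ (norm_nonneg _) ?_ 2
  split_ifs
  · exact (A.le_opNorm _).trans (mul_le_mul_of_nonneg_right (le_max_left _ _) (norm_nonneg _))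
  · exact (B.le_opNorm _).trans (mul_le_mul_of_nonneg_right (le_max_right _ _) (norm_nonneg _))

theorem rep_mul (sg : κ → Bool) (g h : GE E) : rep sg (g * h) = rep sg g * rep sg h := by
  ext v k
  rw [ContinuousLinearMap.mul_apply]
  unfold rep
  rw [blk_apply, blk_apply, blk_apply]
  split_ifs
  · rfl
  · have h1 : (((g * h)⁻¹ : GE E) : E →L[ℝ] E) = ((h⁻¹ : GE E) : E →L[ℝ] E).comp ((g⁻¹ : GE E) : E →L[ℝ] E) := by
      rw [mul_inv_rev]
      rfl
    rw [h1, ContinuousLinearMap.adjoint_comp]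
    rfl

theorem rep_one (sg : κ → Bool) : rep sg (1 : GE E) = 1 := by
  ext v k
  unfold rep
  rw [blk_apply, inv_one, Units.val_one, ← ContinuousLinearMap.star_eq_adjoint, star_one]
  split_ifs <;> rfl

/-- `rep sg g` as a unit -/
noncomputable def repU (sg : κ → Bool) (g : GE E) : GE (Cop κ E) where
  val := rep sg g
  inv := rep sg g⁻¹
  val_inv := by rw [← rep_mul, mul_inv_cancel, rep_one]
  inv_val := by rw [← rep_mul, inv_mul_cancel, rep_one]

@[simp] theorem repU_val (sg : κ → Bool) (g : GE E) :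
    ((repU sg g : GE (Cop κ E)) : Cop κ E →L[ℝ] Cop κ E) = rep sg g := rfl

theorem repU_inv (sg : κ → Bool) (g : GE E) : (repU sg g)⁻¹ = repU sg g⁻¹ := by
  ext1
  rfl

theorem norm_rep_le (sg : κ → Bool) (g : GE E) :
    ‖rep sg g‖ ≤ max ‖(g : E →L[ℝ] E)‖ ‖((g⁻¹ : GE E) : E →L[ℝ] E)‖ := by
  refine (norm_blk_le sg _ _).trans (le_of_eq ?_)
  rw [LinearIsometryEquiv.norm_map]

theorem rep_continuous (sg : κ → Bool) :
    Continuous (rep sg : GE E → (Cop κ E →L[ℝ] Cop κ E)) := by
  let L : ((E →L[ℝ] E) × (E →L[ℝ] E)) →ₗ[ℝ] (Cop κ E →L[ℝ] Cop κ E) :=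
    { toFun := fun p => blk sg p.1 p.2
      map_add' := by
        intro p q
        ext v k
        rw [ContinuousLinearMap.add_apply, PiLp.add_apply, blk_apply, blk_apply, blk_apply]
        split_ifs <;> rfl
      map_smul' := by
        intro c p
        ext v k
        rw [RingHom.id_apply, ContinuousLinearMap.smul_apply, PiLp.smul_apply, blk_apply, blk_apply]
        split_ifs <;> rfl }
  have hL : Continuous L := L.continuous_of_finiteDimensional
  have h1 : Continuous fun g : GE E =>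
      ((g : E →L[ℝ] E), ContinuousLinearMap.adjoint ((g⁻¹ : GE E) : E →L[ℝ] E)) :=
    Units.continuous_val.prodMk
      ((ContinuousLinearMap.adjoint (𝕜 := ℝ) (E := E) (F := E)).continuous.comp Units.continuous_coe_inv)
  exact hL.comp h1

theorem drep_selfAdj (sg : κ → Bool) {X : E →L[ℝ] E} (hX : IsSelfAdjoint X) :
    IsSelfAdjoint (drep sg X) := by
  rw [ContinuousLinearMap.isSelfAdjoint_iff_isSymmetric] at hX ⊢
  intro v w
  show inner ℝ (drep sg X v) w = inner ℝ v (drep sg X w)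
  rw [PiLp.inner_apply, PiLp.inner_apply]
  refine Finset.sum_congr rfl fun k _ => ?_
  unfold drep
  rw [blk_apply, blk_apply]
  have h1 : inner ℝ (X (v k)) (w k) = inner ℝ (v k) (X (w k)) := hX (v k) (w k)
  split_ifs
  · exact h1
  · rw [ContinuousLinearMap.neg_apply, ContinuousLinearMap.neg_apply, inner_neg_left, inner_neg_right, h1]

theorem norm_drep_le (sg : κ → Bool) (X : E →L[ℝ] E) : ‖drep sg X‖ ≤ ‖X‖ := by
  refine (norm_blk_le sg _ _).trans (le_of_eq ?_)
  rw [norm_neg, max_self]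

theorem drep_add (sg : κ → Bool) (X Y : E →L[ℝ] E) :
    drep sg (X + Y) = drep sg X + drep sg Y := by
  ext v k
  unfold drep
  rw [ContinuousLinearMap.add_apply, PiLp.add_apply, blk_apply, blk_apply, blk_apply]
  split_ifs
  · rfl
  · rw [neg_add]
    rfl

theorem drep_smul (sg : κ → Bool) (a : ℝ) (X : E →L[ℝ] E) :
    drep sg (a • X) = a • drep sg X := by
  ext v k
  unfold drep
  rw [ContinuousLinearMap.smul_apply, PiLp.smul_apply, blk_apply, blk_apply]
  split_ifs
  · rfl
  · rw [← smul_neg]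
    rfl

private theorem det_adj (A : E →L[ℝ] E) :
    LinearMap.det ((ContinuousLinearMap.adjoint A : E →L[ℝ] E) : E →ₗ[ℝ] E) =
      LinearMap.det (A : E →ₗ[ℝ] E) := by
  have h1 : ((ContinuousLinearMap.adjoint A : E →L[ℝ] E) : E →ₗ[ℝ] E) =
      LinearMap.adjoint (A : E →ₗ[ℝ] E) := by
    rw [LinearMap.eq_adjoint_iff]
    intro x y
    exact ContinuousLinearMap.adjoint_inner_left A y x
  let b := stdOrthonormalBasis ℝ E
  rw [h1, ← LinearMap.det_toMatrix b.toBasis, LinearMap.toMatrix_adjoint b b, Matrix.det_conjTranspose,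
    LinearMap.det_toMatrix, star_trivial]

theorem det_rep (sg : κ → Bool) {g : GE E} (hg : detu g = 1) :
    LinearMap.det ((rep sg g : Cop κ E →L[ℝ] Cop κ E) : Cop κ E →ₗ[ℝ] Cop κ E) = 1 := by
  let f : κ → E →ₗ[ℝ] E := fun k => if sg k then ((g : E →L[ℝ] E) : E →ₗ[ℝ] E)
    else ((ContinuousLinearMap.adjoint ((g⁻¹ : GE E) : E →L[ℝ] E) : E →L[ℝ] E) : E →ₗ[ℝ] E)
  have h1 : ((rep sg g : Cop κ E →L[ℝ] Cop κ E) : Cop κ E →ₗ[ℝ] Cop κ E) =
      ((WithLp.linearEquiv 2 ℝ (κ → E)).symm : (κ → E) →ₗ[ℝ] Cop κ E) ∘ₗ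
        (LinearMap.pi (fun i => (f i).comp (LinearMap.proj i))) ∘ₗ
        ((WithLp.linearEquiv 2 ℝ (κ → E)) : Cop κ E →ₗ[ℝ] (κ → E)) := by
    ext v k
    show rep sg g v k = f k (v k)
    unfold rep
    rw [blk_apply]
    simp only [f]
    split_ifs <;> rfl
  have h2 := LinearMap.det_conj (LinearMap.pi (fun i => (f i).comp (LinearMap.proj i)))
    (WithLp.linearEquiv 2 ℝ (κ → E)).symm
  rw [h1]
  refine h2.trans ?_
  rw [LinearMap.det_pi]
  refine Finset.prod_eq_one fun k _ => ?_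
  simp only [f]
  split_ifs
  · exact hg
  · have h3 : LinearMap.det (((g⁻¹ : GE E) : E →L[ℝ] E) : E →ₗ[ℝ] E) = 1 := by
      have h4 : LinearMap.det (((g : E →L[ℝ] E) : E →ₗ[ℝ] E) *
          (((g⁻¹ : GE E) : E →L[ℝ] E) : E →ₗ[ℝ] E)) = 1 := by
        have h5 : (((g : E →L[ℝ] E) : E →ₗ[ℝ] E) * (((g⁻¹ : GE E) : E →L[ℝ] E) : E →ₗ[ℝ] E)) = 1 := by
          ext x
          show ((g * g⁻¹ : GE E) : E →L[ℝ] E) x = x
          rw [mul_inv_cancel]
          rfl
        rw [h5, map_one]
      rw [map_mul] at h4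
      have hg' : LinearMap.det ((g : E →L[ℝ] E) : E →ₗ[ℝ] E) = 1 := hg
      rw [hg', one_mul] at h4
      exact h4
    rw [det_adj, h3]

theorem mix_rep (sg : κ → Bool) {c : Matrix κ κ ℝ} (hc : ∀ j k, sg j ≠ sg k → c j k = 0)
    (g : GE E) (v : Cop κ E) : mix c (rep sg g v) = rep sg g (mix c v) := by
  ext k
  show ∑ j, c j k • (rep sg g v) j = (rep sg g (mix c v)) k
  unfold rep
  rw [blk_apply]
  have h1 : (mix c v) k = ∑ j, c j k • v j := rfl
  rw [h1]
  split_ifs with hk
  · rw [map_sum]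
    refine Finset.sum_congr rfl fun j _ => ?_
    rw [map_smul, blk_apply]
    by_cases hj : sg j = true
    · rw [if_pos hj]
    · rw [hc j k (by rw [hk]; exact hj), zero_smul, zero_smul]
  · rw [map_sum]
    refine Finset.sum_congr rfl fun j _ => ?_
    rw [map_smul, blk_apply]
    by_cases hj : sg j = true
    · rw [hc j k (by rw [hj]; exact fun h => hk h.symm), zero_smul, zero_smul]
    · rw [if_neg hj]

theorem detu_mul (g h : GE E) : detu (g * h) = detu g * detu h := by
  unfold detu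
  rw [← map_mul]
  rfl

omit [FiniteDimensional ℝ E] in
private theorem detu_one' : detu (1 : GE E) = 1 := by
  have h1 : (((1 : GE E) : E →L[ℝ] E) : E →ₗ[ℝ] E) = 1 := rfl
  rw [detu, h1, map_one]

theorem detu_inv (g : GE E) : detu g⁻¹ = (detu g)⁻¹ := by
  refine eq_inv_of_mul_eq_one_left ?_
  rw [← detu_mul, inv_mul_cancel, detu_one']

theorem detu_one : detu (1 : GE E) = 1 := detu_one'

end

section
variable {E : Type*} [NormedAddCommGroup E] [InnerProductSpace ℝ E] [FiniteDimensional ℝ E]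
variable {κ : Type*} [Fintype κ] [DecidableEq κ] {ι : Type*} [Fintype ι] [DecidableEq ι]

theorem vsq_det {F : Type*} [NormedAddCommGroup F] [InnerProductSpace ℝ F]
    [FiniteDimensional ℝ F] {v : ι → F} (hv : LinearIndependent ℝ v)
    (hc : Fintype.card ι = Module.finrank ℝ F) (h : F →L[ℝ] F) :
    vsq (fun i => h (v i)) = (LinearMap.det (h : F →ₗ[ℝ] F)) ^ 2 * vsq v := by
  by_cases hι : Nonempty ι
  · let b : Module.Basis ι ℝ F := basisOfLinearIndependentOfCardEqFinrank hv hc
    have hb : ∀ i, b i = v i := fun i => by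
      rw [coe_basisOfLinearIndependentOfCardEqFinrank]
    have h1 : ∀ j, h (v j) = ∑ i, (LinearMap.toMatrix b b (h : F →ₗ[ℝ] F)) i j • v i := by
      intro j
      have h2 := b.sum_repr (h (v j))
      rw [← h2]
      refine Finset.sum_congr rfl fun i _ => ?_
      rw [LinearMap.toMatrix_apply, hb, hb]
      rfl
    have h3 : Matrix.gram ℝ (fun i => h (v i)) =
        (LinearMap.toMatrix b b (h : F →ₗ[ℝ] F)).transpose * Matrix.gram ℝ v *
          (LinearMap.toMatrix b b (h : F →ₗ[ℝ] F)) := by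
      ext i j
      rw [Matrix.gram_apply, h1 i, h1 j, sum_inner, Matrix.mul_apply]
      simp_rw [inner_sum, inner_smul_left, inner_smul_right, Matrix.mul_apply, Matrix.transpose_apply,
        Matrix.gram_apply, Finset.sum_mul]
      rw [Finset.sum_comm]
      refine Finset.sum_congr rfl fun a _ => Finset.sum_congr rfl fun b _ => ?_
      simp
      ring
    rw [vsq, h3, Matrix.det_mul, Matrix.det_mul, Matrix.det_transpose, LinearMap.det_toMatrix, vsq]
    ring
  · haveI : IsEmpty ι := not_nonempty_iff.1 hι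
    have h0 : Module.finrank ℝ F = 0 := by rw [← hc, Fintype.card_eq_zero]
    have h1 : LinearMap.det (h : F →ₗ[ℝ] F) = 1 := LinearMap.det_eq_one_of_finrank_eq_zero h0 _
    rw [h1, vsq, vsq, Matrix.det_isEmpty, Matrix.det_isEmpty]
    norm_num

theorem TT_mul (sg : κ → Bool) (T0 : (ι → ℤ) →ₗ[ℤ] Cop κ E) (h g : GE E) :
    TT sg T0 (h * g) = cmp (rep sg h) (TT sg T0 g) := by
  ext1
  simp only [TT, cmp, rep_mul]
  rfl

theorem TT_one (sg : κ → Bool) (T0 : (ι → ℤ) →ₗ[ℤ] Cop κ E) : TT sg T0 1 = T0 := by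
  ext1
  simp only [TT, cmp, rep_one]
  rfl

end

end LatN
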