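import Pool.Agent.Lib.LatN.GramDiag
import Pool.Agent.Lib.LatN.ExpOp

/-!
# VsqExp: volumes under exponentials

`vsq (exp A v) ≥ exp (2 dlog A v) vsq v`. Proof: `gram_diag` with `h = exp A` gives an orthonormal
family `f` with the same span and `vsq (h v) = ∏ ‖exp A f_i‖² · vsq v`; `eU_jensen` gives
`‖exp A f_i‖² ≥ exp (2 ⟪A f_i, f_i⟫)`, and `∑ ⟪A f_i, f_i⟫ = dlog A v` by `dlog_eq`.
-/

namespace LatN

variable {F : Type*} [NormedAddCommGroup F] [InnerProductSpace ℝ F] [FiniteDimensional ℝ F]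
variable {α : Type*} [Fintype α] [DecidableEq α]

theorem vsq_exp_ge {v : α → F} (hv : LinearIndependent ℝ v) {A : F →L[ℝ] F}
    (hA : IsSelfAdjoint A) :
    Real.exp (2 * dlog A v) * vsq v ≤
      vsq (fun i => ((eU A : GE F) : F →L[ℝ] F) (v i)) := by
  obtain ⟨f, hf, hs, hp⟩ := gram_diag hv ((eU A : GE F) : F →L[ℝ] F)
  rw [hp, dlog_eq hv A hf hs, Finset.mul_sum, Real.exp_sum]
  refine mul_le_mul_of_nonneg_right ?_ (vsq_nonneg v)
  exact Finset.prod_le_prod (fun i _ => (Real.exp_pos _).le)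
    (fun i _ => eU_jensen hA (hf.norm_eq_one i))

end LatN
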