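import Pool.Agent.Lib.LatN.Pot
import Pool.Agent.Lib.LatN.RepM
import Pool.Agent.Lib.LatN.VsqExp

/-!
# Sel: continuous selection of push-out directions

Proofs. Write `T_g = TT sg T0 g`, `Th g = Th C0 𝒰 sg T0 g`, `n = finrank ℝ E ≥ 2`.
* `good_convex`: all conditions are linear in `X` (`dlog_add`, `dlog_smul`, `drep_add`,
  `drep_smul`, `inner_add_left`, `map_add` of the trace), except the norm bound, which is convex,
  and self-adjointness, which is a subspace.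
* `exists_simple`: for a unit vector `z` choose a unit vector `u ⊥ z` (`n ≥ 2`) and
  `X v = n ⟪u, v⟫ u - v`: self-adjoint, trace `n - n = 0`, `‖X‖ ≤ n + 1`, `⟪X z, z⟫ = -1`.
* `near_mono`: for `g` near `g₀` (precisely if `‖g g₀⁻¹‖, ‖g₀ g⁻¹‖ ≤ exp a`) one has
  `|Th g - Th g₀| ≤ N a` and `|theta T_g U - theta T_{g₀} U| ≤ N a` for all `U` (`TT_mul` with
  `h = g g₀⁻¹`, `norm_rep_le`, `theta_cmp`, `Theta_cmp` with `h = repU sg (g g₀⁻¹)`).
* `good_local`: let `C1, c₀, δ` be the constants of `XEX`; take `c = max c₀ (n + 1)` (and `1 ≤ c`).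
  Let `z = g₀ x / ‖g₀ x‖`.
  If `C1 ≤ Th g₀`, take `X` from `XEX`. If `Th g₀ < C1` take `X` from `exists_simple`. Then for `g`
  near `g₀`:
  - `⟪X g x, g x⟫ ≤ -(1/2) ‖g x‖²`: at `g₀` the left side is `≤ -‖g₀ x‖² < -(1/2) ‖g₀ x‖²` and
    both sides are continuous in `g`;
  - if `Th g₀ < C1` then `Th g < C1 + 1` near `g₀` and the last condition is void;
  - if `C1 ≤ Th g₀`: let `𝒞` be the finite set of `U ∈ 𝒰` with
    `Th g₀ - C0/4 ≤ theta T_{g₀} U` (`near_finite`). For `g` close to `g₀` (`N a ≤ C0/16`) every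
    `U ∈ 𝒰` with `Th g - C0/8 ≤ theta T_g U` lies in `𝒞`. For every `U ∈ 𝒞` the function
    `g ↦ dlog (drep sg X) (T_g ∘ ubas U)` is continuous at `g₀` (`dlog_continuousAt`,
    `rep_continuous`, independence by `emb_li`, `ubas_li`, `emb_cmp`) with value `≥ δ` there, so
    it is `≥ δ/2` near `g₀`; `𝒞` is finite (`Filter.eventually_all_finite`).
  The set of `g` with `‖g g₀⁻¹‖, ‖g₀ g⁻¹‖ ≤ exp a` is a neighbourhood of `g₀` for `a > 0`
  (topological group, continuity of the norm, value `‖1‖ ≤ 1 < exp a` at `g₀`).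
* `good_path`: `exists_continuous_forall_mem_convex_of_local_const` on `unitInterval`.
-/

open scoped Topology

namespace LatN

variable {E : Type*} [NormedAddCommGroup E] [InnerProductSpace ℝ E] [FiniteDimensional ℝ E]
variable {κ : Type*} [Fintype κ] [DecidableEq κ] {ι : Type*} [Fintype ι] [DecidableEq ι]

theorem good_convex (C0 : ℝ) (𝒰 : Set (Submodule ℤ (ι → ℤ))) (sg : κ → Bool)
    (T0 : (ι → ℤ) →ₗ[ℤ] Cop κ E) (C1 c δ : ℝ) (x : E) (g : GE E) :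
    Convex ℝ (Good C0 𝒰 sg T0 C1 c δ x g) := by
  rintro X ⟨hX1, hX2, hX3, hX4, hX5⟩ Y ⟨hY1, hY2, hY3, hY4, hY5⟩ a b ha hb hab
  refine ⟨(IsSelfAdjoint.smul (IsSelfAdjoint.all a) hX1).add
    (IsSelfAdjoint.smul (IsSelfAdjoint.all b) hY1), ?_, ?_, ?_, ?_⟩
  · have h1 : ((a • X + b • Y : E →L[ℝ] E) : E →ₗ[ℝ] E) =
        a • (X : E →ₗ[ℝ] E) + b • (Y : E →ₗ[ℝ] E) := rfl
    rw [h1, map_add, map_smul, map_smul, hX2, hY2, smul_zero, smul_zero, add_zero]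
  · calc ‖a • X + b • Y‖ ≤ ‖a • X‖ + ‖b • Y‖ := norm_add_le _ _
      _ = a * ‖X‖ + b * ‖Y‖ := by
        rw [norm_smul, norm_smul, Real.norm_of_nonneg ha, Real.norm_of_nonneg hb]
      _ ≤ a * c + b * c := add_le_add (mul_le_mul_of_nonneg_left hX3 ha) (mul_le_mul_of_nonneg_left hY3 hb)
      _ = c := by rw [← add_mul, hab, one_mul]
  · have h1 : (a • X + b • Y) ((g : E →L[ℝ] E) x) =
        a • X ((g : E →L[ℝ] E) x) + b • Y ((g : E →L[ℝ] E) x) := rfl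
    rw [h1, inner_add_left, real_inner_smul_left, real_inner_smul_left]
    have h2 := mul_le_mul_of_nonneg_left hX4 ha
    have h3 := mul_le_mul_of_nonneg_left hY4 hb
    have h4 : -(1 / 2) * ‖(g : E →L[ℝ] E) x‖ ^ 2 =
        a * (-(1 / 2) * ‖(g : E →L[ℝ] E) x‖ ^ 2) + b * (-(1 / 2) * ‖(g : E →L[ℝ] E) x‖ ^ 2) := by
      rw [← add_mul, hab, one_mul]
    rw [h4]
    exact add_le_add h2 h3
  · intro hC U hU hth
    have h2 := mul_le_mul_of_nonneg_left (hX5 hC U hU hth) ha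
    have h3 := mul_le_mul_of_nonneg_left (hY5 hC U hU hth) hb
    rw [drep_add, drep_smul, drep_smul, dlog_add, dlog_smul, dlog_smul]
    have h4 : δ / 2 = a * (δ / 2) + b * (δ / 2) := by rw [← add_mul, hab, one_mul]
    rw [h4]
    exact add_le_add h2 h3

theorem exists_simple (hn : 2 ≤ Module.finrank ℝ E) (z : E) (hz : ‖z‖ = 1) :
    ∃ X : E →L[ℝ] E, IsSelfAdjoint X ∧ LinearMap.trace ℝ E (X : E →ₗ[ℝ] E) = 0 ∧
      ‖X‖ ≤ Module.finrank ℝ E + 1 ∧ inner ℝ (X z) z ≤ -1 := by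
  obtain ⟨u, hu, huz⟩ : ∃ u : E, ‖u‖ = 1 ∧ inner ℝ u z = 0 := by
    have h1 : (ℝ ∙ z)ᗮ ≠ ⊥ := by
      intro h
      rw [Submodule.orthogonal_eq_bot_iff] at h
      have h2 := finrank_span_le_card (R := ℝ) ({z} : Set E)
      rw [h, finrank_top] at h2
      simp at h2
      omega
    obtain ⟨w, hw, hw0⟩ := Submodule.exists_mem_ne_zero_of_ne_bot h1
    have hw1 : inner ℝ w z = 0 := by
      rw [real_inner_comm]
      exact (Submodule.mem_orthogonal_singleton_iff_inner_right).1 hw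
    refine ⟨‖w‖⁻¹ • w, ?_, ?_⟩
    · rw [norm_smul, norm_inv, norm_norm, inv_mul_cancel₀ (norm_ne_zero_iff.2 hw0)]
    · rw [real_inner_smul_left, hw1, mul_zero]
  let A : E →L[ℝ] E := (innerSL ℝ u).smulRight u
  have hA : ∀ v, A v = inner ℝ u v • u := fun v => rfl
  have huu : inner ℝ u u = 1 := by rw [real_inner_self_eq_norm_sq, hu, one_pow]
  let n : ℝ := Module.finrank ℝ E
  have hX : ∀ v, (n • A - ContinuousLinearMap.id ℝ E) v = (n * inner ℝ u v) • u - v := by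
    intro v
    show n • A v - v = _
    rw [hA, smul_smul]
  refine ⟨n • A - ContinuousLinearMap.id ℝ E, ?_, ?_, ?_, ?_⟩
  · rw [ContinuousLinearMap.isSelfAdjoint_iff_isSymmetric]
    intro v w
    show inner ℝ ((n • A - ContinuousLinearMap.id ℝ E) v) w =
      inner ℝ v ((n • A - ContinuousLinearMap.id ℝ E) w)
    rw [hX, hX, inner_sub_left, inner_sub_right, real_inner_smul_left, real_inner_smul_right,
      real_inner_comm u v]
    ring
  · have h1 : ((n • A - ContinuousLinearMap.id ℝ E : E →L[ℝ] E) : E →ₗ[ℝ] E) =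
        n • (((innerSL ℝ u : E →L[ℝ] ℝ) : E →ₗ[ℝ] ℝ).smulRight u) - LinearMap.id := rfl
    rw [h1, map_sub, map_smul, LinearMap.trace_smulRight, LinearMap.trace_id]
    show n • inner ℝ u u - n = 0
    rw [huu, smul_eq_mul, mul_one, sub_self]
  · have h1 : ‖A‖ ≤ 1 := by
      refine ContinuousLinearMap.opNorm_le_bound _ zero_le_one fun v => ?_
      rw [hA, norm_smul, hu, mul_one, one_mul]
      calc ‖inner ℝ u v‖ ≤ ‖u‖ * ‖v‖ := norm_inner_le_norm u v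
        _ = ‖v‖ := by rw [hu, one_mul]
    have hn0 : 0 ≤ n := Nat.cast_nonneg _
    calc ‖n • A - ContinuousLinearMap.id ℝ E‖ ≤ ‖n • A‖ + ‖ContinuousLinearMap.id ℝ E‖ := norm_sub_le _ _
      _ ≤ n + 1 := by
        refine add_le_add ?_ ContinuousLinearMap.norm_id_le
        rw [norm_smul, Real.norm_of_nonneg hn0]
        calc n * ‖A‖ ≤ n * 1 := mul_le_mul_of_nonneg_left h1 hn0
          _ = n := mul_one n
  · rw [hX, huz, mul_zero, zero_smul, zero_sub, inner_neg_left, real_inner_self_eq_norm_sq, hz, one_pow]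

theorem near_mono {sg : κ → Bool} {T0 : (ι → ℤ) →ₗ[ℤ] Cop κ E} (hT : Emb T0) {C0 : ℝ}
    (hC : 0 ≤ C0) {𝒰 : Set (Submodule ℤ (ι → ℤ))} (h𝒰 : Adm 𝒰) {g g0 : GE E} {a : ℝ}
    (h1 : ‖((g * g0⁻¹ : GE E) : E →L[ℝ] E)‖ ≤ Real.exp a)
    (h2 : ‖((g0 * g⁻¹ : GE E) : E →L[ℝ] E)‖ ≤ Real.exp a) :
    |Th C0 𝒰 sg T0 g - Th C0 𝒰 sg T0 g0| ≤ Fintype.card ι * a ∧
    ∀ U, |theta C0 (TT sg T0 g) U - theta C0 (TT sg T0 g0) U| ≤ Fintype.card ι * a := by
  have e1 : TT sg T0 g = cmp ((repU sg (g * g0⁻¹) : GE (Cop κ E)) : Cop κ E →L[ℝ] Cop κ E)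
      (TT sg T0 g0) := by
    rw [repU_val, ← TT_mul, inv_mul_cancel_right]
  have e2 : Emb (TT sg T0 g0) := emb_cmp hT (repU sg g0)
  have e3 : ((g * g0⁻¹)⁻¹ : GE E) = g0 * g⁻¹ := by group
  have h3 : ‖((repU sg (g * g0⁻¹) : GE (Cop κ E)) : Cop κ E →L[ℝ] Cop κ E)‖ ≤ Real.exp a := by
    rw [repU_val]
    refine (norm_rep_le sg _).trans (max_le h1 ?_)
    rw [e3]
    exact h2
  have h4 : ‖(((repU sg (g * g0⁻¹))⁻¹ : GE (Cop κ E)) : Cop κ E →L[ℝ] Cop κ E)‖ ≤ Real.exp a := by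
    rw [repU_inv, repU_val]
    refine (norm_rep_le sg _).trans (max_le ?_ ?_)
    · rw [e3]
      exact h2
    · rw [inv_inv]
      exact h1
  unfold Th
  rw [e1]
  exact ⟨Theta_cmp e2 hC h𝒰 _ h3 h4, fun U => theta_cmp e2 C0 U _ h3 h4⟩

omit [FiniteDimensional ℝ E] in
private theorem near_ev (g0 : GE E) {a : ℝ} (ha : 0 < a) :
    ∀ᶠ g in 𝓝 g0, ‖((g * g0⁻¹ : GE E) : E →L[ℝ] E)‖ ≤ Real.exp a ∧
      ‖((g0 * g⁻¹ : GE E) : E →L[ℝ] E)‖ ≤ Real.exp a := by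
  have h1 : ‖(1 : E →L[ℝ] E)‖ < Real.exp a :=
    lt_of_le_of_lt ContinuousLinearMap.norm_id_le (Real.one_lt_exp_iff.2 ha)
  have c1 : Continuous fun g : GE E => ‖((g * g0⁻¹ : GE E) : E →L[ℝ] E)‖ := by
    have : Continuous fun g : GE E => (g : E →L[ℝ] E) * ((g0⁻¹ : GE E) : E →L[ℝ] E) :=
      Units.continuous_val.mul continuous_const
    exact this.norm
  have c2 : Continuous fun g : GE E => ‖((g0 * g⁻¹ : GE E) : E →L[ℝ] E)‖ := by
    have : Continuous fun g : GE E => (g0 : E →L[ℝ] E) * ((g⁻¹ : GE E) : E →L[ℝ] E) :=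
      continuous_const.mul Units.continuous_coe_inv
    exact this.norm
  have d1 : ‖((g0 * g0⁻¹ : GE E) : E →L[ℝ] E)‖ < Real.exp a := by
    rw [mul_inv_cancel, Units.val_one]
    exact h1
  filter_upwards [c1.continuousAt.eventually (Iio_mem_nhds d1),
    c2.continuousAt.eventually (Iio_mem_nhds d1)] with g hg1 hg2
  exact ⟨le_of_lt hg1, le_of_lt hg2⟩

theorem good_local {sg : κ → Bool} {T0 : (ι → ℤ) →ₗ[ℤ] Cop κ E} (hT : Emb T0) {C0 : ℝ}
    (hC : 0 < C0) {𝒰 : Set (Submodule ℤ (ι → ℤ))} (h𝒰 : Adm 𝒰)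
    (hn : 2 ≤ Module.finrank ℝ E) (hX : XEX C0 𝒰 sg T0) :
    ∃ C1 c δ : ℝ, 0 < δ ∧ 1 ≤ c ∧ ∀ x : E, x ≠ 0 → ∀ g0 : GE E, detu g0 = 1 →
      ∃ X : E →L[ℝ] E, ∀ᶠ g in 𝓝 g0, X ∈ Good C0 𝒰 sg T0 C1 c δ x g := by
  obtain ⟨C1, c0, δ, hδ, hXEX⟩ := hX
  refine ⟨C1, max (max c0 (Module.finrank ℝ E + 1)) 1, δ, hδ, le_max_right _ _, ?_⟩
  intro x hx g0 hg0
  -- the vector
  have hgx : (g0 : E →L[ℝ] E) x ≠ 0 := by
    intro h0
    apply hx
    have h1 : ((g0⁻¹ : GE E) : E →L[ℝ] E) ((g0 : E →L[ℝ] E) x) = x := by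
      show ((g0⁻¹ * g0 : GE E) : E →L[ℝ] E) x = x
      rw [inv_mul_cancel]
      rfl
    rw [← h1, h0, map_zero]
  have hpos : 0 < ‖(g0 : E →L[ℝ] E) x‖ := norm_pos_iff.2 hgx
  obtain ⟨z, hz⟩ : ∃ z : E, z = ‖(g0 : E →L[ℝ] E) x‖⁻¹ • (g0 : E →L[ℝ] E) x := ⟨_, rfl⟩
  have hz1 : ‖z‖ = 1 := by
    rw [hz, norm_smul, norm_inv, norm_norm, inv_mul_cancel₀ hpos.ne']
  have hgz : (g0 : E →L[ℝ] E) x = ‖(g0 : E →L[ℝ] E) x‖ • z := by
    rw [hz, smul_smul, mul_inv_cancel₀ hpos.ne', one_smul]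
  -- the inner product condition
  have hinner : ∀ X : E →L[ℝ] E, inner ℝ (X z) z ≤ -1 → ∀ᶠ g : GE E in 𝓝 g0,
      inner ℝ (X ((g : E →L[ℝ] E) x)) ((g : E →L[ℝ] E) x) ≤ -(1 / 2) * ‖(g : E →L[ℝ] E) x‖ ^ 2 := by
    intro X hXz
    have cx : Continuous fun g : GE E => (g : E →L[ℝ] E) x :=
      Units.continuous_val.clm_apply continuous_const
    have cF : Continuous fun g : GE E => inner ℝ (X ((g : E →L[ℝ] E) x)) ((g : E →L[ℝ] E) x) +
        (1 / 2) * ‖(g : E →L[ℝ] E) x‖ ^ 2 :=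
      ((X.continuous.comp cx).inner cx).add (continuous_const.mul (cx.norm.pow 2))
    have h0 : inner ℝ (X ((g0 : E →L[ℝ] E) x)) ((g0 : E →L[ℝ] E) x) +
        (1 / 2) * ‖(g0 : E →L[ℝ] E) x‖ ^ 2 < 0 := by
      have h1 : inner ℝ (X ((g0 : E →L[ℝ] E) x)) ((g0 : E →L[ℝ] E) x) =
          ‖(g0 : E →L[ℝ] E) x‖ ^ 2 * inner ℝ (X z) z := by
        conv_lhs => rw [hgz]
        rw [map_smul, real_inner_smul_left, real_inner_smul_right]
        ring
      rw [h1]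
      have h2 : 0 < ‖(g0 : E →L[ℝ] E) x‖ ^ 2 := by positivity
      nlinarith
    filter_upwards [cF.continuousAt.eventually (Iio_mem_nhds h0)] with g hg
    have hg' : inner ℝ (X ((g : E →L[ℝ] E) x)) ((g : E →L[ℝ] E) x) +
        (1 / 2) * ‖(g : E →L[ℝ] E) x‖ ^ 2 < 0 := hg
    linarith
  -- closeness
  have hN : (0 : ℝ) ≤ Fintype.card ι := Nat.cast_nonneg _
  obtain ⟨a, ha0, ha1, ha2⟩ : ∃ a : ℝ, 0 < a ∧ (Fintype.card ι : ℝ) * a ≤ C0 / 16 ∧
      (Fintype.card ι : ℝ) * a ≤ 1 / 2 := by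
    refine ⟨min (C0 / 16) (1 / 2) / ((Fintype.card ι : ℝ) + 1), by positivity, ?_, ?_⟩
    · rw [mul_div_assoc', div_le_iff₀ (by positivity)]
      have h1 : min (C0 / 16) (1 / 2) ≤ C0 / 16 := min_le_left _ _
      have h2 : 0 < C0 / 16 := by positivity
      nlinarith
    · rw [mul_div_assoc', div_le_iff₀ (by positivity)]
      have h1 : min (C0 / 16) (1 / 2) ≤ 1 / 2 := min_le_right _ _
      nlinarith
  have hnear := near_ev g0 ha0
  rcases le_or_gt C1 (Th C0 𝒰 sg T0 g0) with hcase | hcase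
  · obtain ⟨X, hXs, hXt, hXn, hXz, hXd⟩ := hXEX g0 hg0 hcase z hz1
    refine ⟨X, ?_⟩
    have hE : Emb (TT sg T0 g0) := emb_cmp hT (repU sg g0)
    have hfin : {U : Submodule ℤ (ι → ℤ) | Th C0 𝒰 sg T0 g0 - C0 / 4 ≤ theta C0 (TT sg T0 g0) U}.Finite :=
      near_finite hE hC.le _
    have hev : ∀ᶠ g : GE E in 𝓝 g0,
        ∀ U ∈ {U : Submodule ℤ (ι → ℤ) | Th C0 𝒰 sg T0 g0 - C0 / 4 ≤ theta C0 (TT sg T0 g0) U},
          U ∈ 𝒰 → δ / 2 ≤ dlog (drep sg X) (fun i => TT sg T0 g (ubas U i)) := by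
      rw [Filter.eventually_all_finite hfin]
      intro U hU
      by_cases hU𝒰 : U ∈ 𝒰
      · have h1 : δ / 2 < dlog (drep sg X) (fun i => TT sg T0 g0 (ubas U i)) := by
          have := hXd U hU𝒰 hU
          linarith
        have h2 : ContinuousAt (fun g : GE E => dlog (drep sg X) (fun i => TT sg T0 g (ubas U i))) g0 := by
          refine dlog_continuousAt (drep sg X) (fun g i => TT sg T0 g (ubas U i)) g0
            (emb_li hE (ubas_li U)) fun i => ?_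
          have h3 : Continuous fun g : GE E => rep sg g (T0 (ubas U i)) :=
            (rep_continuous sg).clm_apply continuous_const
          exact h3.continuousAt
        filter_upwards [h2.eventually (Ioi_mem_nhds h1)] with g hg _
        exact le_of_lt hg
      · exact Filter.Eventually.of_forall fun g h => absurd h hU𝒰
    filter_upwards [hinner X hXz, hnear, hev] with g hg1 hg2 hg3
    obtain ⟨hm1, hm2⟩ := near_mono (sg := sg) hT hC.le h𝒰 hg2.1 hg2.2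
    refine ⟨hXs, hXt, hXn.trans ((le_max_left _ _).trans (le_max_left _ _)), hg1, ?_⟩
    intro _ U hU hth
    refine hg3 U ?_ hU
    show Th C0 𝒰 sg T0 g0 - C0 / 4 ≤ theta C0 (TT sg T0 g0) U
    have h5 := abs_le.1 hm1
    have h6 := abs_le.1 (hm2 U)
    linarith
  · obtain ⟨X, hXs, hXt, hXn, hXz⟩ := exists_simple hn z hz1
    refine ⟨X, ?_⟩
    filter_upwards [hinner X hXz, hnear] with g hg1 hg2
    obtain ⟨hm1, _⟩ := near_mono (sg := sg) hT hC.le h𝒰 hg2.1 hg2.2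
    refine ⟨hXs, hXt, hXn.trans ((le_max_right _ _).trans (le_max_left _ _)), hg1, ?_⟩
    intro h1
    have h5 := abs_le.1 hm1
    exfalso
    linarith

theorem good_path {sg : κ → Bool} {T0 : (ι → ℤ) →ₗ[ℤ] Cop κ E} {C0 : ℝ}
    {𝒰 : Set (Submodule ℤ (ι → ℤ))} {C1 c δ : ℝ} {x : E}
    (hloc : ∀ g0 : GE E, detu g0 = 1 →
      ∃ X : E →L[ℝ] E, ∀ᶠ g in 𝓝 g0, X ∈ Good C0 𝒰 sg T0 C1 c δ x g)
    {p : unitInterval → GE E} (hp : Continuous p) (hd : ∀ s, detu (p s) = 1) :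
    ∃ X : C(unitInterval, E →L[ℝ] E), ∀ s, X s ∈ Good C0 𝒰 sg T0 C1 c δ x (p s) := by
  refine exists_continuous_forall_mem_convex_of_local_const
    (t := fun s => Good C0 𝒰 sg T0 C1 c δ x (p s)) (fun s => good_convex _ _ _ _ _ _ _ _ _) ?_
  intro s
  obtain ⟨X, hX⟩ := hloc (p s) (hd s)
  exact ⟨X, hp.continuousAt.eventually hX⟩

end LatN
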