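import Pool.Agent.Lib.LatN.ArBasic

/-!
# ShortV: bounded thinness gives bounded lattice bases

Let `T_g = TT sg T0 g`, `N = card ι`.
* `cov_top_TT`: `cov_top`, `vsq_det` (`h = rep sg g`, `v = T0 e_i`, `card ι = dim Cop`), `det_rep`.
* `short_vec`. Let `R₀` be a finite subset of `R` with the same real span as `R` (finite
  dimension), `c_R ≥ 1` a bound for the operator norms of `mix c`, `c ∈ R₀` (constant `κ` nonempty is
  not needed). Let `Th g ≤ C`, `x ≠ 0`, and let `U` be the saturation of the `ℤ`-span of all `y` with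
  `T0 y = mix c (T0 x)`, `c ∈ R` (`R` is closed under products and
  `mix c (mix c' v) = mix (c' * c) v`, so `U ∈ RU T0 R`; the same argument as in `adm_RU` for the
  saturation). `x ∈ U` (`mix 1 = id`), so `r = finrank U ≥ 1`. The real span `rsp T_g U` is spanned by
  `mix c (T_g x)`, `c ∈ R` (`mix_rep`), hence by those with `c ∈ R₀` (linearity in `c`), so `r` of
  the vectors `T_g y_c`, `c ∈ R₀`, form a basis of it (`exists_linearIndependent`, `finrank_rsp`);
  the corresponding `y_c ∈ U` are linearly independent over `ℤ`, so by `cov_le_of_li` and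
  `vsq_hadamard` `cov T_g U ≤ ∏ ‖mix c (T_g x)‖ ≤ (c_R ‖T_g x‖)^r`. Since `theta T_g U ≤ Th g ≤ C`
  (`le_Theta`): `- r log (c_R ‖T_g x‖) ≤ C + C0 r (N - r) ≤ |C| + C0 N²`, so, as `r ≥ 1`,
  `c_R ‖T_g x‖ ≥ exp (-(|C| + C0 N²))`.
* `bdd_basis`: `short_vec` gives `ε ≤ 1`; `exists_red_basis` for `U = ⊤` gives a basis of `⊤`, hence of
  `ℤ^ι`, with `∏ ‖T_g b_i‖ ≤ 2^(N²) cov T_g ⊤ = 2^(N²) cov T0 ⊤`, and every factor is `≥ ε`, so
  `‖T_g b_i‖ ≤ 2^(N²) cov T0 ⊤ / ε^(N-1) ≤ 2^(N²) cov T0 ⊤ / ε^N`. (Reindex `Fin (finrank ⊤)` by `ι`.)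
-/

open scoped Topology

namespace LatN

variable {E : Type*} [NormedAddCommGroup E] [InnerProductSpace ℝ E] [FiniteDimensional ℝ E]
variable {κ : Type*} [Fintype κ] [DecidableEq κ] {ι : Type*} [Fintype ι] [DecidableEq ι]

omit [DecidableEq κ] in
private theorem finrank_Cop : Module.finrank ℝ (Cop κ E) = Fintype.card κ * Module.finrank ℝ E := by
  rw [(WithLp.linearEquiv 2 ℝ (κ → E)).finrank_eq, Module.finrank_pi_fintype]
  simp

theorem cov_top_TT {sg : κ → Bool} {T0 : (ι → ℤ) →ₗ[ℤ] Cop κ E} {R : Subring (Matrix κ κ ℝ)}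
    (h : ArD sg T0 R) {g : GE E} (hg : detu g = 1) : cov (TT sg T0 g) ⊤ = cov T0 ⊤ := by
  rw [cov_top, cov_top]
  congr 1
  have h1 := vsq_det h.emb (h.card_eq.trans finrank_Cop.symm) (rep sg g)
  rw [det_rep sg hg, one_pow, one_mul] at h1
  exact h1

omit [FiniteDimensional ℝ E] [DecidableEq κ] in
private theorem mix_apply' (c : Matrix κ κ ℝ) (v : Cop κ E) (k : κ) :
    mix c v k = ∑ j, c j k • v j := rfl

omit [FiniteDimensional ℝ E] [DecidableEq κ] in
private theorem mix_mix (c c' : Matrix κ κ ℝ) (v : Cop κ E) : mix c (mix c' v) = mix (c' * c) v := by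
  ext k
  rw [mix_apply', mix_apply']
  simp only [mix_apply', Matrix.mul_apply, Finset.smul_sum, Finset.sum_smul, smul_smul]
  rw [Finset.sum_comm]
  refine Finset.sum_congr rfl fun i _ => Finset.sum_congr rfl fun j _ => ?_
  rw [mul_comm]

omit [FiniteDimensional ℝ E] in
private theorem mix_one (v : Cop κ E) : mix (1 : Matrix κ κ ℝ) v = v := by
  ext k
  rw [mix_apply']
  simp [Matrix.one_apply]

/-- `mix c v` as a linear function of `c` -/
private noncomputable def mixL (v : Cop κ E) : Matrix κ κ ℝ →ₗ[ℝ] Cop κ E where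
  toFun c := mix c v
  map_add' c d := by
    ext k
    rw [PiLp.add_apply, mix_apply', mix_apply', mix_apply', ← Finset.sum_add_distrib]
    refine Finset.sum_congr rfl fun j _ => ?_
    rw [Matrix.add_apply, add_smul]
  map_smul' a c := by
    ext k
    rw [RingHom.id_apply, PiLp.smul_apply, mix_apply', mix_apply', Finset.smul_sum]
    refine Finset.sum_congr rfl fun j _ => ?_
    rw [Matrix.smul_apply, smul_eq_mul, mul_smul]

theorem short_vec {sg : κ → Bool} {T0 : (ι → ℤ) →ₗ[ℤ] Cop κ E} {R : Subring (Matrix κ κ ℝ)}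
    (h : ArD sg T0 R) {C0 : ℝ} (hC : 0 ≤ C0) (C : ℝ) :
    ∃ ε > (0 : ℝ), ∀ g : GE E, detu g = 1 → Th C0 (RU T0 R) sg T0 g ≤ C →
      ∀ x : ι → ℤ, x ≠ 0 → ε ≤ ‖TT sg T0 g x‖ := by
  -- a finite subset of the ring with the same real span
  obtain ⟨b, hbR, hbspan, hbli⟩ := exists_linearIndependent ℝ (R : Set (Matrix κ κ ℝ))
  have hbfin : b.Finite := hbli.setFinite
  obtain ⟨K, hK1, hK⟩ : ∃ K : ℝ, 1 ≤ K ∧ ∀ c ∈ b, ∀ v : Cop κ E, ‖mix c v‖ ≤ K * ‖v‖ := by
    obtain ⟨M, hM⟩ := (hbfin.image fun c =>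
      ‖LinearMap.toContinuousLinearMap (mix c : Cop κ E →ₗ[ℝ] Cop κ E)‖).bddAbove
    refine ⟨max M 1, le_max_right _ _, fun c hc v => ?_⟩
    refine ((LinearMap.toContinuousLinearMap (mix c : Cop κ E →ₗ[ℝ] Cop κ E)).le_opNorm v).trans ?_
    exact mul_le_mul_of_nonneg_right ((hM ⟨c, hc, rfl⟩).trans (le_max_left _ _)) (norm_nonneg _)
  have hK0 : 0 < K := by linarith
  set D : ℝ := |C| + C0 * (Fintype.card ι : ℝ) ^ 2 with hD
  have hD0 : 0 ≤ D := by positivity
  refine ⟨Real.exp (-D) / K, by positivity, fun g hg hTh x hx => ?_⟩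
  set T := TT sg T0 g with hTdef
  have hTemb : Emb T := emb_TT h.emb g
  have hTx : T x ≠ 0 := by
    intro h0
    exact hx (emb_inj hTemb (by rw [h0, map_zero]))
  have hTxn : 0 < ‖T x‖ := norm_pos_iff.2 hTx
  -- the stable saturated subgroup generated by `x`
  let S : Set (ι → ℤ) := {y | ∃ c ∈ R, mix c (T0 x) = T0 y}
  let U : Submodule ℤ (ι → ℤ) := satur (Submodule.span ℤ S)
  have hxS : x ∈ S := ⟨1, R.one_mem, mix_one _⟩
  have hSU : ∀ y ∈ S, y ∈ U := fun y hy => le_satur _ (Submodule.subset_span hy)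
  have hTmix : ∀ c ∈ R, ∀ y, mix c (T0 x) = T0 y → T y = mix c (T x) := by
    intro c hc y hy
    rw [hTdef, TT_apply, TT_apply, ← hy, mix_rep sg (h.block c hc)]
  have hUR : U ∈ RU T0 R := by
    refine ⟨satur_sat _, fun c hc z hz y hy => ?_⟩
    have key : ∀ w ∈ Submodule.span ℤ S, ∃ w' ∈ Submodule.span ℤ S, mix c (T0 w) = T0 w' := by
      intro w hw
      induction hw using Submodule.span_induction with
      | mem w hw =>
        obtain ⟨c', hc', hw⟩ := hw
        obtain ⟨y', hy'⟩ := h.stab (c' * c) (R.mul_mem hc' hc) x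
        exact ⟨y', Submodule.subset_span ⟨c' * c, R.mul_mem hc' hc, hy'⟩, by rw [← hw, mix_mix, hy']⟩
      | zero => exact ⟨0, Submodule.zero_mem _, by rw [map_zero, map_zero]⟩
      | add u v _ _ hu hv =>
        obtain ⟨u', hu', hu⟩ := hu
        obtain ⟨v', hv', hv⟩ := hv
        exact ⟨u' + v', Submodule.add_mem _ hu' hv', by rw [map_add, map_add, map_add, hu, hv]⟩
      | smul a u _ hu =>
        obtain ⟨u', hu', hu⟩ := hu
        exact ⟨a • u', Submodule.smul_mem _ _ hu', by rw [map_zsmul, map_zsmul, map_zsmul, hu]⟩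
    obtain ⟨k, hk, hkz⟩ := hz
    obtain ⟨w', hw', hw⟩ := key _ hkz
    refine ⟨k, hk, ?_⟩
    have h1 : T0 (k • y) = T0 w' := by
      rw [← hw, map_zsmul, map_zsmul, map_zsmul, hy]
    rw [emb_inj h.emb h1]
    exact hw'
  have hxU : x ∈ U := hSU x hxS
  have hr1 : 1 ≤ Module.finrank ℤ U := by
    rw [Nat.one_le_iff_ne_zero, Ne, Submodule.finrank_eq_zero]
    intro h0
    rw [h0] at hxU
    exact hx ((Submodule.mem_bot ℤ).1 hxU)
  -- the real span
  let V : Set (Cop κ E) := (fun c => mix c (T x)) '' b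
  have hVfin : V.Finite := hbfin.image _
  have hspan : rsp T U = Submodule.span ℝ V := by
    apply le_antisymm
    · rw [rsp, Submodule.span_le]
      rintro _ ⟨u, hu, rfl⟩
      obtain ⟨k, hk, hku⟩ := hu
      have h1 : ∀ w ∈ Submodule.span ℤ S, T w ∈ Submodule.span ℝ V := by
        intro w hw
        induction hw using Submodule.span_induction with
        | mem w hw =>
          obtain ⟨c, hc, hw⟩ := hw
          rw [hTmix c hc w hw]
          have h2 : c ∈ Submodule.span ℝ b := by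
            rw [hbspan]
            exact Submodule.subset_span hc
          have h3 : mixL (T x) c ∈ (Submodule.span ℝ b).map (mixL (T x)) := ⟨c, h2, rfl⟩
          rw [Submodule.map_span] at h3
          exact h3
        | zero => rw [map_zero]; exact Submodule.zero_mem _
        | add u v _ _ hu hv => rw [map_add]; exact Submodule.add_mem _ hu hv
        | smul a u _ hu =>
          rw [map_zsmul]
          exact zsmul_mem hu a
      have h2 := h1 _ hku
      rw [map_zsmul, ← Int.cast_smul_eq_zsmul ℝ] at h2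
      exact (Submodule.smul_mem_iff _ (Int.cast_ne_zero.2 hk)).1 h2
    · rw [Submodule.span_le]
      rintro _ ⟨c, hc, rfl⟩
      obtain ⟨y, hy⟩ := h.stab c (hbR hc) x
      show mix c (T x) ∈ rsp T U
      rw [← hTmix c (hbR hc) y hy]
      exact Submodule.subset_span ⟨y, hSU y ⟨c, hbR hc, hy⟩, rfl⟩
  obtain ⟨V', hV'V, hV'span, hV'li⟩ := exists_linearIndependent ℝ V
  have hV'fin : V'.Finite := hVfin.subset hV'V
  have : Fintype V' := hV'fin.fintype
  classical
  have hcard : Fintype.card V' = Module.finrank ℤ U := by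
    have h1 : Module.finrank ℝ (Submodule.span ℝ V') = Fintype.card V' := by
      have h2 := finrank_span_eq_card hV'li
      rw [Subtype.range_coe] at h2
      exact h2
    rw [← h1, hV'span, ← hspan, finrank_rsp hTemb]
  have hex : ∀ v : V', ∃ y : ι → ℤ, y ∈ U ∧ T y = v ∧ ‖(v : Cop κ E)‖ ≤ K * ‖T x‖ := by
    rintro ⟨v, hv⟩
    obtain ⟨c, hc, hcv⟩ := hV'V hv
    obtain ⟨y, hy⟩ := h.stab c (hbR hc) x
    refine ⟨y, hSU y ⟨c, hbR hc, hy⟩, ?_, ?_⟩
    · rw [hTmix c (hbR hc) y hy]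
      exact hcv
    · show ‖v‖ ≤ _
      rw [← hcv]
      exact hK c hc _
  choose y hyU hyT hyn using hex
  have hyli : LinearIndependent ℤ y := by
    rw [Fintype.linearIndependent_iff]
    intro a ha i
    have h1 := congrArg T ha
    rw [map_sum, map_zero] at h1
    have h2 := Fintype.linearIndependent_iff.1 hV'li (fun i => (a i : ℝ)) (by
      rw [← h1]
      refine Finset.sum_congr rfl fun j _ => ?_
      rw [map_zsmul, hyT, Int.cast_smul_eq_zsmul]) i
    exact_mod_cast h2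
  have hcov : cov T U ≤ (K * ‖T x‖) ^ (Module.finrank ℤ U) := by
    calc cov T U ≤ Real.sqrt (vsq fun i => T (y i)) := cov_le_of_li hTemb hcard y hyU hyli
      _ ≤ Real.sqrt (∏ i, ‖T (y i)‖ ^ 2) := Real.sqrt_le_sqrt (vsq_hadamard _)
      _ = ∏ i, ‖T (y i)‖ := by
          rw [Finset.prod_pow, Real.sqrt_sq (Finset.prod_nonneg fun _ _ => norm_nonneg _)]
      _ ≤ ∏ _i : V', (K * ‖T x‖) := by
          refine Finset.prod_le_prod (fun _ _ => norm_nonneg _) fun i _ => ?_
          rw [hyT]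
          exact hyn i
      _ = _ := by rw [Finset.prod_const, Finset.card_univ, hcard]
  have hth : theta C0 T U ≤ C := (le_Theta hTemb hC hUR).trans hTh
  have hlog : Real.log (cov T U) ≤ Module.finrank ℤ U * Real.log (K * ‖T x‖) := by
    rw [← Real.log_pow]
    exact Real.log_le_log (cov_pos hTemb U) hcov
  have hrN : (Module.finrank ℤ U : ℝ) ≤ Fintype.card ι := by
    have h1 := Submodule.finrank_le U
    rw [Module.finrank_fintype_fun_eq_card] at h1
    exact_mod_cast h1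
  have hr1' : (1 : ℝ) ≤ Module.finrank ℤ U := by exact_mod_cast hr1
  rw [theta] at hth
  generalize (Module.finrank ℤ U : ℝ) = r at hth hlog hrN hr1'
  have hlow : -D ≤ Real.log (cov T U) := by
    have h1 : r * ((Fintype.card ι : ℝ) - r) ≤ (Fintype.card ι : ℝ) ^ 2 := by nlinarith
    have h2 : C0 * (r * ((Fintype.card ι : ℝ) - r)) ≤ C0 * (Fintype.card ι : ℝ) ^ 2 :=
      mul_le_mul_of_nonneg_left h1 hC
    have h3 := le_abs_self C
    rw [hD]
    linarith
  have hfin : -D ≤ Real.log (K * ‖T x‖) := by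
    by_cases hneg : 0 ≤ Real.log (K * ‖T x‖)
    · linarith
    · push Not at hneg
      nlinarith
  rw [div_le_iff₀ hK0, mul_comm]
  rw [Real.le_log_iff_exp_le (by positivity)] at hfin
  exact hfin

theorem bdd_basis {sg : κ → Bool} {T0 : (ι → ℤ) →ₗ[ℤ] Cop κ E} {R : Subring (Matrix κ κ ℝ)}
    (h : ArD sg T0 R) {C0 : ℝ} (hC : 0 ≤ C0) (C : ℝ) :
    ∃ B : ℝ, ∀ g : GE E, detu g = 1 → Th C0 (RU T0 R) sg T0 g ≤ C →
      ∃ b : Module.Basis ι ℤ (ι → ℤ), ∀ i, ‖TT sg T0 g (b i)‖ ≤ B := by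
  obtain ⟨ε₀, hε₀, hmin₀⟩ := short_vec h hC C
  obtain ⟨ε, hε, hε1, hmin⟩ : ∃ ε > (0 : ℝ), ε ≤ 1 ∧ ∀ g : GE E, detu g = 1 →
      Th C0 (RU T0 R) sg T0 g ≤ C → ∀ x : ι → ℤ, x ≠ 0 → ε ≤ ‖TT sg T0 g x‖ :=
    ⟨min ε₀ 1, lt_min hε₀ one_pos, min_le_right _ _, fun g hg hTh x hx =>
      (min_le_left _ _).trans (hmin₀ g hg hTh x hx)⟩
  refine ⟨2 ^ (Fintype.card ι ^ 2) * cov T0 ⊤ / ε ^ Fintype.card ι, fun g hg hTh => ?_⟩
  obtain ⟨b, hb⟩ := exists_red_basis (emb_TT h.emb g) (⊤ : Submodule ℤ (ι → ℤ))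
  have hcard : Module.finrank ℤ (⊤ : Submodule ℤ (ι → ℤ)) = Fintype.card ι := by
    rw [finrank_top, Module.finrank_fintype_fun_eq_card]
  have hb2 : ∏ i, ‖TT sg T0 g (b i)‖ ≤ (2 : ℝ) ^ (Fintype.card ι ^ 2) * cov T0 ⊤ := by
    rw [cov_top_TT h hg] at hb
    refine hb.trans_eq ?_
    rw [hcard]
  let e : Fin (Module.finrank ℤ (⊤ : Submodule ℤ (ι → ℤ))) ≃ ι :=
    Fintype.equivOfCardEq (by rw [Fintype.card_fin, hcard])
  refine ⟨(b.map Submodule.topEquiv).reindex e, fun i => ?_⟩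
  have h1 : ((b.map Submodule.topEquiv).reindex e) i = (b (e.symm i) : ι → ℤ) := by
    rw [Module.Basis.reindex_apply, Module.Basis.map_apply]
    rfl
  rw [h1, le_div_iff₀ (by positivity)]
  generalize e.symm i = j
  have h2 : ε ^ Fintype.card ι ≤ ∏ l ∈ Finset.univ.erase j, ‖TT sg T0 g (b l)‖ := by
    calc ε ^ Fintype.card ι ≤ ε ^ (Finset.univ.erase j).card := by
          refine pow_le_pow_of_le_one hε.le hε1 ?_
          rw [Finset.card_erase_of_mem (Finset.mem_univ j), Finset.card_univ, Fintype.card_fin, hcard]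
          omega
      _ = ∏ l ∈ Finset.univ.erase j, ε := by rw [Finset.prod_const]
      _ ≤ _ := by
          refine Finset.prod_le_prod (fun _ _ => hε.le) fun l _ => hmin g hg hTh _ ?_
          intro h0
          exact b.ne_zero l (Subtype.ext h0)
  calc ‖TT sg T0 g (b j)‖ * ε ^ Fintype.card ι
      ≤ ‖TT sg T0 g (b j)‖ * ∏ l ∈ Finset.univ.erase j, ‖TT sg T0 g (b l)‖ :=
        mul_le_mul_of_nonneg_left h2 (norm_nonneg _)
    _ = ∏ l, ‖TT sg T0 g (b l)‖ :=
        Finset.mul_prod_erase _ (fun l => ‖TT sg T0 g (b l)‖) (Finset.mem_univ j)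
    _ ≤ _ := hb2

end LatN
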