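import Pool.Agent.Lib.LatN.Sel

/-!
# Step: one step in a push-out direction

Let `N = card ι`, `g' = exp(η X) g`, `X ∈ Good x g`, `0 < η ≤ η₀` where `η₀ > 0` is small depending
only on `N, c, δ, C0`.

(1) `detu g' = 1`: `eU_det` (`η • X` is self-adjoint of trace zero), `detu_mul`.
(2) With `z = g x`: `exp(ηX) z = z + η X z + R z`, `‖R‖ ≤ η² c² exp(η c)` (`eU_sub_le`), and
`‖z + η X z‖² = ‖z‖² + 2 η ⟪X z, z⟫ + η² ‖X z‖² ≤ ‖z‖² (1 - η + η² c²)`, so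
`‖z + η X z‖ ≤ ‖z‖ (1 - η/2 + η² c²/2)` (`sqrt (1+t) ≤ 1 + t/2`), and altogether
`‖g' x‖ ≤ ‖z‖ (1 - η/2 + η² c² (1/2 + exp(η c))) ≤ (1 - η/4) ‖z‖`.
(3) Thinness. `TT_mul`, `eU_blk` (for `η • X`), `drep_smul`: `T_{g'} = exp (η drep X) ∘ T_g`.
Norms: `‖exp (± η X)‖ ≤ exp (η c)` (`eU_norm_le`, `eU_inv`), so by `near_mono` (with `a = η c`)
all potentials change by at most `N η c`.
 If `Th g < C1 + 1`: `Th g' ≤ C1 + 1 + N η c ≤ C1 + 2`.
 If `C1 + 1 ≤ Th g`: let `U ∈ 𝒰` be the maximizer of `theta T_{g'}` (`Theta_attained`). If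
 `theta T_g U < Th g - C0/8` then `Th g' = theta T_{g'} U ≤ Th g - C0/8 + N η c ≤ Th g - η δ/2`.
 Otherwise `dlog (drep X) (T_g ∘ ubas U) ≥ δ/2` and by `vsq_exp_ge` (with `A = η • drep X`,
 `dlog_smul`) `cov T_{g'} U ≥ exp (η δ/2) cov T_g U`, so
 `Th g' = theta T_{g'} U ≤ theta T_g U - η δ/2 ≤ Th g - η δ/2`.
(4) `‖exp (± η X)‖ ≤ exp (η c) ≤ 2`.
-/

open scoped Topology

namespace LatN

variable {E : Type*} [NormedAddCommGroup E] [InnerProductSpace ℝ E] [FiniteDimensional ℝ E]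
variable {κ : Type*} [Fintype κ] [DecidableEq κ] {ι : Type*} [Fintype ι] [DecidableEq ι]

private theorem step_norm {c η : ℝ} (hc : 1 ≤ c) (hη : 0 < η) (h10 : η * c ^ 2 ≤ 1 / 10)
    (hexp : Real.exp (η * c) ≤ 2) (z : E) (X : E →L[ℝ] E) (hXc : ‖X‖ ≤ c)
    (hin : inner ℝ (X z) z ≤ -(1 / 2) * ‖z‖ ^ 2) :
    ‖((eU (η • X) : GE E) : E →L[ℝ] E) z‖ ≤ (1 - η / 4) * ‖z‖ := by
  have hc0 : 0 < c := by linarith
  have hηX : ‖η • X‖ ≤ η * c := by
    rw [norm_smul, Real.norm_eq_abs, abs_of_pos hη]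
    exact mul_le_mul_of_nonneg_left hXc hη.le
  have hz : 0 ≤ ‖z‖ := norm_nonneg z
  -- the remainder
  have hR : ‖(((eU (η • X) : GE E) : E →L[ℝ] E) - 1 - η • X) z‖ ≤ (2 * (η * c) ^ 2) * ‖z‖ := by
    refine (ContinuousLinearMap.le_opNorm _ _).trans (mul_le_mul_of_nonneg_right ?_ hz)
    refine (eU_sub_le (η • X)).trans ?_
    have h1 : ‖η • X‖ ^ 2 ≤ (η * c) ^ 2 := pow_le_pow_left₀ (norm_nonneg _) hηX 2
    have h2 : Real.exp ‖η • X‖ ≤ 2 := (Real.exp_le_exp.2 hηX).trans hexp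
    calc ‖η • X‖ ^ 2 * Real.exp ‖η • X‖ ≤ (η * c) ^ 2 * 2 :=
          mul_le_mul h1 h2 (Real.exp_pos _).le (by positivity)
      _ = 2 * (η * c) ^ 2 := by ring
  -- the main term
  have hXz : ‖X z‖ ≤ c * ‖z‖ :=
    (ContinuousLinearMap.le_opNorm _ _).trans (mul_le_mul_of_nonneg_right hXc hz)
  have hηc2 : η ^ 2 * c ^ 2 ≤ η / 10 := by
    have : η * (η * c ^ 2) ≤ η * (1 / 10) := mul_le_mul_of_nonneg_left h10 hη.le
    nlinarith
  have hη1 : η ≤ 1 / 10 := by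
    have h1 : (1 : ℝ) ≤ c ^ 2 := by nlinarith
    have h2 : η * 1 ≤ η * c ^ 2 := mul_le_mul_of_nonneg_left h1 hη.le
    linarith
  have hsq : ‖z + η • X z‖ ^ 2 ≤ ((1 - η / 2 + η ^ 2 * c ^ 2 / 2) * ‖z‖) ^ 2 := by
    rw [← real_inner_self_eq_norm_sq, inner_add_left, inner_add_right, inner_add_right,
      inner_smul_left, inner_smul_right, inner_smul_right, inner_smul_left,
      real_inner_self_eq_norm_sq, real_inner_self_eq_norm_sq, real_inner_comm]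
    simp only [conj_trivial]
    have h1 : ‖X z‖ ^ 2 ≤ c ^ 2 * ‖z‖ ^ 2 := by
      rw [← mul_pow]
      exact pow_le_pow_left₀ (norm_nonneg _) hXz 2
    have h2 : η ^ 2 * ‖X z‖ ^ 2 ≤ η ^ 2 * (c ^ 2 * ‖z‖ ^ 2) :=
      mul_le_mul_of_nonneg_left h1 (by positivity)
    have h3 : η * inner ℝ (X z) z ≤ η * (-(1 / 2) * ‖z‖ ^ 2) :=
      mul_le_mul_of_nonneg_left hin hη.le
    have h4 : (1 - η + η ^ 2 * c ^ 2) * ‖z‖ ^ 2 ≤
        (1 - η / 2 + η ^ 2 * c ^ 2 / 2) ^ 2 * ‖z‖ ^ 2 := by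
      refine mul_le_mul_of_nonneg_right ?_ (by positivity)
      nlinarith [sq_nonneg (- η + η ^ 2 * c ^ 2)]
    rw [mul_pow]
    refine le_trans ?_ h4
    nlinarith
  have hmain : ‖z + η • X z‖ ≤ (1 - η / 2 + η ^ 2 * c ^ 2 / 2) * ‖z‖ := by
    refine (pow_le_pow_iff_left₀ (norm_nonneg _) ?_ two_ne_zero).1 hsq
    refine mul_nonneg ?_ hz
    have : 0 ≤ η ^ 2 * c ^ 2 := by positivity
    linarith
  have hdec : ((eU (η • X) : GE E) : E →L[ℝ] E) z =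
      (z + η • X z) + (((eU (η • X) : GE E) : E →L[ℝ] E) - 1 - η • X) z := by
    simp only [sub_apply, one_apply_eq_self, smul_apply]
    abel
  rw [hdec]
  refine (norm_add_le _ _).trans ?_
  refine (add_le_add hmain hR).trans ?_
  rw [← add_mul]
  refine mul_le_mul_of_nonneg_right ?_ hz
  nlinarith

private theorem step_cov {sg : κ → Bool} {T0 : (ι → ℤ) →ₗ[ℤ] Cop κ E} (hT : Emb T0)
    (g : GE E) {X : E →L[ℝ] E} (hX : IsSelfAdjoint X) {η δ : ℝ} (hη : 0 < η)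
    (U : Submodule ℤ (ι → ℤ))
    (hd : δ / 2 ≤ dlog (drep sg X) (fun i => TT sg T0 g (ubas U i))) :
    Real.exp (η * δ / 2) * cov (TT sg T0 g) U ≤ cov (TT sg T0 (eU (η • X) * g)) U := by
  have hTg : Emb (TT sg T0 g) := emb_cmp hT (repU sg g)
  have hli : LinearIndependent ℝ (fun i => TT sg T0 g (ubas U i)) := emb_li hTg (ubas_li U)
  have hA : IsSelfAdjoint (η • drep sg X) := by
    have := drep_selfAdj sg hX
    exact (IsSelfAdjoint.all η).smul this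
  have hηX : IsSelfAdjoint (η • X) := (IsSelfAdjoint.all η).smul hX
  have h1 := vsq_exp_ge hli hA
  rw [dlog_smul] at h1
  have h2 : (fun i => ((eU (η • drep sg X) : GE (Cop κ E)) : Cop κ E →L[ℝ] Cop κ E)
      (TT sg T0 g (ubas U i))) = fun i => TT sg T0 (eU (η • X) * g) (ubas U i) := by
    funext i
    rw [TT_mul, cmp_apply, eU_blk sg hηX, drep_smul]
  rw [h2] at h1
  unfold cov
  rw [Real.le_sqrt (by positivity) , mul_pow, Real.sq_sqrt (vsq_nonneg _), ← Real.exp_nat_mul]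
  · refine le_trans (mul_le_mul_of_nonneg_right ?_ (vsq_nonneg _)) h1
    rw [Real.exp_le_exp]
    have h3 := mul_le_mul_of_nonneg_left hd hη.le
    push_cast
    linarith
  · exact vsq_nonneg _

theorem step_est {sg : κ → Bool} {T0 : (ι → ℤ) →ₗ[ℤ] Cop κ E} (hT : Emb T0) {C0 : ℝ}
    (hC : 0 < C0) {𝒰 : Set (Submodule ℤ (ι → ℤ))} (h𝒰 : Adm 𝒰) (C1 : ℝ) {c δ : ℝ}
    (hδ : 0 < δ) (hc : 1 ≤ c) :
    ∃ η0 > (0 : ℝ), η0 ≤ 1 ∧ ∀ η, 0 < η → η ≤ η0 → ∀ (x : E) (g : GE E) (X : E →L[ℝ] E),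
      detu g = 1 → X ∈ Good C0 𝒰 sg T0 C1 c δ x g →
      detu (eU (η • X) * g) = 1 ∧
      ‖((eU (η • X) * g : GE E) : E →L[ℝ] E) x‖ ≤ (1 - η / 4) * ‖(g : E →L[ℝ] E) x‖ ∧
      Th C0 𝒰 sg T0 (eU (η • X) * g) ≤ max (Th C0 𝒰 sg T0 g - η * δ / 2) (C1 + 2) ∧
      ‖((eU (η • X) : GE E) : E →L[ℝ] E)‖ ≤ 2 ∧
      ‖(((eU (η • X))⁻¹ : GE E) : E →L[ℝ] E)‖ ≤ 2 := by
  set N : ℝ := (Fintype.card ι : ℝ) with hN
  have hN0 : 0 ≤ N := Nat.cast_nonneg _
  have hc0 : 0 < c := by linarith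
  have hNc : 0 ≤ N * c := by positivity
  refine ⟨min (1 / (10 * c ^ 2)) (min (1 / (N * c + 1)) (C0 / 8 / (N * c + δ / 2))), ?_, ?_, ?_⟩
  · refine lt_min (by positivity) (lt_min (by positivity) (by positivity))
  · refine (min_le_left _ _).trans ?_
    rw [div_le_one (by positivity)]
    nlinarith
  intro η hη hη0 x g X hg hX
  have hb1 : η ≤ 1 / (10 * c ^ 2) := hη0.trans (min_le_left _ _)
  have hb2 : η ≤ 1 / (N * c + 1) := hη0.trans ((min_le_right _ _).trans (min_le_left _ _))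
  have hb3 : η ≤ C0 / 8 / (N * c + δ / 2) :=
    hη0.trans ((min_le_right _ _).trans (min_le_right _ _))
  rw [le_div_iff₀ (by positivity)] at hb1 hb2 hb3
  have h10 : η * c ^ 2 ≤ 1 / 10 := by linarith
  have hηc : η * c ≤ 1 / 10 := by
    have : η * c ≤ η * c ^ 2 := mul_le_mul_of_nonneg_left (by nlinarith) hη.le
    linarith
  have hexp : Real.exp (η * c) ≤ 2 := by
    have h1 : η * c ≤ Real.log 2 := by
      have := Real.log_two_gt_d9
      linarith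
    calc Real.exp (η * c) ≤ Real.exp (Real.log 2) := Real.exp_le_exp.2 h1
      _ = 2 := Real.exp_log (by norm_num)
  obtain ⟨hsa, htr, hXc, hin, hdl⟩ := hX
  have hηX : IsSelfAdjoint (η • X) := (IsSelfAdjoint.all η).smul hsa
  have hηXn : ‖η • X‖ ≤ η * c := by
    rw [norm_smul, Real.norm_eq_abs, abs_of_pos hη]
    exact mul_le_mul_of_nonneg_left hXc hη.le
  have hn1 : ‖((eU (η • X) : GE E) : E →L[ℝ] E)‖ ≤ Real.exp (η * c) :=
    (eU_norm_le _).trans (Real.exp_le_exp.2 hηXn)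
  have hn2 : ‖(((eU (η • X))⁻¹ : GE E) : E →L[ℝ] E)‖ ≤ Real.exp (η * c) := by
    rw [eU_inv]
    refine (eU_norm_le _).trans (Real.exp_le_exp.2 ?_)
    rwa [norm_neg]
  have hdet : detu (eU (η • X)) = 1 := by
    refine eU_det hηX ?_
    have h1 : ((η • X : E →L[ℝ] E) : E →ₗ[ℝ] E) = η • (X : E →ₗ[ℝ] E) := rfl
    rw [h1, map_smul, htr, smul_zero]
  have hnm := near_mono (sg := sg) hT hC.le h𝒰 (g := eU (η • X) * g) (g0 := g) (a := η * c)
    (by rwa [mul_inv_cancel_right]) (by rwa [mul_inv_rev, mul_inv_cancel_left])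
  obtain ⟨hTh, hth⟩ := hnm
  rw [abs_le] at hTh
  refine ⟨?_, ?_, ?_, hn1.trans hexp, hn2.trans hexp⟩
  · rw [detu_mul, hdet, hg, one_mul]
  · have h1 : ((eU (η • X) * g : GE E) : E →L[ℝ] E) x =
        ((eU (η • X) : GE E) : E →L[ℝ] E) ((g : E →L[ℝ] E) x) := rfl
    rw [h1]
    exact step_norm hc hη h10 hexp _ X hXc hin
  · by_cases hlt : C1 + 1 ≤ Th C0 𝒰 sg T0 g
    · refine le_max_of_le_left ?_
      have hTg' : Emb (TT sg T0 (eU (η • X) * g)) := emb_cmp hT (repU sg (eU (η • X) * g))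
      have hTg : Emb (TT sg T0 g) := emb_cmp hT (repU sg g)
      obtain ⟨U, hU, hUeq⟩ := Theta_attained hTg' hC.le h𝒰
      have hUeq' : Th C0 𝒰 sg T0 (eU (η • X) * g) = theta C0 (TT sg T0 (eU (η • X) * g)) U :=
        hUeq.symm
      rw [hUeq']
      have hle : theta C0 (TT sg T0 g) U ≤ Th C0 𝒰 sg T0 g := le_Theta hTg hC.le hU
      by_cases hnear : Th C0 𝒰 sg T0 g - C0 / 8 ≤ theta C0 (TT sg T0 g) U
      · have hd := hdl hlt U hU hnear
        have hcov := step_cov hT g hsa hη U hd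
        have hp := cov_pos hTg U
        have hlog := Real.log_le_log (mul_pos (Real.exp_pos _) hp) hcov
        rw [Real.log_mul (Real.exp_pos _).ne' hp.ne', Real.log_exp] at hlog
        unfold theta at hle ⊢
        linarith
      · have h1 := (abs_le.1 (hth U)).2
        push Not at hnear
        nlinarith
    · refine le_max_of_le_right ?_
      push Not at hlt
      have h1 := hTh.2
      nlinarith

end LatN
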