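import Pool.Agent.Lib.MP_2392aa_gt.C.Grp

/-!
# StrongLoc: one neighbourhood for all group elements

If the action is linearizable as a germ and a subgroup of finite index is connected in the sense of
`Conn`, then the conjugacy works on one ball for all elements of the group.
-/

open scoped ContDiff Topology
open Metric Filter LatLin

namespace LatN

variable {E : Type*} [NormedAddCommGroup E] [InnerProductSpace ℝ E] [FiniteDimensional ℝ E]
  {Γ : Type*} [Group Γ] {M : Type*} [TopologicalSpace M] [MulAction Γ M]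
  {ρ : Γ →* (E ≃L[ℝ] E)}

/-- a local inverse of the linearizing map -/
theorem exists_inv (D : LocData (M := M) ρ) (hL : D.Lin) :
    ∃ r > 0, ∃ u : E → E, ContDiffOn ℝ ∞ u (ball 0 r) ∧
      HasFDerivAt u (ContinuousLinearMap.id ℝ E) 0 ∧ u 0 = 0 ∧
      (∀ z ∈ ball (0 : E) r, u z ∈ ball (0 : E) D.r0) ∧
      ∀ γ, ∀ᶠ z in 𝓝 (0 : E), γ • D.χ (u z) = D.χ (u (ρ γ z)) := by
  obtain ⟨φ, hφ, hφ0, hφd, hφe⟩ := hL
  obtain ⟨s, hs0, hsr, v, hSo, hvφ, hvs⟩ := local_inv φ D.r0_pos hφ.contDiffOn hφd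
  have h0S : (0 : E) ∈ φ '' ball 0 s := ⟨0, mem_ball_self hs0, hφ0⟩
  obtain ⟨r, hr, hrS⟩ := Metric.isOpen_iff.1 hSo 0 h0S
  have hv0 : v 0 = 0 := by
    have := hvφ 0 (mem_ball_self hs0)
    rwa [hφ0] at this
  have hvmem : ∀ y ∈ φ '' ball (0 : E) s, v y ∈ ball (0 : E) s := by
    rintro _ ⟨z, hz, rfl⟩
    rw [hvφ z hz]
    exact hz
  have hφv : ∀ y ∈ φ '' ball (0 : E) s, φ (v y) = y := by
    rintro _ ⟨z, hz, rfl⟩
    rw [hvφ z hz]
  have hvcd : ContDiffAt ℝ ∞ v 0 := hvs.contDiffAt (hSo.mem_nhds h0S)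
  have hvdiff : HasFDerivAt v (fderiv ℝ v 0) 0 :=
    (hvcd.differentiableAt (by simp)).hasFDerivAt
  have hvd : HasFDerivAt v (ContinuousLinearMap.id ℝ E) 0 := by
    have h1 : HasFDerivAt (fun z => v (φ z))
        ((fderiv ℝ v 0).comp (ContinuousLinearMap.id ℝ E)) 0 := by
      have h2 : HasFDerivAt v (fderiv ℝ v 0) (φ 0) := by
        rw [hφ0]
        exact hvdiff
      exact h2.comp (0 : E) hφd
    have h3 : HasFDerivAt (fun z : E => z) (ContinuousLinearMap.id ℝ E) 0 := hasFDerivAt_id 0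
    have h4 : (fun z => v (φ z)) =ᶠ[𝓝 (0 : E)] fun z => z := by
      filter_upwards [ball_mem_nhds (0 : E) hs0] with z hz
      exact hvφ z hz
    have h5 := (h3.congr_of_eventuallyEq h4).unique h1
    rw [ContinuousLinearMap.comp_id] at h5
    rw [h5]
    exact hvdiff
  have hvt : Tendsto v (𝓝 0) (𝓝 0) := by
    have := hvd.continuousAt.tendsto
    rwa [hv0] at this
  refine ⟨r, hr, v, hvs.mono hrS, hvd, hv0, fun z hz => ?_, fun γ => ?_⟩
  · exact ball_subset_ball hsr (hvmem z (hrS hz))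
  · have e1 := hvt.eventually (D.F_act γ)
    have e2 := hvt.eventually (hφe γ)
    have e3 : ∀ᶠ z in 𝓝 (0 : E), D.F γ (v z) ∈ ball (0 : E) s :=
      ((D.F_tendsto γ).comp hvt).eventually (ball_mem_nhds 0 hs0)
    have e4 : ∀ᶠ z in 𝓝 (0 : E), z ∈ ball (0 : E) r := ball_mem_nhds 0 hr
    filter_upwards [e1, e2, e3, e4] with z h1 h2 h3 h4
    rw [h1]
    congr 1
    rw [hφv z (hrS h4)] at h2
    rw [← h2, hvφ _ h3]

/-- one neighbourhood for all group elements -/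
theorem strong_loc (D : LocData (M := M) ρ) (hL : D.Lin) (H : Subgroup Γ) [H.FiniteIndex]
    (S : Set H) (hS : S.Finite) (hC : Conn (ρ.comp H.subtype) S) :
    ∃ r > 0, ∃ u : E → E, ContDiffOn ℝ ∞ u (ball 0 r) ∧
      HasFDerivAt u (ContinuousLinearMap.id ℝ E) 0 ∧ u 0 = 0 ∧
      (∀ z ∈ ball (0 : E) r, u z ∈ ball (0 : E) D.r0) ∧
      ∀ (γ : Γ) (z : E), z ∈ ball (0 : E) r → ρ γ z ∈ ball (0 : E) r →
        γ • D.χ (u z) = D.χ (u (ρ γ z)) := by
  obtain ⟨r, hr, u, hu, hud, hu0, hur, hue⟩ := exists_inv D hL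
  obtain ⟨C, hCpos, hconn⟩ := hC
  -- generators
  have hgen : ∀ᶠ z in 𝓝 (0 : E), ∀ s ∈ S, ((s : H) : Γ) • D.χ (u z) = D.χ (u (ρ (s : Γ) z)) :=
    (Filter.eventually_all_finite hS).2 fun s _ => hue s
  obtain ⟨r1, hr1, hgen1⟩ := Metric.eventually_nhds_iff_ball.1 hgen
  -- the subgroup
  have hHstrong : ∀ (g : H) (z : E), z ∈ ball (0 : E) (r1 / (C + 1)) →
      ρ (g : Γ) z ∈ ball (0 : E) (r1 / (C + 1)) → (g : Γ) • D.χ (u z) = D.χ (u (ρ (g : Γ) z)) := by
    intro g z hz hgz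
    rw [mem_ball_zero_iff] at hz hgz
    by_cases hz0 : z = 0
    · subst hz0
      rw [map_zero, hu0]
      have h1 := (D.F_act (g : Γ)).self_of_nhds
      rw [D.F_zero] at h1
      exact h1
    have hzpos : 0 < ‖z‖ := norm_pos_iff.2 hz0
    set t : ℝ := max ‖z‖ ‖ρ (g : Γ) z‖ with ht
    have htpos : 0 < t := lt_max_of_lt_left hzpos
    have htlt : t < r1 / (C + 1) := max_lt hz hgz
    have hCt : C * t < r1 := by
      have h1 : t * (C + 1) < r1 := by
        rw [lt_div_iff₀ (by positivity)] at htlt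
        exact htlt
      nlinarith
    have h1 := hconn z t 1 g htpos (by
      rw [map_one]
      exact le_max_left _ _) (le_max_right _ _)
    have h2 : ∀ a : H, Relation.ReflTransGen (Step (ρ.comp H.subtype) S z (C * t)) 1 a →
        (a : Γ) • D.χ (u z) = D.χ (u (ρ (a : Γ) z)) := by
      intro a ha
      induction ha with
      | refl =>
        rw [Subgroup.coe_one, one_smul, map_one]
        rfl
      | @tail b c _ hbc ih =>
        obtain ⟨h3, h4, s, hs, rfl⟩ := hbc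
        have h5 : ρ (b : Γ) z ∈ ball (0 : E) r1 := by
          rw [mem_ball_zero_iff]
          exact lt_of_le_of_lt h3 hCt
        rw [Subgroup.coe_mul, mul_smul, ih, hgen1 _ h5 s hs, map_mul]
        rfl
    exact h2 g h1
  -- coset representatives
  obtain ⟨T, hT⟩ : ∃ T : Finset Γ, ∀ γ : Γ, ∃ t ∈ T, ∃ g : H, γ = (g : Γ) * t := by
    classical
    haveI : Finite (Γ ⧸ H) := Subgroup.finite_quotient_of_finiteIndex
    haveI := Fintype.ofFinite (Γ ⧸ H)
    refine ⟨Finset.univ.image fun q : Γ ⧸ H => (q.out)⁻¹, fun γ => ?_⟩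
    refine ⟨((QuotientGroup.mk γ⁻¹ : Γ ⧸ H).out)⁻¹,
      Finset.mem_image.2 ⟨_, Finset.mem_univ _, rfl⟩, ?_⟩
    obtain ⟨h, hh⟩ := QuotientGroup.mk_out_eq_mul H γ⁻¹
    refine ⟨h, ?_⟩
    rw [hh]
    group
  have hTe : ∀ᶠ z in 𝓝 (0 : E), ∀ t ∈ T, t • D.χ (u z) = D.χ (u (ρ t z)) ∧
      ρ t z ∈ ball (0 : E) (r1 / (C + 1)) := by
    rw [Filter.eventually_all_finset]
    intro t _
    refine (hue t).and ?_
    have h1 : Tendsto (fun z => ρ t z) (𝓝 (0 : E)) (𝓝 0) := by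
      have := (ρ t).continuous.tendsto 0
      rwa [map_zero] at this
    exact h1.eventually (ball_mem_nhds 0 (by positivity))
  obtain ⟨r2, hr2, hTe2⟩ := Metric.eventually_nhds_iff_ball.1 hTe
  refine ⟨min r (min r2 (r1 / (C + 1))), lt_min hr (lt_min hr2 (by positivity)), u,
    hu.mono (ball_subset_ball (min_le_left _ _)), hud, hu0,
    fun z hz => hur z (ball_subset_ball (min_le_left _ _) hz), ?_⟩
  intro γ z hz hγz
  obtain ⟨t, ht, g, rfl⟩ := hT γ
  have hz2 : z ∈ ball (0 : E) r2 :=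
    ball_subset_ball ((min_le_right _ _).trans (min_le_left _ _)) hz
  have hγz2 : ρ ((g : Γ) * t) z ∈ ball (0 : E) (r1 / (C + 1)) :=
    ball_subset_ball ((min_le_right _ _).trans (min_le_right _ _)) hγz
  obtain ⟨h1, h2⟩ := hTe2 z hz2 t ht
  have h3 : ρ ((g : Γ) * t) z = ρ (g : Γ) (ρ t z) := by
    rw [map_mul]
    rfl
  rw [h3] at hγz2 ⊢
  rw [mul_smul, h1, hHstrong g _ h2 hγz2]

end LatN
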