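import Pool.Agent.Lib.LatN.Kot
import Pool.Agent.Lib.LatN.CovBasic

/-!
# Submod: submodularity of the covolume

Proofs.
* `satur_sat`: immediate. `finrank_satur`: `k • satur U ≤ U` for some `k ≠ 0` (finitely generated),
  or: a maximal `ℤ`-independent family of `satur U` multiplied by a suitable `k ≠ 0` lies in `U`.
* ADAPTED BASES: if `A ≤ U` and `A` is saturated then `U / A` is torsion free, hence free, so there
  is a complement: a basis `a` of `A` (index `Fin (finrank A)`) and vectors `b` (index `β`) of `U`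
  such that `Sum.elim a b` is a basis of `U` (lift a basis of the quotient).
* `finrank_inf_satur`: with `A = U ⊓ V`, bases `(a, b)` of `U` and `(a, c)` of `V`, the family
  `(a, b, c)` is a basis of `U ⊔ V` (independence: `∑ b`-part `∈ U ⊓ V`), `finrank_satur`.
* `cov_submod`: by `cov_eq`, `cov_le_of_li` (for `satur (U ⊔ V)` and the family `(a, b, c)`) and
  `vsq_koteljanskii`; take square roots.
* `sat_lt`: if `A ≤ B`, `A` saturated and `finrank A = finrank B` then `A = B` (for `x ∈ B` some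
  nonzero multiple lies in `A`).
-/

namespace LatN

variable {F : Type*} [NormedAddCommGroup F] [InnerProductSpace ℝ F]
variable {ι : Type*} [Fintype ι] [DecidableEq ι]

omit [Fintype ι] [DecidableEq ι] in
theorem satur_sat (U : Submodule ℤ (ι → ℤ)) : Sat (satur U) := by
  rintro k x hk ⟨l, hl, hx⟩
  exact ⟨l * k, mul_ne_zero hl hk, by rw [mul_smul]; exact hx⟩

omit [Fintype ι] [DecidableEq ι] in
theorem le_satur (U : Submodule ℤ (ι → ℤ)) : U ≤ satur U :=
  fun x hx => ⟨1, one_ne_zero, by rw [one_smul]; exact hx⟩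

omit [DecidableEq ι] in
private theorem finrank_add_quot {A B : Submodule ℤ (ι → ℤ)} (h : A ≤ B) :
    Module.finrank ℤ (B ⧸ A.submoduleOf B) + Module.finrank ℤ A = Module.finrank ℤ B := by
  have h1 := Submodule.finrank_quotient_add_finrank (A.submoduleOf B)
  rwa [(Submodule.submoduleOfEquivOfLe h).finrank_eq] at h1

omit [DecidableEq ι] in
private theorem finrank_eq_tors {A B : Submodule ℤ (ι → ℤ)} (h : A ≤ B) :
    Module.finrank ℤ A = Module.finrank ℤ B ↔ ∀ x ∈ B, ∃ k : ℤ, k ≠ 0 ∧ k • x ∈ A := by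
  have h1 := finrank_add_quot h
  have h2 : Module.finrank ℤ A = Module.finrank ℤ B ↔
      Module.finrank ℤ (B ⧸ A.submoduleOf B) = 0 := by omega
  rw [h2, Module.finrank_eq_zero_iff_isTorsion]
  constructor
  · intro h3 x hx
    obtain ⟨⟨k, hk⟩, hk'⟩ := @h3 ((A.submoduleOf B).mkQ ⟨x, hx⟩)
    refine ⟨k, nonZeroDivisors.ne_zero hk, ?_⟩
    have h4 : (A.submoduleOf B).mkQ (k • ⟨x, hx⟩) = 0 := hk'
    rw [Submodule.mkQ_apply, Submodule.Quotient.mk_eq_zero] at h4
    exact h4
  · intro h3 y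
    obtain ⟨x, rfl⟩ := Submodule.mkQ_surjective _ y
    obtain ⟨k, hk, hk'⟩ := h3 x x.2
    refine ⟨⟨k, mem_nonZeroDivisors_of_ne_zero hk⟩, ?_⟩
    show k • (A.submoduleOf B).mkQ x = 0
    rw [← map_smul, Submodule.mkQ_apply, Submodule.Quotient.mk_eq_zero]
    exact hk'

theorem finrank_satur (U : Submodule ℤ (ι → ℤ)) :
    Module.finrank ℤ (satur U) = Module.finrank ℤ U :=
  ((finrank_eq_tors (le_satur U)).2 fun _ hx => hx).symm

theorem sat_eq {A B : Submodule ℤ (ι → ℤ)} (hA : Sat A) (h : A ≤ B)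
    (hr : Module.finrank ℤ A = Module.finrank ℤ B) : A = B := by
  refine le_antisymm h fun x hx => ?_
  obtain ⟨k, hk, hk'⟩ := (finrank_eq_tors h).1 hr x hx
  exact hA k x hk hk'

theorem finrank_inf_satur {U V : Submodule ℤ (ι → ℤ)} (hU : Sat U) (hV : Sat V) :
    Module.finrank ℤ (U ⊓ V : Submodule ℤ (ι → ℤ)) + Module.finrank ℤ (satur (U ⊔ V)) =
      Module.finrank ℤ U + Module.finrank ℤ V := by
  rw [finrank_satur]
  have h := Submodule.rank_sup_add_rank_inf_eq U V
  rw [← Module.finrank_eq_rank, ← Module.finrank_eq_rank, ← Module.finrank_eq_rank,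
    ← Module.finrank_eq_rank] at h
  have h' : Module.finrank ℤ (U ⊔ V : Submodule ℤ (ι → ℤ)) +
      Module.finrank ℤ (U ⊓ V : Submodule ℤ (ι → ℤ)) = Module.finrank ℤ U + Module.finrank ℤ V := by
    exact_mod_cast h
  omega

private theorem quot_tf {M : Type*} [AddCommGroup M] (W : Submodule ℤ M)
    (hW : ∀ (k : ℤ) (x : M), k ≠ 0 → k • x ∈ W → x ∈ W) : Module.IsTorsionFree ℤ (M ⧸ W) := by
  rw [Module.isTorsionFree_iff_smul_eq_zero]
  intro k y h
  obtain ⟨x, rfl⟩ := Submodule.mkQ_surjective _ y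
  by_cases hk : k = 0
  · exact Or.inl hk
  · right
    rw [← map_smul, Submodule.mkQ_apply, Submodule.Quotient.mk_eq_zero] at h
    rw [Submodule.mkQ_apply, Submodule.Quotient.mk_eq_zero]
    exact hW k x hk h

/-- a basis of a saturated subgroup extends to a basis of a larger subgroup -/
private theorem adapt {A U : Submodule ℤ (ι → ℤ)} (hA : Sat A) (h : A ≤ U) :
    ∃ (r : ℕ) (b : Module.Basis (Fin (Module.finrank ℤ A) ⊕ Fin r) ℤ U),
      ∀ i, ((b (Sum.inl i) : U) : ι → ℤ) = ubas A i := by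
  haveI : Module.IsTorsionFree ℤ (U ⧸ A.submoduleOf U) :=
    quot_tf _ fun k x hk hx => hA k x hk hx
  haveI : Module.Free ℤ (U ⧸ A.submoduleOf U) := Module.free_of_finite_type_torsion_free'
  refine ⟨_, Module.Basis.sumQuot ((ubas A).map (Submodule.submoduleOfEquivOfLe h).symm)
    (Module.finBasis ℤ (U ⧸ A.submoduleOf U)), fun i => ?_⟩
  rw [Module.Basis.sumQuot_inl]
  rfl

theorem cov_submod [FiniteDimensional ℝ F] {T : (ι → ℤ) →ₗ[ℤ] F} (hT : Emb T)
    {U V : Submodule ℤ (ι → ℤ)} (hU : Sat U) (hV : Sat V) :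
    cov T (U ⊓ V) * cov T (satur (U ⊔ V)) ≤ cov T U * cov T V := by
  have hA : Sat (U ⊓ V) := fun k x hk hx => ⟨hU k x hk hx.1, hV k x hk hx.2⟩
  obtain ⟨r, bU, hbU⟩ := adapt hA (inf_le_left : U ⊓ V ≤ U)
  obtain ⟨s, bV, hbV⟩ := adapt hA (inf_le_right : U ⊓ V ≤ V)
  set a : Fin (Module.finrank ℤ (U ⊓ V : Submodule ℤ (ι → ℤ))) → (ι → ℤ) := fun i => ubas (U ⊓ V) i with ha
  set b : Fin r → (ι → ℤ) := fun i => (bU (Sum.inr i) : ι → ℤ) with hb
  set c : Fin s → (ι → ℤ) := fun i => (bV (Sum.inr i) : ι → ℤ) with hc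
  have hab : ∀ i, ((bU i : U) : ι → ℤ) = Sum.elim a b i := by
    rintro (i | i)
    · exact hbU i
    · rfl
  have hac : ∀ i, ((bV i : V) : ι → ℤ) = Sum.elim a c i := by
    rintro (i | i)
    · exact hbV i
    · rfl
  have h1 : cov T U = Real.sqrt (vsq (Sum.elim (fun i => T (a i)) fun i => T (b i))) := by
    rw [cov_eq T bU]
    congr 2
    funext i
    rw [hab]
    rcases i with i | i <;> rfl
  have h2 : cov T V = Real.sqrt (vsq (Sum.elim (fun i => T (a i)) fun i => T (c i))) := by
    rw [cov_eq T bV]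
    congr 2
    funext i
    rw [hac]
    rcases i with i | i <;> rfl
  have h3 : cov T (U ⊓ V) = Real.sqrt (vsq fun i => T (a i)) := rfl
  have liU : LinearIndependent ℤ (Sum.elim a b) := by
    have h := bU.linearIndependent.map' U.subtype U.ker_subtype
    have h' : (U.subtype ∘ bU) = Sum.elim a b := funext hab
    rwa [h'] at h
  have liV : LinearIndependent ℤ (Sum.elim a c) := by
    have h := bV.linearIndependent.map' V.subtype V.ker_subtype
    have h' : (V.subtype ∘ bV) = Sum.elim a c := funext hac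
    rwa [h'] at h
  have li : LinearIndependent ℤ (Sum.elim (Sum.elim a b) c) := by
    have liV' := linearIndependent_sum.1 liV
    refine LinearIndependent.sum_type liU liV'.2.1 ?_
    rw [Submodule.disjoint_def]
    intro x hx hx'
    have hxU : x ∈ U := by
      refine (Submodule.span_le.2 ?_) hx
      rintro _ ⟨i, rfl⟩
      rw [← hab]
      exact (bU i).2
    have hxV : x ∈ V := by
      refine (Submodule.span_le.2 ?_) hx'
      rintro _ ⟨i, rfl⟩
      exact (bV (Sum.inr i)).2
    have hxa : x ∈ Submodule.span ℤ (Set.range a) := by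
      have h4 : (⟨x, hxU, hxV⟩ : (U ⊓ V : Submodule ℤ (ι → ℤ))) ∈
          Submodule.span ℤ (Set.range (ubas (U ⊓ V))) := by
        rw [(ubas (U ⊓ V)).span_eq]
        trivial
      have h5 := Submodule.mem_map_of_mem (f := (U ⊓ V).subtype) h4
      rw [Submodule.map_span, ← Set.range_comp] at h5
      exact h5
    have hd := liV'.2.2
    rw [Submodule.disjoint_def] at hd
    exact hd x hxa hx'
  have h4 : cov T (satur (U ⊔ V)) ≤ Real.sqrt (vsq (Sum.elim (Sum.elim (fun i => T (a i))
      fun i => T (b i)) fun i => T (c i))) := by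
    have h5 := cov_le_of_li hT (U := satur (U ⊔ V)) ?_ (Sum.elim (Sum.elim a b) c) ?_ li
    · refine h5.trans_eq ?_
      congr 2
      funext i
      rcases i with (i | i) | i <;> rfl
    · have e1 := finrank_inf_satur hU hV
      have e2 := Module.finrank_eq_card_basis bU
      have e3 := Module.finrank_eq_card_basis bV
      simp only [Fintype.card_sum, Fintype.card_fin] at e2 e3 ⊢
      omega
    · rintro ((i | i) | i)
      · exact le_satur _ (Submodule.mem_sup_left (ubas (U ⊓ V) i).2.1)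
      · exact le_satur _ (Submodule.mem_sup_left (bU (Sum.inr i)).2)
      · exact le_satur _ (Submodule.mem_sup_right (bV (Sum.inr i)).2)
  have h6 := vsq_koteljanskii (fun i => T (a i)) (fun i => T (b i)) fun i => T (c i)
  rw [h3, h1, h2]
  refine (mul_le_mul_of_nonneg_left h4 (Real.sqrt_nonneg _)).trans ?_
  rw [mul_comm]
  have h7 : ∀ {α : Type} [Fintype α] [DecidableEq α] (v : α → F), 0 ≤ vsq v := fun v =>
    (Matrix.posSemidef_gram ℝ v).det_nonneg
  rw [← Real.sqrt_mul (h7 _), ← Real.sqrt_mul (h7 _)]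
  exact Real.sqrt_le_sqrt h6

/-- a saturated subgroup has a basis which extends to a basis of `ℤ^ι` -/
theorem exists_adapted (U : Submodule ℤ (ι → ℤ)) (hU : Sat U) :
    ∃ (r : ℕ) (b : Module.Basis (Fin (Module.finrank ℤ U) ⊕ Fin r) ℤ (ι → ℤ)),
      (∀ i, b (Sum.inl i) ∈ U) ∧
      Submodule.span ℤ (Set.range fun i => b (Sum.inl i)) = U := by
  haveI : Module.IsTorsionFree ℤ ((ι → ℤ) ⧸ U) := quot_tf _ hU
  haveI : Module.Free ℤ ((ι → ℤ) ⧸ U) := Module.free_of_finite_type_torsion_free'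
  refine ⟨_, Module.Basis.sumQuot (ubas U) (Module.finBasis ℤ ((ι → ℤ) ⧸ U)), fun i => ?_, ?_⟩
  · rw [Module.Basis.sumQuot_inl]
    exact (ubas U i).2
  · simp only [Module.Basis.sumQuot_inl]
    have h := congrArg (Submodule.map U.subtype) (ubas U).span_eq
    rw [Submodule.map_span, ← Set.range_comp, Submodule.map_top, Submodule.range_subtype] at h
    exact h

end LatN
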