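import Pool.Agent.Lib.LatN.Coarse

/-!
# ToGam: from the thick part to the lattice

Proof of `noHorn_of`.
(a) Contraction: `contract_G` gives `C'`; let `R ≥ 1` be the constant of `ThickCoc` for `C'`. For
`x ≠ 0`, `t > 0` take `g` with `‖g x‖ ≤ t / R` and `γ ∈ Γ` with `‖γ g⁻¹‖ ≤ R`: `‖γ x‖ ≤ R ‖g x‖ ≤ t`.
(b) Connectivity: let `C2` be the constant of `coarse_conn`, `C_Γ` a bound of `Th` on `Γ`,
`C = max C2 C_Γ`, `R ≥ 1` a constant of `ThickCoc` for `C` (enlarge it), and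
`S = {s ∈ Γ | ‖s‖ ≤ 2R², ‖s⁻¹‖ ≤ 2R²}` (finite). Let `γ, γ' ∈ Γ`, `‖γ x‖, ‖γ' x‖ ≤ t`; by
`coarse_conn` there is a chain of `stepG C x t` from `γ` to `γ'`. Claim, by induction on the chain
from `γ` to `h` (`Relation.ReflTransGen`): `‖h x‖ ≤ t`, `detu h = 1`, `Th h ≤ C`, and for EVERY
`γ_h ∈ Γ` with `‖h γ_h⁻¹‖ ≤ R`, `‖γ_h h⁻¹‖ ≤ R` there is a chain of the relation of `NoHorn` (with
constants `S` and `R`) from `γ` to `γ_h`. Start `h = γ`: one step, `s = γ_h γ⁻¹ ∈ S`. Step from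
`h` to `h'`: choose `γ_h` by `ThickCoc`, use the induction hypothesis and the step
`s = γ_{h'} γ_h⁻¹ = (γ_{h'} h'⁻¹)(h' h⁻¹)(h γ_h⁻¹)` of norm `≤ 2 R²`, similarly for the inverse;
`‖γ_h x‖ ≤ R ‖h x‖ ≤ R t`. Finally take `h = γ'`, `γ_h = γ'` (`‖1‖ ≤ 1 ≤ R`). (The constant `C` of
`NoHorn` is `R`.)
-/

open scoped Topology

namespace LatN

variable {E : Type*} [NormedAddCommGroup E] [InnerProductSpace ℝ E] [FiniteDimensional ℝ E]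
variable {κ : Type*} [Fintype κ] [DecidableEq κ] {ι : Type*} [Fintype ι] [DecidableEq ι]

omit [FiniteDimensional ℝ E] in
private theorem norm_app_le (γ g : GE E) (x : E) {R t : ℝ} (hR : 0 ≤ R)
    (h1 : ‖((γ * g⁻¹ : GE E) : E →L[ℝ] E)‖ ≤ R) (h2 : ‖(g : E →L[ℝ] E) x‖ ≤ t) :
    ‖(γ : E →L[ℝ] E) x‖ ≤ R * t := by
  have h3 : (γ : E →L[ℝ] E) x = ((γ * g⁻¹ : GE E) : E →L[ℝ] E) ((g : E →L[ℝ] E) x) := by
    show _ = (((γ * g⁻¹) * g : GE E) : E →L[ℝ] E) x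
    rw [inv_mul_cancel_right]
  rw [h3]
  refine (ContinuousLinearMap.le_opNorm _ _).trans ?_
  exact mul_le_mul h1 h2 (norm_nonneg _) hR

omit [FiniteDimensional ℝ E] in
private theorem norm_three (a b c : GE E) {R S T : ℝ} (ha : ‖(a : E →L[ℝ] E)‖ ≤ R)
    (hb : ‖(b : E →L[ℝ] E)‖ ≤ S) (hc : ‖(c : E →L[ℝ] E)‖ ≤ T) :
    ‖((a * b * c : GE E) : E →L[ℝ] E)‖ ≤ R * S * T := by
  have hR : 0 ≤ R := (norm_nonneg _).trans ha
  have hS : 0 ≤ S := (norm_nonneg _).trans hb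
  rw [Units.val_mul, Units.val_mul]
  refine (norm_mul_le _ _).trans (mul_le_mul ?_ hc (norm_nonneg _) (mul_nonneg hR hS))
  exact (norm_mul_le _ _).trans (mul_le_mul ha hb (norm_nonneg _) hR)

theorem noHorn_of {sg : κ → Bool} {T0 : (ι → ℤ) →ₗ[ℤ] Cop κ E} (hT : Emb T0) {C0 : ℝ}
    (hC : 0 < C0) {𝒰 : Set (Submodule ℤ (ι → ℤ))} (h𝒰 : Adm 𝒰)
    (hn : 2 ≤ Module.finrank ℝ E) (hX : XEX C0 𝒰 sg T0) {Γ : Subgroup (GE E)}
    (hth : ThickCoc C0 𝒰 sg T0 Γ)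
    (hΓ : ∃ C : ℝ, ∀ γ ∈ Γ, detu γ = 1 ∧ Th C0 𝒰 sg T0 γ ≤ C)
    (hfin : ∀ R : ℝ, {γ : GE E | γ ∈ Γ ∧ ‖(γ : E →L[ℝ] E)‖ ≤ R ∧
      ‖((γ⁻¹ : GE E) : E →L[ℝ] E)‖ ≤ R}.Finite) : NoHorn Γ := by
  refine ⟨?_, ?_⟩
  · obtain ⟨C', hC'⟩ := contract_G hT hC h𝒰 hn hX
    obtain ⟨R, hR⟩ := hth C'
    intro x hx t ht
    have hm : 0 < max R 1 := lt_of_lt_of_le one_pos (le_max_right _ _)
    obtain ⟨g, hg1, hg2, hg3⟩ := hC' x hx (t / max R 1) (div_pos ht hm)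
    obtain ⟨γ, hγ, _, h2⟩ := hR g hg1 hg2
    refine ⟨γ, hγ, ?_⟩
    have h3 := norm_app_le γ g x hm.le (h2.trans (le_max_left R 1)) hg3
    rwa [mul_div_cancel₀ _ hm.ne'] at h3
  · obtain ⟨C2, hC2⟩ := coarse_conn hT hC h𝒰 hn hX
    obtain ⟨CΓ, hCΓ⟩ := hΓ
    obtain ⟨R0, hR0⟩ := hth (max C2 CΓ)
    obtain ⟨R, hRdef⟩ : ∃ R : ℝ, R = max R0 1 := ⟨_, rfl⟩
    have hR1 : 1 ≤ R := by rw [hRdef]; exact le_max_right _ _
    have hRR : R0 ≤ R := by rw [hRdef]; exact le_max_left _ _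
    have hRp : 0 ≤ R := zero_le_one.trans hR1
    have hR2 : R ≤ R * 2 * R := by nlinarith
    refine ⟨(hfin (R * 2 * R)).toFinset, R, ?_, ?_⟩
    · intro s hs
      rw [Set.Finite.mem_toFinset] at hs
      exact hs.1
    intro x hx t ht γ hγ γ' hγ' h1 h2
    have hch := hC2 (max C2 CΓ) (le_max_left _ _) x hx t γ γ' (hCΓ γ hγ).1 (hCΓ γ' hγ').1
      ((hCΓ γ hγ).2.trans (le_max_right _ _)) ((hCΓ γ' hγ').2.trans (le_max_right _ _)) h1 h2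
    have key : ∀ h : GE E, Relation.ReflTransGen (stepG C0 𝒰 sg T0 (max C2 CΓ) x t) γ h →
        (detu h = 1 ∧ Th C0 𝒰 sg T0 h ≤ max C2 CΓ ∧ ‖(h : E →L[ℝ] E) x‖ ≤ t) ∧
        ∀ γh ∈ Γ, ‖((h * γh⁻¹ : GE E) : E →L[ℝ] E)‖ ≤ R → ‖((γh * h⁻¹ : GE E) : E →L[ℝ] E)‖ ≤ R →
          Relation.ReflTransGen (fun a b : GE E =>
            ‖(a : E →L[ℝ] E) x‖ ≤ R * t ∧ ‖(b : E →L[ℝ] E) x‖ ≤ R * t ∧
              ∃ s ∈ (hfin (R * 2 * R)).toFinset, b = s * a) γ γh := by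
      intro h hh
      induction hh with
      | refl =>
        refine ⟨⟨(hCΓ γ hγ).1, (hCΓ γ hγ).2.trans (le_max_right _ _), h1⟩, ?_⟩
        intro γh hγh e1 e2
        refine Relation.ReflTransGen.single ⟨?_, norm_app_le γh γ x hRp e2 h1, γh * γ⁻¹, ?_, ?_⟩
        · calc ‖(γ : E →L[ℝ] E) x‖ ≤ t := h1
            _ = 1 * t := (one_mul t).symm
            _ ≤ R * t := mul_le_mul_of_nonneg_right hR1 ht.le
        · rw [Set.Finite.mem_toFinset]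
          refine ⟨Γ.mul_mem hγh (Γ.inv_mem hγ), e2.trans hR2, ?_⟩
          rw [mul_inv_rev, inv_inv]
          exact e1.trans hR2
        · rw [inv_mul_cancel_right]
      | tail hab hbc ih =>
        rename_i b c
        obtain ⟨⟨b1, b2, b3⟩, ihb⟩ := ih
        refine ⟨hbc.2.1, ?_⟩
        intro γc hγc e1 e2
        obtain ⟨γb, hγb, f1, f2⟩ := hR0 b b1 b2
        have g1 := ihb γb hγb (f1.trans hRR) (f2.trans hRR)
        refine g1.tail ⟨norm_app_le γb b x hRp (f2.trans hRR) b3,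
          norm_app_le γc c x hRp e2 hbc.2.1.2.2, γc * γb⁻¹, ?_, ?_⟩
        · rw [Set.Finite.mem_toFinset]
          refine ⟨Γ.mul_mem hγc (Γ.inv_mem hγb), ?_, ?_⟩
          · have e3 : γc * γb⁻¹ = (γc * c⁻¹) * (c * b⁻¹) * (b * γb⁻¹) := by group
            rw [e3]
            exact norm_three _ _ _ e2 hbc.2.2.1 (f1.trans hRR)
          · have e3 : (γc * γb⁻¹)⁻¹ = (γb * b⁻¹) * (b * c⁻¹) * (c * γc⁻¹) := by group
            rw [e3]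
            exact norm_three _ _ _ (f2.trans hRR) hbc.2.2.2 e1
        · rw [inv_mul_cancel_right]
    have h3 : ‖((γ' * γ'⁻¹ : GE E) : E →L[ℝ] E)‖ ≤ R := by
      rw [mul_inv_cancel, Units.val_one]
      exact ContinuousLinearMap.norm_id_le.trans hR1
    exact (key γ' hch).2 γ' hγ' h3 h3

end LatN
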