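import Pool.Agent.Lib.LatN.ShortV

/-!
# Types: finitely many types of lattices with bounded bases

* `coef_bound`: if `v` is a family with `‖v i‖ ≤ B`, `B ≥ 1`, and `w = ∑ a_i v_i` then
  `|a_i| sqrt (vsq v) ≤ ‖w‖ B^(card ι)`. Proof: the family `v'` obtained from `v` by replacing `v i`
  with `w` is `v M` with `det M = a_i` (`vsq_comb`; `M` is the identity with column `i` replaced by
  `a`, `Matrix.det_updateCol`...), so `a_i² vsq v = vsq v' ≤ ‖w‖² ∏_{j ≠ i} ‖v j‖²` (`vsq_hadamard`).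

* `exists_types`. Let `T_g = TT sg T0 g`, `R₀ ⊆ R` finite with the same real span as `R`. For `g` of
  determinant one and a basis `b` of `ℤ^ι` with `‖T_g b_i‖ ≤ B` (`B ≥ 1`) the TYPE of `(g, b)` is the
  family of integer matrices `m^c` (`c ∈ R₀`) with `mix c (T_g b_i) = ∑_k m^c_ik T_g b_k` (it exists:
  `mix c (T0 b_i) = T0 y`, expand `y` in the basis `b`, apply `rep sg g` and `mix_rep`), together
  with the integer matrix `K_ij = M β(T_g b_i, T_g b_j) = M β(T0 b_i, T0 b_j)`. All entries are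
  bounded by a constant depending only on `B` (`coef_bound`, `sqrt (vsq (T_g b)) = cov T_g ⊤ = cov T0 ⊤ > 0` by `cov_top_TT` and `cov_eq` for the basis of `⊤`
  given by `b`; and `|β(v,w)| ≤ c ‖v‖ ‖w‖` in finite dimension). So there are finitely many types; for every type
  which occurs choose one pair `(g_j, b^j)`.
  For `(g, b)` of the same type as `(g_j, b^j)` let `H` be the linear automorphism of the space of
  copies with `H (T_{g_j} b^j_i) = T_g b_i` (both families are bases of the space). It maps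
  `T_{g_j} ℤ^ι` onto `T_g ℤ^ι`, commutes with `mix c` for `c ∈ R₀`, hence for all `c` in the real
  span of `R`, i.e. for all block matrices (`ArD.span`), and `β(H v, H w) = β(v, w)` because it holds
  on the basis. Norms: `v = ∑ a_i T_{g_j} b^j_i` with `|a_i| ≤ c ‖v‖` (`coef_bound`), so
  `‖H v‖ ≤ card ι * c * B * ‖v‖`; the same for the inverse (roles exchanged). The bound is uniform.
-/

open scoped Topology

namespace LatN

private theorem det_updateCol_one {ι : Type*} [Fintype ι] [DecidableEq ι] (a : ι → ℝ) (i : ι) :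
    ((1 : Matrix ι ι ℝ).updateCol i a).det = a i := by
  rw [← Matrix.cramer_apply, Matrix.cramer_one]
  rfl

theorem coef_bound {F : Type*} [NormedAddCommGroup F] [InnerProductSpace ℝ F]
    [FiniteDimensional ℝ F] {ι : Type*} [Fintype ι] [DecidableEq ι] (v : ι → F) {B : ℝ}
    (hB : 1 ≤ B) (hv : ∀ i, ‖v i‖ ≤ B) (a : ι → ℝ) (i : ι) :
    |a i| * Real.sqrt (vsq v) ≤ ‖∑ j, a j • v j‖ * B ^ Fintype.card ι := by
  have hB0 : 0 ≤ B := zero_le_one.trans hB
  have h1 : (fun k => ∑ j, ((1 : Matrix ι ι ℝ).updateCol i a) j k • v j) =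
      fun k => if k = i then ∑ j, a j • v j else v k := by
    funext k
    by_cases hk : k = i
    · subst hk
      rw [if_pos rfl]
      refine Finset.sum_congr rfl fun j _ => ?_
      rw [Matrix.updateCol_self]
    · rw [if_neg hk, Finset.sum_eq_single k]
      · rw [Matrix.updateCol_ne hk, Matrix.one_apply_eq, one_smul]
      · intro j _ hj
        rw [Matrix.updateCol_ne hk, Matrix.one_apply_ne hj, zero_smul]
      · intro hh
        exact absurd (Finset.mem_univ _) hh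
  have h2 := vsq_comb v ((1 : Matrix ι ι ℝ).updateCol i a)
  rw [h1, det_updateCol_one] at h2
  have h3 := vsq_hadamard (fun k => if k = i then ∑ j, a j • v j else v k)
  rw [h2] at h3
  have h4 : ∏ k, ‖(if k = i then ∑ j, a j • v j else v k)‖ ^ 2 ≤
      ∏ k : ι, ((if k = i then ‖∑ j, a j • v j‖ ^ 2 else 1) * B ^ 2) := by
    refine Finset.prod_le_prod (fun k _ => by positivity) fun k _ => ?_
    by_cases hk : k = i
    · rw [if_pos hk, if_pos hk]
      have h5 : 1 ≤ B ^ 2 := one_le_pow₀ hB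
      have h6 : 0 ≤ ‖∑ j, a j • v j‖ ^ 2 := by positivity
      nlinarith
    · rw [if_neg hk, if_neg hk, one_mul]
      exact pow_le_pow_left₀ (norm_nonneg _) (hv k) 2
  rw [Finset.prod_mul_distrib, Finset.prod_ite_eq', if_pos (Finset.mem_univ _), Finset.prod_const,
    Finset.card_univ] at h4
  have h5 : (|a i| * Real.sqrt (vsq v)) ^ 2 ≤ (‖∑ j, a j • v j‖ * B ^ Fintype.card ι) ^ 2 := by
    rw [mul_pow, sq_abs, Real.sq_sqrt (vsq_nonneg v), mul_pow, ← pow_mul, mul_comm (Fintype.card ι) 2,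
      pow_mul]
    exact h3.trans h4
  exact (sq_le_sq₀ (by positivity) (by positivity)).1 h5

variable {E : Type*} [NormedAddCommGroup E] [InnerProductSpace ℝ E] [FiniteDimensional ℝ E]
variable {κ : Type*} [Fintype κ] [DecidableEq κ] {ι : Type*} [Fintype ι] [DecidableEq ι]

private theorem finrank_Cop' : Module.finrank ℝ (Cop κ E) = Fintype.card κ * Module.finrank ℝ E := by
  rw [(WithLp.linearEquiv 2 ℝ (κ → E)).finrank_eq, Module.finrank_pi_fintype, Finset.sum_const,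
    Finset.card_univ, smul_eq_mul]

omit [DecidableEq ι] in
private theorem T_sum_int' {F : Type*} [NormedAddCommGroup F] [InnerProductSpace ℝ F]
    (T : (ι → ℤ) →ₗ[ℤ] F) {α : Type*} [Fintype α] (c : α → ℤ)
    (v : α → (ι → ℤ)) : T (∑ i, c i • v i) = ∑ i, ((c i : ℤ) : ℝ) • T (v i) := by
  rw [map_sum]
  refine Finset.sum_congr rfl fun i _ => ?_
  rw [map_smul, Int.cast_smul_eq_zsmul ℝ]

omit [FiniteDimensional ℝ E] [DecidableEq κ] in
private theorem mix_span (R : Set (Matrix κ κ ℝ)) {c : Matrix κ κ ℝ} (hc : c ∈ Submodule.span ℝ R)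
    (H : Cop κ E →ₗ[ℝ] Cop κ E) (hH : ∀ c ∈ R, ∀ v, mix c (H v) = H (mix c v)) :
    ∀ v, mix c (H v) = H (mix c v) := by
  have hz : ∀ v : Cop κ E, mix (0 : Matrix κ κ ℝ) v = 0 := by
    intro v
    ext k
    show ∑ j, (0 : Matrix κ κ ℝ) j k • v j = 0
    simp
  have ha : ∀ (c d : Matrix κ κ ℝ) (v : Cop κ E), mix (c + d) v = mix c v + mix d v := by
    intro c d v
    ext k
    show ∑ j, (c + d) j k • v j = ∑ j, c j k • v j + ∑ j, d j k • v j
    rw [← Finset.sum_add_distrib]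
    refine Finset.sum_congr rfl fun j _ => ?_
    rw [Matrix.add_apply, add_smul]
  have hs : ∀ (a : ℝ) (c : Matrix κ κ ℝ) (v : Cop κ E), mix (a • c) v = a • mix c v := by
    intro a c v
    ext k
    show ∑ j, (a • c) j k • v j = a • ∑ j, c j k • v j
    rw [Finset.smul_sum]
    refine Finset.sum_congr rfl fun j _ => ?_
    rw [Matrix.smul_apply, smul_eq_mul, mul_smul]
  induction hc using Submodule.span_induction with
  | mem c hc => exact hH c hc
  | zero => intro v; rw [hz, hz, map_zero]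
  | add c d _ _ ihc ihd => intro v; rw [ha, ha, map_add, ihc, ihd]
  | smul a c _ ih => intro v; rw [hs, hs, map_smul, ih]

/-- the real basis of the space of copies given by a basis of the lattice -/
private theorem exists_rbasis {sg : κ → Bool} {T0 : (ι → ℤ) →ₗ[ℤ] Cop κ E}
    {R : Subring (Matrix κ κ ℝ)} (h : ArD sg T0 R) (g : GE E) (b : Module.Basis ι ℤ (ι → ℤ)) :
    ∃ e : Module.Basis ι ℝ (Cop κ E), ∀ i, e i = TT sg T0 g (b i) := by
  have h1 : LinearIndependent ℝ (fun i => TT sg T0 g (b i)) := emb_li (emb_TT h.emb g) b.linearIndependent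
  by_cases hι : Nonempty ι
  · refine ⟨basisOfLinearIndependentOfCardEqFinrank h1 (by rw [h.card_eq, finrank_Cop']), fun i => ?_⟩
    rw [coe_basisOfLinearIndependentOfCardEqFinrank]
  · haveI : IsEmpty ι := not_nonempty_iff.1 hι
    have h0 : Module.finrank ℝ (Cop κ E) = 0 := by
      rw [finrank_Cop', ← h.card_eq, Fintype.card_eq_zero]
    haveI : Subsingleton (Cop κ E) := Module.finrank_zero_iff.1 h0
    exact ⟨Module.Basis.empty (Cop κ E), fun i => isEmptyElim i⟩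

private theorem vsq_TT {sg : κ → Bool} {T0 : (ι → ℤ) →ₗ[ℤ] Cop κ E}
    {R : Subring (Matrix κ κ ℝ)} (h : ArD sg T0 R) {g : GE E} (hg : detu g = 1)
    (b : Module.Basis ι ℤ (ι → ℤ)) : Real.sqrt (vsq fun i => TT sg T0 g (b i)) = cov T0 ⊤ := by
  rw [← cov_top_TT h hg, cov_eq (TT sg T0 g) (b.map Submodule.topEquiv.symm)]
  rfl

/-- the norm of the comparison map -/
private theorem norm_cmp_le {F : Type*} [NormedAddCommGroup F] [InnerProductSpace ℝ F]
    [FiniteDimensional ℝ F] (e1 e2 : Module.Basis ι ℝ F) {B V : ℝ} (hB : 1 ≤ B) (hV : 0 < V)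
    (h1 : ∀ i, ‖e1 i‖ ≤ B) (h2 : ∀ i, ‖e2 i‖ ≤ B) (hV1 : Real.sqrt (vsq e1) = V) (v : F) :
    ‖e1.equiv e2 (Equiv.refl ι) v‖ ≤ Fintype.card ι * (B ^ Fintype.card ι / V) * B * ‖v‖ := by
  have hv : v = ∑ i, e1.repr v i • e1 i := (e1.sum_repr v).symm
  have h3 : ∀ i, |e1.repr v i| ≤ ‖v‖ * B ^ Fintype.card ι / V := by
    intro i
    rw [le_div_iff₀ hV, ← hV1]
    have h4 := coef_bound e1 hB h1 (fun i => e1.repr v i) i
    rw [← hv] at h4
    exact h4
  have h5 : e1.equiv e2 (Equiv.refl ι) v = ∑ i, e1.repr v i • e2 i := by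
    conv_lhs => rw [hv]
    rw [map_sum]
    refine Finset.sum_congr rfl fun i _ => ?_
    rw [map_smul, Module.Basis.equiv_apply, Equiv.refl_apply]
  rw [h5]
  calc ‖∑ i, e1.repr v i • e2 i‖ ≤ ∑ i, ‖e1.repr v i • e2 i‖ := norm_sum_le _ _
    _ ≤ ∑ _i : ι, (‖v‖ * B ^ Fintype.card ι / V) * B := by
      refine Finset.sum_le_sum fun i _ => ?_
      rw [norm_smul, Real.norm_eq_abs]
      exact mul_le_mul (h3 i) (h2 i) (norm_nonneg _) ((abs_nonneg _).trans (h3 i))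
    _ = Fintype.card ι * (B ^ Fintype.card ι / V) * B * ‖v‖ := by
      rw [Finset.sum_const, Finset.card_univ, nsmul_eq_mul]
      ring

theorem exists_types {sg : κ → Bool} {T0 : (ι → ℤ) →ₗ[ℤ] Cop κ E}
    {R : Subring (Matrix κ κ ℝ)} (h : ArD sg T0 R)
    (β : Cop κ E →ₗ[ℝ] Cop κ E →ₗ[ℝ] ℝ)
    (hβ : ∀ (g : GE E) (v w : Cop κ E), β (rep sg g v) (rep sg g w) = β v w)
    (hint : ∃ M : ℤ, M ≠ 0 ∧ ∀ x y, ∃ k : ℤ, (M : ℝ) * β (T0 x) (T0 y) = k) (B : ℝ) :
    ∃ (n : ℕ) (gs : Fin n → GE E) (B' : ℝ), (∀ j, detu (gs j) = 1) ∧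
      ∀ g : GE E, detu g = 1 →
        (∃ b : Module.Basis ι ℤ (ι → ℤ), ∀ i, ‖TT sg T0 g (b i)‖ ≤ B) →
        ∃ (j : Fin n) (H : GE (Cop κ E)),
          ‖(H : Cop κ E →L[ℝ] Cop κ E)‖ ≤ B' ∧
          ‖((H⁻¹ : GE (Cop κ E)) : Cop κ E →L[ℝ] Cop κ E)‖ ≤ B' ∧
          (∀ c : Matrix κ κ ℝ, (∀ j k, sg j ≠ sg k → c j k = 0) → ∀ v : Cop κ E,
            mix c ((H : Cop κ E →L[ℝ] Cop κ E) v) = (H : Cop κ E →L[ℝ] Cop κ E) (mix c v)) ∧
          (∀ v w : Cop κ E, β ((H : Cop κ E →L[ℝ] Cop κ E) v)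
            ((H : Cop κ E →L[ℝ] Cop κ E) w) = β v w) ∧
          (∀ x, ∃ y, (H : Cop κ E →L[ℝ] Cop κ E) (TT sg T0 (gs j) x) = TT sg T0 g y) ∧
          (∀ y, ∃ x, (H : Cop κ E →L[ℝ] Cop κ E) (TT sg T0 (gs j) x) = TT sg T0 g y) := by
  classical
  obtain ⟨M, hM0, hM⟩ := hint
  obtain ⟨B1, hB1, hBB⟩ : ∃ B1 : ℝ, 1 ≤ B1 ∧ B ≤ B1 := ⟨max B 1, le_max_right _ _, le_max_left _ _⟩
  have hB0 : 0 ≤ B1 := zero_le_one.trans hB1
  have hV : 0 < cov T0 ⊤ := cov_pos h.emb ⊤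
  obtain ⟨R0, hR0, hspan⟩ := (Submodule.fg_span_iff_fg_span_finset_subset
    (R := ℝ) (R : Set (Matrix κ κ ℝ))).1 (IsNoetherian.noetherian _)
  -- bounds for `mix c` and `β`
  obtain ⟨cR, hcR0, hcR⟩ : ∃ cR : ℝ, 0 ≤ cR ∧ ∀ c : R0, ∀ v : Cop κ E, ‖mix (c : Matrix κ κ ℝ) v‖ ≤ cR * ‖v‖ := by
    obtain ⟨m, hm⟩ := (Set.finite_range fun c : R0 =>
      ‖LinearMap.toContinuousLinearMap (mix (c : Matrix κ κ ℝ) : Cop κ E →ₗ[ℝ] Cop κ E)‖).bddAbove
    refine ⟨max m 0, le_max_right _ _, fun c v => ?_⟩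
    refine (ContinuousLinearMap.le_opNorm (LinearMap.toContinuousLinearMap
      (mix (c : Matrix κ κ ℝ) : Cop κ E →ₗ[ℝ] Cop κ E)) v).trans ?_
    exact mul_le_mul_of_nonneg_right ((hm ⟨c, rfl⟩).trans (le_max_left _ _)) (norm_nonneg _)
  obtain ⟨cβ, hcβ0, hcβ⟩ : ∃ cβ : ℝ, 0 ≤ cβ ∧ ∀ v w : Cop κ E, |β v w| ≤ cβ * ‖v‖ * ‖w‖ := by
    let e := stdOrthonormalBasis ℝ (Cop κ E)
    have he : ∀ i (v : Cop κ E), |inner ℝ (e i) v| ≤ ‖v‖ := by
      intro i v
      refine (abs_real_inner_le_norm _ _).trans (le_of_eq ?_)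
      rw [e.norm_eq_one, one_mul]
    refine ⟨∑ i, ∑ j, |β (e i) (e j)|,
      Finset.sum_nonneg fun i _ => Finset.sum_nonneg fun j _ => abs_nonneg _, fun v w => ?_⟩
    have h0 : β v = ∑ i, inner ℝ (e i) v • β (e i) := by
      conv_lhs => rw [← e.sum_repr' v]
      rw [map_sum]
      refine Finset.sum_congr rfl fun i _ => ?_
      rw [map_smul]
    have h1 : β v w = ∑ i, ∑ j, inner ℝ (e i) v * (inner ℝ (e j) w * β (e i) (e j)) := by
      rw [h0, LinearMap.sum_apply]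
      refine Finset.sum_congr rfl fun i _ => ?_
      rw [LinearMap.smul_apply, smul_eq_mul, ← Finset.mul_sum]
      congr 1
      conv_lhs => rw [← e.sum_repr' w]
      rw [map_sum]
      refine Finset.sum_congr rfl fun j _ => ?_
      rw [map_smul, smul_eq_mul]
    rw [h1, Finset.sum_mul, Finset.sum_mul]
    refine (Finset.abs_sum_le_sum_abs _ _).trans (Finset.sum_le_sum fun i _ => ?_)
    rw [Finset.sum_mul, Finset.sum_mul]
    refine (Finset.abs_sum_le_sum_abs _ _).trans (Finset.sum_le_sum fun j _ => ?_)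
    rw [abs_mul, abs_mul]
    calc |inner ℝ (e i) v| * (|inner ℝ (e j) w| * |β (e i) (e j)|)
        ≤ ‖v‖ * (‖w‖ * |β (e i) (e j)|) :=
          mul_le_mul (he i v) (mul_le_mul_of_nonneg_right (he j w) (abs_nonneg _)) (by positivity)
            (norm_nonneg _)
      _ = |β (e i) (e j)| * ‖v‖ * ‖w‖ := by ring
  -- types
  let J := (R0 × ι × ι) ⊕ (ι × ι)
  let Ty : GE E → Module.Basis ι ℤ (ι → ℤ) → (J → ℤ) → Prop := fun g b t =>
    detu g = 1 ∧ (∀ i, ‖TT sg T0 g (b i)‖ ≤ B1) ∧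
      (∀ (c : R0) (i : ι), mix (c : Matrix κ κ ℝ) (TT sg T0 g (b i)) =
        ∑ k, ((t (Sum.inl (c, i, k)) : ℤ) : ℝ) • TT sg T0 g (b k)) ∧
      ∀ i j, (M : ℝ) * β (TT sg T0 g (b i)) (TT sg T0 g (b j)) = ((t (Sum.inr (i, j)) : ℤ) : ℝ)
  have hTy : ∀ g b, detu g = 1 → (∀ i, ‖TT sg T0 g (b i)‖ ≤ B1) → ∃ t, Ty g b t := by
    intro g b hg hb
    have h1 : ∀ (c : R0) (i : ι), ∃ m : ι → ℤ, mix (c : Matrix κ κ ℝ) (TT sg T0 g (b i)) =
        ∑ k, ((m k : ℤ) : ℝ) • TT sg T0 g (b k) := by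
      intro c i
      have hcR' : (c : Matrix κ κ ℝ) ∈ R := hR0 c.2
      obtain ⟨y, hy⟩ := h.stab c hcR' (b i)
      refine ⟨fun k => b.repr y k, ?_⟩
      rw [← T_sum_int', b.sum_repr, TT_apply, mix_rep sg (h.block c hcR'), hy, TT_apply]
    choose m hm using h1
    have h2 : ∀ i j, ∃ k : ℤ, (M : ℝ) * β (TT sg T0 g (b i)) (TT sg T0 g (b j)) = k := by
      intro i j
      obtain ⟨k, hk⟩ := hM (b i) (b j)
      exact ⟨k, by rw [TT_apply, TT_apply, hβ, hk]⟩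
    choose K hK using h2
    exact ⟨Sum.elim (fun z => m z.1 z.2.1 z.2.2) (fun z => K z.1 z.2), hg, hb, fun c i => hm c i,
      fun i j => hK i j⟩
  obtain ⟨KK, hKK⟩ : ∃ KK : ℤ, ∀ g b t, Ty g b t → ∀ z, |t z| ≤ KK := by
    refine ⟨⌈max (cR * B1 * B1 ^ Fintype.card ι / cov T0 ⊤) (|(M : ℝ)| * (cβ * B1 * B1))⌉, ?_⟩
    rintro g b t ⟨hg, hb, ht1, ht2⟩ z
    have hz : |((t z : ℤ) : ℝ)| ≤
        max (cR * B1 * B1 ^ Fintype.card ι / cov T0 ⊤) (|(M : ℝ)| * (cβ * B1 * B1)) := by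
      rcases z with ⟨c, i, k⟩ | ⟨i, j⟩
      · refine le_max_of_le_left ?_
        rw [le_div_iff₀ hV, ← vsq_TT h hg b]
        refine (coef_bound _ hB1 hb (fun k => ((t (Sum.inl (c, i, k)) : ℤ) : ℝ)) k).trans ?_
        rw [← ht1 c i]
        refine mul_le_mul_of_nonneg_right ((hcR c _).trans ?_) (by positivity)
        exact mul_le_mul_of_nonneg_left (hb i) hcR0
      · refine le_max_of_le_right ?_
        rw [← ht2 i j, abs_mul]
        refine mul_le_mul_of_nonneg_left ((hcβ _ _).trans ?_) (abs_nonneg _)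
        exact mul_le_mul (mul_le_mul_of_nonneg_left (hb i) hcβ0) (hb j) (norm_nonneg _) (by positivity)
    have h1 := hz.trans (Int.le_ceil _)
    rw [← Int.cast_abs] at h1
    exact_mod_cast h1
  haveI : Finite {t : J → ℤ // ∀ z, |t z| ≤ KK} := by
    have h1 : (Set.Icc (fun _ => -KK : J → ℤ) (fun _ => KK)).Finite := Set.finite_Icc _ _
    have h2 : {t : J → ℤ | ∀ z, |t z| ≤ KK}.Finite :=
      h1.subset fun t ht => ⟨fun z => (abs_le.1 (ht z)).1, fun z => (abs_le.1 (ht z)).2⟩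
    exact h2.to_subtype
  obtain ⟨n, ⟨en⟩⟩ := Finite.exists_equiv_fin {t : J → ℤ // ∀ z, |t z| ≤ KK}
  have hrepr : ∀ j : Fin n, ∃ p : GE E × Module.Basis ι ℤ (ι → ℤ), detu p.1 = 1 ∧
      ((∃ g b, Ty g b (en.symm j).1) → Ty p.1 p.2 (en.symm j).1) := by
    intro j
    by_cases hj : ∃ g b, Ty g b (en.symm j).1
    · obtain ⟨g, b, hgb⟩ := hj
      exact ⟨(g, b), hgb.1, fun _ => hgb⟩
    · exact ⟨(1, Pi.basisFun ℤ ι), detu_one, fun hh => absurd hh hj⟩
  choose p hp1 hp2 using hrepr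
  refine ⟨n, fun j => (p j).1, Fintype.card ι * (B1 ^ Fintype.card ι / cov T0 ⊤) * B1, hp1, ?_⟩
  rintro g hg ⟨b, hb⟩
  have hb' : ∀ i, ‖TT sg T0 g (b i)‖ ≤ B1 := fun i => (hb i).trans hBB
  obtain ⟨t, ht⟩ := hTy g b hg hb'
  obtain ⟨j, hj⟩ : ∃ j, (en.symm j).1 = t := ⟨en ⟨t, hKK g b t ht⟩, by rw [en.symm_apply_apply]⟩
  have hpj := hp2 j ⟨g, b, by rw [hj]; exact ht⟩
  rw [hj] at hpj
  obtain ⟨g1, b1, hgb1⟩ : ∃ g1 b1, p j = (g1, b1) := ⟨_, _, rfl⟩
  rw [hgb1] at hpj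
  obtain ⟨hg1, hbd1, hmix1, hβ1⟩ := hpj
  obtain ⟨_, hbd2, hmix2, hβ2⟩ := ht
  simp only at hg1 hbd1 hmix1 hβ1
  obtain ⟨e1, he1⟩ := exists_rbasis h g1 b1
  obtain ⟨e2, he2⟩ := exists_rbasis h g b
  have hn1 : ∀ i, ‖e1 i‖ ≤ B1 := fun i => by rw [he1]; exact hbd1 i
  have hn2 : ∀ i, ‖e2 i‖ ≤ B1 := fun i => by rw [he2]; exact hbd2 i
  have hV1 : Real.sqrt (vsq e1) = cov T0 ⊤ := by
    rw [← vsq_TT h hg1 b1]
    congr 2
    funext i
    exact he1 i
  have hV2 : Real.sqrt (vsq e2) = cov T0 ⊤ := by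
    rw [← vsq_TT h hg b]
    congr 2
    funext i
    exact he2 i
  let L : Cop κ E ≃ₗ[ℝ] Cop κ E := e1.equiv e2 (Equiv.refl ι)
  have hL : ∀ i, L (e1 i) = e2 i := fun i => by
    show e1.equiv e2 (Equiv.refl ι) (e1 i) = e2 i
    rw [Module.Basis.equiv_apply, Equiv.refl_apply]
  let H : GE (Cop κ E) :=
    { val := LinearMap.toContinuousLinearMap (L : Cop κ E →ₗ[ℝ] Cop κ E)
      inv := LinearMap.toContinuousLinearMap (L.symm : Cop κ E →ₗ[ℝ] Cop κ E)
      val_inv := by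
        apply ContinuousLinearMap.ext
        intro v
        show L (L.symm v) = v
        exact L.apply_symm_apply v
      inv_val := by
        apply ContinuousLinearMap.ext
        intro v
        show L.symm (L v) = v
        exact L.symm_apply_apply v }
  have hH : ∀ v, (H : Cop κ E →L[ℝ] Cop κ E) v = L v := fun v => rfl
  have hH' : ∀ v, ((H⁻¹ : GE (Cop κ E)) : Cop κ E →L[ℝ] Cop κ E) v = L.symm v := fun v => rfl
  have hB' : 0 ≤ Fintype.card ι * (B1 ^ Fintype.card ι / cov T0 ⊤) * B1 := by positivity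
  have hσ : ∀ x, (H : Cop κ E →L[ℝ] Cop κ E) (TT sg T0 g1 x) =
      TT sg T0 g (b1.equiv b (Equiv.refl ι) x) := by
    intro x
    rw [hH]
    conv_lhs => rw [← b1.sum_repr x]
    conv_rhs => rw [← b1.sum_repr x]
    rw [T_sum_int', map_sum, map_sum, map_sum]
    refine Finset.sum_congr rfl fun i _ => ?_
    rw [map_smul, map_smul, map_smul, Module.Basis.equiv_apply, Equiv.refl_apply, ← he1, hL, he2,
      Int.cast_smul_eq_zsmul ℝ]
  refine ⟨j, H, ?_, ?_, ?_, ?_, ?_, ?_⟩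
  · exact ContinuousLinearMap.opNorm_le_bound _ hB' fun v => norm_cmp_le e1 e2 hB1 hV hn1 hn2 hV1 v
  · refine ContinuousLinearMap.opNorm_le_bound _ hB' fun v => ?_
    have h1 : L.symm = e2.equiv e1 (Equiv.refl ι) := by
      show (e1.equiv e2 (Equiv.refl ι)).symm = _
      rw [Module.Basis.equiv_symm]
      rfl
    rw [hH', h1]
    exact norm_cmp_le e2 e1 hB1 hV hn2 hn1 hV2 v
  · intro c hc v
    have h1 := h.span c hc
    rw [hspan] at h1
    refine mix_span (R0 : Set (Matrix κ κ ℝ)) h1 (L : Cop κ E →ₗ[ℝ] Cop κ E) ?_ v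
    intro c hc v
    have h2 : (mix c) ∘ₗ (L : Cop κ E →ₗ[ℝ] Cop κ E) = (L : Cop κ E →ₗ[ℝ] Cop κ E) ∘ₗ mix c := by
      refine e1.ext fun i => ?_
      show mix c (L (e1 i)) = L (mix c (e1 i))
      rw [hL, he1, he2, hmix1 ⟨c, hc⟩ i, hmix2 ⟨c, hc⟩ i, map_sum]
      refine Finset.sum_congr rfl fun k _ => ?_
      rw [map_smul, ← he1, hL, he2]
    exact LinearMap.congr_fun h2 v
  · have h2 : β.compl₁₂ (L : Cop κ E →ₗ[ℝ] Cop κ E) (L : Cop κ E →ₗ[ℝ] Cop κ E) = β := by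
      refine e1.ext fun i => e1.ext fun j => ?_
      show β (L (e1 i)) (L (e1 j)) = β (e1 i) (e1 j)
      rw [hL, hL, he1, he1, he2, he2]
      have hM0' : (M : ℝ) ≠ 0 := Int.cast_ne_zero.2 hM0
      apply mul_left_cancel₀ hM0'
      rw [hβ1, hβ2]
    intro v w
    exact LinearMap.congr_fun (LinearMap.congr_fun h2 v) w
  · intro x
    simp only [hgb1]
    exact ⟨_, hσ x⟩
  · intro y
    simp only [hgb1]
    refine ⟨(b1.equiv b (Equiv.refl ι)).symm y, ?_⟩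
    rw [hσ, LinearEquiv.apply_symm_apply]

end LatN
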