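import Pool.Agent.Lib.LatN.ShortV
import Pool.Agent.Lib.LatN.Types
import Pool.Agent.Lib.LatN.ToGam

/-!
# ThickG: the thick part is at bounded distance from the lattice

Hypotheses on the pairing `β` and on `LatPres`: `hrep` (an operator of the space of copies which
commutes with all block mixings and preserves `β` comes from `E`), `hD` (finitely many determinants
in every bounded range).

Proof of `thick_of_types`. Let `C` be given, `B` from `bdd_basis`, types `gs j`, `B'` from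
`exists_types` for `B`. For `g` with `detu g = 1`, `Th g ≤ C` there are `j` and `H`, and by `hrep`
`H = rep sg A`. Let `γ̃ = g⁻¹ * A * gs j ∈ LatPres sg T0`: `rep (γ̃) (T0 x) = rep g⁻¹ (H (T_{gs j} x)) =
rep g⁻¹ (T_g y) = T0 y`, and similarly for the inverse. `A` and `A⁻¹` are bounded by `B'` (`rep sg A`
restricted to one copy is `A` or the adjoint of `A⁻¹`; `κ` is nonempty; take the maximum of both
norms: precisely `‖A‖ ≤ max ‖rep A‖ ‖rep A⁻¹‖`), so `|detu A|, |detu A|⁻¹ ≤ B''`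
(`|det A| ≤ c ‖A‖^n`: e.g. continuity of the determinant on the compact ball of radius `B'`), and
`detu γ̃ = detu A`. By `hD` the pair `(j, detu γ̃)` takes finitely many values; for every value `p`
which occurs fix one `g_p` and its `γ̃_p`, `A_p`. For `g` with the value `p`:
`γ = γ̃ * γ̃_p⁻¹ ∈ Gam0` (determinant one), and
`g γ = (A gs_j)(γ̃_p⁻¹) = A gs_j gs_j⁻¹ A_p⁻¹ g_p = A A_p⁻¹ g_p` is bounded together with its
inverse, uniformly (finitely many `p`). So every such `g` is at bounded distance from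
`γ⁻¹ ∈ Gam0`. Finite index: `Gam0 = ⋃ c_i Γ` (left cosets, finitely many `c_i`,
`Subgroup.relIndex`): `γ⁻¹ = c_i γ₁`, `g γ₁⁻¹ = (g γ) c_i` is bounded, and so is its inverse.

`noHorn_ar`: `noHorn_of` with `hΓ` from `Th_gam` (`g = 1`) and `hfin` from `fin_gam`.
-/

open scoped Topology

namespace LatN

variable {E : Type*} [NormedAddCommGroup E] [InnerProductSpace ℝ E] [FiniteDimensional ℝ E]
variable {κ : Type*} [Fintype κ] [DecidableEq κ] {ι : Type*} [Fintype ι] [DecidableEq ι]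

/-- the vector with one entry -/
private noncomputable def sng (k : κ) : E →ₗ[ℝ] Cop κ E :=
  ((WithLp.linearEquiv 2 ℝ (κ → E)).symm : (κ → E) →ₗ[ℝ] Cop κ E) ∘ₗ LinearMap.single ℝ (fun _ => E) k

omit [FiniteDimensional ℝ E] in
private theorem sng_apply (k : κ) (w : E) (i : κ) :
    sng k w i = if i = k then w else 0 := by
  show (Pi.single k w : κ → E) i = _
  by_cases h : i = k
  · subst h
    rw [Pi.single_eq_same, if_pos rfl]
  · rw [Pi.single_eq_of_ne h, if_neg h]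

omit [FiniteDimensional ℝ E] in
private theorem norm_sng (k : κ) (w : E) : ‖sng k w‖ = ‖w‖ := by
  have h1 : ‖sng k w‖ ^ 2 = ‖w‖ ^ 2 := by
    rw [PiLp.norm_sq_eq_of_L2, Finset.sum_eq_single k]
    · rw [sng_apply, if_pos rfl]
    · intro j _ hj
      rw [sng_apply, if_neg hj, norm_zero]
      norm_num
    · intro hh
      exact absurd (Finset.mem_univ _) hh
  exact (pow_left_inj₀ (norm_nonneg _) (norm_nonneg _) two_ne_zero).1 h1

private theorem blk_sng (sg : κ → Bool) (A B : E →L[ℝ] E) (k : κ) (w : E) :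
    blk sg A B (sng k w) = sng k (if sg k then A w else B w) := by
  ext i
  rw [blk_apply, sng_apply, sng_apply]
  by_cases h : i = k
  · subst h
    rw [if_pos rfl, if_pos rfl]
  · rw [if_neg h, if_neg h, map_zero, map_zero, ite_self]

private theorem norm_le_rep [Nonempty κ] (sg : κ → Bool) (A : GE E) :
    ‖(A : E →L[ℝ] E)‖ ≤ max ‖rep sg A‖ ‖rep sg A⁻¹‖ := by
  obtain ⟨k⟩ := ‹Nonempty κ›
  by_cases hk : sg k = true
  · refine le_max_of_le_left (ContinuousLinearMap.opNorm_le_bound _ (norm_nonneg (rep sg A)) fun w => ?_)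
    have h1 : rep sg A (sng k w) = sng k ((A : E →L[ℝ] E) w) := by
      unfold rep
      rw [blk_sng, if_pos hk]
    rw [← norm_sng k ((A : E →L[ℝ] E) w), ← h1, ← norm_sng k w]
    exact ContinuousLinearMap.le_opNorm _ _
  · refine le_max_of_le_right ?_
    rw [← LinearIsometryEquiv.norm_map (ContinuousLinearMap.adjoint (𝕜 := ℝ) (E := E) (F := E)) (A : E →L[ℝ] E)]
    refine ContinuousLinearMap.opNorm_le_bound _ (norm_nonneg (rep sg A⁻¹)) fun w => ?_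
    have h1 : rep sg A⁻¹ (sng k w) = sng k (ContinuousLinearMap.adjoint (A : E →L[ℝ] E) w) := by
      unfold rep
      rw [blk_sng, if_neg hk, inv_inv]
    rw [← norm_sng k (ContinuousLinearMap.adjoint (A : E →L[ℝ] E) w), ← h1, ← norm_sng k w]
    exact ContinuousLinearMap.le_opNorm _ _

private theorem det_bdd (B : ℝ) : ∃ D : ℝ, ∀ A : GE E, ‖(A : E →L[ℝ] E)‖ ≤ B → |detu A| ≤ D := by
  haveI : ProperSpace (E →L[ℝ] E) := FiniteDimensional.proper ℝ _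
  obtain ⟨D, hD⟩ := (isCompact_closedBall (0 : E →L[ℝ] E) B).exists_bound_of_continuousOn
    (f := fun A : E →L[ℝ] E => ContinuousLinearMap.det A) ContinuousLinearMap.continuous_det.continuousOn
  refine ⟨D, fun A hA => ?_⟩
  exact hD (A : E →L[ℝ] E) (mem_closedBall_zero_iff.2 hA)

omit [FiniteDimensional ℝ E] in
private theorem norm_three' (a b c : GE E) {R S T : ℝ} (ha : ‖(a : E →L[ℝ] E)‖ ≤ R)
    (hb : ‖(b : E →L[ℝ] E)‖ ≤ S) (hc : ‖(c : E →L[ℝ] E)‖ ≤ T) :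
    ‖((a * b * c : GE E) : E →L[ℝ] E)‖ ≤ R * S * T := by
  have hR : 0 ≤ R := (norm_nonneg _).trans ha
  have hS : 0 ≤ S := (norm_nonneg _).trans hb
  rw [Units.val_mul, Units.val_mul]
  refine (norm_mul_le _ _).trans (mul_le_mul ?_ hc (norm_nonneg _) (mul_nonneg hR hS))
  exact (norm_mul_le _ _).trans (mul_le_mul ha hb (norm_nonneg _) hR)

/-- finitely many elements are bounded -/
private theorem fin_bdd {α : Type*} [Finite α] (f : α → GE E) :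
    ∃ M : ℝ, ∀ a, ‖((f a : GE E) : E →L[ℝ] E)‖ ≤ M ∧ ‖(((f a)⁻¹ : GE E) : E →L[ℝ] E)‖ ≤ M := by
  obtain ⟨M1, h1⟩ := (Set.finite_range fun a => ‖((f a : GE E) : E →L[ℝ] E)‖).bddAbove
  obtain ⟨M2, h2⟩ := (Set.finite_range fun a => ‖(((f a)⁻¹ : GE E) : E →L[ℝ] E)‖).bddAbove
  exact ⟨max M1 M2, fun a => ⟨(h1 ⟨a, rfl⟩).trans (le_max_left _ _), (h2 ⟨a, rfl⟩).trans (le_max_right _ _)⟩⟩

theorem thick_of_types [Nonempty κ] {sg : κ → Bool} {T0 : (ι → ℤ) →ₗ[ℤ] Cop κ E}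
    {R : Subring (Matrix κ κ ℝ)} (h : ArD sg T0 R)
    (β : Cop κ E →ₗ[ℝ] Cop κ E →ₗ[ℝ] ℝ)
    (hβ : ∀ (g : GE E) (v w : Cop κ E), β (rep sg g v) (rep sg g w) = β v w)
    (hint : ∃ M : ℤ, M ≠ 0 ∧ ∀ x y, ∃ k : ℤ, (M : ℝ) * β (T0 x) (T0 y) = k)
    (hrep : ∀ H : GE (Cop κ E),
      (∀ c : Matrix κ κ ℝ, (∀ j k, sg j ≠ sg k → c j k = 0) → ∀ v : Cop κ E,
        mix c ((H : Cop κ E →L[ℝ] Cop κ E) v) = (H : Cop κ E →L[ℝ] Cop κ E) (mix c v)) →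
      (∀ v w : Cop κ E, β ((H : Cop κ E →L[ℝ] Cop κ E) v)
        ((H : Cop κ E →L[ℝ] Cop κ E) w) = β v w) →
      ∃ A : GE E, (H : Cop κ E →L[ℝ] Cop κ E) = rep sg A)
    (hD : ∀ B : ℝ, {d : ℝ | ∃ γ ∈ LatPres sg T0, detu γ = d ∧ |d| ≤ B ∧ |d⁻¹| ≤ B}.Finite)
    {C0 : ℝ} (hC : 0 ≤ C0) {Γ : Subgroup (GE E)} (hΓ : Γ ≤ Gam0 sg T0)
    (hfi : Γ.relIndex (Gam0 sg T0) ≠ 0) : ThickCoc C0 (RU T0 R) sg T0 Γ := by
  classical
  intro C
  obtain ⟨B, hB⟩ := bdd_basis h hC C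
  obtain ⟨n, gs, B', hgs, htyp⟩ := exists_types h β hβ hint B
  obtain ⟨D, hDet⟩ := det_bdd (E := E) B'
  -- the basic property
  let P : GE E → Fin n → GE E → Prop := fun g j A =>
    detu g = 1 ∧ ‖(A : E →L[ℝ] E)‖ ≤ B' ∧ ‖((A⁻¹ : GE E) : E →L[ℝ] E)‖ ≤ B' ∧
      g⁻¹ * A * gs j ∈ LatPres sg T0
  have hP : ∀ g : GE E, detu g = 1 → Th C0 (RU T0 R) sg T0 g ≤ C → ∃ j A, P g j A := by
    intro g hg hgC
    obtain ⟨j, H, hH1, hH2, hH3, hH4, hH5, hH6⟩ := htyp g hg (hB g hg hgC)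
    obtain ⟨A, hA⟩ := hrep H hH3 hH4
    have hHA : H = repU sg A := Units.ext hA
    have e1 : ‖rep sg A‖ ≤ B' := by rw [← hA]; exact hH1
    have e2 : ‖rep sg A⁻¹‖ ≤ B' := by
      have h2 := hH2
      rw [hHA, repU_inv, repU_val] at h2
      exact h2
    refine ⟨j, A, hg, (norm_le_rep sg A).trans (max_le e1 e2), ?_, ?_, ?_⟩
    · refine (norm_le_rep sg A⁻¹).trans (max_le e2 ?_)
      rw [inv_inv]
      exact e1
    · intro x
      obtain ⟨y, hy⟩ := hH5 x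
      refine ⟨y, ?_⟩
      rw [TT_apply, TT_apply, hA] at hy
      rw [rep_mul, rep_mul, mul_apply_eq_comp, mul_apply_eq_comp, hy, ← mul_apply_eq_comp, ← rep_mul,
        inv_mul_cancel, rep_one]
      rfl
    · intro y
      obtain ⟨x, hx⟩ := hH6 y
      refine ⟨x, ?_⟩
      rw [TT_apply, TT_apply, hA] at hx
      have e3 : (g⁻¹ * A * gs j)⁻¹ = (gs j)⁻¹ * A⁻¹ * g := by group
      rw [e3, rep_mul, rep_mul, mul_apply_eq_comp, mul_apply_eq_comp, ← hx, ← mul_apply_eq_comp (rep sg A⁻¹),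
        ← rep_mul, inv_mul_cancel, rep_one]
      show rep sg (gs j)⁻¹ (rep sg (gs j) (T0 x)) = T0 x
      rw [← mul_apply_eq_comp, ← rep_mul, inv_mul_cancel, rep_one]
      rfl
  have hdet : ∀ g j A, P g j A → detu (g⁻¹ * A * gs j) = detu A := by
    intro g j A hg
    rw [detu_mul, detu_mul, detu_inv, hg.1, hgs j, inv_one, one_mul, mul_one]
  have hmemD : ∀ g j A, P g j A →
      detu A ∈ {d : ℝ | ∃ γ ∈ LatPres sg T0, detu γ = d ∧ |d| ≤ D ∧ |d⁻¹| ≤ D} := by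
    intro g j A hg
    refine ⟨_, hg.2.2.2, hdet g j A hg, hDet A hg.2.1, ?_⟩
    rw [← detu_inv]
    exact hDet A⁻¹ hg.2.2.1
  haveI : Finite {d : ℝ | ∃ γ ∈ LatPres sg T0, detu γ = d ∧ |d| ≤ D ∧ |d⁻¹| ≤ D} := (hD D).to_subtype
  -- representatives
  have hrepr : ∀ p : Fin n × {d : ℝ | ∃ γ ∈ LatPres sg T0, detu γ = d ∧ |d| ≤ D ∧ |d⁻¹| ≤ D},
      ∃ q : GE E × GE E, (∃ g A, P g p.1 A ∧ detu A = p.2) → (P q.1 p.1 q.2 ∧ detu q.2 = p.2) := by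
    intro p
    by_cases hp : ∃ g A, P g p.1 A ∧ detu A = p.2
    · obtain ⟨g, A, hgA⟩ := hp
      exact ⟨(g, A), fun _ => hgA⟩
    · exact ⟨(1, 1), fun hh => absurd hh hp⟩
  choose q hq using hrepr
  obtain ⟨M, hM⟩ := fin_bdd (fun p => (q p).1)
  -- cosets
  have hfin : Finite ((Gam0 sg T0) ⧸ Γ.subgroupOf (Gam0 sg T0)) := by
    rw [← Subgroup.index_ne_zero_iff_finite]
    exact hfi
  obtain ⟨M', hM'⟩ := fin_bdd
    (fun c : (Gam0 sg T0) ⧸ Γ.subgroupOf (Gam0 sg T0) => ((Quotient.out c : Gam0 sg T0) : GE E))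
  refine ⟨B' * B' * M * M', ?_⟩
  intro g hg hgC
  obtain ⟨j, A, hgA⟩ := hP g hg hgC
  obtain ⟨p, hp1, hp2⟩ : ∃ p : Fin n × {d : ℝ | ∃ γ ∈ LatPres sg T0, detu γ = d ∧ |d| ≤ D ∧ |d⁻¹| ≤ D},
      p.1 = j ∧ (p.2 : ℝ) = detu A := ⟨(j, ⟨detu A, hmemD g j A hgA⟩), rfl, rfl⟩
  obtain ⟨hPq, hdq⟩ := hq p ⟨g, A, by rw [hp1]; exact hgA, hp2.symm⟩
  obtain ⟨gp, Ap, hgp⟩ : ∃ gp Ap, (q p) = (gp, Ap) := ⟨_, _, rfl⟩
  have hMp := hM p
  rw [hgp] at hPq hdq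
  simp only [hgp] at hMp
  rw [hp1] at hPq
  have hdq' : detu Ap = detu A := by rw [← hp2]; exact hdq
  -- the element of `Gam0`
  have hγ' : ((g⁻¹ * A * gs j) * (gp⁻¹ * Ap * gs j)⁻¹)⁻¹ ∈ Gam0 sg T0 := by
    refine Subgroup.inv_mem _ ⟨Subgroup.mul_mem _ hgA.2.2.2 (Subgroup.inv_mem _ hPq.2.2.2), ?_⟩
    rw [detu_mul, detu_inv, hdet g j A hgA, hdet gp j Ap hPq, hdq']
    have h1 : detu A ≠ 0 := by
      intro h0
      have h2 := detu_mul A A⁻¹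
      rw [mul_inv_cancel, detu_one, h0, zero_mul] at h2
      exact one_ne_zero h2
    exact mul_inv_cancel₀ h1
  obtain ⟨c, hc⟩ : ∃ c : (Gam0 sg T0) ⧸ Γ.subgroupOf (Gam0 sg T0), c =
      QuotientGroup.mk (⟨_, hγ'⟩ : Gam0 sg T0) := ⟨_, rfl⟩
  have hcm : (Quotient.out c : Gam0 sg T0)⁻¹ * ⟨_, hγ'⟩ ∈ Γ.subgroupOf (Gam0 sg T0) := by
    rw [← QuotientGroup.eq]
    rw [← hc]
    exact Quotient.out_eq c
  have hcm' : ((Quotient.out c : Gam0 sg T0) : GE E)⁻¹ *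
      ((g⁻¹ * A * gs j) * (gp⁻¹ * Ap * gs j)⁻¹)⁻¹ ∈ Γ := hcm
  refine ⟨_, hcm', ?_, ?_⟩
  · have e1 : g * (((Quotient.out c : Gam0 sg T0) : GE E)⁻¹ *
        ((g⁻¹ * A * gs j) * (gp⁻¹ * Ap * gs j)⁻¹)⁻¹)⁻¹ =
        (A * Ap⁻¹ * gp) * ((Quotient.out c : Gam0 sg T0) : GE E) := by group
    rw [e1, Units.val_mul]
    have e2 := norm_three' A Ap⁻¹ gp hgA.2.1 hPq.2.2.1 hMp.1
    exact (norm_mul_le _ _).trans (mul_le_mul e2 (hM' c).1 (norm_nonneg _) ((norm_nonneg _).trans e2))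
  · have e1 : (((Quotient.out c : Gam0 sg T0) : GE E)⁻¹ *
        ((g⁻¹ * A * gs j) * (gp⁻¹ * Ap * gs j)⁻¹)⁻¹) * g⁻¹ =
        ((Quotient.out c : Gam0 sg T0) : GE E)⁻¹ * (gp⁻¹ * Ap * A⁻¹) := by group
    rw [e1, Units.val_mul]
    have e2 := norm_three' gp⁻¹ Ap A⁻¹ hMp.2 hPq.2.1 hgA.2.2.1
    have e3 : B' * B' * M * M' = M' * (M * B' * B') := by ring
    rw [e3]
    exact (norm_mul_le _ _).trans (mul_le_mul (hM' c).2 e2 (norm_nonneg _) ((norm_nonneg _).trans (hM' c).2))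

theorem noHorn_ar [Nonempty κ] {sg : κ → Bool} {T0 : (ι → ℤ) →ₗ[ℤ] Cop κ E}
    {R : Subring (Matrix κ κ ℝ)} (h : ArD sg T0 R) (hn : 2 ≤ Module.finrank ℝ E)
    {C0 : ℝ} (hC : 0 < C0) (hX : XEX C0 (RU T0 R) sg T0) {Γ : Subgroup (GE E)}
    (hΓ : Γ ≤ Gam0 sg T0) (hth : ThickCoc C0 (RU T0 R) sg T0 Γ) : NoHorn Γ := by
  refine noHorn_of h.emb hC (adm_RU h) hn hX hth
    ⟨Th C0 (RU T0 R) sg T0 1, fun γ hγ => ⟨(hΓ hγ).2, ?_⟩⟩ ?_
  · have h1 := Th_gam h C0 (hΓ hγ).1 1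
    rw [one_mul] at h1
    exact h1.le
  · intro B
    refine (fin_gam h B).subset ?_
    rintro γ ⟨h1, h2⟩
    exact ⟨(hΓ h1).1, h2⟩

end LatN
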