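import Pool.Agent.Lib.MP_2392aa_gt.C.Ifc
import Pool.Agent.Lib.LatN.Defs

/-!
# ToIfc: from `NoHorn` to the interface of the analytic core
-/

open scoped Topology

namespace LatN

variable {E : Type*} [NormedAddCommGroup E] [InnerProductSpace ℝ E] [FiniteDimensional ℝ E]

/-- linear automorphisms as invertible operators -/
noncomputable def autU (E : Type*) [NormedAddCommGroup E] [InnerProductSpace ℝ E] :
    (E ≃L[ℝ] E) →* GE E :=
  (ContinuousLinearEquiv.unitsEquiv ℝ E).symm.toMonoidHom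

theorem autU_apply (A : E ≃L[ℝ] E) (x : E) : ((autU E A : GE E) : E →L[ℝ] E) x = A x := rfl

theorem contr_conn [Nontrivial E] {Γ : Type*} [Group Γ] (ρ : Γ →* (E ≃L[ℝ] E))
    (hinj : Function.Injective ρ) (h : NoHorn ((autU E).comp ρ).range) :
    LatLin.Contr ρ ∧
      ∃ S : Set Γ, S.Finite ∧ Subgroup.closure S = ⊤ ∧ LatLin.Conn ρ S := by
  classical
  have hinjU : Function.Injective ((autU E).comp ρ) := by
    intro a b hab
    exact hinj ((ContinuousLinearEquiv.unitsEquiv ℝ E).symm.injective hab)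
  obtain ⟨h1, S, C, hS, h2⟩ := h
  have hne : ∀ x : E, x ≠ 0 → ∀ γ : Γ, ‖ρ γ x‖ = ‖(((autU E).comp ρ γ : GE E) : E →L[ℝ] E) x‖ :=
    fun x _ γ => rfl
  set S' : Set Γ := {γ | (autU E).comp ρ γ ∈ S} with hS'
  have hfin : S'.Finite := by
    refine Set.Finite.preimage hinjU.injOn S.finite_toSet
  -- chains lift
  have key : ∀ x : E, x ≠ 0 → ∀ t > (0 : ℝ), ∀ g g' : Γ, ‖ρ g x‖ ≤ t → ‖ρ g' x‖ ≤ t →
      Relation.ReflTransGen (LatLin.Step ρ S' x (C * t)) g g' := by
    intro x hx t ht g g' hg hg'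
    have h3 := h2 x hx t ht ((autU E).comp ρ g) ⟨g, rfl⟩ ((autU E).comp ρ g') ⟨g', rfl⟩ hg hg'
    have h4 : ∀ c : GE E, Relation.ReflTransGen (fun a b : GE E =>
        ‖(a : E →L[ℝ] E) x‖ ≤ C * t ∧ ‖(b : E →L[ℝ] E) x‖ ≤ C * t ∧ ∃ s ∈ S, b = s * a)
        ((autU E).comp ρ g) c →
        ∃ γ : Γ, (autU E).comp ρ γ = c ∧
          Relation.ReflTransGen (LatLin.Step ρ S' x (C * t)) g γ := by
      intro c hc
      induction hc with
      | refl => exact ⟨g, rfl, Relation.ReflTransGen.refl⟩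
      | tail _ hbc ih =>
        obtain ⟨γ, hγ, hch⟩ := ih
        obtain ⟨h5, h6, s, hs, h7⟩ := hbc
        obtain ⟨σ, hσ⟩ := hS s hs
        refine ⟨σ * γ, ?_, hch.tail ⟨?_, ?_, σ, ?_, rfl⟩⟩
        · rw [map_mul, hσ, hγ, h7]
        · rw [← hγ] at h5
          exact h5
        · rw [h7, ← hσ, ← hγ, ← map_mul] at h6
          exact h6
        · rw [hS', Set.mem_ofPred_eq, hσ]
          exact hs
    obtain ⟨γ, hγ, hch⟩ := h4 _ h3
    rw [← hinjU hγ]
    exact hch
  obtain ⟨x0, hx0⟩ := exists_ne (0 : E)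
  have hgen : ∀ g g' : Γ, ∃ C' : ℝ, Relation.ReflTransGen (LatLin.Step ρ S' x0 C') g g' := by
    intro g g'
    exact ⟨_, key x0 hx0 (max (max ‖ρ g x0‖ ‖ρ g' x0‖) 1) (by positivity) g g'
      ((le_max_left _ _).trans (le_max_left _ _)) ((le_max_right _ _).trans (le_max_left _ _))⟩
  refine ⟨?_, S', hfin, ?_, max C 1, by positivity, ?_⟩
  · intro x t ht
    by_cases hx : x = 0
    · refine ⟨1, ?_⟩
      rw [hx, map_zero, norm_zero]
      exact ht.le
    · obtain ⟨_, ⟨γ, rfl⟩, hγ⟩ := h1 x hx t ht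
      exact ⟨γ, hγ⟩
  · rw [eq_top_iff]
    intro g _
    obtain ⟨C', hch⟩ := hgen 1 g
    induction hch with
    | refl => exact Subgroup.one_mem _
    | tail _ hbc ih =>
      obtain ⟨-, -, s, hs, rfl⟩ := hbc
      exact Subgroup.mul_mem _ (Subgroup.subset_closure hs) (ih trivial)
  · intro x t g g' ht hg hg'
    by_cases hx : x = 0
    · obtain ⟨C', hch⟩ := hgen g g'
      refine Relation.ReflTransGen.mono (fun a b hab => ?_) _ _ hch
      obtain ⟨-, -, h7⟩ := hab
      refine ⟨?_, ?_, h7⟩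
      · rw [hx, map_zero, norm_zero]
        positivity
      · rw [hx, map_zero, norm_zero]
        positivity
    · refine Relation.ReflTransGen.mono (fun a b hab => ?_) _ _ (key x hx t ht g g' hg hg')
      obtain ⟨h5, h6, h7⟩ := hab
      have h8 : C * t ≤ max C 1 * t := mul_le_mul_of_nonneg_right (le_max_left _ _) ht.le
      exact ⟨h5.trans h8, h6.trans h8, h7⟩

end LatN
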